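import Pool.Agent.Lib.MP_63f67f_co.Defs

section

/-!
# Codegree equals the number of extending vertices

Proof.  `v ↦ insert v S` is a bijection from `nb H S` onto the edges containing `S` (all edges have `r + 1` elements,
`S` has `r`).
-/

set_option autoImplicit false

open Finset

namespace CT

theorem codeg_eq {V : Type*} [Fintype V] [DecidableEq V] {r : ℕ} {H : Finset (Finset V)}
    (hH : Unif (r + 1) H) {S : Finset V} (hS : S.card = r) : codeg H S = (nb H S).card := by
  unfold codeg
  symm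
  apply Finset.card_bij (fun v _ => insert v S)
  · intro v hv
    simp only [nb, mem_filter, mem_univ, true_and] at hv
    simp only [mem_filter]
    exact ⟨hv.2, subset_insert v S⟩
  · intro v hv w hw h
    simp only [nb, mem_filter, mem_univ, true_and] at hv hw
    have h1 : v ∈ insert w S := by
      rw [← h]; exact mem_insert_self v S
    rcases mem_insert.mp h1 with h2 | h2
    · exact h2
    · exact absurd h2 hv.1
  · intro e he
    simp only [mem_filter] at he
    have h1 : (e \ S).card = 1 := by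
      rw [card_sdiff_of_subset he.2, hH e he.1, hS]; omega
    obtain ⟨v, hv⟩ := card_eq_one.mp h1
    have hve : v ∈ e \ S := by rw [hv]; exact mem_singleton_self v
    have hins : insert v S = e := by
      have : e = (e \ S) ∪ S := (sdiff_union_of_subset he.2).symm
      rw [this, hv]; rfl
    refine ⟨v, ?_, hins⟩
    simp only [nb, mem_filter, mem_univ, true_and]
    exact ⟨(mem_sdiff.mp hve).2, by rw [hins]; exact he.1⟩

theorem mem_nb {V : Type*} [Fintype V] [DecidableEq V] {H : Finset (Finset V)} {S : Finset V} {v : V} :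
    v ∈ nb H S ↔ v ∉ S ∧ insert v S ∈ H := by
  simp [nb]

end CT
end

section

/-!
# Pulling back the class `InS`

Proof.  Take `A_F := univ.filter (fun v => φ v ∈ A)` for a hom `φ : F → H`; `(insert b (e.image ψ)).image φ = insert (φ b) (e.image (φ ∘ ψ))`.
-/

set_option autoImplicit false

open Finset

namespace CT

theorem InS_of_hom {U V W : Type*} [Fintype U] [DecidableEq U] [DecidableEq V] [DecidableEq W]
    {G : Finset (Finset W)} {F : Finset (Finset U)} {H : Finset (Finset V)} (h : HomTo F H) (hH : InS G H) :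
    InS G F := by
  obtain ⟨φ, hφ⟩ := h
  obtain ⟨A, h1, h2, h3⟩ := hH
  refine ⟨univ.filter (fun v => φ v ∈ A), ?_, ?_, ?_⟩
  · intro e he hsub
    apply h1 _ (hφ e he)
    intro x hx
    obtain ⟨y, hy, rfl⟩ := Finset.mem_image.mp hx
    exact (Finset.mem_filter.mp (hsub hy)).2
  · intro e he
    obtain ⟨v, hv, hvA⟩ := h2 _ (hφ e he)
    obtain ⟨y, hy, rfl⟩ := Finset.mem_image.mp hv
    exact ⟨y, hy, Finset.mem_filter.mpr ⟨Finset.mem_univ _, hvA⟩⟩
  · intro b hb ψ hψ
    have hb' : φ b ∉ A := fun hh => hb (Finset.mem_filter.mpr ⟨Finset.mem_univ _, hh⟩)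
    obtain ⟨e, he, hne⟩ := h3 (φ b) hb' (φ ∘ ψ) (fun w => (Finset.mem_filter.mp (hψ w)).2)
    refine ⟨e, he, fun hin => hne ?_⟩
    have := hφ _ hin
    rwa [Finset.image_insert, Finset.image_image] at this

theorem HomTo.trans {U V W : Type*} [DecidableEq U] [DecidableEq V] [DecidableEq W]
    {E : Finset (Finset U)} {F : Finset (Finset V)} {H : Finset (Finset W)} (h : HomTo E F) (h' : HomTo F H) :
    HomTo E H := by
  obtain ⟨φ, hφ⟩ := h
  obtain ⟨χ, hχ⟩ := h'
  refine ⟨χ ∘ φ, fun e he => ?_⟩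
  have := hχ _ (hφ e he)
  rwa [Finset.image_image] at this

theorem Contains.homTo {U V : Type*} [DecidableEq U] [DecidableEq V]
    {F : Finset (Finset U)} {H : Finset (Finset V)} (h : Contains F H) : HomTo F H := by
  obtain ⟨φ, _, h⟩ := h
  exact ⟨φ, h⟩

end CT
end

section

/-!
# Exponential moment bound

Proof.  Let `u := 1 - δ` with a small `δ ∈ (0,1/2]`.  For `X f := card {i | f i ∈ B}`:
`∑ f, u ^ X f = ∏ i, ∑ ω, u^[ω ∈ B] = (card Ω - δ card B)^N ≤ (1 - δ q)^N card Ω ^ N` (`Finset.prod_univ_sum` / `Fintype.piFinset`,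
`Finset.prod_pow_boole`..).  For bad `f`, `u ^ X f ≥ u ^ ((q-ε) N)` (real power, `0 < u < 1`).  So the number of bad `f` is at
most `((1 - δ q)/u^(q-ε))^N card Ω ^ N`, and `log ((1-δq) / (1-δ)^(q-ε)) ≤ -δ q + (q-ε)(δ+δ^2) < 0` for `δ < ε`
(`q - ε ≤ 1`; `- log (1-δ) ≤ δ + δ^2` for `δ ≤ 1/2`).
-/

set_option autoImplicit false

open Finset

namespace CT

theorem few_bad (q ε : ℝ) (hε : 0 < ε) (hq : ε ≤ q) (hq1 : q ≤ 1) : ∃ ϑ : ℝ, 0 < ϑ ∧ ϑ < 1 ∧
    ∀ (Ω : Type) [Fintype Ω] [DecidableEq Ω] (B : Finset Ω), q * (Fintype.card Ω : ℝ) ≤ (B.card : ℝ) → ∀ N : ℕ,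
      ((univ.filter (fun f : Fin N → Ω => ((univ.filter (fun i => f i ∈ B)).card : ℝ) ≤ (q - ε) * N)).card : ℝ)
        ≤ ϑ ^ N * (Fintype.card Ω : ℝ) ^ N := by
  have hε1 : ε ≤ 1 := hq.trans hq1
  set δ : ℝ := ε / 2 with hδ
  have hδ0 : 0 < δ := by rw [hδ]; linarith
  have hδ1 : δ ≤ 1 / 2 := by rw [hδ]; linarith
  have hq0 : 0 < q := lt_of_lt_of_le hε hq
  set u : ℝ := 1 - δ with hu
  have hu0 : 0 < u := by rw [hu]; linarith
  have hu1 : u ≤ 1 := by rw [hu]; linarith
  have hs0 : 0 ≤ q - ε := by linarith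
  have hup : 0 < u ^ (q - ε) := Real.rpow_pos_of_pos hu0 _
  have hδq : δ * q ≤ 1 / 2 := by nlinarith
  have hnum : 0 < 1 - δ * q := by linarith
  refine ⟨(1 - δ * q) / u ^ (q - ε), div_pos hnum hup, ?_, ?_⟩
  · rw [div_lt_one hup, Real.rpow_def_of_pos hu0]
    have h1 : 1 - δ * q ≤ Real.exp (-(δ * q)) := by
      have := Real.add_one_le_exp (-(δ * q))
      linarith
    refine lt_of_le_of_lt h1 (Real.exp_lt_exp.2 ?_)
    have h2 : 1 - u⁻¹ ≤ Real.log u := Real.one_sub_inv_le_log_of_pos hu0
    have h3 : (1 - u⁻¹) * (q - ε) ≤ Real.log u * (q - ε) := mul_le_mul_of_nonneg_right h2 hs0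
    refine lt_of_lt_of_le ?_ h3
    have h4 : 1 - u⁻¹ = -(δ / u) := by
      rw [hu]
      have : (1 - δ) ≠ 0 := by linarith
      field_simp
      ring
    rw [h4]
    have h5 : δ / u * (q - ε) < δ * q := by
      rw [div_mul_eq_mul_div, div_lt_iff₀ hu0]
      have h6 : q * δ < ε := by
        rw [hδ]
        nlinarith
      have h7 : q - ε < q * u := by rw [hu]; nlinarith
      nlinarith
    linarith
  · intro Ω _ _ B hB N
    have hsum : ∑ ω : Ω, (if ω ∈ B then u else 1) = (Fintype.card Ω : ℝ) - δ * (B.card : ℝ) := by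
      have e1 : ∀ ω : Ω, (if ω ∈ B then u else (1 : ℝ)) = 1 - (if ω ∈ B then δ else 0) := by
        intro ω
        by_cases h : ω ∈ B
        · rw [if_pos h, if_pos h]
        · rw [if_neg h, if_neg h, sub_zero]
      simp_rw [e1]
      rw [sum_sub_distrib, sum_ite_mem, univ_inter, sum_const, sum_const, card_univ,
        nsmul_eq_mul, nsmul_eq_mul]
      ring
    have htot : ∑ f : Fin N → Ω, u ^ (univ.filter (fun i => f i ∈ B)).card
        ≤ ((1 - δ * q) * (Fintype.card Ω : ℝ)) ^ N := by
      have e2 : ∀ f : Fin N → Ω, u ^ (univ.filter (fun i => f i ∈ B)).card =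
          ∏ i, (if f i ∈ B then u else 1) := by
        intro f
        rw [prod_ite, prod_const, prod_const_one, mul_one]
      simp_rw [e2]
      rw [← Fintype.sum_pow (fun ω : Ω => if ω ∈ B then u else (1 : ℝ)) N]
      apply pow_le_pow_left₀
      · exact sum_nonneg fun ω _ => by split_ifs <;> linarith
      · rw [hsum]
        nlinarith
    have hbad : ((univ.filter (fun f : Fin N → Ω =>
        ((univ.filter (fun i => f i ∈ B)).card : ℝ) ≤ (q - ε) * N)).card : ℝ) *
        (u ^ (q - ε)) ^ N ≤ ∑ f : Fin N → Ω, u ^ (univ.filter (fun i => f i ∈ B)).card := by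
      rw [← nsmul_eq_mul, ← sum_const]
      refine le_trans (sum_le_sum (f := fun _ => (u ^ (q - ε)) ^ N)
        (g := fun f : Fin N → Ω => u ^ (univ.filter (fun i => f i ∈ B)).card) ?_)
        (sum_le_sum_of_subset_of_nonneg (filter_subset _ _)
          (fun f _ _ => pow_nonneg hu0.le _))
      intro f hf
      have hf2 := (mem_filter.1 hf).2
      show (u ^ (q - ε)) ^ N ≤ u ^ (univ.filter (fun i => f i ∈ B)).card
      rw [← Real.rpow_natCast u, ← Real.rpow_mul_natCast hu0.le]
      exact Real.rpow_le_rpow_of_exponent_ge hu0 hu1 hf2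
    have hpN : 0 < (u ^ (q - ε)) ^ N := pow_pos hup N
    rw [div_pow, div_mul_eq_mul_div, le_div_iff₀ hpN, ← mul_pow]
    exact hbad.trans htot

end CT
end

section

/-!
# Enumerations of an edge

Proof.  `e.equivFin` / `Finset.equivFinOfCardEq` composed with permutations of `Fin r` moving the right indices to `0` and `1`.
-/

set_option autoImplicit false

open Finset

namespace CT

theorem enum_edge {V : Type*} [DecidableEq V] {r : ℕ} {e : Finset V} (he : e.card = r) :
    ∃ a : Fin r → V, Function.Injective a ∧ univ.image a = e := by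
  refine ⟨fun i => ((Finset.equivFinOfCardEq he).symm i : V), ?_, ?_⟩
  · intro i j h
    exact (Finset.equivFinOfCardEq he).symm.injective (Subtype.ext h)
  · ext x
    simp only [mem_image, mem_univ, true_and]
    constructor
    · rintro ⟨i, rfl⟩
      exact ((Finset.equivFinOfCardEq he).symm i).2
    · intro hx
      refine ⟨Finset.equivFinOfCardEq he ⟨x, hx⟩, ?_⟩
      rw [Equiv.symm_apply_apply]

theorem enum_pair {V : Type*} [DecidableEq V] {r : ℕ} (hr : 2 ≤ r) {e : Finset V} (he : e.card = r) {u v : V}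
    (hu : u ∈ e) (hv : v ∈ e) (huv : u ≠ v) :
    ∃ a : Fin r → V, Function.Injective a ∧ univ.image a = e ∧ a ⟨0, by omega⟩ = u ∧ a ⟨1, by omega⟩ = v := by
  obtain ⟨a, ha, hae⟩ := enum_edge he
  have key : ∀ (b : Fin r → V) (σ : Equiv.Perm (Fin r)), univ.image b = e →
      univ.image (b ∘ σ) = e := by
    intro b σ hb
    rw [← hb]
    ext x
    simp only [mem_image, mem_univ, true_and, Function.comp]
    constructor
    · rintro ⟨i, hi⟩; exact ⟨σ i, hi⟩
    · rintro ⟨i, hi⟩; exact ⟨σ.symm i, by rw [Equiv.apply_symm_apply]; exact hi⟩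
  have hu' := hu
  rw [← hae, mem_image] at hu'
  obtain ⟨i, -, hi⟩ := hu'
  set a1 : Fin r → V := a ∘ (Equiv.swap (⟨0, by omega⟩ : Fin r) i) with ha1
  have ha1i : Function.Injective a1 := ha.comp (Equiv.injective _)
  have ha1e : univ.image a1 = e := key a _ hae
  have ha10 : a1 ⟨0, by omega⟩ = u := by
    rw [ha1, Function.comp, Equiv.swap_apply_left, hi]
  have hv' := hv
  rw [← ha1e, mem_image] at hv'
  obtain ⟨j, -, hj⟩ := hv'
  refine ⟨a1 ∘ (Equiv.swap (⟨1, by omega⟩ : Fin r) j), ha1i.comp (Equiv.injective _),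
    key a1 _ ha1e, ?_, ?_⟩
  · have h1 : (⟨0, by omega⟩ : Fin r) ≠ ⟨1, by omega⟩ := by
      intro h; simp at h
    have h2 : (⟨0, by omega⟩ : Fin r) ≠ j := by
      rintro rfl; exact huv (ha10.symm.trans hj)
    rw [Function.comp, Equiv.swap_apply_of_ne_of_ne h1 h2, ha10]
  · rw [Function.comp, Equiv.swap_apply_left, hj]

end CT
end

section

/-!
# Partitions with prescribed proportions

Proof.  `∑ v, ⌊x v * n⌋ ≤ n`, so there are disjoint subsets of `Fin n` of sizes `⌊x v n⌋₊`; colour the rest arbitrarily (`V` is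
nonempty because `∑ x = 1`).  For instance induction over `V`, or use a surjection `Fin n → Σ v, Fin ..`.
-/

set_option autoImplicit false

open Finset

namespace CT

theorem exists_colouring {V : Type} [Fintype V] [DecidableEq V] {x : V → ℝ} (hx : x ∈ stdSimplex ℝ V) (n : ℕ) :
    ∃ c : Fin n → V, ∀ v, x v * n - 1 ≤ ((univ.filter (fun i => c i = v)).card : ℝ) := by
  classical
  obtain ⟨hx0, hx1⟩ := hx
  set f : V → ℕ := fun v => ⌊x v * n⌋₊ with hf
  have hfle : ∀ v, (f v : ℝ) ≤ x v * n := fun v =>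
    Nat.floor_le (mul_nonneg (hx0 v) (Nat.cast_nonneg n))
  have hsum : ∑ v, f v ≤ n := by
    have h1 : ((∑ v, f v : ℕ) : ℝ) ≤ n := by
      push_cast
      calc ∑ v, (f v : ℝ) ≤ ∑ v, x v * n := sum_le_sum fun v _ => hfle v
        _ = (∑ v, x v) * n := by rw [sum_mul]
        _ = n := by rw [hx1, one_mul]
    exact_mod_cast h1
  have hcard : Fintype.card (Σ v : V, Fin (f v)) ≤ Fintype.card (Fin n) := by
    rw [Fintype.card_sigma, Fintype.card_fin]
    simpa using hsum
  obtain ⟨e⟩ := Function.Embedding.nonempty_of_card_le hcard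
  have hne : Nonempty V := by
    by_contra h
    rw [not_nonempty_iff] at h
    simp at hx1
  obtain ⟨v0⟩ := hne
  refine ⟨fun i => if h : ∃ p, e p = i then h.choose.1 else v0, fun v => ?_⟩
  have hle : f v ≤ (univ.filter (fun i : Fin n =>
      (if h : ∃ p, e p = i then h.choose.1 else v0) = v)).card := by
    have h1 : (univ : Finset (Fin (f v))).card ≤ (univ.filter (fun i : Fin n =>
        (if h : ∃ p, e p = i then h.choose.1 else v0) = v)).card := by
      refine card_le_card_of_injOn (fun k => e ⟨v, k⟩) ?_ ?_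
      · intro k _
        have hex : ∃ p, e p = e ⟨v, k⟩ := ⟨_, rfl⟩
        have hch : hex.choose = ⟨v, k⟩ := e.injective hex.choose_spec
        simp only [coe_filter, mem_univ, true_and, Set.mem_ofPred_eq]
        rw [dif_pos hex, hch]
      · intro k _ l _ hkl
        have := e.injective hkl
        simpa using this
    simpa using h1
  have h2 : x v * n - 1 < (f v : ℝ) := by
    have := Nat.sub_one_lt_floor (x v * n)
    simpa [hf] using this
  have h3 : (f v : ℝ) ≤ ((univ.filter (fun i : Fin n =>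
      (if h : ∃ p, e p = i then h.choose.1 else v0) = v)).card : ℝ) := by exact_mod_cast hle
  exact h2.le.trans h3

end CT
end

section

/-!
# Complement of a family in the complete `r`-graph

Proof.  `Ms ⊆ powersetCard r univ`, `Finset.sum_sdiff`.  For `dlag` of the complete hypergraph: `e ↦ e.erase v` is a bijection from the `r`-sets
containing `v` onto the `(r-1)`-subsets of `univ.erase v` (`1 ≤ r`).
-/

set_option autoImplicit false

open Finset

namespace CT

section
variable {V : Type*} [Fintype V] [DecidableEq V] {R : Type*} [CommRing R] {r : ℕ} {Ms : Finset (Finset V)}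

private theorem unif_subset (h : Unif r Ms) : Ms ⊆ powersetCard r univ := by
  intro e he
  rw [Finset.mem_powersetCard]
  exact ⟨Finset.subset_univ _, h e he⟩

theorem lag_sdiff (h : Unif r Ms) (x : V → R) :
    lag (powersetCard r univ \ Ms) x = esy univ r x - lag Ms x := by
  unfold lag esy
  rw [Finset.sum_sdiff_eq_sub (unif_subset h)]

theorem dlag_sdiff (hr : 1 ≤ r) (h : Unif r Ms) (x : V → R) (v : V) :
    dlag (powersetCard r univ \ Ms) x v = esy (univ.erase v) (r - 1) x - dlag Ms x v := by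
  have hsub : Ms.filter (fun e => v ∈ e) ⊆ (powersetCard r univ).filter (fun e => v ∈ e) :=
    Finset.filter_subset_filter _ (unif_subset h)
  have hset : (powersetCard r univ \ Ms).filter (fun e => v ∈ e) =
      (powersetCard r univ).filter (fun e => v ∈ e) \ Ms.filter (fun e => v ∈ e) := by
    ext e
    simp only [Finset.mem_filter, Finset.mem_sdiff]
    tauto
  unfold dlag esy
  rw [hset, Finset.sum_sdiff_eq_sub hsub]
  congr 1
  refine Finset.sum_bij' (fun e _ => e.erase v) (fun e _ => insert v e) ?_ ?_ ?_ ?_ ?_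
  · intro e he
    rw [Finset.mem_filter, Finset.mem_powersetCard] at he
    rw [Finset.mem_powersetCard]
    refine ⟨?_, ?_⟩
    · exact Finset.erase_subset_erase v (Finset.subset_univ e)
    · rw [Finset.card_erase_of_mem he.2, he.1.2]
  · intro e he
    rw [Finset.mem_powersetCard] at he
    have hv : v ∉ e := fun hv => by
      have := he.1 hv
      simp at this
    rw [Finset.mem_filter, Finset.mem_powersetCard]
    refine ⟨⟨Finset.subset_univ _, ?_⟩, Finset.mem_insert_self v e⟩
    rw [Finset.card_insert_of_notMem hv, he.2]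
    omega
  · intro e he
    rw [Finset.mem_filter] at he
    exact Finset.insert_erase he.2
  · intro e he
    rw [Finset.mem_powersetCard] at he
    have hv : v ∉ e := fun hv => by
      have := he.1 hv
      simp at this
    exact Finset.erase_insert hv
  · intro e he
    rfl

theorem d2lag_sdiff (h : Unif r Ms) (x w : V → R) :
    d2lag (powersetCard r univ \ Ms) x w = d2lag (powersetCard r univ) x w - d2lag Ms x w := by
  unfold d2lag
  rw [Finset.sum_sdiff_eq_sub (unif_subset h)]
end

end CT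
end

section

/-!
# Edges of products and covered pairs

Proof.  `edge_prod2`, `edge_piH`: direct.  The covering statements: `enum_pair` in every factor with the given pair at the
indices `0, 1`.
-/

set_option autoImplicit false

open Finset

namespace CT

section
variable {V : Type*} [DecidableEq V] [Fintype V] {W : Type*} [DecidableEq W] [Fintype W]
  {ι : Type*} [Fintype ι] [DecidableEq ι] {r : ℕ}

theorem edge_prod2 {E : Finset (Finset V)} {F : Finset (Finset W)} {a : Fin r → V} {b : Fin r → W}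
    (ha : Function.Injective a) (haE : univ.image a ∈ E) (hbF : univ.image b ∈ F) :
    univ.image (fun i => (a i, b i)) ∈ prod2 r E F := by
  have hinj : Function.Injective (fun i => (a i, b i)) := by
    intro i j hij
    exact ha (congrArg Prod.fst hij)
  have h1 : (univ.image (fun i => (a i, b i))).image Prod.fst = univ.image a := by
    rw [image_image]; rfl
  have h2 : (univ.image (fun i => (a i, b i))).image Prod.snd = univ.image b := by
    rw [image_image]; rfl
  refine mem_filter.2 ⟨mem_univ _, ?_, ?_, ?_⟩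
  · rw [card_image_of_injective _ hinj, card_univ, Fintype.card_fin]
  · rw [h1]; exact haE
  · rw [h2]; exact hbF

theorem edge_piH [Nonempty ι] {E : ι → Finset (Finset V)} {a : ι → Fin r → V}
    (ha : ∀ i, Function.Injective (a i)) (haE : ∀ i, univ.image (a i) ∈ E i) :
    univ.image (fun (j : Fin r) (i : ι) => a i j) ∈ piH r E := by
  have hinj : Function.Injective (fun (j : Fin r) (i : ι) => a i j) := by
    intro j k hjk
    obtain ⟨i⟩ := (inferInstance : Nonempty ι)
    exact ha i (congrFun hjk i)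
  refine mem_filter.2 ⟨mem_univ _, ?_, fun i => ?_⟩
  · rw [card_image_of_injective _ hinj, card_univ, Fintype.card_fin]
  · have h1 : (univ.image (fun (j : Fin r) (i : ι) => a i j)).image (fun q => q i) =
        univ.image (a i) := by
      rw [image_image]; rfl
    rw [h1]; exact haE i

theorem cov_prod2 (hr : 2 ≤ r) {E : Finset (Finset V)} {F : Finset (Finset W)} (hE : Unif r E) (hF : Unif r F)
    {x x' : V} {y y' : W} (hx : x ≠ x') (hy : y ≠ y') (h1 : ∃ e ∈ E, x ∈ e ∧ x' ∈ e)
    (h2 : ∃ f ∈ F, y ∈ f ∧ y' ∈ f) : ∃ S ∈ prod2 r E F, (x, y) ∈ S ∧ (x', y') ∈ S := by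
  obtain ⟨e, he, hxe, hxe'⟩ := h1
  obtain ⟨f, hf, hyf, hyf'⟩ := h2
  obtain ⟨a, ha, hae, ha0, ha1⟩ := enum_pair hr (hE e he) hxe hxe' hx
  obtain ⟨b, -, hbf, hb0, hb1⟩ := enum_pair hr (hF f hf) hyf hyf' hy
  refine ⟨_, edge_prod2 (a := a) (b := b) ha (by rw [hae]; exact he) (by rw [hbf]; exact hf),
    mem_image.2 ⟨⟨0, by omega⟩, mem_univ _, ?_⟩, mem_image.2 ⟨⟨1, by omega⟩, mem_univ _, ?_⟩⟩
  · rw [ha0, hb0]
  · rw [ha1, hb1]

theorem cov_piH [Nonempty ι] (hr : 2 ≤ r) {E : ι → Finset (Finset V)} (hE : ∀ i, Unif r (E i)) {q q' : ι → V}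
    (hq : ∀ i, q i ≠ q' i) (h : ∀ i, ∃ e ∈ E i, q i ∈ e ∧ q' i ∈ e) : ∃ S ∈ piH r E, q ∈ S ∧ q' ∈ S := by
  choose e he hqe hqe' using h
  have key : ∀ i, ∃ a : Fin r → V, Function.Injective a ∧ univ.image a = e i ∧
      a ⟨0, by omega⟩ = q i ∧ a ⟨1, by omega⟩ = q' i := fun i =>
    enum_pair hr (hE i (e i) (he i)) (hqe i) (hqe' i) (hq i)
  choose a ha hae ha0 ha1 using key
  refine ⟨_, edge_piH (a := a) ha (fun i => by rw [hae i]; exact he i),
    mem_image.2 ⟨⟨0, by omega⟩, mem_univ _, ?_⟩, mem_image.2 ⟨⟨1, by omega⟩, mem_univ _, ?_⟩⟩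
  · funext i; exact ha0 i
  · funext i; exact ha1 i

theorem prod2_unif (E : Finset (Finset V)) (F : Finset (Finset W)) : Unif r (prod2 r E F) := by
  intro e he
  exact (mem_filter.1 he).2.1

theorem piH_unif (E : ι → Finset (Finset V)) : Unif r (piH r E) := by
  intro e he
  exact (mem_filter.1 he).2.1

theorem prod2_fst (E : Finset (Finset V)) (F : Finset (Finset W)) : HomTo (prod2 r E F) E :=
  ⟨Prod.fst, fun _ he => (mem_filter.1 he).2.2.1⟩

theorem prod2_snd (E : Finset (Finset V)) (F : Finset (Finset W)) : HomTo (prod2 r E F) F :=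
  ⟨Prod.snd, fun _ he => (mem_filter.1 he).2.2.2⟩

theorem piH_proj (E : ι → Finset (Finset V)) (i : ι) : HomTo (piH r E) (E i) :=
  ⟨fun q => q i, fun _ he => (mem_filter.1 he).2.2 i⟩
end

end CT
end
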