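import Pool.Agent.Lib.MP_63f67f_co.Defs

/-!
# Definitions for the p-adic part (papers 388, IV)
-/

set_option autoImplicit false

open Finset

namespace CT

section

variable {Ω : Type*} [Field Ω]

/-- `β = 1/(r-1)` -/
def bt (Ω : Type*) [Field Ω] (r : ℕ) : Ω := ((r : Ω) - 1)⁻¹

/-- `c_i` as a function of `z_{i-1}` -/
def cci (p r : ℕ) (z : ℕ → Ω) (i : ℕ) : Ω :=
  if i ≤ 1 then (p : Ω) * bt Ω r ^ (r - 1) else bt Ω r ^ (r - 2) * ((p : Ω) * bt Ω r - z (i - 1))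

/-- `χ_i` -/
def chi (p r : ℕ) (z : ℕ → Ω) (i : ℕ) : Ω := z i ^ r / (r : Ω) + (bt Ω r - z i) * cci p r z i

end

/-- the exponent of `κ_i` -/
def kap (n i : ℕ) : ℕ := if i < n then Kx n i else k0 n

/-- the approximate equations IV.3 -/
def Approx {Ω : Type*} [NormedField Ω] (r n p : ℕ) (z : ℕ → Ω) : Prop :=
  ∀ i, 1 ≤ i → i ≤ n → ‖z i ^ (r - 1) - cci p r z i‖ ≤ ((p : ℝ)⁻¹) ^ kap n i

/-- the arithmetic hypotheses on the parameters -/
structure Par (r n p M : ℕ) : Prop where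
  hr : 3 ≤ r
  hn : 1 ≤ n
  hp : r < p
  prime : p.Prime
  hM : 1 ≤ M
  hcard : r ≤ Fintype.card (PV n (Nx r n p) M)
  hdvd : p ^ (2 * s0 r n) ∣ Fintype.card (PV n (Nx r n p) M) - (r - 1)

end CT
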