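import Pool.Agent.Lib.MP_63f67f_co.Defs
import Pool.Agent.Lib.MP_63f67f_co.B02
import Pool.Agent.Lib.MP_63f67f_co.DDefs

section

/-!
# Monotonicity of NN and its iterates

Direct from the definitions, induction on `j`.
-/

set_option autoImplicit false

open Finset

namespace CT

section
variable {V : Type*} [Fintype V] [DecidableEq V] {r : ℕ} {H : Finset (Finset V)}

theorem mem_NN {X : Finset V} {v : V} :
    v ∈ NN r H X ↔ ∃ T : Finset V, T ⊆ X ∧ T.card = r ∧ v ∉ T ∧ insert v T ∈ H := by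
  simp only [NN, nb, Finset.mem_biUnion, Finset.mem_powersetCard, Finset.mem_filter,
    Finset.mem_univ, true_and]
  constructor
  · rintro ⟨T, ⟨h1, h2⟩, h3, h4⟩
    exact ⟨T, h1, h2, h3, h4⟩
  · rintro ⟨T, h1, h2, h3, h4⟩
    exact ⟨T, ⟨h1, h2⟩, h3, h4⟩

theorem NN_mono {X Y : Finset V} (h : X ⊆ Y) : NN r H X ⊆ NN r H Y := by
  intro v hv
  rw [mem_NN] at hv ⊢
  obtain ⟨T, h1, h2⟩ := hv
  exact ⟨T, h1.trans h, h2⟩

theorem nb_subset_NN {R : Finset V} (hR : R.card = r) : nb H R ⊆ NN r H R := by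
  intro v hv
  rw [mem_NN]
  simp only [nb, Finset.mem_filter, Finset.mem_univ, true_and] at hv
  exact ⟨R, Finset.Subset.refl R, hR, hv.1, hv.2⟩

theorem iterN_mono {X Y : Finset V} (h : X ⊆ Y) (j : ℕ) : iterN r H X j ⊆ iterN r H Y j := by
  induction j with
  | zero => exact h
  | succ j ih => exact NN_mono ih

theorem iterN_add (R : Finset V) (i j : ℕ) : iterN r H (iterN r H R i) j = iterN r H R (i + j) := by
  induction j with
  | zero => rfl
  | succ j ih =>
    show NN r H (iterN r H (iterN r H R i) j) = NN r H (iterN r H R (i + j))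
    rw [ih]

/-- a walk `R → R' → ...` (each set consists of neighbours of the preceding one) stays inside the iterates -/
theorem walk_iterN {t : ℕ} {R R' : {R : Finset V // R.card = r}}
    (h : Walk (fun R R' : {R : Finset V // R.card = r} => R'.1 ⊆ nb H R.1) t R R') :
    R'.1 ⊆ iterN r H R.1 t := by
  induction t generalizing R with
  | zero =>
    have h' : R = R' := h
    rw [h']
    exact Finset.Subset.refl _
  | succ t ih =>
    obtain ⟨S, h1, h2⟩ := h
    have h3 : R'.1 ⊆ iterN r H S.1 t := ih h2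
    have h4 : S.1 ⊆ iterN r H R.1 1 := h1.trans (nb_subset_NN R.2)
    have h5 : iterN r H S.1 t ⊆ iterN r H (iterN r H R.1 1) t := iterN_mono h4 t
    rw [iterN_add, Nat.add_comm 1 t] at h5
    exact h3.trans h5

theorem Rich.mono {W : Type*} [DecidableEq W] {G : Finset (Finset W)} {X Y : Finset V} (h : X ⊆ Y)
    (hX : Rich G H X) : Rich G H Y := by
  obtain ⟨b, ψ, h1, h2⟩ := hX
  exact ⟨b, ψ, fun w => h (h1 w), h2⟩
end

end CT
end

section

section

/-!
# Norms of integers and binomial coefficients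

Proof.  `‖k‖ ≤ 1` for naturals; if `p ∤ k` then `a k + b p = 1` gives `‖k‖ = 1` (`‖b p‖ ≤ 1/p < 1`).  `norm_choose_pow`: `j * choose (p^e) j = p^e * choose (p^e - 1) (j-1)`
and `‖j‖ = 1`.  `choose_pow_main`: `r! * choose (p^e) r = p^e * ∏_{0<i<r} (p^e - i)` and the product is `(-1)^(r-1) (r-1)!` mod `p^e`.  `choose_pred`:
`j! * choose (p^e - 1) j = ∏_{1≤i≤j} (p^e - i)`.  `choose_dvd`: `(r-j)! * choose (m-j) (r-j) = (m-j) ⋯ (m-r+1)` (last factor `m - (r-1)`).  `choose_dvd'` is the same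
with `m - 1`, `r - 1` (last factor again `m - 1 - (r - 1) + 1 = m - (r-1)`).
-/

set_option autoImplicit false

open Finset

namespace CT

section
variable {Ω : Type*} [NormedField Ω] [IsUltrametricDist Ω] {p : ℕ} [Fact p.Prime]

theorem norm_nat_le (k : ℕ) : ‖(k : Ω)‖ ≤ 1 := IsUltrametricDist.norm_natCast_le_one Ω k

theorem norm_nat_coprime (hp : ‖(p : Ω)‖ = (p : ℝ)⁻¹) {k : ℕ} (hk : ¬ p ∣ k) : ‖(k : Ω)‖ = 1 := by
  have hpp : p.Prime := Fact.out
  have hp1 : (p : ℝ)⁻¹ < 1 := inv_lt_one_of_one_lt₀ (by exact_mod_cast hpp.one_lt)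
  refine le_antisymm (norm_nat_le k) ?_
  by_contra hlt
  push Not at hlt
  have hcop : IsCoprime (k : ℤ) (p : ℤ) := by
    rw [Nat.isCoprime_iff_coprime]
    exact ((Nat.Prime.coprime_iff_not_dvd hpp).2 hk).symm
  obtain ⟨a, b, hab⟩ := hcop
  have h1 : ((a : Ω) * (k : Ω) + (b : Ω) * (p : Ω)) = 1 := by
    have := congrArg (fun z : ℤ => (z : Ω)) hab
    push_cast at this
    exact this
  have h2 : ‖(a : Ω) * (k : Ω) + (b : Ω) * (p : Ω)‖ ≤ max ‖(a : Ω) * (k : Ω)‖ ‖(b : Ω) * (p : Ω)‖ :=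
    IsUltrametricDist.norm_add_le_max _ _
  rw [h1, norm_one, norm_mul, norm_mul, hp] at h2
  have ha : ‖(a : Ω)‖ ≤ 1 := IsUltrametricDist.norm_intCast_le_one Ω a
  have hb : ‖(b : Ω)‖ ≤ 1 := IsUltrametricDist.norm_intCast_le_one Ω b
  have h3 : ‖(a : Ω)‖ * ‖(k : Ω)‖ < 1 :=
    lt_of_le_of_lt (mul_le_of_le_one_left (norm_nonneg _) ha) hlt
  have h4 : ‖(b : Ω)‖ * (p : ℝ)⁻¹ < 1 :=
    lt_of_le_of_lt (mul_le_of_le_one_left (by positivity) hb) hp1
  exact absurd h2 (not_le.2 (max_lt h3 h4))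

theorem norm_nat_dvd (hp : ‖(p : Ω)‖ = (p : ℝ)⁻¹) {k e : ℕ} (hk : p ^ e ∣ k) : ‖(k : Ω)‖ ≤ ((p : ℝ)⁻¹) ^ e := by
  obtain ⟨c, rfl⟩ := hk
  push_cast
  rw [norm_mul, norm_pow, hp]
  exact mul_le_of_le_one_right (by positivity) (norm_nat_le c)

private theorem D01_fact (hp : ‖(p : Ω)‖ = (p : ℝ)⁻¹) {k : ℕ} (hk : k < p) :
    ‖((k.factorial : ℕ) : Ω)‖ = 1 := by
  have hpp : p.Prime := Fact.out
  exact norm_nat_coprime hp (fun h => absurd ((Nat.Prime.dvd_factorial hpp).1 h) (not_le.2 hk))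

private theorem D01_cancel {a b : Ω} {c : ℝ} (ha : ‖a‖ = 1) (h : ‖a * b‖ ≤ c) : ‖b‖ ≤ c := by
  rwa [norm_mul, ha, one_mul] at h

private theorem D01_prod {P : Ω} (hP : ‖P‖ ≤ 1) (f : ℕ → ℕ) (s : Finset ℕ) :
    ‖∏ i ∈ s, (P - (f i : Ω)) - ∏ i ∈ s, (-(f i : Ω))‖ ≤ ‖P‖ := by
  classical
  have hone : ∀ i : ℕ, ‖P - (f i : Ω)‖ ≤ 1 := fun i =>
    by
      rw [sub_eq_add_neg]
      refine (IsUltrametricDist.norm_add_le_max _ _).trans (max_le hP ?_)
      rw [norm_neg]
      exact norm_nat_le (f i)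
  induction s using Finset.induction_on with
  | empty => simp
  | insert a s ha ih =>
    rw [Finset.prod_insert ha, Finset.prod_insert ha]
    have h1 : (P - (f a : Ω)) * ∏ i ∈ s, (P - (f i : Ω)) - -(f a : Ω) * ∏ i ∈ s, (-(f i : Ω)) =
        P * ∏ i ∈ s, (P - (f i : Ω)) +
          (-(f a : Ω)) * (∏ i ∈ s, (P - (f i : Ω)) - ∏ i ∈ s, (-(f i : Ω))) := by ring
    rw [h1]
    refine (IsUltrametricDist.norm_add_le_max _ _).trans (max_le ?_ ?_)
    · rw [norm_mul]
      refine mul_le_of_le_one_right (norm_nonneg _) ?_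
      rw [norm_prod]
      exact Finset.prod_le_one (fun i _ => norm_nonneg _) (fun i _ => hone i)
    · rw [norm_mul, norm_neg]
      exact (mul_le_of_le_one_left (norm_nonneg _) (norm_nat_le (f a))).trans ih

private theorem D01_desc (n k : ℕ) : ((n.descFactorial k : ℕ) : Ω) = ∏ i ∈ range k, ((n : Ω) - (i : Ω)) := by
  rw [← descPochhammer_eval_eq_descFactorial, descPochhammer_eval_eq_prod_range]

private theorem D01_choose (n k : ℕ) : ((k.factorial : ℕ) : Ω) * ((n.choose k : ℕ) : Ω) =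
    ∏ i ∈ range k, ((n : Ω) - (i : Ω)) := by
  rw [← D01_desc, Nat.descFactorial_eq_factorial_mul_choose]
  push_cast
  rfl

private theorem D01_neg (k : ℕ) : ∏ i ∈ range k, (-((i + 1 : ℕ) : Ω)) = (-1) ^ k * ((k.factorial : ℕ) : Ω) := by
  induction k with
  | zero => simp
  | succ k ih =>
    rw [Finset.prod_range_succ, ih, Nat.factorial_succ]
    push_cast
    ring

theorem norm_choose_pow (hp : ‖(p : Ω)‖ = (p : ℝ)⁻¹) {e j : ℕ} (hj : 1 ≤ j) (hjp : j < p) :
    ‖(((p ^ e).choose j : ℕ) : Ω)‖ ≤ ((p : ℝ)⁻¹) ^ e := by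
  have hpp : p.Prime := Fact.out
  obtain ⟨i, rfl⟩ : ∃ i, j = i + 1 := ⟨j - 1, by omega⟩
  have hq : 1 ≤ p ^ e := Nat.one_le_pow _ _ hpp.pos
  obtain ⟨q, hq'⟩ : ∃ q, p ^ e = q + 1 := ⟨p ^ e - 1, by omega⟩
  have h1 : (i + 1) * (p ^ e).choose (i + 1) = p ^ e * q.choose i := by
    rw [hq', Nat.add_one_mul_choose_eq q i]
    ring
  refine D01_cancel (a := ((i + 1 : ℕ) : Ω)) (norm_nat_coprime hp ?_) ?_
  · exact fun h => absurd (Nat.le_of_dvd (by omega) h) (by omega)
  · rw [← Nat.cast_mul]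
    exact norm_nat_dvd hp ⟨q.choose i, h1⟩

theorem choose_pow_main (hp : ‖(p : Ω)‖ = (p : ℝ)⁻¹) {e r : ℕ} (hr : 1 ≤ r) (hrp : r < p) :
    ‖(((p ^ e).choose r : ℕ) : Ω) - (-1) ^ (r - 1) / (r : Ω) * ((p ^ e : ℕ) : Ω)‖ ≤ ((p : ℝ)⁻¹) ^ (2 * e) := by
  have hpp : p.Prime := Fact.out
  obtain ⟨i, rfl⟩ : ∃ i, r = i + 1 := ⟨r - 1, by omega⟩
  set P : Ω := ((p ^ e : ℕ) : Ω) with hPdef
  have hPn : ‖P‖ ≤ ((p : ℝ)⁻¹) ^ e := norm_nat_dvd hp dvd_rfl
  have hP1 : ‖P‖ ≤ 1 := norm_nat_le _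
  have hr0 : ((i + 1 : ℕ) : Ω) ≠ 0 := by
    intro h0
    have := norm_nat_coprime (Ω := Ω) hp (k := i + 1)
      (fun h => absurd (Nat.le_of_dvd (by omega) h) (by omega))
    rw [h0, norm_zero] at this
    exact zero_ne_one this
  refine D01_cancel (a := (((i + 1).factorial : ℕ) : Ω)) (D01_fact hp hrp) ?_
  have h1 := D01_choose (Ω := Ω) (p ^ e) (i + 1)
  have h2 : ∏ j ∈ range (i + 1), (P - (j : Ω)) =
      P * ∏ j ∈ range i, (P - ((j + 1 : ℕ) : Ω)) := by
    rw [Finset.prod_range_succ']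
    simp [mul_comm]
  have h3 : ((((i + 1).factorial : ℕ) : Ω)) * (-1) ^ (i + 1 - 1) / ((i + 1 : ℕ) : Ω) =
      (-1) ^ i * ((i.factorial : ℕ) : Ω) := by
    rw [Nat.factorial_succ, Nat.add_sub_cancel, Nat.cast_mul]
    field_simp
  have h4 : ((((i + 1).factorial : ℕ) : Ω)) *
      ((((p ^ e).choose (i + 1) : ℕ) : Ω) - (-1) ^ (i + 1 - 1) / ((i + 1 : ℕ) : Ω) * P) =
      P * (∏ j ∈ range i, (P - ((j + 1 : ℕ) : Ω)) - ∏ j ∈ range i, (-((j + 1 : ℕ) : Ω))) := by
    rw [mul_sub, h1, D01_neg, mul_sub, ← h2]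
    congr 1
    rw [← h3]
    ring
  rw [h4, norm_mul, two_mul, pow_add]
  exact mul_le_mul hPn ((D01_prod hP1 (fun j => j + 1) _).trans hPn) (norm_nonneg _) (by positivity)

theorem choose_pred (hp : ‖(p : Ω)‖ = (p : ℝ)⁻¹) {e j : ℕ} (hjp : j < p) :
    ‖(((p ^ e - 1).choose j : ℕ) : Ω) - (-1) ^ j‖ ≤ ((p : ℝ)⁻¹) ^ e := by
  have hpp : p.Prime := Fact.out
  set P : Ω := ((p ^ e : ℕ) : Ω) with hPdef
  have hPn : ‖P‖ ≤ ((p : ℝ)⁻¹) ^ e := norm_nat_dvd hp dvd_rfl
  have hP1 : ‖P‖ ≤ 1 := norm_nat_le _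
  have hq : 1 ≤ p ^ e := Nat.one_le_pow _ _ hpp.pos
  refine D01_cancel (a := ((j.factorial : ℕ) : Ω)) (D01_fact hp hjp) ?_
  have h1 := D01_choose (Ω := Ω) (p ^ e - 1) j
  have h2 : ∏ i ∈ range j, ((((p ^ e - 1 : ℕ)) : Ω) - (i : Ω)) = ∏ i ∈ range j, (P - ((i + 1 : ℕ) : Ω)) := by
    refine Finset.prod_congr rfl (fun i _ => ?_)
    rw [Nat.cast_sub hq, hPdef]
    push_cast
    ring
  have h4 : ((j.factorial : ℕ) : Ω) * ((((p ^ e - 1).choose j : ℕ) : Ω) - (-1) ^ j) =
      ∏ i ∈ range j, (P - ((i + 1 : ℕ) : Ω)) - ∏ i ∈ range j, (-((i + 1 : ℕ) : Ω)) := by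
    rw [mul_sub, h1, h2, D01_neg]
    ring
  rw [h4]
  exact (D01_prod hP1 (fun i => i + 1) _).trans hPn

private theorem D01_last (hp : ‖(p : Ω)‖ = (p : ℝ)⁻¹) {S n k : ℕ} (hk : 1 ≤ k) (hkp : k < p)
    (hS : p ^ S ∣ n - (k - 1)) : ‖((n.choose k : ℕ) : Ω)‖ ≤ ((p : ℝ)⁻¹) ^ S := by
  refine D01_cancel (a := ((k.factorial : ℕ) : Ω)) (D01_fact hp hkp) ?_
  rw [← Nat.cast_mul, ← Nat.descFactorial_eq_factorial_mul_choose]
  refine norm_nat_dvd hp (hS.trans ?_)
  rw [Nat.descFactorial_eq_prod_range]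
  exact Finset.dvd_prod_of_mem (fun i => n - i) (Finset.mem_range.2 (by omega))

theorem choose_dvd (hp : ‖(p : Ω)‖ = (p : ℝ)⁻¹) {S m r j : ℕ} (hm : r ≤ m) (hS : p ^ S ∣ m - (r - 1)) (hrp : r < p)
    (hj : j < r) : ‖(((m - j).choose (r - j) : ℕ) : Ω)‖ ≤ ((p : ℝ)⁻¹) ^ S := by
  refine D01_last hp (by omega) (by omega) ?_
  have h : m - j - (r - j - 1) = m - (r - 1) := by omega
  rwa [h]

theorem choose_dvd' (hp : ‖(p : Ω)‖ = (p : ℝ)⁻¹) {S m r j : ℕ} (hm : r ≤ m) (hS : p ^ S ∣ m - (r - 1)) (hrp : r < p)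
    (hj : j < r - 1) : ‖(((m - 1 - j).choose (r - 1 - j) : ℕ) : Ω)‖ ≤ ((p : ℝ)⁻¹) ^ S := by
  refine D01_last hp (by omega) (by omega) ?_
  have h : m - 1 - j - (r - 1 - j - 1) = m - (r - 1) := by omega
  rwa [h]
end

end CT
end

section

/-!
# Numerical facts on the exponents

Proof.  `k0 n = 8 * 2^n`, `Kx n i = 8 * 2^(n-1-i)`, geometric sums: `∑_{l=i+1}^{n-1} Kx n l = Kx n i - 8` for `1 ≤ i ≤ n - 1` and
`∑_{l=1}^{n-1} Kx n l ≤ k0 n - 8`.  `sx r n j = sx r n i + ∑_{l=i}^{j-1} Kx n l` for `1 ≤ i ≤ j`.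
-/

set_option autoImplicit false

open Finset

namespace CT

section
variable {r n p : ℕ}

private lemma sx_succ_d03 (i : ℕ) :
    sx r n (i + 1) = sx r n i + (if i = 0 then (r - 1) * k0 n else Kx n i) := rfl

private lemma sx_geom_d03 (i : ℕ) (hi : 1 ≤ i) (hin : i ≤ n) (d : ℕ) :
    i + d ≤ n → sx r n (i + d) + 8 * 2 ^ (n - (i + d)) = sx r n i + 8 * 2 ^ (n - i) := by
  induction d with
  | zero => intro _; simp
  | succ d ih =>
    intro h
    have h1 := ih (by omega)
    have e1 : i + (d + 1) = (i + d) + 1 := by omega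
    rw [e1, sx_succ_d03, if_neg (by omega)]
    have e2 : n - (i + d) = (n - (i + d + 1)) + 1 := by omega
    have e3 : n - 1 - (i + d) = n - (i + d + 1) := by omega
    rw [e2, pow_succ] at h1
    unfold Kx
    rw [e3]
    omega

theorem sx_mono (i j : ℕ) (h : i ≤ j) : sx r n i ≤ sx r n j := by
  induction j, h using Nat.le_induction with
  | base => exact le_rfl
  | succ j _ ih => rw [sx_succ_d03]; exact ih.trans (Nat.le_add_right _ _)

theorem s0_le (i : ℕ) : s0 r n ≤ sx r n i := sx_mono 0 i (Nat.zero_le i)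

theorem sx_one : sx r n 1 = s0 r n + (r - 1) * k0 n := by
  rw [show (1 : ℕ) = 0 + 1 from rfl, sx_succ_d03, if_pos rfl]
  rfl

theorem k0_le_s0 : k0 n ≤ s0 r n := by
  unfold s0
  exact Nat.le_mul_of_pos_left _ (by positivity)

theorem sx_one_add_le (hr : 1 ≤ r) : sx r n 1 + k0 n ≤ 2 * s0 r n := by
  rw [sx_one]
  obtain ⟨r', rfl⟩ : ∃ r', r = r' + 1 := ⟨r - 1, by omega⟩
  have : r' + 1 - 1 = r' := by omega
  rw [this]
  unfold s0
  nlinarith [Nat.zero_le (r' * k0 n), Nat.zero_le (k0 n)]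

theorem Kx_ge (i : ℕ) : 8 ≤ Kx n i := by
  unfold Kx
  exact Nat.le_mul_of_pos_right _ (by positivity)

theorem kap_ge (i : ℕ) : 8 ≤ kap n i := by
  unfold kap
  split_ifs
  · exact Kx_ge i
  · unfold k0
    exact Nat.le_mul_of_pos_right _ (by positivity)

theorem kap_le_k0 (i : ℕ) : kap n i ≤ k0 n := by
  unfold kap
  split_ifs
  · unfold Kx k0
    exact Nat.mul_le_mul_left _ (Nat.pow_le_pow_right (by norm_num) (by omega))
  · exact le_rfl

/-- (α) -/
theorem exp_alpha {i J : ℕ} (hi : 1 ≤ i) (hiJ : i < J) (hJ : J ≤ n) :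
    sx r n J + 5 + Kx n i ≤ sx r n i + 2 * Kx n i + Kx n i ∧ sx r n J + 5 ≤ sx r n i + 2 * Kx n i := by
  have h := sx_geom_d03 (r := r) (n := n) i hi (by omega) (J - i) (by omega)
  have e : i + (J - i) = J := by omega
  rw [e] at h
  have e2 : n - i = (n - 1 - i) + 1 := by omega
  rw [e2, pow_succ] at h
  have h3 : 1 ≤ 2 ^ (n - J) := Nat.one_le_two_pow
  unfold Kx
  constructor <;> omega

/-- (β) -/
theorem exp_beta {i J : ℕ} (hi : 2 ≤ i) (hiJ : i < J) (hJ : J ≤ n) :
    sx r n J + 4 ≤ sx r n i + Kx n (i - 1) := by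
  have h := sx_geom_d03 (r := r) (n := n) i (by omega) (by omega) (J - i) (by omega)
  have e : i + (J - i) = J := by omega
  rw [e] at h
  have e2 : n - 1 - (i - 1) = n - i := by omega
  have h3 : 1 ≤ 2 ^ (n - J) := Nat.one_le_two_pow
  unfold Kx
  rw [e2]
  omega

/-- (γ) -/
theorem exp_gamma {i J : ℕ} (hJ : 1 ≤ J) (hiJ : J < i) : sx r n J + 8 ≤ sx r n i := by
  have h1 : sx r n (J + 1) = sx r n J + Kx n J := by
    rw [sx_succ_d03, if_neg (by omega)]
  have h2 : sx r n (J + 1) ≤ sx r n i := sx_mono _ _ (by omega)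
  have h3 := Kx_ge (n := n) J
  omega

/-- (δ) -/
theorem exp_delta {J : ℕ} (hJ : 1 ≤ J) (hJn : J ≤ n) : sx r n J + 3 ≤ sx r n 1 + k0 n := by
  have h := sx_geom_d03 (r := r) (n := n) 1 le_rfl (by omega) (J - 1) (by omega)
  have e : 1 + (J - 1) = J := by omega
  rw [e] at h
  have h3 : 1 ≤ 2 ^ (n - J) := Nat.one_le_two_pow
  have h4 : 2 ^ (n - 1) ≤ 2 ^ n := Nat.pow_le_pow_right (by norm_num) (by omega)
  unfold k0
  omega

theorem Kx_pred {i : ℕ} (hi : 2 ≤ i) (hin : i < n) : Kx n i + 1 ≤ Kx n (i - 1) := by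
  unfold Kx
  have e2 : n - 1 - (i - 1) = (n - 1 - i) + 1 := by omega
  rw [e2, pow_succ]
  have h3 : 1 ≤ 2 ^ (n - 1 - i) := Nat.one_le_two_pow
  omega

theorem Nx_div {i : ℕ} (hp : 0 < p) :
    Nx r n p (i + 1) / Nx r n p i = p ^ (if i = 0 then (r - 1) * k0 n else Kx n i) := by
  unfold Nx
  rw [sx_succ_d03, Nat.pow_div (Nat.le_add_right _ _) hp, Nat.add_sub_cancel_left]

theorem Nx_div_zero {i : ℕ} (hp : 0 < p) : Nx r n p i / Nx r n p 0 = p ^ (sx r n i - s0 r n) := by
  unfold Nx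
  rw [Nat.pow_div (sx_mono 0 i (Nat.zero_le i)) hp]
  rfl
end

end CT
end
end

section

section

/-!
# Greenwell-Lovasz, normalised version

Proof (papers 388, II.7).  (1) `ψ q ∈ {q i}`: otherwise `q` differs everywhere from the constant `ψ q`.  (2) For `S ⊆ ι`, `a ≠ b` let
`U a b S` mean `ψ (a on S, b off S) = a` (the other possible value is `b`).  `(a on S, b off S)` and `(b on S, a off S)` differ everywhere:
`U a b S ↔ U b a S`, and `U a b Sᶜ ↔ ¬ U a b S`.  (3) `U a b S → U a c S` for `c ≠ a` (compare `(a on S, b off S)` with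
`(c on S, a off S)`, for `b ≠ c`), so `U` does not depend on the pair (3 ≤ card V).  (4) `U S`, `U T` imply `S ∩ T ≠ ∅`: compare
`(a on S, b off S)` with `(a on T, c off T)`.  (5) if `ψ q = v` then `U {i | q i = v}`: else its complement is in `U`, and `(v on the
complement, c on the set)` has value `v` and differs from `q` everywhere.  (6) `U S`, `U T` imply `U (S ∩ T)`: the point `a` on `S ∩ T`,
`b` on `S \ T`, `c` off `S`.  (7) the smallest member of `U` is a singleton `{i}`.  (8) `ψ q = q i` by (5).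
-/

set_option autoImplicit false

open Finset

namespace CT

private lemma gl_vals {V ι : Type*} (ψ : (ι → V) → V) (h : ∀ q q' : ι → V, (∀ i, q i ≠ q' i) → ψ q ≠ ψ q')
    (hc : ∀ v, ψ (fun _ => v) = v) (q : ι → V) : ∃ i, q i = ψ q := by
  by_contra hne
  push Not at hne
  exact h q (fun _ => ψ q) hne (hc (ψ q)).symm

private lemma gl_pair {V ι : Type*} [DecidableEq ι] (ψ : (ι → V) → V)
    (h : ∀ q q' : ι → V, (∀ i, q i ≠ q' i) → ψ q ≠ ψ q')
    (hc : ∀ v, ψ (fun _ => v) = v) (a b : V) (S : Finset ι) :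
    ψ (fun i => if i ∈ S then a else b) = a ∨ ψ (fun i => if i ∈ S then a else b) = b := by
  obtain ⟨i, hi⟩ := gl_vals ψ h hc (fun i => if i ∈ S then a else b)
  by_cases hS : i ∈ S
  · left; rw [← hi, if_pos hS]
  · right; rw [← hi, if_neg hS]

/-- swapping -/
private lemma gl_swap {V ι : Type*} [DecidableEq ι] (ψ : (ι → V) → V)
    (h : ∀ q q' : ι → V, (∀ i, q i ≠ q' i) → ψ q ≠ ψ q')
    (hc : ∀ v, ψ (fun _ => v) = v) {a b : V} (hab : a ≠ b) {S : Finset ι}
    (hS : ψ (fun i => if i ∈ S then a else b) = a) :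
    ψ (fun i => if i ∈ S then b else a) = b := by
  rcases gl_pair ψ h hc b a S with h1 | h1
  · exact h1
  · exfalso
    refine h (fun i => if i ∈ S then a else b) (fun i => if i ∈ S then b else a) ?_ (hS.trans h1.symm)
    intro i
    by_cases hi : i ∈ S
    · simp only [if_pos hi]; exact hab
    · simp only [if_neg hi]; exact hab.symm

private lemma gl_third {V ι : Type*} [DecidableEq ι] (ψ : (ι → V) → V)
    (h : ∀ q q' : ι → V, (∀ i, q i ≠ q' i) → ψ q ≠ ψ q')
    (hc : ∀ v, ψ (fun _ => v) = v) {a b c : V} (hab : a ≠ b) (hac : a ≠ c) {S : Finset ι}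
    (hS : ψ (fun i => if i ∈ S then a else b) = a) :
    ψ (fun i => if i ∈ S then a else c) = a := by
  have h2 : ψ (fun i => if i ∈ S then c else a) = c := by
    rcases gl_pair ψ h hc c a S with h1 | h1
    · exact h1
    · exfalso
      refine h (fun i => if i ∈ S then a else b) (fun i => if i ∈ S then c else a) ?_ (hS.trans h1.symm)
      intro i
      by_cases hi : i ∈ S
      · simp only [if_pos hi]; exact hac
      · simp only [if_neg hi]; exact hab.symm
  exact gl_swap ψ h hc hac.symm h2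

private lemma gl_all {V ι : Type*} [DecidableEq V] [DecidableEq ι] (ψ : (ι → V) → V)
    (h : ∀ q q' : ι → V, (∀ i, q i ≠ q' i) → ψ q ≠ ψ q')
    (hc : ∀ v, ψ (fun _ => v) = v) {a b : V} (hab : a ≠ b) {S : Finset ι}
    (hS : ψ (fun i => if i ∈ S then a else b) = a) (c d : V) (hcd : c ≠ d) :
    ψ (fun i => if i ∈ S then c else d) = c := by
  by_cases hca : c = a
  · subst hca
    exact gl_third ψ h hc hab hcd hS
  · have h1 : ψ (fun i => if i ∈ S then a else c) = a := gl_third ψ h hc hab (Ne.symm hca) hS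
    have h2 := gl_swap ψ h hc (Ne.symm hca) h1
    exact gl_third ψ h hc hca hcd h2

private lemma gl_compl {V ι : Type*} [DecidableEq V] [Fintype ι] [DecidableEq ι] (ψ : (ι → V) → V)
    (h : ∀ q q' : ι → V, (∀ i, q i ≠ q' i) → ψ q ≠ ψ q')
    (hc : ∀ v, ψ (fun _ => v) = v) {a b : V} (hab : a ≠ b) {S : Finset ι}
    (hS : ¬ ∀ c d : V, c ≠ d → ψ (fun i => if i ∈ S then c else d) = c) :
    ∀ c d : V, c ≠ d → ψ (fun i => if i ∈ Sᶜ then c else d) = c := by
  have e : ∀ c d : V, (fun i : ι => if i ∈ Sᶜ then c else d) = fun i => if i ∈ S then d else c := by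
    intro c d
    funext i
    by_cases hi : i ∈ S
    · rw [if_neg (by simpa using hi), if_pos hi]
    · rw [if_pos (by simpa using hi), if_neg hi]
  refine gl_all ψ h hc hab ?_
  rw [e]
  rcases gl_pair ψ h hc b a S with h1 | h1
  · exact absurd (gl_all ψ h hc hab.symm h1) hS
  · exact h1

private lemma gl_level {V ι : Type*} [DecidableEq V] [Fintype ι] [DecidableEq ι] (ψ : (ι → V) → V)
    (h : ∀ q q' : ι → V, (∀ i, q i ≠ q' i) → ψ q ≠ ψ q')
    (hc : ∀ v, ψ (fun _ => v) = v) {a b : V} (hab : a ≠ b) (q : ι → V) :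
    ∀ c d : V, c ≠ d → ψ (fun i => if i ∈ univ.filter (fun i => q i = ψ q) then c else d) = c := by
  by_contra hne
  have h1 := gl_compl ψ h hc hab hne
  obtain ⟨c, hcv⟩ : ∃ c, ψ q ≠ c := by
    by_cases hx : ψ q = a
    · exact ⟨b, by rw [hx]; exact hab⟩
    · exact ⟨a, hx⟩
  have h2 := h1 (ψ q) c hcv
  refine h q _ ?_ h2.symm
  intro i
  by_cases hi : q i = ψ q
  · rw [if_neg (by simpa using hi), hi]
    exact hcv
  · rw [if_pos (by simpa using hi)]
    exact hi

private lemma gl_disj {V ι : Type*} [DecidableEq V] [Fintype ι] [DecidableEq ι] (ψ : (ι → V) → V)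
    (h : ∀ q q' : ι → V, (∀ i, q i ≠ q' i) → ψ q ≠ ψ q')
    {a b c : V} (hab : a ≠ b) (hac : a ≠ c) (hbc : b ≠ c) {S T : Finset ι}
    (hS : ∀ c d : V, c ≠ d → ψ (fun i => if i ∈ S then c else d) = c)
    (hT : ∀ c d : V, c ≠ d → ψ (fun i => if i ∈ T then c else d) = c) : ∃ i, i ∈ S ∧ i ∈ T := by
  by_contra hne
  push Not at hne
  refine h (fun i => if i ∈ S then a else b) (fun i => if i ∈ T then a else c) ?_
    ((hS a b hab).trans (hT a c hac).symm)
  intro i
  by_cases hi : i ∈ S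
  · simp only [if_pos hi, if_neg (hne i hi)]
    exact hac
  · simp only [if_neg hi]
    by_cases hj : i ∈ T
    · simp only [if_pos hj]; exact hab.symm
    · simp only [if_neg hj]; exact hbc

private lemma gl_inter {V ι : Type*} [DecidableEq V] [Fintype ι] [DecidableEq ι] (ψ : (ι → V) → V)
    (h : ∀ q q' : ι → V, (∀ i, q i ≠ q' i) → ψ q ≠ ψ q')
    (hc : ∀ v, ψ (fun _ => v) = v)
    {a b c : V} (hab : a ≠ b) (hac : a ≠ c) (hbc : b ≠ c) {S T : Finset ι}
    (hS : ∀ c d : V, c ≠ d → ψ (fun i => if i ∈ S then c else d) = c)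
    (hT : ∀ c d : V, c ≠ d → ψ (fun i => if i ∈ T then c else d) = c) :
    ∀ c d : V, c ≠ d → ψ (fun i => if i ∈ S ∩ T then c else d) = c := by
  set q : ι → V := fun i => if i ∈ S then (if i ∈ T then a else b) else c with hq
  have h1 := gl_level ψ h hc hab q
  obtain ⟨i, hi⟩ := gl_vals ψ h hc q
  have hqa : ∀ j, q j = a ↔ j ∈ S ∩ T := by
    intro j
    rw [hq, mem_inter]
    by_cases h3 : j ∈ S
    · by_cases h4 : j ∈ T
      · simp [h3, h4]
      · simp [h3, h4, hab.symm]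
    · simp [h3, hac.symm]
  have hqb : ∀ j, q j = b → j ∉ T := by
    intro j hj h4
    rw [hq] at hj
    by_cases h3 : j ∈ S
    · simp [h3, h4] at hj
      exact hab hj
    · simp [h3] at hj
      exact hbc hj.symm
  have hqc : ∀ j, q j = c → j ∉ S := by
    intro j hj h3
    rw [hq] at hj
    by_cases h4 : j ∈ T
    · simp [h3, h4] at hj
      exact hac hj
    · simp [h3, h4] at hj
      exact hbc hj
  have hval : ψ q = a := by
    by_contra hne
    have h5 : ψ q = b ∨ ψ q = c := by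
      rw [← hi] at hne ⊢
      by_cases h3 : i ∈ S
      · by_cases h4 : i ∈ T
        · exact absurd ((hqa i).2 (mem_inter.2 ⟨h3, h4⟩)) hne
        · left; simp [hq, h3, h4]
      · right; simp [hq, h3]
    rcases h5 with h5 | h5
    · obtain ⟨j, hj1, hj2⟩ := gl_disj ψ h hab hac hbc hT h1
      exact hqb j (by rw [(mem_filter.1 hj2).2, h5]) hj1
    · obtain ⟨j, hj1, hj2⟩ := gl_disj ψ h hab hac hbc hS h1
      exact hqc j (by rw [(mem_filter.1 hj2).2, h5]) hj1
  have h6 : univ.filter (fun i => q i = ψ q) = S ∩ T := by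
    ext j
    rw [mem_filter, hval, hqa]
    simp
  rw [h6] at h1
  exact h1

theorem gl_norm {V ι : Type*} [Fintype V] [DecidableEq V] [Fintype ι] [DecidableEq ι] (hV : 3 ≤ Fintype.card V)
    (ψ : (ι → V) → V) (h : ∀ q q' : ι → V, (∀ i, q i ≠ q' i) → ψ q ≠ ψ q') (hc : ∀ v, ψ (fun _ => v) = v) :
    ∃ i : ι, ∀ q, ψ q = q i := by
  classical
  obtain ⟨a, b, c, hab, hac, hbc⟩ := Fintype.two_lt_card_iff.1 (show 2 < Fintype.card V by omega)
  let U : Finset ι → Prop := fun S => ∀ c d : V, c ≠ d → ψ (fun i => if i ∈ S then c else d) = c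
  have hUuniv : U univ := by
    intro c d _
    have : (fun i : ι => if i ∈ (univ : Finset ι) then c else d) = fun _ => c := by
      funext i; simp
    rw [this]
    exact hc c
  have hinter : ∀ S T, U S → U T → U (S ∩ T) := fun S T hS hT =>
    gl_inter ψ h hc hab hac hbc hS hT
  have hsub : ∃ S0, U S0 ∧ ∀ T, U T → S0 ⊆ T := by
    have hne : ((univ : Finset (Finset ι)).filter U).Nonempty := ⟨univ, mem_filter.2 ⟨mem_univ _, hUuniv⟩⟩
    obtain ⟨S0, hS0, hmin⟩ := exists_min_image _ Finset.card hne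
    have hU0 := (mem_filter.1 hS0).2
    refine ⟨S0, hU0, fun T hT => ?_⟩
    have h1 : U (S0 ∩ T) := hinter _ _ hU0 hT
    have h2 := hmin (S0 ∩ T) (mem_filter.2 ⟨mem_univ _, h1⟩)
    have h3 : S0 ∩ T = S0 := Finset.eq_of_subset_of_card_le inter_subset_left h2
    rw [← h3]
    exact inter_subset_right
  obtain ⟨S0, hU0, hmin⟩ := hsub
  obtain ⟨i, hi0, -⟩ := gl_disj ψ h hab hac hbc hU0 hU0
  have hUi : U {i} := by
    by_contra hne
    have h1 : U ({i} : Finset ι)ᶜ := gl_compl ψ h hc hab hne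
    have h2 := hmin _ h1 hi0
    simp at h2
  refine ⟨i, fun q => ?_⟩
  obtain ⟨j, hj1, hj2⟩ := gl_disj ψ h hab hac hbc hUi (gl_level ψ h hc hab q)
  rw [mem_singleton] at hj1
  subst hj1
  exact (mem_filter.1 hj2).2.symm

end CT
end

section

/-!
# Second derivative of the complete `r`-graph

Proof (papers 388, III.3).  Grouping by `T := (e.erase u).erase v` (`card T = r - 2`):
`d2lag = ∑_T x^T ∑_{u ≠ v, u,v ∉ T} w u w v = ∑_T x^T ((∑_{u ∉ T} w u)^2 - ∑_{u ∉ T} w u^2)` and `∑_{u ∉ T} w u = - ∑_{u ∈ T} w u`, so by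
Cauchy-Schwarz the bracket is at most `(r-2) ∑_{T} w u^2 - ∑_{u ∉ T} w u^2 = (r-1) ∑_{u∈T} w u^2 - ∑_u w u^2`.  And
`∑_T x^T ∑_{u∈T} w u^2 = ∑_u w u^2 x u esy (univ.erase u) (r-3) x ≤ μ ∑ w^2` as `esy (univ.erase u) (r-3) x ≤ (∑ x)^(r-3) ≤ 1`.
-/

set_option autoImplicit false

open Finset

namespace CT

private theorem swap_sum {V : Type*} [Fintype V] [DecidableEq V] (k : ℕ) (G : V → Finset V → ℝ) :
    ∑ e ∈ powersetCard (k + 1) (univ : Finset V), ∑ u ∈ e, G u (e.erase u) =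
      ∑ T ∈ powersetCard k (univ : Finset V), ∑ u ∈ Tᶜ, G u T := by
  rw [Finset.sum_sigma', Finset.sum_sigma']
  refine Finset.sum_bij' (fun p _ => ⟨p.1.erase p.2, p.2⟩) (fun p _ => ⟨insert p.2 p.1, p.2⟩)
    ?_ ?_ ?_ ?_ ?_
  · rintro ⟨e, u⟩ h
    simp only [mem_sigma, mem_powersetCard, subset_univ, true_and] at h
    simp only [mem_sigma, mem_powersetCard, subset_univ, true_and, mem_compl]
    refine ⟨?_, notMem_erase u e⟩
    rw [card_erase_of_mem h.2, h.1]; rfl
  · rintro ⟨T, u⟩ h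
    simp only [mem_sigma, mem_powersetCard, subset_univ, true_and, mem_compl] at h
    simp only [mem_sigma, mem_powersetCard, subset_univ, true_and]
    refine ⟨?_, mem_insert_self u T⟩
    rw [card_insert_of_notMem h.2, h.1]
  · rintro ⟨e, u⟩ h
    simp only [mem_sigma, mem_powersetCard, subset_univ, true_and] at h
    simp only [insert_erase h.2]
  · rintro ⟨T, u⟩ h
    simp only [mem_sigma, mem_powersetCard, subset_univ, true_and, mem_compl] at h
    simp only [erase_insert h.2]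
  · rintro ⟨e, u⟩ h
    rfl

private theorem esy_nonneg' {V : Type*} [Fintype V] [DecidableEq V] (k : ℕ) (x : V → ℝ)
    (hx0 : ∀ v, 0 ≤ x v) : 0 ≤ esy (univ : Finset V) k x :=
  Finset.sum_nonneg fun e _ => Finset.prod_nonneg fun v _ => hx0 v

private theorem esy_le_one' {V : Type*} [Fintype V] [DecidableEq V] (x : V → ℝ)
    (hx0 : ∀ v, 0 ≤ x v) (hx1 : ∑ v, x v = 1) : ∀ k : ℕ, esy (univ : Finset V) k x ≤ 1 := by
  intro k
  induction k with
  | zero => simp [esy]
  | succ k ih =>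
    have h1 : ((k : ℝ) + 1) * esy (univ : Finset V) (k + 1) x =
        ∑ e ∈ powersetCard (k + 1) (univ : Finset V), ∑ u ∈ e, x u * ∏ z ∈ e.erase u, x z := by
      rw [esy, mul_sum]
      refine sum_congr rfl fun e he => ?_
      have h2 : ∀ u ∈ e, x u * ∏ z ∈ e.erase u, x z = ∏ z ∈ e, x z := fun u hu =>
        mul_prod_erase e x hu
      rw [sum_congr rfl h2, sum_const, (mem_powersetCard.1 he).2, nsmul_eq_mul]
      push_cast
      ring
    rw [swap_sum k (fun u T => x u * ∏ z ∈ T, x z)] at h1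
    have h3 : ∑ T ∈ powersetCard k (univ : Finset V), ∑ u ∈ Tᶜ, x u * ∏ z ∈ T, x z ≤
        esy (univ : Finset V) k x := by
      rw [esy]
      refine sum_le_sum fun T _ => ?_
      rw [← sum_mul]
      have h4 : ∑ u ∈ Tᶜ, x u ≤ 1 := by
        rw [← hx1]
        exact sum_le_sum_of_subset_of_nonneg (subset_univ _) fun v _ _ => hx0 v
      have h5 : 0 ≤ ∏ z ∈ T, x z := prod_nonneg fun v _ => hx0 v
      nlinarith
    have h6 := esy_nonneg' (k + 1) x hx0
    have h7 : (0 : ℝ) ≤ k := Nat.cast_nonneg k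
    nlinarith

theorem d2_esy_le {V : Type*} [Fintype V] [DecidableEq V] {r : ℕ} (hr : 3 ≤ r) (x w : V → ℝ) (μ : ℝ)
    (hx0 : ∀ v, 0 ≤ x v) (hxμ : ∀ v, x v ≤ μ) (hx1 : ∑ v, x v = 1) (hw : ∑ v, w v = 0) :
    d2lag (powersetCard r (univ : Finset V)) x w ≤
      -(esy univ (r - 2) x - ((r : ℝ) - 1) * μ) * ∑ v, w v ^ 2 := by
  obtain ⟨k, rfl⟩ : ∃ k, r = k + 3 := ⟨r - 3, by omega⟩
  have e1 : k + 3 - 2 = k + 1 := by omega
  rw [e1]
  -- first swap
  have h1 : d2lag (powersetCard (k + 3) (univ : Finset V)) x w =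
      ∑ T ∈ powersetCard (k + 2) (univ : Finset V), ∑ u ∈ Tᶜ, ∑ v ∈ T,
        w u * w v * ∏ z ∈ T.erase v, x z := by
    rw [d2lag]
    exact swap_sum (k + 2) (fun u T => ∑ v ∈ T, w u * w v * ∏ z ∈ T.erase v, x z)
  have hcompl : ∀ T : Finset V, ∑ u ∈ Tᶜ, w u = - ∑ u ∈ T, w u := by
    intro T
    have := sum_add_sum_compl T w
    rw [hw] at this
    linarith
  have h2 : ∀ T ∈ powersetCard (k + 2) (univ : Finset V), ∑ u ∈ Tᶜ, ∑ v ∈ T,
        w u * w v * ∏ z ∈ T.erase v, x z =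
      ∑ v ∈ T, -(w v * (∏ z ∈ T.erase v, x z) * (w v + ∑ u ∈ T.erase v, w u)) := by
    intro T _
    rw [sum_comm]
    refine sum_congr rfl fun v hv => ?_
    have h3 : ∑ u ∈ Tᶜ, w u * w v * ∏ z ∈ T.erase v, x z =
        (∑ u ∈ Tᶜ, w u) * (w v * ∏ z ∈ T.erase v, x z) := by
      rw [sum_mul]
      exact sum_congr rfl fun u _ => by ring
    rw [h3, hcompl T, ← add_sum_erase T w hv]
    ring
  rw [h1, sum_congr rfl h2,
    swap_sum (k + 1) (fun v T => -(w v * (∏ z ∈ T, x z) * (w v + ∑ u ∈ T, w u)))]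
  -- bound for each T
  have h4 : ∀ T ∈ powersetCard (k + 1) (univ : Finset V),
      ∑ u ∈ Tᶜ, -(w u * (∏ z ∈ T, x z) * (w u + ∑ u ∈ T, w u)) ≤
        ((k : ℝ) + 2) * (∑ u ∈ T, w u ^ 2 * (x u * ∏ z ∈ T.erase u, x z)) -
          (∏ z ∈ T, x z) * ∑ v, w v ^ 2 := by
    intro T hT
    have hTc : T.card = k + 1 := (mem_powersetCard.1 hT).2
    have h5 : ∑ u ∈ Tᶜ, -(w u * (∏ z ∈ T, x z) * (w u + ∑ u ∈ T, w u)) =
        (∏ z ∈ T, x z) * ((∑ u ∈ T, w u) ^ 2 - ∑ u ∈ Tᶜ, w u ^ 2) := by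
      have h6 : ∀ u ∈ Tᶜ, -(w u * (∏ z ∈ T, x z) * (w u + ∑ u ∈ T, w u)) =
          -(∏ z ∈ T, x z) * (w u ^ 2) + (-(∏ z ∈ T, x z) * (∑ u ∈ T, w u)) * w u := by
        intro u _; ring
      rw [sum_congr rfl h6, sum_add_distrib, ← mul_sum, ← mul_sum, hcompl T]
      ring
    have h7 : (∑ u ∈ T, w u) ^ 2 ≤ ((k : ℝ) + 1) * ∑ u ∈ T, w u ^ 2 := by
      have := sq_sum_le_card_mul_sum_sq (s := T) (f := w)
      rw [hTc] at this
      push_cast at this
      exact this
    have h8 : ∑ u ∈ T, w u ^ 2 + ∑ u ∈ Tᶜ, w u ^ 2 = ∑ v, w v ^ 2 :=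
      sum_add_sum_compl T (fun v => w v ^ 2)
    have h9 : 0 ≤ ∏ z ∈ T, x z := prod_nonneg fun v _ => hx0 v
    have h10 : ∑ u ∈ T, w u ^ 2 * (x u * ∏ z ∈ T.erase u, x z) =
        (∏ z ∈ T, x z) * ∑ u ∈ T, w u ^ 2 := by
      rw [mul_sum]
      refine sum_congr rfl fun u hu => ?_
      rw [mul_prod_erase T x hu]
      ring
    rw [h5, h10]
    have h11 : (∑ u ∈ T, w u) ^ 2 - ∑ u ∈ Tᶜ, w u ^ 2 ≤
        ((k : ℝ) + 2) * (∑ u ∈ T, w u ^ 2) - ∑ v, w v ^ 2 := by linarith
    calc (∏ z ∈ T, x z) * ((∑ u ∈ T, w u) ^ 2 - ∑ u ∈ Tᶜ, w u ^ 2)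
        ≤ (∏ z ∈ T, x z) * (((k : ℝ) + 2) * (∑ u ∈ T, w u ^ 2) - ∑ v, w v ^ 2) :=
          mul_le_mul_of_nonneg_left h11 h9
      _ = _ := by ring
  have h12 := sum_le_sum h4
  rw [sum_sub_distrib, ← mul_sum, ← sum_mul] at h12
  have h13 : ∑ T ∈ powersetCard (k + 1) (univ : Finset V),
      ∑ u ∈ T, w u ^ 2 * (x u * ∏ z ∈ T.erase u, x z) ≤ μ * ∑ v, w v ^ 2 := by
    rw [swap_sum k (fun u T => w u ^ 2 * (x u * ∏ z ∈ T, x z))]
    have h14 : ∀ T ∈ powersetCard k (univ : Finset V),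
        ∑ u ∈ Tᶜ, w u ^ 2 * (x u * ∏ z ∈ T, x z) ≤ (∏ z ∈ T, x z) * (μ * ∑ v, w v ^ 2) := by
      intro T _
      have h9 : 0 ≤ ∏ z ∈ T, x z := prod_nonneg fun v _ => hx0 v
      have h15 : ∑ u ∈ Tᶜ, w u ^ 2 * (x u * ∏ z ∈ T, x z) =
          (∏ z ∈ T, x z) * ∑ u ∈ Tᶜ, w u ^ 2 * x u := by
        rw [mul_sum]
        exact sum_congr rfl fun u _ => by ring
      rw [h15]
      refine mul_le_mul_of_nonneg_left ?_ h9
      rw [mul_sum]
      calc ∑ u ∈ Tᶜ, w u ^ 2 * x u ≤ ∑ u, w u ^ 2 * x u :=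
            sum_le_sum_of_subset_of_nonneg (subset_univ _)
              fun v _ _ => mul_nonneg (sq_nonneg _) (hx0 v)
        _ ≤ ∑ u, μ * w u ^ 2 := by
            refine sum_le_sum fun u _ => ?_
            rw [mul_comm μ]
            exact mul_le_mul_of_nonneg_left (hxμ u) (sq_nonneg _)
    refine (sum_le_sum h14).trans ?_
    rw [← sum_mul]
    have h16 := esy_le_one' x hx0 hx1 k
    have h17 : 0 ≤ μ * ∑ v, w v ^ 2 := by
      refine mul_nonneg ?_ (sum_nonneg fun v _ => sq_nonneg _)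
      by_cases hne : Nonempty V
      · obtain ⟨v⟩ := hne
        exact (hx0 v).trans (hxμ v)
      · exfalso
        have : (univ : Finset V) = ∅ := by
          ext v; exact ⟨fun _ => (hne ⟨v⟩).elim, fun _ => mem_univ _⟩
        rw [this, sum_empty] at hx1
        exact zero_ne_one hx1
    have h18 : esy (univ : Finset V) k x * (μ * ∑ v, w v ^ 2) ≤ 1 * (μ * ∑ v, w v ^ 2) :=
      mul_le_mul_of_nonneg_right h16 h17
    rw [one_mul] at h18
    exact h18
  have h19 : ((k : ℝ) + 2) * (∑ T ∈ powersetCard (k + 1) (univ : Finset V),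
      ∑ u ∈ T, w u ^ 2 * (x u * ∏ z ∈ T.erase u, x z)) ≤ ((k : ℝ) + 2) * (μ * ∑ v, w v ^ 2) :=
    mul_le_mul_of_nonneg_left h13 (by positivity)
  refine h12.trans ?_
  rw [show (∑ T ∈ powersetCard (k + 1) (univ : Finset V), ∏ z ∈ T, x z) =
    esy (univ : Finset V) (k + 1) x from rfl]
  push_cast
  nlinarith [h19]

end CT
end

section

/-!
# Second derivative of the missing edges

Proof.  For `e ∈ Ms` each product is in `[0, μ^(r-2)] ⊆ [0, μ]`, `|w u w v| ≤ (w u^2 + w v^2)/2`, so the inner double sum is at most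
`μ (r-1) ∑_{u ∈ e} w u^2`.
-/

set_option autoImplicit false

open Finset

namespace CT

theorem abs_d2lag_le {V : Type*} [Fintype V] [DecidableEq V] {r : ℕ} (hr : 3 ≤ r) {Ms : Finset (Finset V)}
    (hMs : Unif r Ms) (x w : V → ℝ) (μ : ℝ) (hx0 : ∀ v, 0 ≤ x v) (hxμ : ∀ v, x v ≤ μ) (hμ : μ ≤ 1) :
    |d2lag Ms x w| ≤ (Ms.card : ℝ) * r * μ * ∑ v, w v ^ 2 := by
  have key : ∀ e ∈ Ms, |∑ u ∈ e, ∑ v ∈ e.erase u, w u * w v * ∏ z ∈ (e.erase u).erase v, x z| ≤
      r * μ * ∑ v, w v ^ 2 := by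
    intro e he
    have hcard : e.card = r := hMs e he
    have hμ0 : 0 ≤ μ := by
      have hne : e.Nonempty := card_pos.1 (by omega)
      obtain ⟨v, _⟩ := hne
      exact (hx0 v).trans (hxμ v)
    have hterm : ∀ u ∈ e, ∀ v ∈ e.erase u,
        |w u * w v * ∏ z ∈ (e.erase u).erase v, x z| ≤ μ * ((w u ^ 2 + w v ^ 2) / 2) := by
      intro u hu v hv
      have hc : ((e.erase u).erase v).card = r - 1 - 1 := by
        rw [card_erase_of_mem hv, card_erase_of_mem hu, hcard]
      have hne : ((e.erase u).erase v).Nonempty := card_pos.1 (by omega)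
      obtain ⟨z0, hz0⟩ := hne
      have hp0 : 0 ≤ ∏ z ∈ (e.erase u).erase v, x z := prod_nonneg fun z _ => hx0 z
      have hp1 : ∏ z ∈ (e.erase u).erase v, x z ≤ μ := by
        rw [← mul_prod_erase _ _ hz0]
        have h1 : ∏ z ∈ ((e.erase u).erase v).erase z0, x z ≤ 1 :=
          prod_le_one (fun z _ => hx0 z) (fun z _ => (hxμ z).trans hμ)
        calc x z0 * ∏ z ∈ ((e.erase u).erase v).erase z0, x z ≤ x z0 * 1 :=
              mul_le_mul_of_nonneg_left h1 (hx0 z0)
          _ ≤ μ := by rw [mul_one]; exact hxμ z0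
      rw [abs_mul, abs_of_nonneg hp0, abs_mul]
      have h2 : |w u| * |w v| ≤ (w u ^ 2 + w v ^ 2) / 2 := by
        have := sq_nonneg (|w u| - |w v|)
        have e1 := sq_abs (w u)
        have e2 := sq_abs (w v)
        nlinarith
      calc |w u| * |w v| * ∏ z ∈ (e.erase u).erase v, x z
          ≤ |w u| * |w v| * μ :=
            mul_le_mul_of_nonneg_left hp1 (mul_nonneg (abs_nonneg _) (abs_nonneg _))
        _ ≤ (w u ^ 2 + w v ^ 2) / 2 * μ := mul_le_mul_of_nonneg_right h2 hμ0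
        _ = μ * ((w u ^ 2 + w v ^ 2) / 2) := mul_comm _ _
    calc |∑ u ∈ e, ∑ v ∈ e.erase u, w u * w v * ∏ z ∈ (e.erase u).erase v, x z|
        ≤ ∑ u ∈ e, ∑ v ∈ e.erase u, μ * ((w u ^ 2 + w v ^ 2) / 2) :=
          (abs_sum_le_sum_abs _ _).trans (sum_le_sum fun u hu =>
            (abs_sum_le_sum_abs _ _).trans (sum_le_sum fun v hv => hterm u hu v hv))
      _ ≤ ∑ u ∈ e, ∑ v ∈ e, μ * ((w u ^ 2 + w v ^ 2) / 2) :=
          sum_le_sum fun u _ => sum_le_sum_of_subset_of_nonneg (erase_subset _ _)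
            fun v _ _ => by positivity
      _ = r * μ * ∑ v ∈ e, w v ^ 2 := by
          have e1 : ∀ u ∈ e, ∑ v ∈ e, μ * ((w u ^ 2 + w v ^ 2) / 2) =
              μ / 2 * (r * w u ^ 2) + μ / 2 * ∑ v ∈ e, w v ^ 2 := by
            intro u _
            rw [← mul_sum, ← sum_div, sum_add_distrib, sum_const, hcard, nsmul_eq_mul]
            ring
          rw [sum_congr rfl e1, sum_add_distrib, sum_const, hcard, nsmul_eq_mul, ← mul_sum,
            ← mul_sum]
          ring
      _ ≤ r * μ * ∑ v, w v ^ 2 :=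
          mul_le_mul_of_nonneg_left
            (sum_le_sum_of_subset_of_nonneg (subset_univ _) fun v _ _ => sq_nonneg _)
            (by positivity)
  unfold d2lag
  refine (abs_sum_le_sum_abs _ _).trans ((sum_le_sum key).trans ?_)
  rw [sum_const, nsmul_eq_mul]
  exact le_of_eq (by ring)

end CT
end

section

/-!
# Lower bound for elementary symmetric polynomials

Proof.  Induction on `k`: `(k+1) esy univ (k+1) x = ∑_{|T|=k} x^T ∑_{v ∉ T} x v = ∑_T x^T (1 - ∑_T x) ≥ (1 - k μ) esy univ k x`.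
-/

set_option autoImplicit false

open Finset

namespace CT

private theorem esy_succ_aux {V : Type*} [Fintype V] [DecidableEq V] (x : V → ℝ) (k : ℕ) :
    ((k : ℝ) + 1) * esy univ (k + 1) x =
      ∑ T ∈ powersetCard k (univ : Finset V), ∑ v ∈ univ \ T, x v * ∏ u ∈ T, x u := by
  unfold esy
  rw [Finset.mul_sum]
  have h1 : ∀ e ∈ powersetCard (k + 1) (univ : Finset V),
      ((k : ℝ) + 1) * ∏ v ∈ e, x v = ∑ v ∈ e, x v * ∏ u ∈ e.erase v, x u := by
    intro e he
    rw [Finset.mem_powersetCard] at he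
    rw [Finset.sum_congr rfl (fun v hv => Finset.mul_prod_erase e x hv), Finset.sum_const, he.2,
      nsmul_eq_mul]
    push_cast
    ring
  rw [Finset.sum_congr rfl h1, Finset.sum_sigma', Finset.sum_sigma']
  refine Finset.sum_bij' (fun q _ => ⟨q.1.erase q.2, q.2⟩) (fun q _ => ⟨insert q.2 q.1, q.2⟩)
    ?_ ?_ ?_ ?_ ?_
  · rintro ⟨e, v⟩ h
    simp only [Finset.mem_sigma, Finset.mem_powersetCard, Finset.subset_univ, true_and,
      Finset.mem_sdiff, Finset.mem_univ, Finset.mem_erase] at h ⊢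
    refine ⟨?_, by simp⟩
    rw [Finset.card_erase_of_mem h.2, h.1]
    simp
  · rintro ⟨e, v⟩ h
    simp only [Finset.mem_sigma, Finset.mem_powersetCard, Finset.subset_univ, true_and,
      Finset.mem_sdiff, Finset.mem_univ] at h ⊢
    refine ⟨?_, by simp⟩
    rw [Finset.card_insert_of_notMem h.2, h.1]
  · rintro ⟨e, v⟩ h
    simp only [Finset.mem_sigma, Finset.mem_powersetCard, Finset.subset_univ, true_and] at h
    simp [Finset.insert_erase h.2]
  · rintro ⟨e, v⟩ h
    simp only [Finset.mem_sigma, Finset.mem_powersetCard, Finset.subset_univ, true_and,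
      Finset.mem_sdiff, Finset.mem_univ] at h
    simp [Finset.erase_insert h.2]
  · rintro ⟨e, v⟩ h
    rfl

theorem esy_ge {V : Type*} [Fintype V] [DecidableEq V] (x : V → ℝ) (μ : ℝ)
    (hx0 : ∀ v, 0 ≤ x v) (hxμ : ∀ v, x v ≤ μ) (hx1 : ∑ v, x v = 1) (k : ℕ) (hk : (k : ℝ) * μ ≤ 1) :
    (1 - (k : ℝ) * μ) ^ k / (k.factorial : ℝ) ≤ esy univ k x := by
  have hne : Nonempty V := by
    by_contra h
    rw [not_nonempty_iff] at h
    simp at hx1
  obtain ⟨v0⟩ := hne
  have hμ : 0 ≤ μ := le_trans (hx0 v0) (hxμ v0)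
  induction k with
  | zero => simp [esy]
  | succ k ih =>
    push_cast at hk ⊢
    have hk' : (k : ℝ) * μ ≤ 1 := by nlinarith
    have ih' := ih hk'
    have h1 := esy_succ_aux x k
    have h2 : (1 - (k : ℝ) * μ) * esy univ k x ≤ ((k : ℝ) + 1) * esy univ (k + 1) x := by
      rw [h1]
      unfold esy
      rw [Finset.mul_sum]
      apply Finset.sum_le_sum
      intro T hT
      rw [Finset.mem_powersetCard] at hT
      rw [← Finset.sum_mul]
      apply mul_le_mul_of_nonneg_right _ (Finset.prod_nonneg (fun v _ => hx0 v))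
      have h3 : ∑ v ∈ univ \ T, x v + ∑ v ∈ T, x v = 1 := by
        rw [Finset.sum_sdiff (Finset.subset_univ T), hx1]
      have h4 : ∑ v ∈ T, x v ≤ (k : ℝ) * μ := by
        have h5 := Finset.sum_le_card_nsmul T x μ (fun v _ => hxμ v)
        rw [hT.2, nsmul_eq_mul] at h5
        exact h5
      linarith
    have hk1 : (0 : ℝ) < (k : ℝ) + 1 := by positivity
    have hfac : (0 : ℝ) < (k.factorial : ℝ) := by positivity
    have h6 : (1 - ((k : ℝ) + 1) * μ) ^ (k + 1) ≤ (1 - (k : ℝ) * μ) ^ (k + 1) := by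
      apply pow_le_pow_left₀ (by linarith)
      nlinarith
    have h7 : (1 - (k : ℝ) * μ) * ((1 - (k : ℝ) * μ) ^ k / (k.factorial : ℝ)) ≤
        ((k : ℝ) + 1) * esy univ (k + 1) x :=
      le_trans (mul_le_mul_of_nonneg_left ih' (by linarith)) h2
    rw [Nat.factorial_succ]
    push_cast
    rw [div_le_iff₀ (by positivity)]
    have h8 : (1 - (k : ℝ) * μ) ^ (k + 1) =
        (1 - (k : ℝ) * μ) * ((1 - (k : ℝ) * μ) ^ k / (k.factorial : ℝ)) * (k.factorial : ℝ) := by
      field_simp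
      ring
    calc (1 - ((k : ℝ) + 1) * μ) ^ (k + 1) ≤ (1 - (k : ℝ) * μ) ^ (k + 1) := h6
      _ = (1 - (k : ℝ) * μ) * ((1 - (k : ℝ) * μ) ^ k / (k.factorial : ℝ)) * (k.factorial : ℝ) := h8
      _ ≤ (((k : ℝ) + 1) * esy univ (k + 1) x) * (k.factorial : ℝ) :=
          mul_le_mul_of_nonneg_right h7 hfac.le
      _ = esy univ (k + 1) x * (((k : ℝ) + 1) * (k.factorial : ℝ)) := by ring

end CT
end

section

/-!
# Random permutations of an `r`-graph

Proof.  Fix `T` with `T.card = r`.  The number of permutations `σ` with `T ∈ L.image (fun e => e.image σ)` (i.e. `T.image σ⁻¹ ∈ L`) is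
`card L * r! * (a-r)!  = card L / choose a r * a!` (`σ ↦ T.image σ⁻¹` is equidistributed on `r`-sets by transitivity), at
least `q * a!`.  By `few_bad` (with `Ω := Equiv.Perm (Fin a)`) at most `ϑ^N (a!)^N` of the families `σ : Fin N → Perm` are bad
for `T`; the union over `choose a r ≤ a^r` sets `T` has less than `(a!)^N` elements if `a^r ϑ^N < 1`, which holds for
`N ≥ a / C`... for `a` large since `N ≥ a` (exponential beats polynomial).
-/

set_option autoImplicit false

open Finset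

namespace CT

private lemma A22_image {a : ℕ} (T : Finset (Fin a)) (σ τ : Equiv.Perm (Fin a)) :
    T.image (τ * σ) = (T.image σ).image τ := by
  rw [Finset.image_image]
  rfl

private lemma A22_exists {a : ℕ} (e e' : Finset (Fin a)) (h : e.card = e'.card) :
    ∃ τ : Equiv.Perm (Fin a), e.image τ = e' := by
  classical
  have hc : Fintype.card {x // x ∈ e} = Fintype.card {x // x ∈ e'} := by
    rw [Fintype.card_coe, Fintype.card_coe, h]
  obtain ⟨g⟩ := Fintype.card_eq.1 hc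
  refine ⟨g.extendSubtype, ?_⟩
  apply Finset.eq_of_subset_of_card_le
  · intro x hx
    obtain ⟨y, hy, rfl⟩ := Finset.mem_image.1 hx
    exact g.extendSubtype_mem y hy
  · rw [Finset.card_image_of_injective _ (Equiv.injective _), h]

private lemma A22_fiber {a : ℕ} (T e e' : Finset (Fin a)) (h : e.card = e'.card) :
    (univ.filter (fun σ : Equiv.Perm (Fin a) => T.image σ = e)).card =
      (univ.filter (fun σ : Equiv.Perm (Fin a) => T.image σ = e')).card := by
  obtain ⟨τ, hτ⟩ := A22_exists e e' h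
  refine Finset.card_bij (fun σ _ => τ * σ) ?_ ?_ ?_
  · intro σ hσ
    rw [Finset.mem_filter] at hσ ⊢
    exact ⟨Finset.mem_univ _, by rw [A22_image, hσ.2, hτ]⟩
  · intro σ _ σ' _ hh
    exact mul_left_cancel hh
  · intro σ hσ
    rw [Finset.mem_filter] at hσ
    refine ⟨τ⁻¹ * σ, ?_, by simp⟩
    rw [Finset.mem_filter]
    refine ⟨Finset.mem_univ _, ?_⟩
    rw [A22_image, hσ.2, ← hτ, ← A22_image]
    simp

private lemma A22_count {a r : ℕ} (T : Finset (Fin a)) (hT : T.card = r)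
    (L : Finset (Finset (Fin a))) (hL : Unif r L) :
    (univ.filter (fun σ : Equiv.Perm (Fin a) => T.image σ ∈ L)).card * a.choose r =
      L.card * a.factorial := by
  classical
  set c := (univ.filter (fun σ : Equiv.Perm (Fin a) => T.image σ = T)).card with hc
  have hce : ∀ e : Finset (Fin a), e.card = r →
      (univ.filter (fun σ : Equiv.Perm (Fin a) => T.image σ = e)).card = c := fun e he =>
    A22_fiber T e T (by rw [he, hT])
  have h1 : (univ.filter (fun σ : Equiv.Perm (Fin a) => T.image σ ∈ L)).card = L.card * c := by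
    rw [Finset.card_eq_sum_card_fiberwise (f := fun σ : Equiv.Perm (Fin a) => T.image σ) (t := L)]
    · rw [Finset.sum_congr rfl fun e he => ?_, Finset.sum_const, smul_eq_mul]
      rw [← hce e (hL e he)]
      congr 1
      ext σ
      simp only [Finset.mem_filter, Finset.mem_univ, true_and]
      constructor
      · exact fun h => h.2
      · intro h
        exact ⟨by rw [h]; exact he, h⟩
    · intro σ hσ
      simp only [Finset.coe_filter, Set.mem_ofPred_eq] at hσ
      exact hσ.2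
  have h2 : a.factorial = a.choose r * c := by
    have h3 : (univ : Finset (Equiv.Perm (Fin a))).card = a.factorial := by
      rw [Finset.card_univ, Fintype.card_perm, Fintype.card_fin]
    rw [← h3, Finset.card_eq_sum_card_fiberwise
      (f := fun σ : Equiv.Perm (Fin a) => T.image σ) (t := powersetCard r univ)]
    · rw [Finset.sum_congr rfl fun e he => hce e (Finset.mem_powersetCard.1 he).2,
        Finset.sum_const, smul_eq_mul, Finset.card_powersetCard, Finset.card_univ,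
        Fintype.card_fin]
    · intro σ _
      rw [Finset.mem_coe, Finset.mem_powersetCard]
      exact ⟨Finset.subset_univ _, by rw [Finset.card_image_of_injective _ σ.injective, hT]⟩
  rw [h1, h2]
  ring

theorem perm_family (r : ℕ) (q ε : ℝ) (hε : 0 < ε) (hq : ε ≤ q) (hq1 : q ≤ 1) : ∃ a0 : ℕ, ∀ a N : ℕ, a0 ≤ a → a ≤ N →
    ∀ L : Finset (Finset (Fin a)), Unif r L → q * ((a.choose r : ℕ) : ℝ) ≤ (L.card : ℝ) →
    ∃ σ : Fin N → Equiv.Perm (Fin a), ∀ T : Finset (Fin a), T.card = r →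
      (q - ε) * (N : ℝ) ≤ ((univ.filter (fun i => T.image (σ i) ∈ L)).card : ℝ) := by
  classical
  obtain ⟨ϑ, hϑ0, hϑ1, hB⟩ := few_bad q ε hε hq hq1
  have hlim : Filter.Tendsto (fun n : ℕ => (n : ℝ) ^ r * ϑ ^ n) Filter.atTop (nhds 0) :=
    tendsto_pow_const_mul_const_pow_of_lt_one r hϑ0.le hϑ1
  obtain ⟨a0, ha0⟩ := Filter.eventually_atTop.1 (hlim.eventually (gt_mem_nhds (zero_lt_one)))
  refine ⟨a0, fun a N haa haN L hL hLc => ?_⟩
  set B : Finset (Fin a) → Finset (Equiv.Perm (Fin a)) := fun T =>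
    univ.filter (fun σ : Equiv.Perm (Fin a) => T.image σ ∈ L) with hBdef
  set Bad : Finset (Fin a) → Finset (Fin N → Equiv.Perm (Fin a)) := fun T =>
    univ.filter (fun f : Fin N → Equiv.Perm (Fin a) =>
      ((univ.filter (fun i => f i ∈ B T)).card : ℝ) ≤ (q - ε) * N) with hBad
  have hfac : (Fintype.card (Equiv.Perm (Fin a)) : ℝ) = (a.factorial : ℝ) := by
    rw [Fintype.card_perm, Fintype.card_fin]
  have hbad : ∀ T ∈ powersetCard r (univ : Finset (Fin a)),
      ((Bad T).card : ℝ) ≤ ϑ ^ N * (a.factorial : ℝ) ^ N := by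
    intro T hT
    have hTr := (Finset.mem_powersetCard.1 hT).2
    have hra : r ≤ a := by
      have := Finset.card_le_univ T
      rwa [hTr, Fintype.card_fin] at this
    have h1 := A22_count T hTr L hL
    have h2 : q * (Fintype.card (Equiv.Perm (Fin a)) : ℝ) ≤ ((B T).card : ℝ) := by
      rw [hfac]
      have hch : (0 : ℝ) < ((a.choose r : ℕ) : ℝ) := by exact_mod_cast Nat.choose_pos hra
      have h3 : ((B T).card : ℝ) * ((a.choose r : ℕ) : ℝ) = (L.card : ℝ) * (a.factorial : ℝ) := by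
        exact_mod_cast h1
      have hfp : (0 : ℝ) ≤ (a.factorial : ℝ) := by positivity
      have h4 := mul_le_mul_of_nonneg_right hLc hfp
      nlinarith
    have h3 := hB (Equiv.Perm (Fin a)) (B T) h2 N
    rw [hfac] at h3
    exact h3
  have hlt : (((powersetCard r (univ : Finset (Fin a))).biUnion Bad).card : ℝ) <
      (a.factorial : ℝ) ^ N := by
    have h1 : (((powersetCard r (univ : Finset (Fin a))).biUnion Bad).card : ℝ) ≤
        ∑ T ∈ powersetCard r (univ : Finset (Fin a)), ((Bad T).card : ℝ) := by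
      exact_mod_cast Finset.card_biUnion_le
    have h2 : ∑ T ∈ powersetCard r (univ : Finset (Fin a)), ((Bad T).card : ℝ) ≤
        (a.choose r : ℝ) * (ϑ ^ N * (a.factorial : ℝ) ^ N) := by
      refine (Finset.sum_le_sum hbad).trans (le_of_eq ?_)
      rw [Finset.sum_const, Finset.card_powersetCard, Finset.card_univ, Fintype.card_fin,
        nsmul_eq_mul]
    have h3 : (a.choose r : ℝ) ≤ (a : ℝ) ^ r := by exact_mod_cast Nat.choose_le_pow a r
    have h4 : ϑ ^ N ≤ ϑ ^ a := pow_le_pow_of_le_one hϑ0.le hϑ1.le haN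
    have h5 := ha0 a haa
    have hF : (0 : ℝ) < (a.factorial : ℝ) ^ N := by positivity
    have h6 : (a.choose r : ℝ) * ϑ ^ N ≤ (a : ℝ) ^ r * ϑ ^ a :=
      mul_le_mul h3 h4 (by positivity) (by positivity)
    calc (((powersetCard r (univ : Finset (Fin a))).biUnion Bad).card : ℝ)
        ≤ (a.choose r : ℝ) * (ϑ ^ N * (a.factorial : ℝ) ^ N) := h1.trans h2
      _ = ((a.choose r : ℝ) * ϑ ^ N) * (a.factorial : ℝ) ^ N := by ring
      _ < 1 * (a.factorial : ℝ) ^ N := mul_lt_mul_of_pos_right (h6.trans_lt h5) hF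
      _ = (a.factorial : ℝ) ^ N := one_mul _
  have hcard : (Fintype.card (Fin N → Equiv.Perm (Fin a)) : ℝ) = (a.factorial : ℝ) ^ N := by
    rw [Fintype.card_fun, Fintype.card_fin, Nat.cast_pow, hfac]
  have hex : ∃ σ : Fin N → Equiv.Perm (Fin a),
      σ ∉ (powersetCard r (univ : Finset (Fin a))).biUnion Bad := by
    by_contra hcon
    push Not at hcon
    have h1 : (powersetCard r (univ : Finset (Fin a))).biUnion Bad = univ :=
      Finset.eq_univ_of_forall hcon
    rw [h1, Finset.card_univ, hcard] at hlt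
    exact lt_irrefl _ hlt
  obtain ⟨σ, hσ⟩ := hex
  refine ⟨σ, fun T hT => ?_⟩
  by_contra hcon
  push Not at hcon
  apply hσ
  rw [Finset.mem_biUnion]
  refine ⟨T, Finset.mem_powersetCard.2 ⟨Finset.subset_univ _, hT⟩, ?_⟩
  simp only [hBad, hBdef, Finset.mem_filter, Finset.mem_univ, true_and]
  exact hcon.le

end CT
end

section

/-!
# Greenwell-Lovasz

Proof.  `θ v := ψ (fun _ => v)` is injective (constants of different vertices differ everywhere; `ι` is nonempty because otherwise `h q q`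
is absurd), so bijective; apply `gl_norm` to `θ⁻¹ ∘ ψ`.
-/

set_option autoImplicit false

open Finset

namespace CT

theorem greenwell_lovasz {V ι : Type*} [Fintype V] [DecidableEq V] [Fintype ι] [DecidableEq ι]
    (hV : 3 ≤ Fintype.card V) (ψ : (ι → V) → V) (h : ∀ q q' : ι → V, (∀ i, q i ≠ q' i) → ψ q ≠ ψ q') :
    ∃ (i : ι) (θ : V → V), Function.Injective θ ∧ ∀ q, ψ q = θ (q i) := by
  set θ : V → V := fun v => ψ (fun _ => v) with hθ
  have hinj : Function.Injective θ := by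
    intro v w hvw
    by_contra hne
    exact h (fun _ => v) (fun _ => w) (fun _ => hne) hvw
  have hbij : Function.Bijective θ := Finite.injective_iff_bijective.1 hinj
  set e : V ≃ V := Equiv.ofBijective θ hbij with he
  have hes : ∀ v, e.symm (θ v) = v := fun v => Equiv.ofBijective_symm_apply_apply θ hbij v
  obtain ⟨i, hi⟩ := gl_norm hV (fun q => e.symm (ψ q))
    (fun q q' hq hqq => h q q' hq (e.symm.injective hqq)) (fun v => hes v)
  refine ⟨i, θ, hinj, fun q => ?_⟩
  have h1 : e.symm (ψ q) = q i := hi q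
  rw [← h1]
  exact (Equiv.ofBijective_apply_symm_apply θ hbij (ψ q)).symm

end CT
end

section

/-!
# The lower bound construction on `Fin a ⊕ Fin N`

Proof.  The hypergraph `H := univ.filter (fun e => e.card = r + 1 ∧ ((1 ≤ x e ∧ x e ≤ r - 1) ∨ (x e = r ∧ ∃ b, inr b ∈ e ∧ (A-part of e).image (σ b) ∈ L)))`
with `x e` the number of elements of `e` in the left part and `A-part : Finset (Fin a)` the preimage.  `InS`: `A := univ.image inl`; for `b = inr i` and `ψ` with
values in `A`, if all `insert b (e.image ψ) ∈ H` then `w ↦ σ i (the left part of ψ w)` is a hom `G → L` (edges have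
`r + 1` elements, exactly one of them on the right).  Codegrees: `S` with `x = r`: at least the number given by `hσ`;
`1 ≤ x ≤ r - 1`: all the right vertices outside `S`, at least `N - r`; `x = 0`: all `a` left vertices (`r ≥ 2`).
-/

set_option autoImplicit false

open Finset

namespace CT

open Classical in
/-- the construction -/
private noncomputable def HH {a N : ℕ} (r : ℕ) (L : Finset (Finset (Fin a))) (σ : Fin N → Equiv.Perm (Fin a)) :
    Finset (Finset (Fin a ⊕ Fin N)) :=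
  univ.filter (fun e => e.card = r + 1 ∧ ((1 ≤ e.toLeft.card ∧ e.toLeft.card ≤ r - 1) ∨
    (e.toLeft.card = r ∧ ∃ i, Sum.inr i ∈ e ∧ e.toLeft.image (σ i) ∈ L)))

private theorem mem_HH {a N : ℕ} {r : ℕ} {L : Finset (Finset (Fin a))} {σ : Fin N → Equiv.Perm (Fin a)}
    {e : Finset (Fin a ⊕ Fin N)} : e ∈ HH r L σ ↔ e.card = r + 1 ∧ ((1 ≤ e.toLeft.card ∧ e.toLeft.card ≤ r - 1) ∨
    (e.toLeft.card = r ∧ ∃ i, Sum.inr i ∈ e ∧ e.toLeft.image (σ i) ∈ L)) := by
  unfold HH
  simp only [mem_filter, mem_univ, true_and]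

theorem lowerH {W : Type} [Fintype W] [DecidableEq W] {r : ℕ} (hr : 2 ≤ r) {G : Finset (Finset W)} (hGu : Unif r G)
    {a N : ℕ} {L : Finset (Finset (Fin a))} (hL : Unif r L) (hGL : ¬ HomTo G L) (σ : Fin N → Equiv.Perm (Fin a)) {c : ℝ}
    (hσ : ∀ T : Finset (Fin a), T.card = r → c ≤ ((univ.filter (fun i => T.image (σ i) ∈ L)).card : ℝ))
    (hc1 : c ≤ (N : ℝ) - r) (hc2 : c ≤ (a : ℝ)) :
    ∃ H : Finset (Finset (Fin a ⊕ Fin N)), Unif (r + 1) H ∧ InS G H ∧ MinCo r H c := by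
  refine ⟨HH r L σ, fun e he => (mem_HH.1 he).1, ?_, ?_⟩
  · refine ⟨univ.image Sum.inl, ?_, ?_, ?_⟩
    · intro e he hsub
      obtain ⟨h1, h2⟩ := mem_HH.1 he
      have h3 : e.toRight = ∅ := by
        rw [eq_empty_iff_forall_notMem]
        intro x hx
        rw [mem_toRight] at hx
        have := hsub hx
        rw [mem_image] at this
        obtain ⟨y, _, hy⟩ := this
        exact absurd hy (by simp)
      have h4 := card_toLeft_add_card_toRight (u := e)
      rw [h3, card_empty, h1] at h4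
      rcases h2 with ⟨_, h2⟩ | ⟨h2, _⟩ <;> omega
    · intro e he
      obtain ⟨h1, h2⟩ := mem_HH.1 he
      have h3 : 0 < e.toLeft.card := by
        rcases h2 with ⟨h2, _⟩ | ⟨h2, _⟩ <;> omega
      obtain ⟨x, hx⟩ := card_pos.1 h3
      exact ⟨Sum.inl x, mem_toLeft.1 hx, mem_image_of_mem _ (mem_univ x)⟩
    · intro b hb ψ hψ
      by_contra hcon
      push Not at hcon
      rcases b with b | i
      · exact hb (mem_image_of_mem _ (mem_univ b))
      · have hex : ∀ w, ∃ v : Fin a, ψ w = Sum.inl v := by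
          intro w
          have := hψ w
          rw [mem_image] at this
          obtain ⟨y, _, hy⟩ := this
          exact ⟨y, hy.symm⟩
        choose φ hφ using hex
        apply hGL
        refine ⟨fun w => σ i (φ w), fun e he => ?_⟩
        have h1 := hcon e he
        have him : e.image ψ = (e.image φ).image Sum.inl := by
          rw [image_image]
          apply image_congr
          intro w _
          exact hφ w
        have hL1 : (insert (Sum.inr i : Fin a ⊕ Fin N) (e.image ψ)).toLeft = e.image φ := by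
          rw [toLeft_insert_inr, him]
          ext v
          simp
        have hR1 : (insert (Sum.inr i : Fin a ⊕ Fin N) (e.image ψ)).toRight = {i} := by
          rw [toRight_insert_inr, him]
          ext v
          simp
        obtain ⟨h2, h3⟩ := mem_HH.1 h1
        have h4 := card_toLeft_add_card_toRight (u := insert (Sum.inr i : Fin a ⊕ Fin N) (e.image ψ))
        rw [hR1, card_singleton, h2] at h4
        rcases h3 with ⟨_, h3⟩ | ⟨_, i', h5, h6⟩
        · omega
        · have h7 : i' = i := by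
            have h8 := (mem_toRight (u := insert (Sum.inr i : Fin a ⊕ Fin N) (e.image ψ)) (b := i')).2 h5
            rw [hR1, mem_singleton] at h8
            exact h8
          subst h7
          rw [hL1, image_image] at h6
          exact h6
  · intro S hS
    have hcard := card_toLeft_add_card_toRight (u := S)
    rw [hS] at hcard
    rcases Nat.eq_zero_or_pos S.toLeft.card with h0 | h0
    · -- no left vertices
      have h1 : (univ.map (⟨Sum.inl, Sum.inl_injective⟩ : Fin a ↪ Fin a ⊕ Fin N)) ⊆ nb (HH r L σ) S := by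
        intro v hv
        rw [mem_map] at hv
        obtain ⟨x, _, rfl⟩ := hv
        have h2 : (Sum.inl x : Fin a ⊕ Fin N) ∉ S := by
          intro h
          have h3 : x ∈ S.toLeft := mem_toLeft.2 h
          have := card_pos.2 ⟨x, h3⟩
          omega
        unfold nb
        rw [mem_filter]
        refine ⟨mem_univ _, h2, ?_⟩
        show insert (Sum.inl x) S ∈ HH r L σ
        rw [mem_HH]
        refine ⟨by rw [card_insert_of_notMem h2, hS], Or.inl ?_⟩
        rw [toLeft_insert_inl]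
        have h3 : x ∉ S.toLeft := fun h => h2 (mem_toLeft.1 h)
        rw [card_insert_of_notMem h3]
        omega
      have h2 := card_le_card h1
      rw [card_map, card_univ, Fintype.card_fin] at h2
      have h3 : (a : ℝ) ≤ ((nb (HH r L σ) S).card : ℝ) := by exact_mod_cast h2
      linarith
    · by_cases h1 : S.toLeft.card = r
      · have hR : S.toRight = ∅ := by
          rw [← card_eq_zero]; omega
        have h2 : ((univ.filter (fun i => S.toLeft.image (σ i) ∈ L)).map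
            (⟨Sum.inr, Sum.inr_injective⟩ : Fin N ↪ Fin a ⊕ Fin N)) ⊆ nb (HH r L σ) S := by
          intro v hv
          rw [mem_map] at hv
          obtain ⟨i, hi, rfl⟩ := hv
          rw [mem_filter] at hi
          have h3 : (Sum.inr i : Fin a ⊕ Fin N) ∉ S := by
            intro h
            have h3 : i ∈ S.toRight := mem_toRight.2 h
            rw [hR] at h3
            exact absurd h3 (notMem_empty _)
          unfold nb
          rw [mem_filter]
          refine ⟨mem_univ _, h3, ?_⟩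
          show insert (Sum.inr i) S ∈ HH r L σ
          rw [mem_HH]
          refine ⟨by rw [card_insert_of_notMem h3, hS], Or.inr ?_⟩
          rw [toLeft_insert_inr]
          exact ⟨h1, i, mem_insert_self _ _, hi.2⟩
        have h3 := card_le_card h2
        rw [card_map] at h3
        have h4 := hσ S.toLeft h1
        have h5 : ((univ.filter (fun i => S.toLeft.image (σ i) ∈ L)).card : ℝ) ≤ ((nb (HH r L σ) S).card : ℝ) := by
          exact_mod_cast h3
        linarith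
      · have h2 : ((univ \ S.toRight).map
            (⟨Sum.inr, Sum.inr_injective⟩ : Fin N ↪ Fin a ⊕ Fin N)) ⊆ nb (HH r L σ) S := by
          intro v hv
          rw [mem_map] at hv
          obtain ⟨i, hi, rfl⟩ := hv
          rw [mem_sdiff] at hi
          have h3 : (Sum.inr i : Fin a ⊕ Fin N) ∉ S := fun h => hi.2 (mem_toRight.2 h)
          unfold nb
          rw [mem_filter]
          refine ⟨mem_univ _, h3, ?_⟩
          show insert (Sum.inr i) S ∈ HH r L σ
          rw [mem_HH]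
          refine ⟨by rw [card_insert_of_notMem h3, hS], Or.inl ?_⟩
          rw [toLeft_insert_inr]
          omega
        have h3 := card_le_card h2
        rw [card_map, card_sdiff_of_subset (subset_univ _), card_univ, Fintype.card_fin] at h3
        have h4 : (N : ℝ) - r ≤ ((nb (HH r L σ) S).card : ℝ) := by
          have h5 : N ≤ (nb (HH r L σ) S).card + r := by omega
          have h6 : (N : ℝ) ≤ ((nb (HH r L σ) S).card : ℝ) + r := by exact_mod_cast h5
          linarith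
        linarith

end CT
end

section

/-!
# The lower bound

Proof.  `d = y/(1+y)`, `y (1-d) = d`, `d ≤ 1/2`.  Given `ε` (small, w.l.o.g. `ε < y/4`...) put `a := ⌊d n⌋`, `N := n - a ≥ a`, `L` from
`hG.low` on `Fin a`, `σ` from `perm_family` with `q := y - ε/4`..., so the number is at least `(y - ε/2) N ≥ (y - ε/2)(1-d) n ≥ (d - ε) n`.
`lowerH` with `c := (d-ε) n` (`N - r ≥ n/2 - r`, `a ≥ d n - 1`), transport along `Fin a ⊕ Fin N ≃ Fin n` (`finSumFinEquiv`).
`InS G H` and `MinCo` are transported along an equivalence.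
-/

set_option autoImplicit false

open Finset

namespace CT

private theorem A24_transport {U V W : Type} [Fintype U] [DecidableEq U] [Fintype V] [DecidableEq V]
    [DecidableEq W] {r : ℕ} {G : Finset (Finset W)} {c : ℝ} (φ : U ≃ V)
    (h : ∃ H : Finset (Finset U), Unif (r + 1) H ∧ InS G H ∧ MinCo r H c) :
    ∃ H : Finset (Finset V), Unif (r + 1) H ∧ InS G H ∧ MinCo r H c := by
  obtain ⟨H, h1, h2, h3⟩ := h
  have himg : ∀ e : Finset U, (e.image φ).image φ.symm = e := by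
    intro e
    rw [Finset.image_image]
    simp
  have himg' : ∀ e : Finset V, (e.image φ.symm).image φ = e := by
    intro e
    rw [Finset.image_image]
    simp
  refine ⟨H.image (fun e => e.image φ), ?_, ?_, ?_⟩
  · intro e he
    obtain ⟨e', he', rfl⟩ := Finset.mem_image.mp he
    rw [Finset.card_image_of_injective _ φ.injective]
    exact h1 e' he'
  · apply InS_of_hom (H := H) _ h2
    refine ⟨φ.symm, fun e he => ?_⟩
    obtain ⟨e', he', rfl⟩ := Finset.mem_image.mp he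
    show (e'.image φ).image φ.symm ∈ H
    rw [himg]
    exact he'
  · intro S hS
    have hS' : (S.image φ.symm).card = r := by
      rw [Finset.card_image_of_injective _ φ.symm.injective, hS]
    refine (h3 _ hS').trans ?_
    have hsub : (nb H (S.image φ.symm)).image φ ⊆ nb (H.image (fun e => e.image φ)) S := by
      intro v hv
      obtain ⟨u, hu, rfl⟩ := Finset.mem_image.mp hv
      simp only [nb, Finset.mem_filter, Finset.mem_univ, true_and] at hu ⊢
      obtain ⟨hu1, hu2⟩ := hu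
      constructor
      · intro hh
        apply hu1
        exact Finset.mem_image.mpr ⟨φ u, hh, by simp⟩
      · refine Finset.mem_image.mpr ⟨_, hu2, ?_⟩
        rw [Finset.image_insert, himg']
    have hc := Finset.card_le_card hsub
    rw [Finset.card_image_of_injective _ φ.injective] at hc
    exact_mod_cast hc

theorem lower_bound {W : Type} [Fintype W] [DecidableEq W] {r : ℕ} (hr : 2 ≤ r) {y : ℝ} {G : Finset (Finset W)}
    (hG : Good r y G) (hy : 0 < y) (hy1 : y ≤ 1) : ∀ ε : ℝ, 0 < ε → ∃ n0 : ℕ, ∀ n : ℕ, n0 ≤ n →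
      ∃ H : Finset (Finset (Fin n)), Unif (r + 1) H ∧ InS G H ∧ MinCo r H ((y / (1 + y) - ε) * n) := by
  intro ε hε
  obtain ⟨δ, hδ0, hδε, hδy⟩ : ∃ δ : ℝ, 0 < δ ∧ δ ≤ ε ∧ δ ≤ y / 8 :=
    ⟨min ε (y / 8), lt_min hε (by positivity), min_le_left _ _, min_le_right _ _⟩
  obtain ⟨d, hd⟩ : ∃ d : ℝ, d = y / (1 + y) := ⟨_, rfl⟩
  have hy2 : (0 : ℝ) < 1 + y := by linarith
  have hd0 : 0 < d := by rw [hd]; positivity
  have hyd : y * (1 - d) = d := by rw [hd]; field_simp; ring
  have hd2 : d ≤ 1 / 2 := by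
    rw [hd, div_le_iff₀ hy2]
    linarith
  obtain ⟨a0, ha0⟩ := perm_family r (y - δ / 4) (δ / 4) (by positivity) (by linarith) (by linarith)
  obtain ⟨a1, ha1⟩ := hG.low (δ / 4) (by positivity)
  obtain ⟨n0, hn0⟩ := exists_nat_ge (((a0 : ℝ) + a1 + 2) / d + ((r : ℝ) + 1) / δ)
  refine ⟨n0, fun n hn => ?_⟩
  have hnR : (n0 : ℝ) ≤ n := by exact_mod_cast hn
  have hA : ((a0 : ℝ) + a1 + 2) / d ≤ n := by
    have : (0 : ℝ) ≤ ((r : ℝ) + 1) / δ := by positivity
    linarith
  have hB : ((r : ℝ) + 1) / δ ≤ n := by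
    have : (0 : ℝ) ≤ ((a0 : ℝ) + a1 + 2) / d := by positivity
    linarith
  rw [div_le_iff₀ hd0] at hA
  rw [div_le_iff₀ hδ0] at hB
  have hn_nonneg : (0 : ℝ) ≤ n := Nat.cast_nonneg n
  have hdn : 0 ≤ d * n := by positivity
  obtain ⟨a, ha⟩ : ∃ a : ℕ, a = ⌊d * n⌋₊ := ⟨_, rfl⟩
  have ha_le : (a : ℝ) ≤ d * n := by rw [ha]; exact Nat.floor_le hdn
  have ha_ge : d * n < a + 1 := by rw [ha]; exact Nat.lt_floor_add_one _
  have haN : (a : ℝ) ≤ n := by nlinarith
  have haN' : a ≤ n := by exact_mod_cast haN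
  obtain ⟨N, hN⟩ : ∃ N : ℕ, n = a + N := ⟨n - a, by omega⟩
  have hNR : (n : ℝ) = a + N := by exact_mod_cast hN
  have ha_a0 : a0 ≤ a := by
    have : (a0 : ℝ) < a + 1 := by nlinarith [(Nat.cast_nonneg a1 : (0 : ℝ) ≤ a1)]
    have h' : a0 < a + 1 := by exact_mod_cast this
    omega
  have ha_a1 : a1 ≤ a := by
    have : (a1 : ℝ) < a + 1 := by nlinarith [(Nat.cast_nonneg a0 : (0 : ℝ) ≤ a0)]
    have h' : a1 < a + 1 := by exact_mod_cast this
    omega
  have haN2 : a ≤ N := by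
    have : (a : ℝ) ≤ N := by nlinarith
    exact_mod_cast this
  obtain ⟨L, hL1, hL2, hL3⟩ := ha1 a ha_a1
  obtain ⟨σ, hσ⟩ := ha0 a N ha_a0 haN2 L hL1 hL3
  have hNd : (1 - d) * n ≤ N := by nlinarith
  have key : ∃ H : Finset (Finset (Fin a ⊕ Fin N)), Unif (r + 1) H ∧ InS G H ∧ MinCo r H ((d - δ) * n) := by
    apply lowerH hr hG.unif hL1 hL2 σ
    · intro T hT
      refine le_trans ?_ (hσ T hT)
      have h1 : (y - δ / 4 - δ / 4) * ((1 - d) * n) ≤ (y - δ / 4 - δ / 4) * N :=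
        mul_le_mul_of_nonneg_left hNd (by linarith)
      refine le_trans ?_ h1
      have h2 : (y - δ / 4 - δ / 4) * ((1 - d) * n) = (y * (1 - d)) * n - (δ / 2) * (1 - d) * n := by ring
      rw [h2, hyd]
      nlinarith [mul_nonneg hδ0.le hn_nonneg, mul_nonneg (mul_nonneg hδ0.le hn_nonneg) hd0.le]
    · nlinarith
    · nlinarith
  obtain ⟨H, h1, h2, h3⟩ := A24_transport (finSumFinEquiv.trans (finCongr hN.symm)) key
  refine ⟨H, h1, h2, fun S hS => le_trans ?_ (h3 S hS)⟩
  rw [← hd]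
  apply mul_le_mul_of_nonneg_right _ hn_nonneg
  linarith

end CT
end

section

/-!
# The second derivative is negative definite

Proof.  `μ := 1/M`.  By `d2_esy_le`, `abs_d2lag_le`, `esy_ge` the form is at most
`-((1 - r/M)^r/(r-2)! - (r-1)/M - q r/M) ∑ w^2`, negative for `M` large (`∑ w^2 > 0`).
-/

set_option autoImplicit false

open Finset

namespace CT

theorem d2_neg (r q : ℕ) (hr : 3 ≤ r) : ∃ M0 : ℕ, ∀ M : ℕ, M0 ≤ M → ∀ (V : Type) [Fintype V] [DecidableEq V]
    (Ms : Finset (Finset V)), Unif r Ms → Ms.card ≤ q → ∀ x : V → ℝ, (∀ v, 0 ≤ x v) → (∀ v, x v ≤ 1 / (M : ℝ)) →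
    ∑ v, x v = 1 → ∀ w : V → ℝ, ∑ v, w v = 0 → w ≠ 0 → d2lag (powersetCard r univ \ Ms) x w < 0 := by
  have hlim : Filter.Tendsto (fun M : ℕ => (1 - ((r - 2 : ℕ) : ℝ) * (1 / (M : ℝ))) ^ (r - 2) /
      ((r - 2).factorial : ℝ) - ((r : ℝ) - 1) * (1 / (M : ℝ)) - (q : ℝ) * r * (1 / (M : ℝ)))
      Filter.atTop (nhds ((1 - ((r - 2 : ℕ) : ℝ) * 0) ^ (r - 2) /
      ((r - 2).factorial : ℝ) - ((r : ℝ) - 1) * 0 - (q : ℝ) * r * 0)) := by
    have h0 := tendsto_one_div_atTop_nhds_zero_nat (𝕜 := ℝ)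
    exact ((((h0.const_mul _).const_sub 1).pow (r - 2)).div_const _).sub (h0.const_mul _) |>.sub
      (h0.const_mul _)
  have hpos : (0 : ℝ) < (1 - ((r - 2 : ℕ) : ℝ) * 0) ^ (r - 2) /
      ((r - 2).factorial : ℝ) - ((r : ℝ) - 1) * 0 - (q : ℝ) * r * 0 := by
    simp only [mul_zero, sub_zero, one_pow]
    have : (0 : ℝ) < ((r - 2).factorial : ℝ) := by exact_mod_cast (r - 2).factorial_pos
    positivity
  obtain ⟨M0, hM0⟩ := Filter.eventually_atTop.1 (hlim.eventually (lt_mem_nhds hpos))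
  refine ⟨max M0 r, fun M hM V _ _ Ms hMs hq x hx0 hxM hx1 w hw hw0 => ?_⟩
  have h1 := hM0 M (le_trans (le_max_left _ _) hM)
  have hrM : r ≤ M := le_trans (le_max_right _ _) hM
  have hMpos : (0 : ℝ) < (M : ℝ) := by
    have : 0 < M := by omega
    exact_mod_cast this
  have hμ1 : 1 / (M : ℝ) ≤ 1 := by
    rw [div_le_one hMpos]
    have : 1 ≤ M := by omega
    exact_mod_cast this
  have hk : ((r - 2 : ℕ) : ℝ) * (1 / (M : ℝ)) ≤ 1 := by
    rw [mul_one_div, div_le_one hMpos]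
    have : r - 2 ≤ M := by omega
    exact_mod_cast this
  have h2 := d2_esy_le hr x w (1 / (M : ℝ)) hx0 hxM hx1 hw
  have h3 := abs_d2lag_le hr hMs x w (1 / (M : ℝ)) hx0 hxM hμ1
  have h4 := esy_ge x (1 / (M : ℝ)) hx0 hxM hx1 (r - 2) hk
  rw [d2lag_sdiff hMs]
  have hsq : 0 < ∑ v, w v ^ 2 := by
    obtain ⟨v, hv⟩ := Function.ne_iff.1 hw0
    refine Finset.sum_pos' (fun v _ => sq_nonneg _) ⟨v, mem_univ v, ?_⟩
    have : w v ≠ 0 := hv
    positivity
  have h5 : -((Ms.card : ℝ) * r * (1 / (M : ℝ)) * ∑ v, w v ^ 2) ≤ d2lag Ms x w := (abs_le.1 h3).1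
  have h6 : (Ms.card : ℝ) * r * (1 / (M : ℝ)) ≤ (q : ℝ) * r * (1 / (M : ℝ)) := by
    have : (Ms.card : ℝ) ≤ (q : ℝ) := by exact_mod_cast hq
    have h7 : (0 : ℝ) ≤ (r : ℝ) := Nat.cast_nonneg r
    have h8 : (0 : ℝ) ≤ 1 / (M : ℝ) := by positivity
    exact mul_le_mul_of_nonneg_right (mul_le_mul_of_nonneg_right this h7) h8
  have h7 : 0 < esy univ (r - 2) x - ((r : ℝ) - 1) * (1 / (M : ℝ)) -
      (Ms.card : ℝ) * r * (1 / (M : ℝ)) := by linarith
  nlinarith [mul_pos h7 hsq]

end CT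
end

section

/-!
# The product of the `E i` does not map to `P`

Proof.  Let `ψ` be a hom.  If `q, q'` differ everywhere they lie in a common edge (`cov_piH`), on which `ψ` is injective (`P` is
`r`-uniform, edges of `piH` have `r` elements), so `ψ q ≠ ψ q'`.  `greenwell_lovasz` gives `ψ q = θ (q i)`.  Every edge `e` of `E i` is the
projection of an edge of `piH r E` (`edge_piH` with enumerations of `e` and of arbitrary edges of the other `E i'`, which
are nonempty by `Cov2`), so `e.image θ ∈ P`: contradiction to `hno i`.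
-/

set_option autoImplicit false

open Finset

namespace CT

private theorem B08_enum {V : Type*} [DecidableEq V] {r : ℕ} (e : Finset V) (he : e.card = r) :
    ∃ a : Fin r → V, Function.Injective a ∧ univ.image a = e := by
  refine ⟨fun j => (((e.equivFinOfCardEq he).symm j : e) : V), ?_, ?_⟩
  · exact Subtype.val_injective.comp (e.equivFinOfCardEq he).symm.injective
  · ext v
    simp only [mem_image, mem_univ, true_and]
    constructor
    · rintro ⟨j, rfl⟩
      exact ((e.equivFinOfCardEq he).symm j).2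
    · intro hv
      exact ⟨e.equivFinOfCardEq he ⟨v, hv⟩, by simp⟩

theorem not_hom_pi {V ι : Type*} [Fintype V] [DecidableEq V] [Fintype ι] [DecidableEq ι] [Nonempty ι] {r : ℕ}
    (hr : 2 ≤ r) (hV : 3 ≤ Fintype.card V) (E : ι → Finset (Finset V)) (hE : ∀ i, Unif r (E i))
    (hcov : ∀ i, Cov2 (E i)) {P : Finset (Finset V)} (hP : Unif r P)
    (hno : ∀ i, ¬ ∃ θ : V → V, Function.Injective θ ∧ IsHom (E i) P θ) : ¬ HomTo (piH r E) P := by
  rintro ⟨ψ, hψ⟩
  have hdiff : ∀ q q' : ι → V, (∀ i, q i ≠ q' i) → ψ q ≠ ψ q' := by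
    intro q q' hq
    obtain ⟨S, hS, hqS, hqS'⟩ := cov_piH hr hE hq (fun i => hcov i _ _ (hq i))
    have hc : (S.image ψ).card = S.card := by
      rw [hP _ (hψ S hS), piH_unif E S hS]
    have hinj : Set.InjOn ψ S := card_image_iff.1 hc
    intro he
    have hqq : q = q' := hinj hqS hqS' he
    obtain ⟨i⟩ := (inferInstance : Nonempty ι)
    exact hq i (by rw [hqq])
  obtain ⟨i, θ, hθ, hθψ⟩ := greenwell_lovasz hV ψ hdiff
  apply hno i
  refine ⟨θ, hθ, ?_⟩
  intro e he
  have hfam : ∀ i' : ι, ∃ a : Fin r → V, Function.Injective a ∧ univ.image a ∈ E i' ∧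
      (i' = i → univ.image a = e) := by
    intro i'
    by_cases hi : i' = i
    · subst hi
      obtain ⟨a, ha, hae⟩ := B08_enum e (hE i' e he)
      exact ⟨a, ha, by rw [hae]; exact he, fun _ => hae⟩
    · have h2 : 1 < Fintype.card V := by omega
      obtain ⟨u, v, huv⟩ := Fintype.one_lt_card_iff.1 h2
      obtain ⟨e', he', _, _⟩ := hcov i' u v huv
      obtain ⟨a, ha, hae⟩ := B08_enum e' (hE i' e' he')
      exact ⟨a, ha, by rw [hae]; exact he', fun h => absurd h hi⟩
  choose a ha haE hai using hfam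
  have hmem := hψ _ (edge_piH ha haE)
  have heq : (univ.image (fun (j : Fin r) (i : ι) => a i j)).image ψ = e.image θ := by
    rw [← hai i rfl, image_image, image_image]
    apply image_congr
    intro j _
    simp only [Function.comp_apply]
    rw [hθψ]
  rw [heq] at hmem
  exact hmem

end CT
end
end
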