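import Pool.Agent.Lib.MP_63f67f_co.Defs
import Pool.Agent.Lib.MP_63f67f_co.DDefs
import Pool.Agent.Lib.MP_63f67f_co.B08
import Pool.Agent.Lib.MP_63f67f_co.B02

section

section

/-!
# Norms of the `z i`

Proof.  `‖β‖ = 1` (`r - 1` is prime to `p`).  `‖z 1^(r-1) - p β^(r-1)‖ ≤ π^8 < π`, so `‖z 1‖^(r-1) = π`.  Inductively `‖z i‖ > π` (`‖z i‖^(r-1) = ‖z (i-1)‖ < 1`, so
`‖z i‖ > ‖z (i-1)‖`.., `‖z 1‖ > π` because `r - 1 ≥ 2`), so `‖p β - z (i-1)‖ = ‖z (i-1)‖` and `‖z i‖^(r-1) = ‖z (i-1)‖`.  `π ≤ ‖z i‖^(r-1)` for all `i`, so `π ≤ ‖z i‖^(r-2)`,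
`π^2 < ‖z i‖^r` (`‖z i‖^r = ‖z i‖^(r-1) ‖z i‖ > π * π`).  `norm_z_n`: induction.
-/

set_option autoImplicit false

open Finset

namespace CT

section
variable {Ω : Type*} [NormedField Ω] [IsUltrametricDist Ω] {r n p : ℕ} [Fact p.Prime]

omit [Fact p.Prime] in
private theorem nsl {a b : Ω} (h : ‖a - b‖ < ‖b‖) : ‖a‖ = ‖b‖ := by
  have h1 := IsUltrametricDist.norm_add_eq_max_of_norm_ne_norm (x := a - b) (y := b) h.ne
  rw [sub_add_cancel, max_eq_right h.le] at h1
  exact h1

private theorem pi_bounds (hr : 3 ≤ r) (hrp : r < p) : 0 < (p : ℝ)⁻¹ ∧ (p : ℝ)⁻¹ < 1 := by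
  have hp1 : (1 : ℝ) < p := by
    have : 1 < p := by omega
    exact_mod_cast this
  exact ⟨inv_pos.2 (by linarith), inv_lt_one_of_one_lt₀ hp1⟩

theorem norm_bt (hp : ‖(p : Ω)‖ = (p : ℝ)⁻¹) (hr : 3 ≤ r) (hrp : r < p) : ‖bt Ω r‖ = 1 := by
  unfold bt
  have h1 : ((r : Ω) - 1) = ((r - 1 : ℕ) : Ω) := by
    rw [Nat.cast_sub (by omega)]
    simp
  rw [h1, norm_inv, norm_nat_coprime hp, inv_one]
  intro h
  have := Nat.le_of_dvd (by omega) h
  omega

private theorem norm_z_core (hp : ‖(p : Ω)‖ = (p : ℝ)⁻¹) (hr : 3 ≤ r) (hrp : r < p) {z : ℕ → Ω}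
    (hz : Approx r n p z) {i : ℕ} (hi : 1 ≤ i) (hin : i ≤ n) :
    ‖z i‖ ^ (r - 1) = (if i = 1 then (p : ℝ)⁻¹ else ‖z (i - 1)‖) ∧ ‖cci p r z i‖ = ‖z i‖ ^ (r - 1) ∧
      (p : ℝ)⁻¹ < ‖z i‖ ∧ ‖z i‖ < 1 := by
  obtain ⟨hπ0, hπ1⟩ := pi_bounds hr hrp
  have hbt := norm_bt (Ω := Ω) hp hr hrp
  have hr1 : r - 1 ≠ 0 := by omega
  have h8 : ∀ j, 1 ≤ j → j ≤ n → ‖z j ^ (r - 1) - cci p r z j‖ < (p : ℝ)⁻¹ := by
    intro j hj hjn
    refine lt_of_le_of_lt (hz j hj hjn) ?_
    have h9 : ((p : ℝ)⁻¹) ^ kap n j ≤ ((p : ℝ)⁻¹) ^ 8 :=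
      pow_le_pow_of_le_one hπ0.le hπ1.le (kap_ge j)
    have h10 : ((p : ℝ)⁻¹) ^ 8 < (p : ℝ)⁻¹ := by
      calc ((p : ℝ)⁻¹) ^ 8 < ((p : ℝ)⁻¹) ^ 1 := pow_lt_pow_right_of_lt_one₀ hπ0 hπ1 (by norm_num)
        _ = (p : ℝ)⁻¹ := pow_one _
    exact lt_of_le_of_lt h9 h10
  -- from `‖z‖^(r-1) = A`, `π ≤ A < 1` conclude
  have hfin : ∀ (x A : ℝ), 0 ≤ x → x ^ (r - 1) = A → (p : ℝ)⁻¹ ≤ A → A < 1 → (p : ℝ)⁻¹ < x ∧ x < 1 := by
    intro x A hx hxA hA hA1
    constructor
    · by_contra hcon
      push Not at hcon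
      have h1 : x ^ (r - 1) ≤ ((p : ℝ)⁻¹) ^ (r - 1) := pow_le_pow_left₀ hx hcon _
      have h2 : ((p : ℝ)⁻¹) ^ (r - 1) < ((p : ℝ)⁻¹) ^ 1 :=
        pow_lt_pow_right_of_lt_one₀ hπ0 hπ1 (by omega)
      rw [pow_one] at h2
      rw [hxA] at h1
      linarith
    · by_contra hcon
      push Not at hcon
      have h1 : 1 ≤ x ^ (r - 1) := one_le_pow₀ hcon
      rw [hxA] at h1
      linarith
  induction i with
  | zero => omega
  | succ i ih =>
    rcases Nat.eq_zero_or_pos i with rfl | hipos
    · have hc : cci p r z 1 = (p : Ω) * bt Ω r ^ (r - 1) := by simp [cci]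
      have hcn : ‖cci p r z 1‖ = (p : ℝ)⁻¹ := by
        rw [hc, norm_mul, norm_pow, hbt, one_pow, mul_one, hp]
      have h1 := h8 1 le_rfl hin
      have h2 : ‖z 1 ^ (r - 1)‖ = ‖cci p r z 1‖ := nsl (by rw [hcn]; exact h1)
      rw [norm_pow] at h2
      have h3 : ‖z 1‖ ^ (r - 1) = (p : ℝ)⁻¹ := by rw [h2, hcn]
      simp only [Nat.zero_add, if_true]
      refine ⟨h3, h2.symm, ?_⟩
      exact hfin _ _ (norm_nonneg _) h3 le_rfl hπ1
    · obtain ⟨_, _, ih3, ih4⟩ := ih hipos (by omega)
      have hc : cci p r z (i + 1) = bt Ω r ^ (r - 2) * ((p : Ω) * bt Ω r - z i) := by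
        unfold cci
        rw [if_neg (by omega), Nat.add_sub_cancel]
      have hcn : ‖cci p r z (i + 1)‖ = ‖z i‖ := by
        rw [hc, norm_mul, norm_pow, hbt, one_pow, one_mul, ← norm_neg, neg_sub]
        apply nsl
        rw [sub_sub_cancel_left, norm_neg, norm_mul, hbt, mul_one, hp]
        exact ih3
      have h1 := h8 (i + 1) (by omega) hin
      have h2 : ‖z (i + 1) ^ (r - 1)‖ = ‖cci p r z (i + 1)‖ :=
        nsl (by rw [hcn]; exact lt_trans h1 ih3)
      rw [norm_pow] at h2
      have h3 : ‖z (i + 1)‖ ^ (r - 1) = ‖z i‖ := by rw [h2, hcn]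
      rw [if_neg (by omega), Nat.add_sub_cancel]
      refine ⟨h3, h2.symm, ?_⟩
      exact hfin _ _ (norm_nonneg _) h3 ih3.le ih4

theorem norm_z (hp : ‖(p : Ω)‖ = (p : ℝ)⁻¹) (hr : 3 ≤ r) (hrp : r < p) {z : ℕ → Ω} (hz : Approx r n p z) {i : ℕ}
    (hi : 1 ≤ i) (hin : i ≤ n) :
    ‖z i‖ ^ (r - 1) = (if i = 1 then (p : ℝ)⁻¹ else ‖z (i - 1)‖) ∧ ‖cci p r z i‖ = ‖z i‖ ^ (r - 1) ∧
      (p : ℝ)⁻¹ < ‖z i‖ ∧ ‖z i‖ < 1 ∧ (p : ℝ)⁻¹ ≤ ‖z i‖ ^ (r - 1) ∧ (p : ℝ)⁻¹ ≤ ‖z i‖ ^ (r - 2) ∧
      ((p : ℝ)⁻¹) ^ 2 < ‖z i‖ ^ r := by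
  obtain ⟨hπ0, hπ1⟩ := pi_bounds hr hrp
  obtain ⟨h1, h2, h3, h4⟩ := norm_z_core hp hr hrp hz hi hin
  have hz0 : 0 ≤ ‖z i‖ := norm_nonneg _
  have h5 : (p : ℝ)⁻¹ ≤ ‖z i‖ ^ (r - 1) := by
    rw [h1]
    by_cases h : i = 1
    · rw [if_pos h]
    · rw [if_neg h]
      exact (norm_z_core hp hr hrp hz (i := i - 1) (by omega) (by omega)).2.2.1.le
  refine ⟨h1, h2, h3, h4, h5, ?_, ?_⟩
  · refine h5.trans ?_
    exact pow_le_pow_of_le_one hz0 h4.le (by omega)
  · have h6 : ‖z i‖ ^ r = ‖z i‖ ^ (r - 1) * ‖z i‖ := by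
      rw [← pow_succ]
      congr 1
      omega
    rw [h6, sq]
    exact mul_lt_mul' h5 h3 hπ0.le (lt_of_lt_of_le hπ0 h5)

theorem norm_z_n (hp : ‖(p : Ω)‖ = (p : ℝ)⁻¹) (hr : 3 ≤ r) (hrp : r < p) {z : ℕ → Ω} (hz : Approx r n p z) {i : ℕ}
    (hi : 1 ≤ i) (hin : i ≤ n) : ‖z i‖ ^ ((r - 1) ^ i) = (p : ℝ)⁻¹ := by
  induction i with
  | zero => omega
  | succ i ih =>
    have h1 := (norm_z hp hr hrp hz hi hin).1
    rcases Nat.eq_zero_or_pos i with rfl | hipos
    · rw [Nat.zero_add, if_pos rfl] at h1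
      rw [Nat.zero_add, pow_one]
      exact h1
    · rw [if_neg (by omega), Nat.add_sub_cancel] at h1
      rw [pow_succ', pow_mul, h1]
      exact ih hipos (by omega)
end

end CT
end

section

/-!
# Differences of powers

Proof.  `a^k - b^k = (a - b) * ∑_{l<k} a^l b^(k-1-l)` (`Commute.mul_geom_sum₂`), `‖b‖ = ‖a‖`, and each `a^l b^(k-1-l)` differs from `a^(k-1)` by an element of norm
`≤ ‖a - b‖ ‖a‖^(k-2)`, so the sum is `k a^(k-1)` up to something of norm `< ‖a‖^(k-1)`.  `root_near`: `z^k - c = ∏ (z - ω ζ)` over the `k` roots of `X^k = c`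
(`X^k - c` splits, its roots have norm `‖z‖`); if all factors had norm `≥ ‖z‖` the product would be `≥ ‖z‖^k`.  `root_unique` from `pow_sub_norm`.
-/

set_option autoImplicit false

open Finset

namespace CT

section
variable {Ω : Type*} [NormedField Ω] [IsUltrametricDist Ω]

private lemma d11_pow_le {a b : Ω} {ρ : ℝ} (ha : ‖a‖ ≤ ρ) (hb : ‖b‖ ≤ ρ) (m : ℕ) :
    ‖a ^ m - b ^ m‖ ≤ ‖a - b‖ * ρ ^ (m - 1) := by
  have hρ : 0 ≤ ρ := (norm_nonneg a).trans ha
  have e : a ^ m - b ^ m = (a - b) * ∑ i ∈ range m, a ^ i * b ^ (m - 1 - i) :=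
    ((Commute.all a b).mul_geom_sum₂ m).symm
  rw [e, norm_mul]
  refine mul_le_mul_of_nonneg_left ?_ (norm_nonneg _)
  refine IsUltrametricDist.norm_sum_le_of_forall_le_of_nonneg (pow_nonneg hρ _) fun i hi => ?_
  have him : i < m := mem_range.1 hi
  rw [norm_mul, norm_pow, norm_pow]
  calc ‖a‖ ^ i * ‖b‖ ^ (m - 1 - i) ≤ ρ ^ i * ρ ^ (m - 1 - i) :=
        mul_le_mul (pow_le_pow_left₀ (norm_nonneg _) ha _) (pow_le_pow_left₀ (norm_nonneg _) hb _)
          (pow_nonneg (norm_nonneg _) _) (pow_nonneg hρ _)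
    _ = ρ ^ (m - 1) := by rw [← pow_add]; congr 1; omega

omit [IsUltrametricDist Ω] in
private lemma d11_sum (k : ℕ) (a b : Ω) :
    (∑ l ∈ range k, a ^ l * b ^ (k - 1 - l)) - (k : Ω) * a ^ (k - 1) =
      ∑ l ∈ range k, a ^ l * (b ^ (k - 1 - l) - a ^ (k - 1 - l)) := by
  have : (k : Ω) * a ^ (k - 1) = ∑ l ∈ range k, a ^ (k - 1) := by
    rw [Finset.sum_const, card_range, nsmul_eq_mul]
  rw [this, ← Finset.sum_sub_distrib]
  refine Finset.sum_congr rfl fun l hl => ?_
  have hlk : l < k := mem_range.1 hl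
  rw [mul_sub, ← pow_add]
  congr 3
  omega

theorem pow_sub_norm {k : ℕ} (hk : 1 ≤ k) (hk1 : ‖(k : Ω)‖ = 1) {a b : Ω} (h : ‖a - b‖ < ‖a‖) :
    ‖a ^ k - b ^ k‖ = ‖a - b‖ * ‖a‖ ^ (k - 1) := by
  have ha : 0 < ‖a‖ := (norm_nonneg _).trans_lt h
  have hb : ‖b‖ ≤ ‖a‖ := by
    have e : b = a + -(a - b) := by ring
    rw [e]
    refine (IsUltrametricDist.norm_add_le_max _ _).trans (max_le le_rfl ?_)
    rw [norm_neg]; exact h.le
  have e : a ^ k - b ^ k = (a - b) * ∑ i ∈ range k, a ^ i * b ^ (k - 1 - i) :=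
    ((Commute.all a b).mul_geom_sum₂ k).symm
  rw [e, norm_mul]
  congr 1
  set S : Ω := ∑ i ∈ range k, a ^ i * b ^ (k - 1 - i) with hS
  have hdiff : ‖S - (k : Ω) * a ^ (k - 1)‖ < ‖a‖ ^ (k - 1) := by
    have hle : ‖S - (k : Ω) * a ^ (k - 1)‖ ≤ ‖a - b‖ / ‖a‖ * ‖a‖ ^ (k - 1) := by
      rw [hS, d11_sum]
      refine IsUltrametricDist.norm_sum_le_of_forall_le_of_nonneg (by positivity) fun i hi => ?_
      have hik : i < k := mem_range.1 hi
      rw [norm_mul, norm_pow]
      rcases Nat.eq_zero_or_pos (k - 1 - i) with h0 | h0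
      · rw [h0]; simp only [pow_zero, sub_self, norm_zero, mul_zero]; positivity
      · have h1 := d11_pow_le (ρ := ‖a‖) hb le_rfl (k - 1 - i)
        rw [norm_sub_rev b a] at h1
        have h2 : ‖a‖ ^ i * (‖a - b‖ * ‖a‖ ^ (k - 1 - i - 1)) = ‖a - b‖ / ‖a‖ * ‖a‖ ^ (k - 1) := by
          have h3 : k - 1 = i + (k - 1 - i - 1) + 1 := by omega
          have h4 : ‖a‖ ^ (k - 1) = ‖a‖ ^ i * ‖a‖ ^ (k - 1 - i - 1) * ‖a‖ := by
            conv_lhs => rw [h3]
            rw [pow_succ, pow_add]
          rw [h4]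
          field_simp
        rw [← h2]
        exact mul_le_mul_of_nonneg_left h1 (by positivity)
    refine hle.trans_lt ?_
    have : ‖a - b‖ / ‖a‖ < 1 := (div_lt_one ha).2 h
    calc ‖a - b‖ / ‖a‖ * ‖a‖ ^ (k - 1) < 1 * ‖a‖ ^ (k - 1) :=
          mul_lt_mul_of_pos_right this (by positivity)
      _ = ‖a‖ ^ (k - 1) := one_mul _
  have hmain : ‖(k : Ω) * a ^ (k - 1)‖ = ‖a‖ ^ (k - 1) := by
    rw [norm_mul, hk1, one_mul, norm_pow]
  have hne : ‖S - (k : Ω) * a ^ (k - 1)‖ ≠ ‖(k : Ω) * a ^ (k - 1)‖ := by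
    rw [hmain]; exact hdiff.ne
  have h5 := IsUltrametricDist.norm_add_eq_max_of_norm_ne_norm hne
  rw [sub_add_cancel, hmain, max_eq_right hdiff.le] at h5
  exact h5

theorem geom_near {k : ℕ} {a b : Ω} {δ : ℝ} (ha : ‖a‖ ≤ 1) (hb : ‖b‖ ≤ 1) (h : ‖a - b‖ ≤ δ) :
    ‖(∑ l ∈ range k, a ^ l * b ^ (k - 1 - l)) - (k : Ω) * a ^ (k - 1)‖ ≤ δ := by
  have hδ : 0 ≤ δ := (norm_nonneg _).trans h
  rw [d11_sum]
  refine IsUltrametricDist.norm_sum_le_of_forall_le_of_nonneg hδ fun i _ => ?_
  rw [norm_mul, norm_pow]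
  have h1 := d11_pow_le (ρ := 1) hb ha (k - 1 - i)
  rw [norm_sub_rev b a, one_pow, mul_one] at h1
  calc ‖a‖ ^ i * ‖b ^ (k - 1 - i) - a ^ (k - 1 - i)‖ ≤ 1 * δ :=
        mul_le_mul (pow_le_one₀ (norm_nonneg _) ha) (h1.trans h) (norm_nonneg _) zero_le_one
    _ = δ := one_mul _

theorem root_near [IsAlgClosed Ω] {k : ℕ} (hk : 1 ≤ k) {z c : Ω} (h : ‖z ^ k - c‖ < ‖z‖ ^ k) :
    ∃ ω : Ω, ω ^ k = c ∧ ‖z - ω‖ < ‖z‖ := by
  by_contra hcon
  push Not at hcon
  set f : Polynomial Ω := Polynomial.X ^ k - Polynomial.C c with hf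
  have hm : f.Monic := Polynomial.monic_X_pow_sub_C c (by omega)
  have hs : f.Splits := IsAlgClosed.splits f
  have hev := hs.eval_eq_prod_roots_of_monic hm z
  have hcard : f.roots.card = k := by
    rw [← hs.natDegree_eq_card_roots, hf, Polynomial.natDegree_X_pow_sub_C]
  have hroot : ∀ ω ∈ f.roots, ‖z‖ ≤ ‖z - ω‖ := by
    intro ω hω
    refine hcon ω ?_
    have := (Polynomial.mem_roots hm.ne_zero).1 hω
    rw [Polynomial.IsRoot, hf] at this
    simpa [sub_eq_zero] using this
  have hge : ‖z‖ ^ k ≤ ‖(f.roots.map (fun x => z - x)).prod‖ := by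
    rw [← hcard]
    generalize f.roots = s at hroot ⊢
    induction s using Multiset.induction_on with
    | empty => simp
    | cons w s ih =>
      rw [Multiset.map_cons, Multiset.prod_cons, norm_mul, Multiset.card_cons, pow_succ, mul_comm]
      exact mul_le_mul (hroot w (Multiset.mem_cons_self w s))
        (ih fun ω hω => hroot ω (Multiset.mem_cons_of_mem hω)) (by positivity) (norm_nonneg _)
  have hev' : f.eval z = z ^ k - c := by simp [hf]
  rw [← hev, hev'] at hge
  exact absurd h (not_lt.2 hge)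

theorem root_unique {k : ℕ} (hk : 1 ≤ k) (hk1 : ‖(k : Ω)‖ = 1) {a b : Ω} (h : a ^ k = b ^ k) (h' : ‖a - b‖ < ‖a‖) :
    a = b := by
  have h1 := pow_sub_norm hk hk1 h'
  have ha : 0 < ‖a‖ := (norm_nonneg _).trans_lt h'
  rw [h, sub_self, norm_zero] at h1
  rcases mul_eq_zero.1 h1.symm with h2 | h2
  · exact sub_eq_zero.1 (norm_eq_zero.1 h2)
  · exact absurd h2 (pow_pos ha _).ne'
end

end CT
end
end

section

section

/-!
# Walks: composition, powers of a closed walk, rotation

All by induction on `t`.  `walk_split`: a walk of length `t + s` passes at time `t` through some vertex.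
`walk_rotate`: if there is a closed walk of length `l` at `u` and `t` is given, then there is `v` with a walk of length
`t` from `u` to `v` and a closed walk of length `l` at `v` (induction on `t`: for `l ≥ 1` the closed walk at `u` is
`u → w` followed by a walk of length `l - 1` from `w` to `u`, so `w` has a closed walk of length `l`).
-/

set_option autoImplicit false

open Finset

namespace CT

theorem walk_trans {T : Type*} {A : T → T → Prop} {s t : ℕ} {u v w : T} (h1 : Walk A s u v)
    (h2 : Walk A t v w) : Walk A (s + t) u w := by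
  induction s generalizing u with
  | zero =>
    have h : u = v := h1
    subst h
    rw [Nat.zero_add]
    exact h2
  | succ s ih =>
    obtain ⟨x, hx, hw⟩ := h1
    rw [Nat.succ_add]
    exact ⟨x, hx, ih hw⟩

theorem walk_split {T : Type*} {A : T → T → Prop} {s t : ℕ} {u w : T} (h : Walk A (s + t) u w) :
    ∃ v, Walk A s u v ∧ Walk A t v w := by
  induction s generalizing u with
  | zero =>
    rw [Nat.zero_add] at h
    exact ⟨u, rfl, h⟩
  | succ s ih =>
    rw [Nat.succ_add] at h
    obtain ⟨x, hx, hw⟩ := h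
    obtain ⟨v, h1, h2⟩ := ih hw
    exact ⟨v, ⟨x, hx, h1⟩, h2⟩

theorem walk_mul {T : Type*} {A : T → T → Prop} {l : ℕ} {u : T} (h : Walk A l u u) (k : ℕ) :
    Walk A (k * l) u u := by
  induction k with
  | zero =>
    rw [Nat.zero_mul]
    exact rfl
  | succ k ih =>
    rw [Nat.succ_mul]
    exact walk_trans ih h

theorem walk_rotate {T : Type*} {A : T → T → Prop} {l : ℕ} (hl : 1 ≤ l) {u : T} (h : Walk A l u u) (t : ℕ) :
    ∃ v, Walk A t u v ∧ Walk A l v v := by
  induction t generalizing u with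
  | zero => exact ⟨u, rfl, h⟩
  | succ t ih =>
    obtain ⟨l', rfl⟩ : ∃ l', l = l' + 1 := ⟨l - 1, by omega⟩
    obtain ⟨x, hx, hw⟩ := h
    have h1 : Walk A (l' + 1) x x := walk_trans hw ⟨x, hx, rfl⟩
    obtain ⟨v, h2, h3⟩ := ih h1
    exact ⟨v, ⟨x, hx, h2⟩, h3⟩

end CT
end

section

/-!
# Core vertices: independence of the colouring

Proof.  `m := card V`.  For an injection `z : V → Fin (m+1)` the map `a ↦ F (z a) a` is injective (by `h`), hence bijective.  Let `x ≠ x'`,
`a0 : V`: choose an injection `z` with `z a0 = x` that avoids `x'` (the other `m - 1` elements of `V` go to the other `m - 1` core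
vertices), and let `z'` be `z` with the value at `a0` replaced by `x'`.  The two bijections agree off `a0`, so they agree at `a0`:
`F x a0 = F x' a0`.  Injectivity of `F x`: for `a ≠ b` take `x' ≠ x` (`m ≥ 1`), `F x a ≠ F x' b = F x b`.
-/

set_option autoImplicit false

open Finset

namespace CT

private lemma exists_perm_two {N : ℕ} {p q x y : Fin N} (hpq : p ≠ q) (hxy : x ≠ y) :
    ∃ σ : Equiv.Perm (Fin N), σ p = x ∧ σ q = y := by
  set τ : Equiv.Perm (Fin N) := Equiv.swap p x with hτ
  have h1 : τ p = x := Equiv.swap_apply_left p x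
  have h2 : x ≠ τ q := by
    rw [← h1]
    exact fun h => hpq (τ.injective h)
  refine ⟨τ.trans (Equiv.swap (τ q) y), ?_, ?_⟩
  · rw [Equiv.trans_apply, h1]
    exact Equiv.swap_apply_of_ne_of_ne h2 hxy
  · rw [Equiv.trans_apply]
    exact Equiv.swap_apply_left _ _

theorem core_indep {V : Type*} [Fintype V] [DecidableEq V] (F : Fin (Fintype.card V + 1) → V → V)
    (h : ∀ x x' a b, x ≠ x' → a ≠ b → F x a ≠ F x' b) :
    (∀ x x' a, F x a = F x' a) ∧ ∀ x, Function.Injective (F x) := by
  have hinj : ∀ z : V → Fin (Fintype.card V + 1), Function.Injective z →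
      Function.Injective (fun a => F (z a) a) := by
    intro z hz a b hab
    by_contra hne
    exact h (z a) (z b) a b (fun e => hne (hz e)) hne hab
  have key : ∀ x x' a, x ≠ x' → F x a = F x' a := by
    intro x x' a0 hx
    have e := Fintype.equivFin V
    obtain ⟨σ, hσ1, hσ2⟩ := exists_perm_two (p := (e a0).castSucc)
      (q := Fin.last (Fintype.card V)) (x := x) (y := x') (Fin.castSucc_ne_last _) hx
    let z : V → Fin (Fintype.card V + 1) := fun a => σ ((e a).castSucc)
    have hz : Function.Injective z := fun a b hab =>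
      e.injective (Fin.castSucc_injective _ (σ.injective hab))
    have hz0 : z a0 = x := hσ1
    have hzx : ∀ a, z a ≠ x' := by
      intro a ha
      have h1 : (e a).castSucc = Fin.last (Fintype.card V) := σ.injective (ha.trans hσ2.symm)
      exact Fin.castSucc_ne_last _ h1
    let z' : V → Fin (Fintype.card V + 1) := Function.update z a0 x'
    have hz'0 : z' a0 = x' := Function.update_self _ _ _
    have hz'n : ∀ a, a ≠ a0 → z' a = z a := fun a ha => Function.update_of_ne ha _ _
    have hz' : Function.Injective z' := by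
      intro a b hab
      by_cases ha : a = a0
      · by_cases hb : b = a0
        · rw [ha, hb]
        · rw [ha, hz'0, hz'n b hb] at hab
          exact absurd hab.symm (hzx b)
      · by_cases hb : b = a0
        · rw [hb, hz'0, hz'n a ha] at hab
          exact absurd hab (hzx a)
        · rw [hz'n a ha, hz'n b hb] at hab
          exact hz hab
    have hs : Function.Surjective (fun a => F (z a) a) := Finite.surjective_of_injective (hinj z hz)
    obtain ⟨b, hb⟩ := hs (F x' a0)
    have hb' : F (z b) b = F x' a0 := hb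
    by_cases hba : b = a0
    · rw [hba, hz0] at hb'
      exact hb'
    · exfalso
      apply hba
      apply hinj z' hz'
      show F (z' b) b = F (z' a0) a0
      rw [hz'n b hba, hz'0]
      exact hb'
  have key' : ∀ x x' a, F x a = F x' a := by
    intro x x' a
    by_cases hx : x = x'
    · rw [hx]
    · exact key x x' a hx
  refine ⟨key', fun x a b hab => ?_⟩
  by_contra hne
  have hpos : 0 < Fintype.card V := Fintype.card_pos_iff.2 ⟨a⟩
  haveI : Nontrivial (Fin (Fintype.card V + 1)) := Fin.nontrivial_iff_two_le.2 (by omega)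
  obtain ⟨x', hx'⟩ := exists_ne x
  refine h x x' a b hx'.symm hne ?_
  rw [hab]
  exact key' x x' b

end CT
end

section

/-!
# The support lemma (Motzkin-Straus / Frankl-Rodl)

Proof.  `X` is nonempty.  `lag L` is continuous and the simplex is compact; at the uniform point `r! lag L = r! card L / card X ^ r > y`.
Take a maximiser `x` on `stdSimplex ℝ X` whose support `S := univ.filter (x v ≠ 0)` has the least cardinality.  If `u ≠ v` in `S` are not covered
by an edge `e ⊆ S`, then along `x + s (e_u - e_v)`, `|s|` small, `lag L` restricted to points supported in `S` is affine in `s` (no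
nonzero term contains both `x u` and `x v`), it has a maximum at `s = 0`, so it is constant; moving to the boundary (`s = x v`, then the
`v`-coordinate is `0`) gives a maximiser with a smaller support.
-/

set_option autoImplicit false

open Finset

namespace CT

private theorem lag_line {X : Type} [Fintype X] [DecidableEq X] {L : Finset (Finset X)} {S : Finset X}
    {x : X → ℝ} (hx : ∀ v, v ∉ S → x v = 0) {u v : X} (huS : u ∈ S) (hvS : v ∈ S) (huv : u ≠ v)
    (hcov : ∀ e ∈ L, e ⊆ S → u ∈ e → v ∉ e) :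
    ∃ c : ℝ, ∀ s : ℝ, lag L (fun w => x w + s * ((if w = u then 1 else 0) - (if w = v then 1 else 0))) =
      lag L x + s * c := by
  classical
  have key : ∀ e ∈ L, ∃ c : ℝ, ∀ s : ℝ,
      ∏ w ∈ e, (x w + s * ((if w = u then 1 else 0) - (if w = v then 1 else 0))) =
        ∏ w ∈ e, x w + s * c := by
    intro e he
    by_cases heS : e ⊆ S
    · by_cases hu : u ∈ e
      · have hv := hcov e he heS hu
        refine ⟨∏ w ∈ e.erase u, x w, fun s => ?_⟩
        rw [← Finset.mul_prod_erase e _ hu, ← Finset.mul_prod_erase e x hu]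
        have h1 : ∏ w ∈ e.erase u, (x w + s * ((if w = u then 1 else 0) - (if w = v then 1 else 0))) =
            ∏ w ∈ e.erase u, x w := by
          apply Finset.prod_congr rfl
          intro w hw
          have hwu : w ≠ u := Finset.ne_of_mem_erase hw
          have hwv : w ≠ v := fun h => hv (h ▸ Finset.mem_of_mem_erase hw)
          rw [if_neg hwu, if_neg hwv]
          ring
        rw [h1, if_pos rfl, if_neg huv]
        ring
      · by_cases hv : v ∈ e
        · refine ⟨-∏ w ∈ e.erase v, x w, fun s => ?_⟩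
          rw [← Finset.mul_prod_erase e _ hv, ← Finset.mul_prod_erase e x hv]
          have h1 : ∏ w ∈ e.erase v, (x w + s * ((if w = u then 1 else 0) - (if w = v then 1 else 0))) =
              ∏ w ∈ e.erase v, x w := by
            apply Finset.prod_congr rfl
            intro w hw
            have hwv : w ≠ v := Finset.ne_of_mem_erase hw
            have hwu : w ≠ u := fun h => hu (h ▸ Finset.mem_of_mem_erase hw)
            rw [if_neg hwu, if_neg hwv]
            ring
          rw [h1, if_pos rfl, if_neg (Ne.symm huv)]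
          ring
        · refine ⟨0, fun s => ?_⟩
          rw [mul_zero, add_zero]
          apply Finset.prod_congr rfl
          intro w hw
          have hwv : w ≠ v := fun h => hv (h ▸ hw)
          have hwu : w ≠ u := fun h => hu (h ▸ hw)
          rw [if_neg hwu, if_neg hwv]
          ring
    · obtain ⟨w, hwe, hwS⟩ := Finset.not_subset.1 heS
      refine ⟨0, fun s => ?_⟩
      have hwv : w ≠ v := fun h => hwS (h ▸ hvS)
      have hwu : w ≠ u := fun h => hwS (h ▸ huS)
      rw [Finset.prod_eq_zero hwe, Finset.prod_eq_zero hwe (hx w hwS)]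
      · ring
      · rw [if_neg hwu, if_neg hwv, hx w hwS]
        ring
  choose! c hc using key
  refine ⟨∑ e ∈ L, c e, fun s => ?_⟩
  unfold lag
  rw [Finset.mul_sum, ← Finset.sum_add_distrib]
  exact Finset.sum_congr rfl fun e he => hc e he s

theorem support_lemma {X : Type} [Fintype X] [DecidableEq X] {r : ℕ} (hr : 2 ≤ r) {L : Finset (Finset X)}
    (hL : Unif r L) {y : ℝ} (h : y * (Fintype.card X : ℝ) ^ r < (r.factorial : ℝ) * (L.card : ℝ)) :
    ∃ S : Finset X, (∀ u ∈ S, ∀ v ∈ S, u ≠ v → ∃ e ∈ L, e ⊆ S ∧ u ∈ e ∧ v ∈ e) ∧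
      ∃ x : X → ℝ, (∀ v, 0 ≤ x v) ∧ (∀ v, v ∉ S → x v = 0) ∧ ∑ v, x v = 1 ∧
        y < (r.factorial : ℝ) * lag L x := by
  classical
  have hX : 0 < Fintype.card X := by
    rw [Fintype.card_pos_iff]
    by_contra hne
    rw [not_nonempty_iff] at hne
    have h0 : Fintype.card X = 0 := Fintype.card_eq_zero
    have hL0 : L.card = 0 := by
      rw [Finset.card_eq_zero]
      apply Finset.eq_empty_of_forall_notMem
      intro e he
      have h1 := hL e he
      have h2 : e = ∅ := Finset.eq_empty_of_isEmpty e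
      rw [h2, Finset.card_empty] at h1
      omega
    rw [h0, hL0] at h
    rw [Nat.cast_zero, zero_pow (by omega : r ≠ 0)] at h
    simp at h
  have hXR : (0 : ℝ) < (Fintype.card X : ℝ) := by exact_mod_cast hX
  let P : Finset X → Prop := fun S => ∃ x : X → ℝ, (∀ v, 0 ≤ x v) ∧ (∀ v, v ∉ S → x v = 0) ∧
    ∑ v, x v = 1 ∧ y < (r.factorial : ℝ) * lag L x
  have hPuniv : P univ := by
    refine ⟨fun _ => (Fintype.card X : ℝ)⁻¹, fun v => inv_nonneg.2 hXR.le,
      fun v hv => absurd (Finset.mem_univ v) hv, ?_, ?_⟩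
    · rw [Finset.sum_const, Finset.card_univ, nsmul_eq_mul]
      exact mul_inv_cancel₀ hXR.ne'
    · have h1 : lag L (fun _ : X => (Fintype.card X : ℝ)⁻¹) =
          (L.card : ℝ) * ((Fintype.card X : ℝ)⁻¹) ^ r := by
        unfold lag
        rw [← nsmul_eq_mul, ← Finset.sum_const]
        apply Finset.sum_congr rfl
        intro e he
        rw [Finset.prod_const, hL e he]
      rw [h1, inv_pow, ← div_eq_mul_inv, ← mul_div_assoc, lt_div_iff₀ (pow_pos hXR r)]
      exact h
  obtain ⟨S, hS, hmin⟩ := Finset.exists_min_image (univ.filter P) Finset.card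
    ⟨univ, Finset.mem_filter.2 ⟨Finset.mem_univ _, hPuniv⟩⟩
  have hPS : P S := (Finset.mem_filter.1 hS).2
  have hmin' : ∀ S', P S' → S.card ≤ S'.card := fun S' hS' =>
    hmin S' (Finset.mem_filter.2 ⟨Finset.mem_univ _, hS'⟩)
  refine ⟨S, ?_, hPS⟩
  intro u huS v hvS huv
  by_contra hno
  obtain ⟨x, hx0, hxS, hxsum, hxy⟩ := hPS
  have hcov : ∀ e ∈ L, e ⊆ S → u ∈ e → v ∉ e := fun e he heS hu hv => hno ⟨e, he, heS, hu, hv⟩
  obtain ⟨c, hc⟩ := lag_line hxS huS hvS huv hcov
  have hsum : ∀ s : ℝ, ∑ w, (x w + s * ((if w = u then 1 else 0) - (if w = v then 1 else 0))) = 1 := by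
    intro s
    rw [Finset.sum_add_distrib, ← Finset.mul_sum, Finset.sum_sub_distrib, hxsum]
    simp
  have hfac : (0 : ℝ) < (r.factorial : ℝ) := by exact_mod_cast Nat.factorial_pos r
  have step : ∀ s : ℝ, 0 ≤ s * c → ∀ z ∈ S, (∀ w, 0 ≤ x w + s * ((if w = u then 1 else 0) - (if w = v then 1 else 0))) →
      (x z + s * ((if z = u then 1 else 0) - (if z = v then 1 else 0)) = 0) → False := by
    intro s hs z hz hnn hz0
    have hP' : P (S.erase z) := by
      refine ⟨fun w => x w + s * ((if w = u then 1 else 0) - (if w = v then 1 else 0)), hnn, ?_, hsum s, ?_⟩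
      · intro w hw
        by_cases hwz : w = z
        · rw [hwz]
          exact hz0
        · have hwS : w ∉ S := fun h => hw (Finset.mem_erase.2 ⟨hwz, h⟩)
          have hwv : w ≠ v := fun h => hwS (h ▸ hvS)
          have hwu : w ≠ u := fun h => hwS (h ▸ huS)
          simp only [if_neg hwu, if_neg hwv, hxS w hwS]
          ring
      · refine lt_of_lt_of_le hxy ?_
        rw [hc s]
        exact mul_le_mul_of_nonneg_left (by linarith) hfac.le
    have h1 := hmin' _ hP'
    have h2 : (S.erase z).card < S.card := Finset.card_erase_lt_of_mem hz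
    omega
  rcases le_total 0 c with hc0 | hc0
  · refine step (x v) (mul_nonneg (hx0 v) hc0) v hvS ?_ ?_
    · intro w
      by_cases hwu : w = u
      · rw [if_pos hwu, if_neg (fun h => huv (hwu.symm.trans h))]
        have := hx0 w
        have := hx0 v
        linarith
      · rw [if_neg hwu]
        by_cases hwv : w = v
        · rw [if_pos hwv, hwv]
          linarith
        · rw [if_neg hwv]
          have := hx0 w
          linarith
    · rw [if_neg (Ne.symm huv), if_pos rfl]
      ring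
  · refine step (-x u) (by nlinarith [hx0 u]) u huS ?_ ?_
    · intro w
      by_cases hwu : w = u
      · rw [if_pos hwu, if_neg (fun h => huv (hwu.symm.trans h)), hwu]
        linarith
      · rw [if_neg hwu]
        by_cases hwv : w = v
        · rw [if_pos hwv]
          have := hx0 w
          have := hx0 u
          linarith
        · rw [if_neg hwv]
          have := hx0 w
          linarith
    · rw [if_pos rfl, if_neg huv]
      ring

end CT
end

section

/-!
# The hypergraph `F` (papers 388, I.8)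
-/

set_option autoImplicit false

open Finset

namespace CT

instance embDecEq (r : ℕ) : DecidableEq (Fin r ↪ Fin (2 * r - 1)) :=
  DFunLike.coe_injective.decidableEq

/-- roots: an injection `s` into the ground set, or the `r`-set `t_s` -/
abbrev RT (r : ℕ) := (Fin r ↪ Fin (2 * r - 1)) × Bool

/-- base vertices: the ground set and the vertices `t_{s,j}` -/
abbrev BV (r : ℕ) := Fin (2 * r - 1) ⊕ ((Fin r ↪ Fin (2 * r - 1)) × Fin r)

/-- nodes `(rho, w, t, a)` -/
abbrev ND (r m : ℕ) (W : Type) := RT r × W × Fin (m + 1) × (Fin (m + 1) → Fin r)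

/-- all vertices of `F`: base vertices, the vertices `b_rho`, the nodes -/
abbrev FV (r m : ℕ) (W : Type) := BV r ⊕ (RT r ⊕ ND r m W)

instance decRT (r : ℕ) : DecidableEq (RT r) := instDecidableEqProd

instance decBV (r : ℕ) : DecidableEq (BV r) := instDecidableEqSum

instance decND (r m : ℕ) (W : Type) [DecidableEq W] : DecidableEq (ND r m W) := instDecidableEqProd

instance decFV (r m : ℕ) (W : Type) [DecidableEq W] : DecidableEq (FV r m W) := instDecidableEqSum

noncomputable instance finFV (r m : ℕ) (W : Type) [Fintype W] : Fintype (FV r m W) := inferInstance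

section

variable (r m : ℕ) (W : Type)

/-- the `j`-th vertex of the root `ρ` -/
def rootv (ρ : RT r) (j : Fin r) : FV r m W :=
  if ρ.2 then Sum.inl (Sum.inr (ρ.1, j)) else Sum.inl (Sum.inl (ρ.1 j))

/-- node as a vertex -/
def nd (ρ : RT r) (w : W) (t : Fin (m + 1)) (a : Fin (m + 1) → Fin r) : FV r m W :=
  Sum.inr (Sum.inr (ρ, w, t, a))

/-- the vertex `b_ρ` -/
def bv (ρ : RT r) : FV r m W := Sum.inr (Sum.inl ρ)

variable [Fintype W] [DecidableEq W] [NeZero r] (G : Finset (Finset W))

/-- edges `s ∪ {t_{s,j}}` -/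
noncomputable def E1 : Finset (Finset (FV r m W)) :=
  univ.image (fun q : (Fin r ↪ Fin (2 * r - 1)) × Fin r =>
    insert (Sum.inl (Sum.inr q) : FV r m W) (univ.image (rootv r m W (q.1, false))))

/-- edges from a node to its children -/
noncomputable def E2 : Finset (Finset (FV r m W)) :=
  univ.image (fun q : RT r × W × Fin m × (Fin (m + 1) → Fin r) =>
    insert (nd r m W q.1 q.2.1 q.2.2.1.castSucc q.2.2.2)
      (univ.image (fun j : Fin r => nd r m W q.1 q.2.1 q.2.2.1.succ
        (Function.update q.2.2.2 q.2.2.1.castSucc j))))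

/-- edges from a last node to the root set -/
noncomputable def E3 : Finset (Finset (FV r m W)) :=
  univ.image (fun q : RT r × W × (Fin (m + 1) → Fin r) =>
    insert (nd r m W q.1 q.2.1 (Fin.last m) q.2.2) (univ.image (rootv r m W q.1)))

/-- the copy of `G` in the link of `b_ρ` -/
noncomputable def E4 : Finset (Finset (FV r m W)) :=
  ((univ : Finset (RT r)) ×ˢ G).image (fun q =>
    insert (bv r m W q.1) (q.2.image (fun w => nd r m W q.1 w 0 (fun _ => 0))))

/-- the hypergraph `F` -/
noncomputable def FF : Finset (Finset (FV r m W)) := E1 r m W ∪ E2 r m W ∪ E3 r m W ∪ E4 r m W G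

end

end CT
end

section

/-!
# Short closed walks reachable in a bounded number of steps

Proof (papers 388, I.6).  Let `Reach j v` be the set of `w` with `Walk A t v w` for some `t ≤ j`, `J > 4/ρ`,
`m j := min {card (Reach j v) : v ∈ Reach (J - j) u0}` for `0 ≤ j ≤ J`.  Then `m (j-1) ≤ m j ≤ card T` and `m 0 ≥ 1`, so
`m j - m (j-1) < ρ card T / 4` for some `1 ≤ j ≤ J`.  Take `v ∈ Reach (J-j) u0` attaining `m j` and `Y` the set of out-neighbours
of `v`, `card Y ≥ ρ card T`.  For `w ∈ Y`: `w ∈ Reach (J-j+1) u0`, so `card (Reach (j-1) w) ≥ m (j-1)`, and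
`Reach (j-1) w ⊆ Reach j v`, so `Y` has fewer than `card Y / 4` elements outside `Reach (j-1) w`.  So the number of ordered pairs
`(w,w')` in `Y × Y`, `w ≠ w'`, `w' ∈ Reach (j-1) w` is at least `(3/4) card Y ^ 2 - card Y ≥ card Y ^2 / 2` when
`card Y ≥ 4` (`T1 ≥ 4/ρ`), which exceeds the number of unordered pairs; hence two distinct `w, w'` reach each other in at most
`j - 1` steps: closed walk at `w` of length between `1` and `2 J`.  `Jb := 2 J + 2`.
-/

set_option autoImplicit false

open Finset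

namespace CT

open Classical in
/-- the vertices reachable in at most `j` steps -/
private noncomputable def Rch {T : Type} [Fintype T] (A : T → T → Prop) (j : ℕ) (v : T) : Finset T :=
  univ.filter (fun w => ∃ t, t ≤ j ∧ Walk A t v w)

private theorem mem_Rch {T : Type} [Fintype T] {A : T → T → Prop} {j : ℕ} {v w : T} :
    w ∈ Rch A j v ↔ ∃ t, t ≤ j ∧ Walk A t v w := by
  simp [Rch]

/-- the descent: if at every reachable vertex one can lose `c`, then one loses `j c` in total -/
private theorem descent {T : Type} [Fintype T] {A : T → T → Prop} (J : ℕ) (u0 : T) (c : ℝ)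
    (h : ∀ j, 1 ≤ j → j ≤ J → ∀ v ∈ Rch A (J - j) u0, ∃ w, A v w ∧
      ((Rch A (j - 1) w).card : ℝ) ≤ ((Rch A j v).card : ℝ) - c) :
    ∀ i, i ≤ J → ∃ v ∈ Rch A i u0, ((Rch A (J - i) v).card : ℝ) ≤ (Fintype.card T : ℝ) - (i : ℝ) * c := by
  intro i
  induction i with
  | zero =>
    intro _
    refine ⟨u0, mem_Rch.2 ⟨0, le_refl 0, rfl⟩, ?_⟩
    have : (Rch A (J - 0) u0).card ≤ Fintype.card T := by
      simpa using Finset.card_le_univ (Rch A (J - 0) u0)
    have h2 : ((Rch A (J - 0) u0).card : ℝ) ≤ (Fintype.card T : ℝ) := by exact_mod_cast this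
    simpa using h2
  | succ i ih =>
    intro hi
    obtain ⟨v, hv, hc⟩ := ih (by omega)
    have hj1 : 1 ≤ J - i := by omega
    have hj2 : J - i ≤ J := by omega
    have e1 : J - (J - i) = i := by omega
    obtain ⟨w, hw, hw2⟩ := h (J - i) hj1 hj2 v (by rw [e1]; exact hv)
    have e2 : J - i - 1 = J - (i + 1) := by omega
    rw [e2] at hw2
    obtain ⟨t, ht, hwt⟩ := mem_Rch.1 hv
    refine ⟨w, mem_Rch.2 ⟨t + 1, by omega, walk_trans hwt ⟨w, hw, rfl⟩⟩, ?_⟩
    push_cast
    linarith

theorem short_cycle (ρ : ℝ) (hρ : 0 < ρ) : ∃ Jb T1 : ℕ, ∀ (T : Type) [Fintype T] [DecidableEq T]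
    (A : T → T → Prop) [DecidableRel A], T1 ≤ Fintype.card T →
    (∀ u, ρ * (Fintype.card T : ℝ) ≤ ((univ.filter (fun v => A u v)).card : ℝ)) →
    ∀ u0 : T, ∃ t l : ℕ, ∃ u : T, t ≤ Jb ∧ 1 ≤ l ∧ l ≤ Jb ∧ Walk A t u0 u ∧ Walk A l u u := by
  obtain ⟨J, hJ⟩ := exists_nat_gt (4 / ρ)
  obtain ⟨T1, hT1⟩ := exists_nat_gt (2 / ρ)
  refine ⟨2 * J + 2, T1, ?_⟩
  intro T _ _ A _ hT hdeg u0
  classical
  have hN : 0 < (Fintype.card T : ℝ) := by
    have : 0 < Fintype.card T := Fintype.card_pos_iff.2 ⟨u0⟩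
    exact_mod_cast this
  set N : ℝ := (Fintype.card T : ℝ) with hNdef
  have hJ' : 4 < J * ρ := by
    rw [div_lt_iff₀ hρ] at hJ
    exact hJ
  have hT2 : 2 < N * ρ := by
    have h1 : (T1 : ℝ) ≤ N := by rw [hNdef]; exact_mod_cast hT
    have h2 : 2 / ρ < N := lt_of_lt_of_le hT1 h1
    rw [div_lt_iff₀ hρ] at h2
    exact h2
  -- a stable vertex
  have hst : ∃ j, 1 ≤ j ∧ j ≤ J ∧ ∃ v ∈ Rch A (J - j) u0, ∀ w, A v w →
      ((Rch A j v).card : ℝ) - ρ * N / 4 < ((Rch A (j - 1) w).card : ℝ) := by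
    by_contra hcon
    push Not at hcon
    obtain ⟨v, _, hv⟩ := descent J u0 (ρ * N / 4) hcon J le_rfl
    have h0 : (0 : ℝ) ≤ ((Rch A (J - J) v).card : ℝ) := Nat.cast_nonneg _
    have h1 : N < (J : ℝ) * (ρ * N / 4) := by
      have : N * 4 < N * (J * ρ) := mul_lt_mul_of_pos_left hJ' hN
      linarith
    rw [← hNdef] at hv
    linarith
  obtain ⟨j, hj1, hjJ, v, hv, hstab⟩ := hst
  set Y : Finset T := univ.filter (fun w => A v w) with hY
  have hYc : ρ * N ≤ (Y.card : ℝ) := hdeg v
  have hY2 : (2 : ℝ) < (Y.card : ℝ) := by linarith [mul_comm ρ N]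
  have hYR : Y ⊆ Rch A j v := by
    intro w hw
    have hw' : A v w := by simpa [hY] using hw
    exact mem_Rch.2 ⟨1, hj1, w, hw', rfl⟩
  have hsub : ∀ w ∈ Y, Rch A (j - 1) w ⊆ Rch A j v := by
    intro w hw x hx
    have hw' : A v w := by simpa [hY] using hw
    obtain ⟨t, ht, hwt⟩ := mem_Rch.1 hx
    exact mem_Rch.2 ⟨t + 1, by omega, w, hw', hwt⟩
  have hbad : ∀ w ∈ Y, ((Y.filter (fun x => x ∉ Rch A (j - 1) w)).card : ℝ) < (Y.card : ℝ) / 4 := by
    intro w hw
    have hw' : A v w := by simpa [hY] using hw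
    have h1 := hstab w hw'
    have h2 : (Y.filter (fun x => x ∉ Rch A (j - 1) w)) ⊆ Rch A j v \ Rch A (j - 1) w := by
      intro x hx
      rw [mem_filter] at hx
      exact mem_sdiff.2 ⟨hYR hx.1, hx.2⟩
    have h3 := card_le_card h2
    have h4 : (Rch A j v \ Rch A (j - 1) w).card = (Rch A j v).card - (Rch A (j - 1) w).card :=
      card_sdiff_of_subset (hsub w hw)
    have h5 : (Rch A (j - 1) w).card ≤ (Rch A j v).card := card_le_card (hsub w hw)
    have h6 : ((Rch A j v \ Rch A (j - 1) w).card : ℝ) =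
        ((Rch A j v).card : ℝ) - ((Rch A (j - 1) w).card : ℝ) := by
      rw [h4, Nat.cast_sub h5]
    have h7 : ((Y.filter (fun x => x ∉ Rch A (j - 1) w)).card : ℝ) ≤
        ((Rch A j v \ Rch A (j - 1) w).card : ℝ) := by exact_mod_cast h3
    linarith
  -- double counting
  have hdc : ∑ x ∈ Y, ((Y.filter (fun w => x ∉ Rch A (j - 1) w)).card : ℝ) =
      ∑ w ∈ Y, ((Y.filter (fun x => x ∉ Rch A (j - 1) w)).card : ℝ) := by
    have := Finset.sum_card_bipartiteAbove_eq_sum_card_bipartiteBelow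
      (s := Y) (t := Y) (fun x w : T => x ∉ Rch A (j - 1) w)
    have h2 : (∑ x ∈ Y, (Y.filter (fun w => x ∉ Rch A (j - 1) w)).card) =
        ∑ w ∈ Y, (Y.filter (fun x => x ∉ Rch A (j - 1) w)).card := by
      simpa [Finset.bipartiteAbove, Finset.bipartiteBelow] using this
    exact_mod_cast h2
  have hYne : Y.Nonempty := by
    rw [← Finset.card_pos]
    have : (0 : ℝ) < (Y.card : ℝ) := by linarith
    exact_mod_cast this
  have hex : ∃ x ∈ Y, ((Y.filter (fun w => x ∉ Rch A (j - 1) w)).card : ℝ) < (Y.card : ℝ) / 4 := by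
    apply Finset.exists_lt_of_sum_lt
    rw [hdc]
    exact Finset.sum_lt_sum_of_nonempty hYne hbad
  obtain ⟨x, hxY, hx⟩ := hex
  have hx2 := hbad x hxY
  have hfin : ∃ w ∈ Y, w ≠ x ∧ x ∈ Rch A (j - 1) w ∧ w ∈ Rch A (j - 1) x := by
    by_contra hcon
    push Not at hcon
    have hcov : Y ⊆ insert x ((Y.filter (fun w => x ∉ Rch A (j - 1) w)) ∪
        (Y.filter (fun w => w ∉ Rch A (j - 1) x))) := by
      intro w hw
      by_cases h1 : w = x
      · exact mem_insert.2 (Or.inl h1)
      · refine mem_insert.2 (Or.inr ?_)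
        by_cases h2 : x ∈ Rch A (j - 1) w
        · exact mem_union.2 (Or.inr (mem_filter.2 ⟨hw, hcon w hw h1 h2⟩))
        · exact mem_union.2 (Or.inl (mem_filter.2 ⟨hw, h2⟩))
    have h3 := card_le_card hcov
    have h4 := card_insert_le x ((Y.filter (fun w => x ∉ Rch A (j - 1) w)) ∪
        (Y.filter (fun w => w ∉ Rch A (j - 1) x)))
    have h5 := card_union_le (Y.filter (fun w => x ∉ Rch A (j - 1) w))
        (Y.filter (fun w => w ∉ Rch A (j - 1) x))
    have h6 : Y.card ≤ (Y.filter (fun w => x ∉ Rch A (j - 1) w)).card +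
        (Y.filter (fun w => w ∉ Rch A (j - 1) x)).card + 1 := by omega
    have h7 : (Y.card : ℝ) ≤ ((Y.filter (fun w => x ∉ Rch A (j - 1) w)).card : ℝ) +
        ((Y.filter (fun w => w ∉ Rch A (j - 1) x)).card : ℝ) + 1 := by exact_mod_cast h6
    linarith
  obtain ⟨w, hwY, hwx, h1, h2⟩ := hfin
  obtain ⟨t1, ht1, hw1⟩ := mem_Rch.1 h1
  obtain ⟨t2, ht2, hw2⟩ := mem_Rch.1 h2
  have ht1' : 1 ≤ t1 := by
    rcases Nat.eq_zero_or_pos t1 with h | h
    · exfalso
      subst h
      exact hwx hw1
    · exact h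
  obtain ⟨t0, ht0, hw0⟩ := mem_Rch.1 hv
  have hvw : A v w := by simpa [hY] using hwY
  exact ⟨t0 + 1, t1 + t2, w, by omega, by omega, by omega, walk_trans hw0 ⟨w, hvw, rfl⟩,
    walk_trans hw1 hw2⟩

end CT
end

section

/-!
# `F` is uniform

Proof.  All listed vertices are distinct: `rootv ρ` is injective, the children of a node are distinct and distinct
from the node (different third component), `w ↦ nd ρ w 0 0` is injective and different from `bv ρ`.
-/

set_option autoImplicit false

open Finset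

namespace CT

theorem rootv_injective (r m : ℕ) (W : Type) (ρ : RT r) : Function.Injective (rootv r m W ρ) := by
  intro i j hij
  rcases ρ with ⟨s, b⟩
  cases b with
  | false =>
    have h : (Sum.inl (Sum.inl (s i)) : FV r m W) = Sum.inl (Sum.inl (s j)) := by
      simpa [rootv] using hij
    exact s.injective (Sum.inl_injective (Sum.inl_injective h))
  | true =>
    have h : (Sum.inl (Sum.inr (s, i)) : FV r m W) = Sum.inl (Sum.inr (s, j)) := by
      simpa [rootv] using hij
    exact (Prod.ext_iff.1 (Sum.inr_injective (Sum.inl_injective h))).2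

private theorem a15x_card {V : Type*} [DecidableEq V] {r : ℕ} (x : V) (f : Fin r → V)
    (hf : Function.Injective f) (hx : ∀ j, f j ≠ x) :
    (insert x (univ.image f) : Finset V).card = r + 1 := by
  rw [card_insert_of_notMem, card_image_of_injective _ hf, card_univ, Fintype.card_fin]
  intro h
  obtain ⟨j, _, hj⟩ := mem_image.1 h
  exact hx j hj

theorem FF_unif {r m : ℕ} {W : Type} [Fintype W] [DecidableEq W] [NeZero r] {G : Finset (Finset W)}
    (hG : Unif r G) : Unif (r + 1) (FF r m W G) := by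
  intro e he
  unfold FF at he
  rcases mem_union.1 he with he | he
  · rcases mem_union.1 he with he | he
    · rcases mem_union.1 he with he | he
      · unfold E1 at he
        obtain ⟨q, _, rfl⟩ := mem_image.1 he
        refine a15x_card _ _ (rootv_injective r m W _) ?_
        intro j h
        have h2 : (Sum.inl (Sum.inl (q.1 j)) : FV r m W) = Sum.inl (Sum.inr q) := by
          simpa [rootv] using h
        have h3 := Sum.inl_injective h2
        cases h3
      · unfold E2 at he
        obtain ⟨q, _, rfl⟩ := mem_image.1 he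
        refine a15x_card _ _ ?_ ?_
        · intro i j hij
          have h1 := Sum.inr_injective (Sum.inr_injective hij)
          have h2 := (Prod.ext_iff.1 (Prod.ext_iff.1 (Prod.ext_iff.1 h1).2).2).2
          have h3 := congrFun h2 q.2.2.1.castSucc
          simpa using h3
        · intro j hij
          have h1 := Sum.inr_injective (Sum.inr_injective hij)
          have h2 := (Prod.ext_iff.1 (Prod.ext_iff.1 (Prod.ext_iff.1 h1).2).2).1
          have h3 := congrArg Fin.val h2
          simp at h3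
    · unfold E3 at he
      obtain ⟨q, _, rfl⟩ := mem_image.1 he
      refine a15x_card _ _ (rootv_injective r m W _) ?_
      intro j h
      unfold rootv nd at h
      split_ifs at h
  · unfold E4 at he
    obtain ⟨q, hq, rfl⟩ := mem_image.1 he
    have hq2 := (mem_product.1 hq).2
    rw [card_insert_of_notMem, card_image_of_injective, hG _ hq2]
    · intro w w' h
      have h1 := Sum.inr_injective (Sum.inr_injective h)
      exact (Prod.ext_iff.1 (Prod.ext_iff.1 h1).2).1
    · intro h
      obtain ⟨w, _, hw⟩ := mem_image.1 h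
      have h1 := Sum.inr_injective hw
      cases h1

end CT
end

section

/-!
# In every partition without monochromatic edges some root set avoids `A`

Proof.  Two-colour `Fin (2r-1)`; one colour class has at least `r` elements, so there is an injection `s` whose image is
monochromatic.  If it avoids `A` take the root `(s, false)`.  If it is inside `A`, every edge of `E1` for `s` is not
inside `A`, so all `t_{s,j}` are outside `A`: take the root `(s, true)`.
-/

set_option autoImplicit false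

open Finset

namespace CT

theorem root_avoid {r m : ℕ} (hr : 1 ≤ r) {W : Type} [Fintype W] [DecidableEq W] [NeZero r]
    (A : Finset (FV r m W)) (h1 : ∀ e ∈ E1 r m W, ¬ e ⊆ A) : ∃ ρ : RT r, ∀ j, rootv r m W ρ j ∉ A := by
  classical
  have hcard := Finset.card_filter_add_card_filter_not (s := (univ : Finset (Fin (2 * r - 1))))
    (fun i => (Sum.inl (Sum.inl i) : FV r m W) ∈ A)
  rw [Finset.card_univ, Fintype.card_fin] at hcard
  have hs : ∀ P : Fin (2 * r - 1) → Prop, ∀ _ : DecidablePred P,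
      r ≤ ((univ : Finset (Fin (2 * r - 1))).filter P).card →
      ∃ s : Fin r ↪ Fin (2 * r - 1), ∀ j, P (s j) := by
    intro P _ hP
    obtain ⟨t, ht, htc⟩ := Finset.exists_subset_card_eq hP
    refine ⟨(t.orderEmbOfFin htc).toEmbedding, fun j => ?_⟩
    have := ht (Finset.orderEmbOfFin_mem t htc j)
    exact (Finset.mem_filter.1 this).2
  by_cases hc : r ≤ ((univ : Finset (Fin (2 * r - 1))).filter
      (fun i => (Sum.inl (Sum.inl i) : FV r m W) ∈ A)).card
  · obtain ⟨s, hsA⟩ := hs _ _ hc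
    refine ⟨(s, true), fun j hj => ?_⟩
    simp only [rootv, if_true] at hj
    refine h1 (insert (Sum.inl (Sum.inr (s, j)) : FV r m W)
      (univ.image (rootv r m W (s, false)))) ?_ ?_
    · exact Finset.mem_image.2 ⟨(s, j), Finset.mem_univ _, rfl⟩
    · intro x hx
      rcases Finset.mem_insert.1 hx with rfl | hx
      · exact hj
      · obtain ⟨i, _, rfl⟩ := Finset.mem_image.1 hx
        simpa [rootv] using hsA i
  · obtain ⟨s, hsA⟩ := hs (fun i => ¬ (Sum.inl (Sum.inl i) : FV r m W) ∈ A) _ (by omega)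
    refine ⟨(s, false), fun j => ?_⟩
    simpa [rootv] using hsA j

end CT
end

section

/-!
# Alternation along the nodes

Proof.  Downward induction on `t` (`t = m - k`, induction on `k`): for `k = 0` the edge of `E3` consists of the node and
the root set, which avoids `A`; it must meet `A`, so the node is in `A`.  For `t < m` the children `nd ρ w (t+1) _` are all
in `A` if `m - (t+1)` is even, so the edge of `E2` being not inside `A` gives that the node is not in `A`; and conversely.
The conclusion at `t = 0` with `m` even.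
-/

set_option autoImplicit false

open Finset

namespace CT

theorem node_mem {r m : ℕ} (hm : Even m) {W : Type} [Fintype W] [DecidableEq W] [NeZero r]
    (A : Finset (FV r m W)) (h2 : ∀ e ∈ E2 r m W, ¬ e ⊆ A) (h2' : ∀ e ∈ E2 r m W, ∃ v ∈ e, v ∈ A)
    (h3' : ∀ e ∈ E3 r m W, ∃ v ∈ e, v ∈ A) (ρ : RT r) (hρ : ∀ j, rootv r m W ρ j ∉ A) (w : W)
    (a : Fin (m + 1) → Fin r) : nd r m W ρ w 0 a ∈ A := by
  have key : ∀ k : ℕ, ∀ t : Fin (m + 1), (t : ℕ) + k = m → ∀ a : Fin (m + 1) → Fin r,
      (nd r m W ρ w t a ∈ A ↔ Even k) := by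
    intro k
    induction k with
    | zero =>
      intro t ht a
      have htl : t = Fin.last m := by
        apply Fin.ext
        simpa using ht
      subst htl
      have he : insert (nd r m W ρ w (Fin.last m) a) (univ.image (rootv r m W ρ)) ∈ E3 r m W := by
        unfold E3
        rw [mem_image]
        exact ⟨(ρ, w, a), mem_univ _, rfl⟩
      obtain ⟨v, hv, hvA⟩ := h3' _ he
      rw [mem_insert, mem_image] at hv
      rcases hv with hv | ⟨j, _, hj⟩
      · subst hv
        exact ⟨fun _ => by simp, fun _ => hvA⟩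
      · exact absurd (by rw [hj]; exact hvA) (hρ j)
    | succ k ih =>
      intro t ht a
      have htm : (t : ℕ) < m := by omega
      obtain ⟨t', rfl⟩ : ∃ t' : Fin m, t = t'.castSucc := ⟨⟨t, htm⟩, by
        apply Fin.ext
        rfl⟩
      have hchild : ∀ b : Fin (m + 1) → Fin r, nd r m W ρ w t'.succ b ∈ A ↔ Even k := by
        intro b
        apply ih
        rw [Fin.val_succ]
        rw [Fin.val_castSucc] at ht
        omega
      have he : insert (nd r m W ρ w t'.castSucc a)
          (univ.image (fun j : Fin r => nd r m W ρ w t'.succ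
            (Function.update a t'.castSucc j))) ∈ E2 r m W := by
        unfold E2
        rw [mem_image]
        exact ⟨(ρ, w, t', a), mem_univ _, rfl⟩
      rw [Nat.even_add_one]
      constructor
      · intro hin hk
        apply h2 _ he
        intro v hv
        rw [mem_insert, mem_image] at hv
        rcases hv with hv | ⟨j, _, hj⟩
        · rw [hv]; exact hin
        · rw [← hj]; exact (hchild _).2 hk
      · intro hk
        obtain ⟨v, hv, hvA⟩ := h2' _ he
        rw [mem_insert, mem_image] at hv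
        rcases hv with hv | ⟨j, _, hj⟩
        · rw [← hv]; exact hvA
        · rw [← hj] at hvA
          exact absurd ((hchild _).1 hvA) hk
  exact (key m 0 (by simp) a).2 hm

end CT
end

section

/-!
# The expansion `Kplus`

Proof.  `KE m r i j` has `2 + (r - 2) = r` elements for `i ≠ j`.  For `Kplus_hom` choose for every ordered pair `i ≠ j` an edge
containing `c i, c j`, enumerate it by `enum_pair` with `c i`, `c j` first, and send `inr ((i,j),l)` to the element number `l + 2`.
-/

set_option autoImplicit false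

open Finset

namespace CT

theorem Kplus_unif (m : ℕ) {r : ℕ} (hr : 2 ≤ r) : Unif r (Kplus m r) := by
  intro e he
  simp only [Kplus, Finset.mem_image, Finset.mem_filter, Finset.mem_univ, true_and] at he
  obtain ⟨⟨i, j⟩, hij, rfl⟩ := he
  have hij' : i ≠ j := hij
  show (KE m r i j).card = r
  unfold KE
  have h3 : ((univ : Finset (Fin (r - 2))).image
      (fun l : Fin (r - 2) => (Sum.inr ((i, j), l) : KV m r))).card = r - 2 := by
    rw [Finset.card_image_of_injective, Finset.card_univ, Fintype.card_fin]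
    intro a b hab
    have h := Sum.inr.inj hab
    exact (Prod.mk.inj h).2
  have h2 : (Sum.inl j : KV m r) ∉ (univ : Finset (Fin (r - 2))).image
      (fun l : Fin (r - 2) => (Sum.inr ((i, j), l) : KV m r)) := by
    simp
  have h1 : (Sum.inl i : KV m r) ∉ insert (Sum.inl j : KV m r) ((univ : Finset (Fin (r - 2))).image
      (fun l : Fin (r - 2) => (Sum.inr ((i, j), l) : KV m r))) := by
    simp [hij']
  rw [Finset.card_insert_of_notMem h1, Finset.card_insert_of_notMem h2, h3]
  omega

theorem Kplus_hom {m r : ℕ} (hr : 2 ≤ r) {X : Type*} [DecidableEq X] {L : Finset (Finset X)} (hL : Unif r L)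
    (c : Fin (m + 1) → X) (hc : Function.Injective c) (h : ∀ i j, i ≠ j → ∃ e ∈ L, c i ∈ e ∧ c j ∈ e) :
    HomTo (Kplus m r) L := by
  have h' : ∀ i j : Fin (m + 1), i ≠ j → ∃ a : Fin r → X, univ.image a ∈ L ∧
      a ⟨0, by omega⟩ = c i ∧ a ⟨1, by omega⟩ = c j := by
    intro i j hij
    obtain ⟨e, he, h1, h2⟩ := h i j hij
    obtain ⟨a, _, ha2, ha3, ha4⟩ := enum_pair hr (hL e he) h1 h2 (fun hh => hij (hc hh))
    exact ⟨a, by rw [ha2]; exact he, ha3, ha4⟩
  choose a ha using h'
  refine ⟨Sum.elim c (fun q => if hq : q.1.1 ≠ q.1.2 then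
    a q.1.1 q.1.2 hq ⟨(q.2 : ℕ) + 2, by have := q.2.2; omega⟩ else c q.1.1), ?_⟩
  intro e he
  simp only [Kplus, Finset.mem_image, Finset.mem_filter, Finset.mem_univ, true_and] at he
  obtain ⟨⟨i, j⟩, hij, rfl⟩ := he
  have hij' : i ≠ j := hij
  obtain ⟨h1, h2, h3⟩ := ha i j hij'
  have key : (KE m r i j).image (Sum.elim c (fun q : (Fin (m + 1) × Fin (m + 1)) × Fin (r - 2) =>
      if hq : q.1.1 ≠ q.1.2 then
      a q.1.1 q.1.2 hq ⟨(q.2 : ℕ) + 2, by have := q.2.2; omega⟩ else c q.1.1)) =
      univ.image (a i j hij') := by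
    unfold KE
    rw [Finset.image_insert, Finset.image_insert, Finset.image_image]
    ext x
    simp only [Finset.mem_insert, Finset.mem_image, Finset.mem_univ, true_and, Sum.elim_inl,
      Function.comp, Sum.elim_inr]
    constructor
    · rintro (hx | hx | ⟨l, hl⟩)
      · exact ⟨⟨0, by omega⟩, by rw [h2, hx]⟩
      · exact ⟨⟨1, by omega⟩, by rw [h3, hx]⟩
      · rw [dif_pos hij'] at hl
        exact ⟨_, hl⟩
    · rintro ⟨t, ht⟩
      obtain ⟨t, htr⟩ := t
      match t, htr, ht with
      | 0, _, ht => left; rw [← ht, h2]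
      | 1, _, ht => right; left; rw [← ht, h3]
      | l + 2, htr, ht =>
        right; right
        refine ⟨⟨l, by omega⟩, ?_⟩
        rw [dif_pos hij']
        exact ht
  exact key ▸ h1

end CT
end

section

/-!
# The time lemma

Proof.  `C := 2 * Jb`, `L := 2 * Jb !`.  From `short_cycle` take `t ≤ Jb`, `u`, `l`; by `walk_rotate` with `C - t` steps get
`v` with `Walk A C u0 v` and `Walk A l v v`; `l ∣ Jb !`, so `walk_mul`.
-/

set_option autoImplicit false

open Finset

namespace CT

theorem time_lemma (ρ : ℝ) (hρ : 0 < ρ) : ∃ C L T1 : ℕ, Even C ∧ Even L ∧ 2 ≤ L ∧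
    ∀ (T : Type) [Fintype T] [DecidableEq T] (A : T → T → Prop) [DecidableRel A], T1 ≤ Fintype.card T →
    (∀ u, ρ * (Fintype.card T : ℝ) ≤ ((univ.filter (fun v => A u v)).card : ℝ)) →
    ∀ u0 : T, ∃ u : T, Walk A C u0 u ∧ Walk A L u u := by
  obtain ⟨Jb, T1, hJ⟩ := short_cycle ρ hρ
  refine ⟨2 * Jb, 2 * Jb.factorial, T1, even_two_mul _, even_two_mul _, ?_, ?_⟩
  · have := Nat.factorial_pos Jb
    omega
  · intro T _ _ A _ hT hdeg u0
    obtain ⟨t, l, u, ht, hl1, hl, hw, hc⟩ := hJ T A hT hdeg u0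
    obtain ⟨v, hv, hlv⟩ := walk_rotate hl1 hc (2 * Jb - t)
    refine ⟨v, ?_, ?_⟩
    · have h := walk_trans hw hv
      have e : t + (2 * Jb - t) = 2 * Jb := by omega
      rwa [e] at h
    · obtain ⟨q, hq⟩ := Nat.dvd_factorial (Nat.lt_of_lt_of_le Nat.zero_lt_one hl1) hl
      have h := walk_mul hlv (2 * q)
      have e : 2 * q * l = 2 * Jb.factorial := by rw [hq]; ring
      rwa [e] at h

end CT
end

section

/-!
# `F` maps to every `H` that is rich at time `m + 1`: the nodes

Proof.  `ψ : W → V` with values in `iterN R0 (m+1)`, `R0 = image of the root set under φ0`.  By `mem_NN` choose for every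
level `k ≤ m` and every `z ∈ iterN R0 (k+1)` an enumeration `ch k z : Fin r → V` of an `r`-subset of `iterN R0 k` with
`z ∉` it and `insert z (univ.image (ch k z)) ∈ H`.  Define `f : (t : ℕ) → W → (ℕ → Fin r) → V` by `f 0 w a = ψ w`,
`f (t+1) w a = ch (m - t) (f t w a) (a t)`; by induction `f t w a ∈ iterN R0 (m + 1 - t)` for `t ≤ m`, and `f t w a` only depends
on `a 0, ..., a (t-1)`.  Put `g w t a := f t w (a extended to ℕ by 0)`.
-/

set_option autoImplicit false

open Finset

namespace CT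

/-- the recursive choice of the nodes -/
private def A16_f {r : ℕ} {V : Type} (ch : ℕ → V → Fin r → V) (m : ℕ) (x : V) :
    ℕ → (ℕ → Fin r) → V
  | 0, _ => x
  | t + 1, a => ch (m - t) (A16_f ch m x t a) (a t)

private theorem A16_f_congr {r : ℕ} {V : Type} (ch : ℕ → V → Fin r → V) (m : ℕ) (x : V) (t : ℕ)
    (a a' : ℕ → Fin r) (h : ∀ i, i < t → a i = a' i) :
    A16_f ch m x t a = A16_f ch m x t a' := by
  induction t with
  | zero => rfl
  | succ t ih =>
    simp only [A16_f]
    rw [ih (fun i hi => h i (by omega)), h t (by omega)]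

private theorem A16_choice {r : ℕ} {V : Type} [Fintype V] [DecidableEq V]
    {H : Finset (Finset V)} {R0 : Finset V} [NeZero r] (k : ℕ) (z : V) :
    ∃ c : Fin r → V, z ∈ iterN r H R0 (k + 1) →
      (∀ j, c j ∈ iterN r H R0 k) ∧ insert z (univ.image c) ∈ H := by
  by_cases hz : z ∈ iterN r H R0 (k + 1)
  · have hz' : z ∈ NN r H (iterN r H R0 k) := hz
    obtain ⟨T, hT, hc, _, hin⟩ := mem_NN.mp hz'
    let e := T.equivFinOfCardEq hc
    refine ⟨fun j => (e.symm j : V), fun _ => ⟨fun j => hT (e.symm j).2, ?_⟩⟩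
    have him : univ.image (fun j => (e.symm j : V)) = T := by
      ext v
      simp only [Finset.mem_image, Finset.mem_univ, true_and]
      constructor
      · rintro ⟨j, rfl⟩
        exact (e.symm j).2
      · intro hv
        exact ⟨e ⟨v, hv⟩, by simp⟩
    rw [him]
    exact hin
  · exact ⟨fun _ => z, fun h => absurd h hz⟩

theorem nodes_exist {W : Type} {r m : ℕ} [NeZero r] {V : Type} [Fintype V] [DecidableEq V]
    {H : Finset (Finset V)} {R0 : Finset V} (hR : R0.card = r) (ψ : W → V) (hψ : ∀ w, ψ w ∈ iterN r H R0 (m + 1)) :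
    ∃ g : W → Fin (m + 1) → (Fin (m + 1) → Fin r) → V,
      (∀ w a, g w 0 a = ψ w) ∧
      (∀ w (t : Fin m) (a : Fin (m + 1) → Fin r),
        insert (g w t.castSucc a) (univ.image (fun j : Fin r => g w t.succ (Function.update a t.castSucc j))) ∈ H) ∧
      (∀ w a, insert (g w (Fin.last m) a) R0 ∈ H) := by
  choose ch hch using (A16_choice (r := r) (H := H) (R0 := R0))
  let ext : (Fin (m + 1) → Fin r) → ℕ → Fin r := fun a i => if h : i < m + 1 then a ⟨i, h⟩ else 0
  have hmem : ∀ w (b : ℕ → Fin r) (t : ℕ), t ≤ m →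
      A16_f ch m (ψ w) t b ∈ iterN r H R0 (m + 1 - t) := by
    intro w b t
    induction t with
    | zero =>
      intro _
      exact hψ w
    | succ t ih =>
      intro ht
      have h1 := ih (by omega)
      have e1 : m + 1 - t = (m - t) + 1 := by omega
      rw [e1] at h1
      have h2 := (hch (m - t) _ h1).1 (b t)
      have e2 : m + 1 - (t + 1) = m - t := by omega
      rw [e2]
      exact h2
  refine ⟨fun w t a => A16_f ch m (ψ w) t.1 (ext a), fun w a => rfl, ?_, ?_⟩
  · intro w t a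
    have ht : t.1 < m := t.2
    have h1 := hmem w (ext a) t.1 ht.le
    have e1 : m + 1 - t.1 = (m - t.1) + 1 := by omega
    rw [e1] at h1
    have h2 := (hch (m - t.1) _ h1).2
    have key : (fun j : Fin r => A16_f ch m (ψ w) (t.succ).1
        (ext (Function.update a t.castSucc j))) = ch (m - t.1) (A16_f ch m (ψ w) t.1 (ext a)) := by
      funext j
      have e3 : (t.succ).1 = t.1 + 1 := rfl
      rw [e3]
      simp only [A16_f]
      have c1 : A16_f ch m (ψ w) t.1 (ext (Function.update a t.castSucc j)) =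
          A16_f ch m (ψ w) t.1 (ext a) := by
        apply A16_f_congr
        intro i hi
        have hi' : i < m + 1 := by omega
        have hne : (⟨i, hi'⟩ : Fin (m + 1)) ≠ t.castSucc := by
          intro h
          have := congrArg Fin.val h
          simp at this
          omega
        simp only [ext, dif_pos hi', Function.update_of_ne hne]
      have c2 : ext (Function.update a t.castSucc j) t.1 = j := by
        have hi' : t.1 < m + 1 := by omega
        have heq : (⟨t.1, hi'⟩ : Fin (m + 1)) = t.castSucc := rfl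
        simp only [ext, dif_pos hi', heq, Function.update_self]
      rw [c1, c2]
    show insert (A16_f ch m (ψ w) (t.castSucc).1 (ext a)) (univ.image
      (fun j : Fin r => A16_f ch m (ψ w) (t.succ).1 (ext (Function.update a t.castSucc j)))) ∈ H
    rw [key]
    exact h2
  · intro w a
    have h1 := hmem w (ext a) m le_rfl
    have e1 : m + 1 - m = 0 + 1 := by omega
    rw [e1] at h1
    have h1' : A16_f ch m (ψ w) m (ext a) ∈ NN r H R0 := h1
    obtain ⟨T, hT, hc, _, hin⟩ := mem_NN.mp h1'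
    have hTR : T = R0 := Finset.eq_of_subset_of_card_le hT (by omega)
    rw [hTR] at hin
    exact hin

end CT
end

section

/-!
# Eliminating the factor `Kplus`

Proof (papers 388, II.6 (b)).  For `q : ι → V` the clique through `q` is `D v := fun i => Equiv.swap v0 (q i) v` (`v0` a fixed vertex, `D v0 = q`,
the `D v` differ pairwise in all coordinates, so all pairs are covered in `piH r E`).  `core_indep` for
`F x v := φ (inl x, D v)` gives that `ψ q := φ (inl 0, q)` equals `φ (inl x, q)` for all core `x` and that `v ↦ ψ (D v)` is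
injective, so bijective.  Fix the edge `KE m r 0 1`.  For a non-core vertex `z` of it: `φ (z, q) ≠ φ (inl 0, D b) = ψ (D b)` for all
`b ≠ v0`, so `φ (z, q) = ψ q`.  So `φ (z, q) = ψ q` for all `z` in that edge, and for an edge `{q_1,...,q_r}` of `piH r E` the edge
`{(z_i, q_i)}` of the product (`edge_prod2`) is mapped to `{ψ q_i}`, which is in `P`.
-/

set_option autoImplicit false

open Finset

namespace CT

private lemma b05_hom_ne {W V : Type*} [DecidableEq W] [DecidableEq V] {r : ℕ} {F : Finset (Finset W)}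
    {P : Finset (Finset V)} (hF : Unif r F) (hP : Unif r P) {φ : W → V} (hφ : IsHom F P φ)
    {S : Finset W} (hS : S ∈ F) {u v : W} (hu : u ∈ S) (hv : v ∈ S) (huv : u ≠ v) : φ u ≠ φ v := by
  intro h
  have h1 : (S.image φ).card = S.card := by
    rw [hP _ (hφ S hS), hF S hS]
  exact huv (Finset.card_image_iff.1 h1 hu hv h)

private lemma b05_mem_core {m r : ℕ} {i j : Fin (m + 1)} (hij : i ≠ j) :
    KE m r i j ∈ Kplus m r ∧ (Sum.inl i : KV m r) ∈ KE m r i j ∧ (Sum.inl j : KV m r) ∈ KE m r i j := by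
  refine ⟨?_, ?_, ?_⟩
  · unfold Kplus
    exact mem_image.2 ⟨(i, j), mem_filter.2 ⟨mem_univ _, hij⟩, rfl⟩
  · unfold KE
    exact mem_insert_self _ _
  · unfold KE
    exact mem_insert_of_mem (mem_insert_self _ _)

theorem elim_K {V ι : Type} [Fintype V] [DecidableEq V] [Fintype ι] [DecidableEq ι] [Nonempty ι] {r : ℕ} (hr : 3 ≤ r)
    (hV : 2 ≤ Fintype.card V) (E : ι → Finset (Finset V)) (hE : ∀ i, Unif r (E i)) (hcov : ∀ i, Cov2 (E i))
    {P : Finset (Finset V)} (hP : Unif r P)
    (h : HomTo (prod2 r (Kplus (Fintype.card V) r) (piH r E)) P) : HomTo (piH r E) P := by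
  obtain ⟨φ, hφ⟩ := h
  have hr2 : 2 ≤ r := by omega
  have hKu : Unif r (Kplus (Fintype.card V) r) := Kplus_unif _ hr2
  have hne : ∀ (x x' : KV (Fintype.card V) r) (q q' : ι → V), x ≠ x' → (∀ i, q i ≠ q' i) →
      (∃ e ∈ Kplus (Fintype.card V) r, x ∈ e ∧ x' ∈ e) → φ (x, q) ≠ φ (x', q') := by
    intro x x' q q' hx hq hc
    obtain ⟨i⟩ := ‹Nonempty ι›
    haveI : Nonempty ι := ⟨i⟩
    have hqq : q ≠ q' := fun e => hq i (by rw [e])
    have hcp : ∃ S ∈ piH r E, q ∈ S ∧ q' ∈ S :=
      cov_piH hr2 hE hq (fun i => hcov i _ _ (hq i))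
    obtain ⟨S, hS, h1, h2⟩ := cov_prod2 hr2 hKu (piH_unif E) hx hqq hc hcp
    exact b05_hom_ne (prod2_unif _ _) hP hφ hS h1 h2 (fun e => hx (Prod.mk.inj e).1)
  obtain ⟨v0⟩ : Nonempty V := Fintype.card_pos_iff.1 (by omega)
  set i0 : Fin (Fintype.card V + 1) := ⟨0, by omega⟩ with hi0
  set i1 : Fin (Fintype.card V + 1) := ⟨1, by omega⟩ with hi1
  have hi01 : i0 ≠ i1 := by
    intro e
    have := congrArg Fin.val e
    simp [hi0, hi1] at this
  let D : (ι → V) → V → ι → V := fun q v i => Equiv.swap v0 (q i) v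
  have hD0 : ∀ q, D q v0 = q := by
    intro q
    funext i
    exact Equiv.swap_apply_left v0 (q i)
  have hDne : ∀ q a b, a ≠ b → ∀ i, D q a i ≠ D q b i := by
    intro q a b hab i e
    exact hab ((Equiv.swap v0 (q i)).injective e)
  have hcore : ∀ q, (∀ x x' a, φ (Sum.inl x, D q a) = φ (Sum.inl x', D q a)) ∧
      ∀ x, Function.Injective (fun a => φ (Sum.inl x, D q a)) := by
    intro q
    refine core_indep (fun x a => φ (Sum.inl x, D q a)) ?_
    intro x x' a b hx hab
    refine hne _ _ _ _ (fun e => hx (Sum.inl.inj e)) (hDne q a b hab) ?_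
    obtain ⟨h1, h2, h3⟩ := b05_mem_core (r := r) hx
    exact ⟨_, h1, h2, h3⟩
  let ψ : (ι → V) → V := fun q => φ (Sum.inl i0, q)
  have hψ : ∀ z ∈ KE (Fintype.card V) r i0 i1, ∀ q, φ (z, q) = ψ q := by
    intro z hz q
    by_cases hz0 : z = Sum.inl i0
    · rw [hz0]
    · have hs : Function.Surjective (fun a => φ (Sum.inl i0, D q a)) :=
        Finite.surjective_of_injective ((hcore q).2 i0)
      obtain ⟨b, hb⟩ := hs (φ (z, q))
      have hb' : φ (Sum.inl i0, D q b) = φ (z, q) := hb
      by_cases hb0 : b = v0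
      · rw [hb0, hD0] at hb'
        exact hb'.symm
      · exfalso
        obtain ⟨h1, h2, h3⟩ := b05_mem_core (r := r) hi01
        refine hne (Sum.inl i0) z (D q b) q (Ne.symm hz0) ?_ ⟨_, h1, h2, hz⟩ hb'
        intro i
        have := hDne q b v0 hb0 i
        rw [hD0 q] at this
        exact this
  refine ⟨ψ, fun e he => ?_⟩
  obtain ⟨h1, h2, h3⟩ := b05_mem_core (r := r) hi01
  obtain ⟨a, ha, hae⟩ := enum_edge (hKu _ h1)
  obtain ⟨b, hb, hbe⟩ := enum_edge (piH_unif E e he)
  have h4 : univ.image (fun i => (a i, b i)) ∈ prod2 r (Kplus (Fintype.card V) r) (piH r E) :=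
    edge_prod2 ha (by rw [hae]; exact h1) (by rw [hbe]; exact he)
  have h5 := hφ _ h4
  rw [Finset.image_image] at h5
  have h6 : univ.image (φ ∘ fun i => (a i, b i)) = e.image ψ := by
    rw [← hbe, Finset.image_image]
    refine Finset.image_congr ?_
    intro i _
    show φ (a i, b i) = ψ (b i)
    apply hψ
    rw [← hae]
    exact mem_image_of_mem _ (mem_univ i)
  rw [h6] at h5
  exact h5

end CT
end

section

/-!
# `F` maps to every `H` that is rich at time `m + 1`

Proof.  Choose an injection `Fin (2r-1) → V` (`2r-1 ≤ card V`); for every `s` an injection `Fin r → nb H (image of s)` (its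
cardinality is at least `r`): this defines `φ` on the base vertices, such that for every root `ρ` the map
`φ ∘ rootv ρ` is injective (so the image `R0 ρ` of the root set has `r` elements) and the edges `E1` go to edges of `H`.
For every root `ρ` take `b`, `ψ` from `hrich` for `R0 ρ` and `g` from `nodes_exist`; `bv ρ ↦ b`, `nd ρ w t a ↦ g w t a`.
-/

set_option autoImplicit false

open Finset

namespace CT

theorem FF_hom {r m : ℕ} (hr : 1 ≤ r) {W : Type} [Fintype W] [DecidableEq W] [NeZero r] {G : Finset (Finset W)}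
    {V : Type} [Fintype V] [DecidableEq V] {H : Finset (Finset V)} (hV : 2 * r - 1 ≤ Fintype.card V)
    (hc : MinCo r H (r : ℝ)) (hrich : ∀ R0 : Finset V, R0.card = r → Rich G H (iterN r H R0 (m + 1))) :
    HomTo (FF r m W G) H := by
  classical
  -- the ground set
  obtain ⟨ι⟩ : Nonempty (Fin (2 * r - 1) ↪ V) := by
    apply Function.Embedding.nonempty_of_card_le
    rw [Fintype.card_fin]
    exact hV
  have hcard : ∀ f : Fin r → V, Function.Injective f → (univ.image f).card = r := by
    intro f hf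
    rw [Finset.card_image_of_injective _ hf, Finset.card_univ, Fintype.card_fin]
  -- the vertices `t_{s,j}`
  have hτ : ∀ s : Fin r ↪ Fin (2 * r - 1), ∃ τ : Fin r → V, Function.Injective τ ∧
      ∀ j, τ j ∈ nb H (univ.image (fun i => ι (s i))) := by
    intro s
    have h1 : (univ.image (fun i => ι (s i))).card = r :=
      hcard _ (fun i j h => s.injective (ι.injective h))
    have h2 : r ≤ (nb H (univ.image (fun i => ι (s i)))).card := by
      have := hc _ h1
      exact_mod_cast this
    obtain ⟨T, hT, hTc⟩ := Finset.exists_subset_card_eq h2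
    refine ⟨fun j => ((T.equivFinOfCardEq hTc).symm j : V), ?_, ?_⟩
    · intro i j h
      exact (T.equivFinOfCardEq hTc).symm.injective (Subtype.ext h)
    · intro j
      exact hT ((T.equivFinOfCardEq hTc).symm j).2
  choose τ hτi hτn using hτ
  -- images of the root sets
  let rv : RT r → Fin r → V := fun ρ j => if ρ.2 then τ ρ.1 j else ι (ρ.1 j)
  have hrv : ∀ ρ, Function.Injective (rv ρ) := by
    rintro ⟨s, b⟩ i j h
    cases b
    · simp only [rv] at h
      exact s.injective (ι.injective h)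
    · simp only [rv] at h
      exact hτi s h
  have hRich := fun ρ : RT r => hrich (univ.image (rv ρ)) (hcard _ (hrv ρ))
  unfold Rich at hRich
  choose b ψ hψ hb using hRich
  have hN := fun ρ : RT r => nodes_exist (m := m) (H := H) (hcard _ (hrv ρ)) (ψ ρ) (hψ ρ)
  choose g hg0 hg1 hg2 using hN
  let φ : FV r m W → V := Sum.elim (Sum.elim ι (fun q => τ q.1 q.2))
    (Sum.elim b (fun q => g q.1 q.2.1 q.2.2.1 q.2.2.2))
  have hφroot : ∀ ρ j, φ (rootv r m W ρ j) = rv ρ j := by
    rintro ⟨s, b⟩ j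
    cases b <;> rfl
  have hφroots : ∀ ρ, (univ.image (rootv r m W ρ)).image φ = univ.image (rv ρ) := by
    intro ρ
    rw [Finset.image_image]
    congr 1
    funext j
    exact hφroot ρ j
  refine ⟨φ, ?_⟩
  intro e he
  unfold FF at he
  rw [Finset.mem_union, Finset.mem_union, Finset.mem_union] at he
  rcases he with ((he | he) | he) | he
  · unfold E1 at he
    obtain ⟨q, _, rfl⟩ := Finset.mem_image.1 he
    rw [Finset.image_insert, hφroots]
    have h1 := hτn q.1 q.2
    unfold nb at h1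
    rw [Finset.mem_filter] at h1
    exact h1.2.2
  · unfold E2 at he
    obtain ⟨q, _, rfl⟩ := Finset.mem_image.1 he
    rw [Finset.image_insert, Finset.image_image]
    exact hg1 q.1 q.2.1 q.2.2.1 q.2.2.2
  · unfold E3 at he
    obtain ⟨q, _, rfl⟩ := Finset.mem_image.1 he
    rw [Finset.image_insert, hφroots]
    exact hg2 q.1 q.2.1 q.2.2
  · unfold E4 at he
    obtain ⟨q, hq, rfl⟩ := Finset.mem_image.1 he
    rw [Finset.mem_product] at hq
    rw [Finset.image_insert, Finset.image_image]
    have h1 := hb q.1 q.2 hq.2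
    have h2 : (φ ∘ fun w => nd r m W q.1 w 0 (fun _ => 0)) = ψ q.1 := by
      funext w
      exact hg0 q.1 w _
    rw [h2]
    exact h1

end CT
end

section

/-!
# `F` is not in the class `InS`

Proof.  Let `A` be as in the definition of `InS`.  `root_avoid`, `node_mem` give `ρ` with all `nd ρ w 0 0 ∈ A`.  If `bv ρ ∈ A` then
an edge of `E4` (`G` nonempty) is inside `A`, contradiction.  So `bv ρ ∉ A` and `ψ w := nd ρ w 0 0` contradicts the last clause.
-/

set_option autoImplicit false

open Finset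

namespace CT

theorem FF_not_InS {r m : ℕ} (hr : 1 ≤ r) (hm : Even m) {W : Type} [Fintype W] [DecidableEq W] [NeZero r]
    {G : Finset (Finset W)} (hG : G.Nonempty) : ¬ InS G (FF r m W G) := by
  rintro ⟨A, h1, h2, h3⟩
  have s1 : ∀ e ∈ E1 r m W, e ∈ FF r m W G := fun e he => by
    unfold FF
    simp only [mem_union]
    exact Or.inl (Or.inl (Or.inl he))
  have s2 : ∀ e ∈ E2 r m W, e ∈ FF r m W G := fun e he => by
    unfold FF
    simp only [mem_union]
    exact Or.inl (Or.inl (Or.inr he))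
  have s3 : ∀ e ∈ E3 r m W, e ∈ FF r m W G := fun e he => by
    unfold FF
    simp only [mem_union]
    exact Or.inl (Or.inr he)
  have s4 : ∀ (ρ : RT r), ∀ g ∈ G,
      insert (bv r m W ρ) (g.image (fun w => nd r m W ρ w 0 (fun _ => 0))) ∈ FF r m W G := by
    intro ρ g hg
    unfold FF
    simp only [mem_union]
    refine Or.inr ?_
    unfold E4
    exact mem_image.2 ⟨(ρ, g), mem_product.2 ⟨mem_univ _, hg⟩, rfl⟩
  obtain ⟨ρ, hρ⟩ := root_avoid hr A (fun e he => h1 e (s1 e he))
  have hn : ∀ w : W, nd r m W ρ w 0 (fun _ => 0) ∈ A := fun w =>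
    node_mem hm A (fun e he => h1 e (s2 e he)) (fun e he => h2 e (s2 e he))
      (fun e he => h2 e (s3 e he)) ρ hρ w (fun _ => 0)
  by_cases hb : bv r m W ρ ∈ A
  · obtain ⟨g, hg⟩ := hG
    refine h1 _ (s4 ρ g hg) ?_
    intro x hx
    rcases mem_insert.1 hx with hx | hx
    · rw [hx]
      exact hb
    · obtain ⟨w, _, rfl⟩ := mem_image.1 hx
      exact hn w
  · obtain ⟨e, he, hne⟩ := h3 (bv r m W ρ) hb (fun w => nd r m W ρ w 0 (fun _ => 0)) hn
    exact hne (s4 ρ e he)

end CT
end
end
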