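import Pool.Agent.Lib.MP_63f67f_co.Defs
import Pool.Agent.Lib.MP_63f67f_co.B02

section

/-!
# The missing edges: cardinalities and products

Proof.  In the class `0` the numbers `v + t + 1 (mod N 0)`, `t < r - 1` (and `v` itself for `Aset` with `i = 0`) are distinct because `r + p ≤ N 0`; vertices
of different classes are distinct; in `Aset` with `i ≥ 1` the second vertex is in the class `i ≠ 0`.
-/

set_option autoImplicit false

open Finset

namespace CT

section
variable {r n p : ℕ} {N : ℕ → ℕ} [∀ i, NeZero (N i)]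

private theorem C14_cls {i j : Fin (n + 1)} {x y : ℕ} (h : pt n N i x = pt n N j y) : i = j :=
  congrArg Sigma.fst h

private theorem C14_mod {i : Fin (n + 1)} {x y : ℕ} (h : pt n N i x = pt n N i y) :
    x % N i = y % N i := by
  unfold pt at h
  have h1 : Fin.ofNat (N i) x = Fin.ofNat (N i) y := by
    have := (Sigma.mk.inj_iff.1 h).2
    exact eq_of_heq this
  have h2 := congrArg Fin.val h1
  simpa [Fin.val_ofNat] using h2

private theorem C14_ne {x d m : ℕ} (hd : 0 < d) (hdm : d < m) : ¬ (x + d) % m = x % m := by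
  intro h
  have h1 : x + d ≡ x [MOD m] := h
  have h2 : d ≡ 0 [MOD m] := by
    have : x + d ≡ x + 0 [MOD m] := by simpa using h1
    exact Nat.ModEq.add_left_cancel' x this
  have h3 : m ∣ d := (Nat.modEq_zero_iff_dvd).1 h2
  exact absurd (Nat.le_of_dvd hd h3) (by omega)

private theorem C14_inj (c m : ℕ) (hm : m ≤ N 0) :
    Set.InjOn (fun t => pt n N 0 (c + t + 1)) (range m : Finset ℕ) := by
  intro s hs t ht hst
  have hs' := mem_range.1 (mem_coe.1 hs)
  have ht' := mem_range.1 (mem_coe.1 ht)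
  have h1 : (c + s + 1) % N 0 = (c + t + 1) % N 0 := C14_mod hst
  rcases lt_trichotomy s t with h | h | h
  · exact absurd (by rw [h1]; congr 1; omega)
      (C14_ne (x := c + s + 1) (d := t - s) (m := N 0) (by omega) (by omega) ∘ Eq.symm)
  · exact h
  · exact absurd (by rw [← h1]; congr 1; omega)
      (C14_ne (x := c + t + 1) (d := s - t) (m := N 0) (by omega) (by omega) ∘ Eq.symm)

private theorem C14_notmem (i : Fin n) (v c m : ℕ) :
    pt n N i.succ v ∉ (range m).image (fun t => pt n N 0 (c + t + 1)) := by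
  intro h
  obtain ⟨t, _, ht⟩ := mem_image.1 h
  exact (Fin.succ_ne_zero i) (C14_cls ht).symm

private theorem C14_notmem1 (i : Fin n) (v m : ℕ) (hm : m < N 0) :
    pt n N i.castSucc v ∉ (range m).image (fun t => pt n N 0 (v + t + 1)) := by
  intro h
  obtain ⟨t, ht, hte⟩ := mem_image.1 h
  have ht' := mem_range.1 ht
  have h0 : (0 : Fin (n + 1)) = i.castSucc := C14_cls hte
  rw [← h0] at hte
  have h1 : (v + t + 1) % N 0 = v % N 0 := C14_mod hte
  exact C14_ne (x := v) (d := t + 1) (m := N 0) (by omega) (by omega) (by rw [← h1]; congr 1)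

private theorem C14_notmem2 (i : Fin n) (v m : ℕ) :
    pt n N i.succ v ∉ insert (pt n N i.castSucc v)
      ((range m).image (fun t => pt n N 0 (v + t + 1))) := by
  intro h
  rcases mem_insert.1 h with h | h
  · have := congrArg Fin.val (C14_cls h)
    rw [Fin.val_succ, Fin.val_castSucc] at this
    omega
  · exact C14_notmem i v v m h

theorem card_Aset (hr : 3 ≤ r) (hN : r + p ≤ N 0) (i : Fin n) (v : ℕ) : (Aset r n N i v).card = r := by
  unfold Aset
  rw [card_insert_of_notMem (C14_notmem2 i v (r - 2)),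
    card_insert_of_notMem (C14_notmem1 i v (r - 2) (by omega)),
    card_image_of_injOn (C14_inj v (r - 2) (by omega)), card_range]
  omega

theorem card_Bset (hr : 3 ≤ r) (hN : r + p ≤ N 0) (i : Fin n) (v j : ℕ) : (Bset r n N i v j).card = r := by
  unfold Bset
  rw [card_insert_of_notMem (C14_notmem i v (v + j) (r - 1)),
    card_image_of_injOn (C14_inj (v + j) (r - 1) (by omega)), card_range]
  omega

theorem prod_Aset {R : Type*} [CommRing R] (hr : 3 ≤ r) (hN : r + p ≤ N 0) (a : ℕ → R) (i : Fin n) (v : ℕ) :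
    ∏ u ∈ Aset r n N i v, a (u.1 : ℕ) = a (i + 1) * a i * a 0 ^ (r - 2) := by
  unfold Aset
  rw [prod_insert (C14_notmem2 i v (r - 2)),
    prod_insert (C14_notmem1 i v (r - 2) (by omega)),
    prod_image (C14_inj v (r - 2) (by omega))]
  simp only [pt, Fin.val_succ, Fin.val_castSucc, Fin.val_zero, prod_const, card_range]
  ring

theorem prod_Bset {R : Type*} [CommRing R] (hr : 3 ≤ r) (hN : r + p ≤ N 0) (a : ℕ → R) (i : Fin n) (v j : ℕ) :
    ∏ u ∈ Bset r n N i v j, a (u.1 : ℕ) = a (i + 1) * a 0 ^ (r - 1) := by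
  unfold Bset
  rw [prod_insert (C14_notmem i v (v + j) (r - 1)),
    prod_image (C14_inj (v + j) (r - 1) (by omega))]
  simp only [pt, Fin.val_succ, Fin.val_zero, prod_const, card_range]

theorem unif_miss0 (hr : 3 ≤ r) (hN : r + p ≤ N 0) : Unif r (miss0 r n p N) := by
  intro e he
  simp only [miss0, mem_biUnion, mem_univ, true_and, mem_union, mem_image] at he
  obtain ⟨i, ⟨v, _, rfl⟩ | ⟨q, _, rfl⟩⟩ := he
  · exact card_Aset hr hN i v
  · exact card_Bset hr hN i _ _
end

end CT
end

section

/-!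
# Summation over the missing edges

Proof.  The sets `Aset i v` (`v < N (i+1)`) and `Bset i v j` (`v < N (i+1)`, `j < p - 1`) are pairwise distinct: the vertex of the highest
class determines `i` and `v` (`Fin.ofNat (N (i+1)) v` has value `v`).  For given `i, v`: `Aset` contains a second vertex outside the
class `0` if `i ≥ 1`; for `i = 0` its class-`0` part is the cyclic interval of length `r - 1` starting at `v`, and the class-`0`
part of `Bset i v j` is the cyclic interval of length `r - 1` starting at `v + j + 1`; the starts differ mod `N 0` (`j + 1 ≤ p - 1 < N 0`) and cyclic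
intervals of length `r - 1 < N 0` with different starts are different.  So the union is disjoint and the images are injective.
-/

set_option autoImplicit false

open Finset

namespace CT

private theorem C15_cyc {N ℓ s s' : ℕ} (hℓ : ℓ < N) (h0 : 0 < ℓ)
    (h : ∀ a, (∃ t, t < ℓ ∧ s + t ≡ a [MOD N]) ↔ (∃ t, t < ℓ ∧ s' + t ≡ a [MOD N])) : s ≡ s' [MOD N] := by
  obtain ⟨t, ht, h1⟩ := (h s).mp ⟨0, h0, by simpa using Nat.ModEq.refl s⟩
  rcases Nat.eq_zero_or_pos t with ht0 | ht0
  · subst ht0; simpa using h1.symm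
  · exfalso
    obtain ⟨u, hu, h2⟩ := (h (s' + (t - 1))).mpr ⟨t - 1, by omega, Nat.ModEq.refl _⟩
    have h3 : s + u + 1 ≡ s' + (t - 1) + 1 [MOD N] := h2.add_right 1
    have h4 : s' + (t - 1) + 1 = s' + t := by omega
    rw [h4] at h3
    have h5 : s + (u + 1) ≡ s + 0 [MOD N] := by
      have := h3.trans h1
      simpa [add_assoc] using this
    have h6 : u + 1 ≡ 0 [MOD N] := Nat.ModEq.add_left_cancel' s h5
    have h7 : N ∣ u + 1 := (Nat.modEq_zero_iff_dvd).mp h6
    have h8 := Nat.le_of_dvd (by omega) h7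
    omega

section
variable {r n p : ℕ} {N : ℕ → ℕ} [∀ i, NeZero (N i)]

private theorem C15_pt (k : Fin (n + 1)) (a b : ℕ) : pt n N k a = pt n N k b ↔ a ≡ b [MOD N k] := by
  unfold pt
  rw [Sigma.mk.injEq]
  simp only [heq_eq_eq, true_and, Fin.ext_iff, Nat.ModEq]
  rfl

private theorem C15_memA {i : Fin n} {v : ℕ} {x : UV n N} : x ∈ Aset r n N i v ↔
    x = pt n N i.succ v ∨ x = pt n N i.castSucc v ∨ ∃ t, t < r - 2 ∧ pt n N 0 (v + t + 1) = x := by
  simp [Aset]

private theorem C15_memB {i : Fin n} {v j : ℕ} {x : UV n N} : x ∈ Bset r n N i v j ↔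
    x = pt n N i.succ v ∨ ∃ t, t < r - 1 ∧ pt n N 0 (v + j + t + 1) = x := by
  simp [Bset]

/-- the highest vertex -/
private def C15_top (e : Finset (UV n N)) (i : Fin n) (v : ℕ) : Prop :=
  pt n N i.succ v ∈ e ∧ ∀ x ∈ e, x.1 ≤ i.succ ∧ (x.1 = i.succ → x = pt n N i.succ v)

private theorem C15_topA (i : Fin n) (v : ℕ) : C15_top (Aset r n N i v) i v := by
  refine ⟨C15_memA.mpr (Or.inl rfl), fun x hx => ?_⟩
  rcases C15_memA.mp hx with rfl | rfl | ⟨t, _, rfl⟩
  · exact ⟨le_refl _, fun _ => rfl⟩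
  · refine ⟨(Fin.castSucc_lt_succ).le, fun h => ?_⟩
    have h' : i.castSucc = i.succ := h
    exact absurd h' (Fin.castSucc_lt_succ).ne
  · refine ⟨Fin.zero_le _, fun h => ?_⟩
    have h' : (0 : Fin (n + 1)) = i.succ := h
    exact absurd h'.symm (Fin.succ_ne_zero i)

private theorem C15_topB (i : Fin n) (v j : ℕ) : C15_top (Bset r n N i v j) i v := by
  refine ⟨C15_memB.mpr (Or.inl rfl), fun x hx => ?_⟩
  rcases C15_memB.mp hx with rfl | ⟨t, _, rfl⟩
  · exact ⟨le_refl _, fun _ => rfl⟩
  · refine ⟨Fin.zero_le _, fun h => ?_⟩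
    have h' : (0 : Fin (n + 1)) = i.succ := h
    exact absurd h'.symm (Fin.succ_ne_zero i)

private theorem C15_top_i {e : Finset (UV n N)} {i i' : Fin n} {v v' : ℕ} (h : C15_top e i v)
    (h' : C15_top e i' v') : i = i' := by
  have h1 : i'.succ ≤ i.succ := (h.2 _ h'.1).1
  have h2 : i.succ ≤ i'.succ := (h'.2 _ h.1).1
  exact Fin.succ_injective _ (le_antisymm h2 h1)

private theorem C15_top_v {e : Finset (UV n N)} {i : Fin n} {v v' : ℕ} (h : C15_top e i v)
    (h' : C15_top e i v') (hv : v < N (i + 1)) (hv' : v' < N (i + 1)) : v = v' := by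
  have h1 := (h.2 _ h'.1).2 rfl
  rw [C15_pt] at h1
  have h2 : v' ≡ v [MOD N (i + 1)] := h1
  rw [Nat.ModEq, Nat.mod_eq_of_lt hv', Nat.mod_eq_of_lt hv] at h2
  exact h2.symm

private theorem C15_pt_ne {i : Fin n} {a v : ℕ} : pt n N 0 a ≠ pt n N i.succ v := by
  intro h
  have h' : (0 : Fin (n + 1)) = i.succ := congrArg Sigma.fst h
  exact absurd h'.symm (Fin.succ_ne_zero i)

private theorem C15_zeroB (i : Fin n) (v j a : ℕ) : pt n N 0 a ∈ Bset r n N i v j ↔
    ∃ t, t < r - 1 ∧ v + j + 1 + t ≡ a [MOD N 0] := by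
  rw [C15_memB]
  constructor
  · rintro (h | ⟨t, ht, h⟩)
    · exact absurd h C15_pt_ne
    · refine ⟨t, ht, ?_⟩
      rw [C15_pt] at h
      have : v + j + 1 + t = v + j + t + 1 := by ring
      rw [this]
      exact h
  · rintro ⟨t, ht, h⟩
    refine Or.inr ⟨t, ht, ?_⟩
    rw [C15_pt]
    have : v + j + t + 1 = v + j + 1 + t := by ring
    rw [this]
    exact h

private theorem C15_zeroA (hr : 3 ≤ r) (i : Fin n) (hi : i.castSucc = 0) (v a : ℕ) : pt n N 0 a ∈ Aset r n N i v ↔
    ∃ t, t < r - 1 ∧ v + t ≡ a [MOD N 0] := by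
  rw [C15_memA, hi]
  constructor
  · rintro (h | h | ⟨t, ht, h⟩)
    · exact absurd h C15_pt_ne
    · refine ⟨0, by omega, ?_⟩
      rw [C15_pt] at h
      simpa using h.symm
    · refine ⟨t + 1, by omega, ?_⟩
      rw [C15_pt] at h
      exact h
  · rintro ⟨t, ht, h⟩
    rcases t with _ | t
    · refine Or.inr (Or.inl ?_)
      rw [C15_pt]
      simpa using h.symm
    · refine Or.inr (Or.inr ⟨t, by omega, ?_⟩)
      rw [C15_pt]
      exact h

private theorem C15_AB (hr : 3 ≤ r) (hN : r + p ≤ N 0) {i : Fin n} {v v' j : ℕ} (hj : j < p - 1)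
    (hv : v < N (i + 1)) (hv' : v' < N (i + 1)) : Aset r n N i v ≠ Bset r n N i v' j := by
  intro h
  have hvv : v = v' := C15_top_v (C15_topA (r := r) i v) (h ▸ C15_topB (r := r) i v' j) hv hv'
  subst hvv
  by_cases hi : i.castSucc = 0
  · have h1 : v ≡ v + j + 1 [MOD N 0] := by
      apply C15_cyc (ℓ := r - 1) (by omega) (by omega)
      intro a
      rw [← C15_zeroA hr i hi v a, ← C15_zeroB (r := r) i v j a, h]
    have h2 : v + 0 ≡ v + (j + 1) [MOD N 0] := by simpa [add_assoc] using h1
    have h3 : 0 ≡ j + 1 [MOD N 0] := Nat.ModEq.add_left_cancel' v h2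
    have h4 : N 0 ∣ j + 1 := (Nat.modEq_zero_iff_dvd).mp h3.symm
    have h5 := Nat.le_of_dvd (by omega) h4
    omega
  · have h1 : pt n N i.castSucc v ∈ Bset r n N i v j := by
      rw [← h]
      exact C15_memA.mpr (Or.inr (Or.inl rfl))
    rcases C15_memB.mp h1 with h2 | ⟨t, _, h2⟩
    · have h3 : i.castSucc = i.succ := congrArg Sigma.fst h2
      exact absurd h3 (Fin.castSucc_lt_succ).ne
    · have h3 : (0 : Fin (n + 1)) = i.castSucc := congrArg Sigma.fst h2
      exact hi h3.symm

private theorem C15_BB (hr : 3 ≤ r) (hN : r + p ≤ N 0) {i : Fin n} {v v' j j' : ℕ} (hj : j < p - 1) (hj' : j' < p - 1)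
    (hv : v < N (i + 1)) (hv' : v' < N (i + 1)) (h : Bset r n N i v j = Bset r n N i v' j') : v = v' ∧ j = j' := by
  have hvv : v = v' := C15_top_v (C15_topB (r := r) i v j) (h ▸ C15_topB (r := r) i v' j') hv hv'
  subst hvv
  refine ⟨rfl, ?_⟩
  have h1 : v + j + 1 ≡ v + j' + 1 [MOD N 0] := by
    apply C15_cyc (ℓ := r - 1) (by omega) (by omega)
    intro a
    rw [← C15_zeroB (r := r) i v j a, ← C15_zeroB (r := r) i v j' a, h]
  have h2 : v + j ≡ v + j' [MOD N 0] := Nat.ModEq.add_right_cancel' 1 h1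
  have h3 : j ≡ j' [MOD N 0] := Nat.ModEq.add_left_cancel' v h2
  rwa [Nat.ModEq, Nat.mod_eq_of_lt (by omega), Nat.mod_eq_of_lt (by omega)] at h3

end

theorem sum_miss0 {r n p : ℕ} {N : ℕ → ℕ} [∀ i, NeZero (N i)] (hr : 3 ≤ r) (hN : r + p ≤ N 0)
    {A : Type*} [AddCommMonoid A] (g : Finset (UV n N) → A) :
    ∑ e ∈ miss0 r n p N, g e = ∑ i : Fin n, ((∑ v ∈ range (N (i + 1)), g (Aset r n N i v)) +
      ∑ v ∈ range (N (i + 1)), ∑ j ∈ range (p - 1), g (Bset r n N i v j)) := by
  classical
  have htop : ∀ (i : Fin n) (e : Finset (UV n N)),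
      e ∈ (range (N (i + 1))).image (fun v => Aset r n N i v) ∪
        (range (N (i + 1)) ×ˢ range (p - 1)).image (fun q => Bset r n N i q.1 q.2) → ∃ v, C15_top e i v := by
    intro i e he
    rcases Finset.mem_union.mp he with h | h
    · obtain ⟨v, _, rfl⟩ := Finset.mem_image.mp h
      exact ⟨v, C15_topA i v⟩
    · obtain ⟨q, _, rfl⟩ := Finset.mem_image.mp h
      exact ⟨q.1, C15_topB i q.1 q.2⟩
  rw [miss0, Finset.sum_biUnion]
  · apply Finset.sum_congr rfl
    intro i _
    rw [Finset.sum_union]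
    · congr 1
      · rw [Finset.sum_image]
        intro v hv v' hv' h
        simp only [Finset.coe_range, Set.mem_Iio] at hv hv'
        have h' : Aset r n N i v = Aset r n N i v' := h
        exact C15_top_v (C15_topA (r := r) i v) (h' ▸ C15_topA (r := r) i v') hv hv'
      · rw [Finset.sum_image, Finset.sum_product]
        intro q hq q' hq' h
        simp only [Finset.coe_product, Finset.coe_range, Set.mem_prod, Set.mem_Iio] at hq hq'
        obtain ⟨h1, h2⟩ := C15_BB hr hN hq.2 hq'.2 hq.1 hq'.1 h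
        exact Prod.ext h1 h2
    · rw [Finset.disjoint_left]
      intro e h1 h2
      obtain ⟨v, hv, rfl⟩ := Finset.mem_image.mp h1
      obtain ⟨q, hq, h3⟩ := Finset.mem_image.mp h2
      rw [Finset.mem_product] at hq
      exact C15_AB hr hN (Finset.mem_range.mp hq.2) (Finset.mem_range.mp hv) (Finset.mem_range.mp hq.1) h3.symm
  · intro i _ i' _ hne
    rw [Function.onFun, Finset.disjoint_left]
    intro e h1 h2
    obtain ⟨v, hv⟩ := htop i e h1
    obtain ⟨v', hv'⟩ := htop i' e h2
    exact hne (C15_top_i hv hv')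

end CT
end

section

/-!
# The polynomial of the missing edges

Proof.  `sum_miss0`, `prod_Aset`, `prod_Bset`: level `i+1` contributes `N (i+1) * (a (i+1) * a i * a 0^(r-2) + (p-1) * a (i+1) * a 0^(r-1))`.
-/

set_option autoImplicit false

open Finset

namespace CT

theorem lag_miss0 {r n p : ℕ} {N : ℕ → ℕ} [∀ i, NeZero (N i)] (hr : 3 ≤ r) (hN : r + p ≤ N 0)
    {R : Type*} [CommRing R] (a : ℕ → R) : lag (miss0 r n p N) (fun u => a (u.1 : ℕ)) = Nsum r n p N a := by
  rw [lag, sum_miss0 hr hN, Nsum, ← Fin.sum_univ_eq_sum_range (fun i : ℕ =>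
    (N (i + 1) : R) * a (i + 1) * a 0 ^ (r - 2) * (a i + ((p - 1 : ℕ) : R) * a 0)) n]
  apply Finset.sum_congr rfl
  intro i _
  simp only [prod_Aset hr hN, prod_Bset hr hN, Finset.sum_const, Finset.card_range, nsmul_eq_mul]
  have h : a 0 ^ (r - 1) = a 0 ^ (r - 2) * a 0 := by
    rw [← pow_succ]
    congr 1
    omega
  rw [h]
  ring

end CT
end

section

/-!
# Derivatives of the missing edges at a vertex of a class `≥ 1`

Proof.  `dlag = ∑ e ∈ miss0, if u ∈ e then ∏ .. else 0` and `sum_miss0`.  Let `u = ⟨l, w⟩`, `l ≥ 1`.  The level `i + 1 = l`: only `v = w`; `Aset` contributes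
`a (l-1) * a 0^(r-2)`, every `Bset` contributes `a 0^(r-1)`.  The level `i + 1 = l + 1` (if `l < n`): `u ∈ Aset i v` iff `v % N l = w`, which holds for
`N (l+1) / N l` values `v < N (l+1)`; each contributes `a (l+1) * a 0^(r-2)`; `Bset` does not contain `u`.  Other levels: nothing.
-/

set_option autoImplicit false

open Finset

namespace CT

private lemma c17_pt_eq {n : ℕ} {N : ℕ → ℕ} [∀ i, NeZero (N i)] (i : Fin (n + 1)) (v : ℕ) (u : UV n N) :
    pt n N i v = u ↔ i = u.1 ∧ v % N u.1 = (u.2 : ℕ) := by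
  constructor
  · rintro rfl
    exact ⟨rfl, by simp [pt]⟩
  · obtain ⟨l, w⟩ := u
    rintro ⟨h, h2⟩
    simp only at h h2
    subst h
    have : Fin.ofNat (N i) v = w := by
      ext
      simp [h2]
    unfold pt
    rw [this]

private lemma c17_count (d q w : ℕ) (hw : w < d) :
    ((range (d * q)).filter (fun v => v % d = w)).card = q := by
  have : (range (d * q)).filter (fun v => v % d = w) = (range q).image (fun t => w + d * t) := by
    ext v
    simp only [mem_filter, mem_range, mem_image]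
    constructor
    · rintro ⟨h1, h2⟩
      refine ⟨v / d, Nat.div_lt_of_lt_mul h1, ?_⟩
      rw [← h2]
      exact Nat.mod_add_div v d
    · rintro ⟨t, ht, rfl⟩
      refine ⟨?_, by rw [Nat.add_mul_mod_self_left, Nat.mod_eq_of_lt hw]⟩
      nlinarith [Nat.mul_le_mul_left d (Nat.succ_le_of_lt ht)]
  rw [this, Finset.card_image_of_injective, card_range]
  intro s t hst
  have hd : 0 < d := by omega
  have : d * s = d * t := by simpa using hst
  exact Nat.eq_of_mul_eq_mul_left hd this

section
variable {r n p : ℕ} {N : ℕ → ℕ} [∀ i, NeZero (N i)]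

private lemma c17_Z {n : ℕ} {N : ℕ → ℕ} [∀ i, NeZero (N i)] {R : Type*} [CommRing R] (a : ℕ → R) (S : Finset ℕ)
    (f : ℕ → ℕ) : ∏ z ∈ S.image (fun t => pt n N 0 (f t)), a (z.1 : ℕ) =
      a 0 ^ (S.image (fun t => pt n N 0 (f t))).card := by
  rw [Finset.prod_congr rfl (g := fun _ => a 0), Finset.prod_const]
  intro z hz
  obtain ⟨t, _, rfl⟩ := mem_image.1 hz
  simp [pt]

private lemma c17_notZ {n : ℕ} {N : ℕ → ℕ} [∀ i, NeZero (N i)] (S : Finset ℕ) (f : ℕ → ℕ) (u : UV n N) (hu : u.1 ≠ 0) :
    u ∉ S.image (fun t => pt n N 0 (f t)) := by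
  intro h
  obtain ⟨t, _, rfl⟩ := mem_image.1 h
  exact hu (by simp [pt])

private lemma c17_A (hr : 3 ≤ r) (hN : r + p ≤ N 0) {R : Type*} [CommRing R] (a : ℕ → R) (u : UV n N)
    (hu : u.1 ≠ 0) (i : Fin n) (v : ℕ) :
    (if u ∈ Aset r n N i v then ∏ z ∈ (Aset r n N i v).erase u, a (z.1 : ℕ) else 0) =
      (if pt n N i.succ v = u then a i * a 0 ^ (r - 2) else 0) +
      (if pt n N i.castSucc v = u then a (i + 1) * a 0 ^ (r - 2) else 0) := by
  have hc := card_Aset (r := r) (n := n) (p := p) (N := N) hr hN i v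
  unfold Aset at hc ⊢
  set x := pt n N i.succ v with hx
  set y := pt n N i.castSucc v with hy
  set Z := (range (r - 2)).image (fun t => pt n N 0 (v + t + 1)) with hZ
  have hZc : Z.card ≤ r - 2 := by
    have := Finset.card_image_le (s := range (r - 2)) (f := fun t => pt n N 0 (v + t + 1))
    rwa [card_range] at this
  have hx1 : x ∉ insert y Z := by
    intro h
    rw [Finset.insert_eq_of_mem h] at hc
    have := Finset.card_insert_le y Z
    omega
  rw [Finset.card_insert_of_notMem hx1] at hc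
  have hy1 : y ∉ Z := by
    intro h
    rw [Finset.insert_eq_of_mem h] at hc
    omega
  rw [Finset.card_insert_of_notMem hy1] at hc
  have hZ2 : Z.card = r - 2 := by omega
  have hprod : ∏ z ∈ Z, a (z.1 : ℕ) = a 0 ^ (r - 2) := by
    rw [← hZ2]
    exact c17_Z a (range (r - 2)) (fun t => v + t + 1)
  have huZ : u ∉ Z := c17_notZ (range (r - 2)) (fun t => v + t + 1) u hu
  by_cases h1 : x = u
  · have h2 : y ≠ u := by
      rintro h2
      exact hx1 (by rw [h1, ← h2]; exact mem_insert_self _ _)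
    rw [if_pos (by rw [h1]; exact mem_insert_self _ _), if_pos h1, if_neg h2, add_zero, ← h1,
      Finset.erase_insert hx1, Finset.prod_insert hy1, hprod]
    simp [hy, pt]
  · by_cases h2 : y = u
    · rw [if_pos (by rw [← h2]; exact mem_insert_of_mem (mem_insert_self _ _)), if_neg h1, if_pos h2,
        zero_add, ← h2, Finset.erase_insert_of_ne (by rw [h2]; exact h1), Finset.erase_insert hy1,
        Finset.prod_insert (fun h => hx1 (mem_insert_of_mem h)), hprod]
      simp [hx, pt]
    · rw [if_neg, if_neg h1, if_neg h2, add_zero]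
      intro h
      rcases mem_insert.1 h with h | h
      · exact h1 h.symm
      · rcases mem_insert.1 h with h | h
        · exact h2 h.symm
        · exact huZ h

private lemma c17_B (hr : 3 ≤ r) (hN : r + p ≤ N 0) {R : Type*} [CommRing R] (a : ℕ → R) (u : UV n N)
    (hu : u.1 ≠ 0) (i : Fin n) (v j : ℕ) :
    (if u ∈ Bset r n N i v j then ∏ z ∈ (Bset r n N i v j).erase u, a (z.1 : ℕ) else 0) =
      (if pt n N i.succ v = u then a 0 ^ (r - 1) else 0) := by
  have hc := card_Bset (r := r) (n := n) (p := p) (N := N) hr hN i v j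
  unfold Bset at hc ⊢
  set x := pt n N i.succ v with hx
  set Z := (range (r - 1)).image (fun t => pt n N 0 (v + j + t + 1)) with hZ
  have hZc : Z.card ≤ r - 1 := by
    have := Finset.card_image_le (s := range (r - 1)) (f := fun t => pt n N 0 (v + j + t + 1))
    rwa [card_range] at this
  have hx1 : x ∉ Z := by
    intro h
    rw [Finset.insert_eq_of_mem h] at hc
    omega
  rw [Finset.card_insert_of_notMem hx1] at hc
  have hZ2 : Z.card = r - 1 := by omega
  have hprod : ∏ z ∈ Z, a (z.1 : ℕ) = a 0 ^ (r - 1) := by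
    rw [← hZ2]
    exact c17_Z a (range (r - 1)) (fun t => v + j + t + 1)
  have huZ : u ∉ Z := c17_notZ (range (r - 1)) (fun t => v + j + t + 1) u hu
  by_cases h1 : x = u
  · rw [if_pos (by rw [h1]; exact mem_insert_self _ _), if_pos h1, ← h1,
      Finset.erase_insert hx1, hprod]
  · rw [if_neg, if_neg h1]
    intro h
    rcases mem_insert.1 h with h | h
    · exact h1 h.symm
    · exact huZ h

private lemma c17_sum1 {A : Type*} [AddCommMonoid A] (u : UV n N) (i : Fin n) (c : A) :
    ∑ v ∈ range (N (i + 1)), (if pt n N i.succ v = u then c else 0) =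
      if i.succ = u.1 then c else 0 := by
  by_cases h : i.succ = u.1
  · rw [if_pos h]
    have hv : ((i : ℕ) + 1) = (u.1 : ℕ) := by rw [← h]; simp
    have hNe : N (u.1 : ℕ) = N (i + 1) := by rw [hv]
    have hlt : (u.2 : ℕ) < N (i + 1) := lt_of_lt_of_eq u.2.isLt hNe
    rw [Finset.sum_eq_single (u.2 : ℕ)]
    · rw [if_pos]
      rw [c17_pt_eq]
      exact ⟨h, Nat.mod_eq_of_lt u.2.isLt⟩
    · intro v hv' hne
      rw [if_neg]
      rw [c17_pt_eq]
      rintro ⟨_, h2⟩
      apply hne
      rw [← h2, Nat.mod_eq_of_lt]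
      exact lt_of_lt_of_eq (mem_range.1 hv') hNe.symm
    · intro h3
      exact absurd (mem_range.2 hlt) h3
  · rw [if_neg h]
    refine Finset.sum_eq_zero fun v _ => ?_
    rw [if_neg]
    rw [c17_pt_eq]
    exact fun h2 => h h2.1

private lemma c17_sum2 (hdiv : ∀ i, N i ∣ N (i + 1)) {R : Type*} [CommRing R] (u : UV n N) (i : Fin n) (c : R) :
    ∑ v ∈ range (N (i + 1)), (if pt n N i.castSucc v = u then c else 0) =
      if i.castSucc = u.1 then ((N (i + 1) / N i : ℕ) : R) * c else 0 := by
  by_cases h : i.castSucc = u.1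
  · rw [if_pos h]
    have hv : (i : ℕ) = (u.1 : ℕ) := by rw [← h]; simp
    have e1 : ∀ v : ℕ, (pt n N i.castSucc v = u) ↔ (v % N i = (u.2 : ℕ)) := by
      intro v
      rw [c17_pt_eq, hv]
      simp [h]
    simp only [e1]
    rw [← Finset.sum_filter, Finset.sum_const, nsmul_eq_mul]
    obtain ⟨q, hq⟩ := hdiv i
    have hNe : N (u.1 : ℕ) = N (i : ℕ) := by rw [hv]
    have hlt : (u.2 : ℕ) < N i := lt_of_lt_of_eq u.2.isLt hNe
    have hpos : 0 < N i := Nat.pos_of_ne_zero (NeZero.ne _)
    rw [hq, c17_count _ _ _ hlt, Nat.mul_div_cancel_left _ hpos]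
  · rw [if_neg h]
    refine Finset.sum_eq_zero fun v _ => ?_
    rw [if_neg]
    rw [c17_pt_eq]
    exact fun h2 => h h2.1

end

theorem dlag_miss0_pos {r n p : ℕ} {N : ℕ → ℕ} [∀ i, NeZero (N i)] (hr : 3 ≤ r) (hN : r + p ≤ N 0)
    (hdiv : ∀ i, N i ∣ N (i + 1)) {R : Type*} [CommRing R] (a : ℕ → R) (u : UV n N) (hu : u.1 ≠ 0) :
    dlag (miss0 r n p N) (fun u => a (u.1 : ℕ)) u = Nval r n p N a (u.1 : ℕ) := by
  have hu' : (u.1 : ℕ) ≠ 0 := fun h => hu (Fin.ext (by simpa using h))
  unfold dlag
  rw [Finset.sum_filter, sum_miss0 hr hN]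
  simp only [c17_A hr hN a u hu, c17_B hr hN a u hu, Finset.sum_add_distrib, Finset.sum_const,
    card_range]
  simp only [nsmul_eq_mul, ← Finset.mul_sum]
  simp only [c17_sum1, c17_sum2 hdiv]
  obtain ⟨l, hl⟩ : ∃ l : ℕ, (u.1 : ℕ) = l + 1 := Nat.exists_eq_succ_of_ne_zero hu'
  have hln : l < n := by
    have := u.1.isLt
    omega
  have hs : ∀ i : Fin n, (i.succ = u.1) ↔ (i = ⟨l, hln⟩) := by
    intro i
    rw [Fin.ext_iff, Fin.ext_iff, Fin.val_succ, hl]
    simp
  simp only [hs]
  have hr1 : r - 1 = (r - 2) + 1 := by omega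
  have hu0 : ¬ (l + 1 = 0) := by omega
  unfold Nval
  rw [hl, if_neg hu0, Nat.add_sub_cancel]
  rw [Finset.sum_ite_eq' Finset.univ (⟨l, hln⟩ : Fin n), if_pos (mem_univ _)]
  rw [Finset.sum_ite_eq' Finset.univ (⟨l, hln⟩ : Fin n), if_pos (mem_univ _)]
  by_cases h : l + 1 < n
  · rw [if_pos h]
    have hs2 : ∀ i : Fin n, (i.castSucc = u.1) ↔ (i = ⟨l + 1, h⟩) := by
      intro i
      rw [Fin.ext_iff, Fin.ext_iff, Fin.val_castSucc, hl]
    simp only [hs2]
    rw [Finset.sum_ite_eq' Finset.univ (⟨l + 1, h⟩ : Fin n), if_pos (mem_univ _), hr1]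
    simp only []
    ring
  · rw [if_neg h]
    have hs2 : ∀ i : Fin n, ¬ (i.castSucc = u.1) := by
      intro i hi
      rw [Fin.ext_iff, Fin.val_castSucc, hl] at hi
      have := i.isLt
      omega
    simp only [hs2, if_false, Finset.sum_const_zero]
    rw [hr1]
    ring

end CT
end

section

/-!
# Derivatives of the missing edges at a vertex of the class `0`

Proof.  `dlag = ∑ e ∈ miss0, if u ∈ e then ∏ .. else 0` and `sum_miss0`.  Let `u = ⟨0, w⟩`.  For level `l = i + 1` and fixed `t` the number of `v < N l`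
with `(v + t + 1) % N 0 = w` is `N l / N 0` (`N 0 ∣ N l`).  For given `v` at most one vertex of the set is equal to `u`.  `Aset i v`: the `r - 2` positions
`t < r - 2` contribute `a l * a (l-1) * a 0^(r-3)` each, and for `l = 1` there is the additional position `v % N 0 = w` with contribution `a 1 * a 0^(r-2)`
(for `l = 1` one has `a 1 * a 0 * a 0^(r-3) = a 1 * a 0^(r-2)`).  `Bset i v j`: the `r - 1` positions contribute `a l * a 0^(r-2)` each, for `p - 1` values of `j`.
-/

set_option autoImplicit false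

open Finset

namespace CT

private lemma C18_count1 (N0 w s : ℕ) (hw : w < N0) :
    ((range N0).filter (fun v => (v + s) % N0 = w)).card = 1 := by
  rw [card_eq_one]
  refine ⟨(w + (N0 - s % N0)) % N0, ?_⟩
  have h0 : 0 < N0 := by omega
  have hs : s % N0 < N0 := Nat.mod_lt _ h0
  have key : ((w + (N0 - s % N0)) % N0 + s) % N0 = w := by
    have h1 : ((w + (N0 - s % N0)) % N0 + s) ≡ w [MOD N0] := by
      calc ((w + (N0 - s % N0)) % N0 + s) ≡ (w + (N0 - s % N0)) + s % N0 [MOD N0] :=
            Nat.ModEq.add (Nat.mod_modEq _ _) (Nat.mod_modEq _ _).symm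
        _ = w + N0 := by omega
        _ ≡ w [MOD N0] := by simp [Nat.ModEq]
    have h2 := h1
    unfold Nat.ModEq at h2
    rw [h2, Nat.mod_eq_of_lt hw]
  ext v
  simp only [mem_filter, mem_range, mem_singleton]
  constructor
  · rintro ⟨hv, hv2⟩
    have h3 : v + s ≡ (w + (N0 - s % N0)) % N0 + s [MOD N0] := by
      unfold Nat.ModEq; rw [hv2, key]
    have h4 := Nat.ModEq.add_right_cancel' s h3
    exact Nat.ModEq.eq_of_lt_of_lt h4 hv (Nat.mod_lt _ h0)
  · rintro rfl
    exact ⟨Nat.mod_lt _ h0, key⟩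

private lemma C18_count (N0 w s q : ℕ) (hw : w < N0) :
    ((range (N0 * q)).filter (fun v => (v + s) % N0 = w)).card = q := by
  induction q with
  | zero => simp
  | succ q ih =>
    rw [← Nat.count_eq_card_filter_range] at ih ⊢
    rw [Nat.mul_succ, Nat.count_add, ih]
    have : Nat.count (fun k => (N0 * q + k + s) % N0 = w) N0 = 1 := by
      rw [Nat.count_eq_card_filter_range]
      have h := C18_count1 N0 w s hw
      have h2 : ∀ v, (N0 * q + v + s) % N0 = (v + s) % N0 := by
        intro v; rw [Nat.add_assoc, Nat.mul_add_mod]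
      simp only [h2]
      exact h
    omega

section
variable {n : ℕ} {N : ℕ → ℕ} [∀ i, NeZero (N i)] {R : Type*} [CommRing R]

/-- the local contribution -/
private def C18_G (a : ℕ → R) (u : UV n N) (s : Finset (UV n N)) : R :=
  if u ∈ s then ∏ z ∈ s.erase u, a (z.1 : ℕ) else 0

private lemma C18_G_insert_ne (a : ℕ → R) (u x : UV n N) (s : Finset (UV n N)) (hx : x ∉ s) (hxu : x ≠ u) :
    C18_G a u (insert x s) = a (x.1 : ℕ) * C18_G a u s := by
  unfold C18_G
  by_cases hu : u ∈ s
  · rw [if_pos (mem_insert_of_mem hu), if_pos hu, erase_insert_of_ne hxu, prod_insert]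
    intro h; exact hx (mem_of_mem_erase h)
  · rw [if_neg, if_neg hu, mul_zero]
    rw [mem_insert]; push Not; exact ⟨fun h => hxu h.symm, hu⟩

private lemma C18_pt_inj {x y : ℕ} (h : pt n N 0 x = pt n N 0 y) : x % N 0 = y % N 0 := by
  unfold pt at h
  have h2 := (Sigma.mk.inj_iff.1 h).2
  have h3 := eq_of_heq h2
  have h4 := congrArg Fin.val h3
  simpa [Fin.ofNat] using h4

private lemma C18_injOn (c m : ℕ) (hm : m ≤ N 0) :
    Set.InjOn (fun t => pt n N 0 (c + t)) (range m : Set ℕ) := by
  intro t ht t' ht' h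
  simp only [coe_range, Set.mem_Iio] at ht ht'
  have h1 := C18_pt_inj h
  have h2 : t ≡ t' [MOD N 0] := Nat.ModEq.add_left_cancel' c h1
  exact Nat.ModEq.eq_of_lt_of_lt h2 (by omega) (by omega)

private lemma C18_G_image (a : ℕ → R) (u : UV n N) (c m : ℕ) (hm : m + 1 ≤ N 0) :
    C18_G a u ((range (m + 1)).image (fun t => pt n N 0 (c + t))) =
      (∑ t ∈ range (m + 1), if pt n N 0 (c + t) = u then (1 : R) else 0) * a 0 ^ m := by
  classical
  have hinj := C18_injOn (n := n) (N := N) c (m + 1) hm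
  unfold C18_G
  by_cases hu : u ∈ (range (m + 1)).image (fun t => pt n N 0 (c + t))
  · rw [if_pos hu]
    obtain ⟨t0, ht0, rfl⟩ := mem_image.1 hu
    have h1 : ∑ t ∈ range (m + 1), (if pt n N 0 (c + t) = pt n N 0 (c + t0) then (1 : R) else 0) = 1 := by
      rw [sum_eq_single t0]
      · simp
      · intro b hb hne
        rw [if_neg]
        intro h
        exact hne (hinj (by simpa using hb) (by simpa using ht0) h)
      · intro h; exact absurd ht0 h
    rw [h1, one_mul]
    have h2 : ∀ z ∈ ((range (m + 1)).image (fun t => pt n N 0 (c + t))).erase (pt n N 0 (c + t0)), a (z.1 : ℕ) = a 0 := by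
      intro z hz
      obtain ⟨t, _, rfl⟩ := mem_image.1 (mem_of_mem_erase hz)
      simp [pt]
    rw [prod_congr rfl h2, prod_const, card_erase_of_mem hu, card_image_of_injOn hinj, card_range]
    simp
  · rw [if_neg hu]
    have h1 : ∑ t ∈ range (m + 1), (if pt n N 0 (c + t) = u then (1 : R) else 0) = 0 := by
      apply sum_eq_zero
      intro t ht
      rw [if_neg]
      intro h
      exact hu (mem_image.2 ⟨t, ht, h⟩)
    rw [h1, zero_mul]

private lemma C18_pt_eq (w : Fin (N ((0 : Fin (n + 1)) : ℕ))) (s : ℕ) :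
    pt n N 0 s = (⟨0, w⟩ : UV n N) ↔ s % N 0 = (w : ℕ) := by
  constructor
  · intro h
    unfold pt at h
    have h3 := eq_of_heq (Sigma.mk.inj_iff.1 h).2
    have h4 := congrArg Fin.val h3
    simpa [Fin.ofNat] using h4
  · intro h
    unfold pt
    congr 1
    apply Fin.ext
    simpa [Fin.ofNat] using h

private lemma C18_sum_pt (w : Fin (N ((0 : Fin (n + 1)) : ℕ))) (s q : ℕ) :
    ∑ v ∈ range (N 0 * q), (if pt n N 0 (v + s) = (⟨0, w⟩ : UV n N) then (1 : R) else 0) = (q : R) := by
  have h := C18_count (N 0) (w : ℕ) s q w.2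
  rw [← sum_filter, sum_const, nsmul_eq_mul, mul_one]
  have h2 : (range (N 0 * q)).filter (fun v => pt n N 0 (v + s) = (⟨0, w⟩ : UV n N)) =
      (range (N 0 * q)).filter (fun v => (v + s) % N 0 = (w : ℕ)) := by
    ext v
    simp only [mem_filter, C18_pt_eq]
  rw [h2, h]

end

theorem dlag_miss0_zero {r n p : ℕ} {N : ℕ → ℕ} [∀ i, NeZero (N i)] (hr : 3 ≤ r) (hn : 1 ≤ n) (hN : r + p ≤ N 0)
    (hdiv : ∀ i, N i ∣ N (i + 1)) {R : Type*} [CommRing R] (a : ℕ → R) (u : UV n N) (hu : u.1 = 0) :
    dlag (miss0 r n p N) (fun u => a (u.1 : ℕ)) u = Nval r n p N a 0 := by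
  classical
  obtain ⟨i0, w⟩ := u
  simp only at hu
  subst hu
  have hdiv0 : ∀ i, N 0 ∣ N i := by
    intro i
    induction i with
    | zero => exact dvd_rfl
    | succ i ih => exact ih.trans (hdiv i)
  have h1 : dlag (miss0 r n p N) (fun u => a (u.1 : ℕ)) (⟨0, w⟩ : UV n N) =
      ∑ e ∈ miss0 r n p N, C18_G a (⟨0, w⟩ : UV n N) e := by
    unfold dlag C18_G
    rw [sum_filter]
  rw [h1, sum_miss0 hr hN]
  -- the value on `Bset`
  have hB : ∀ (i : Fin n) (v j : ℕ), C18_G a (⟨0, w⟩ : UV n N) (Bset r n N i v j) =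
      a (i + 1) * a 0 ^ (r - 2) *
        ∑ t ∈ range (r - 1), (if pt n N 0 (v + (j + t + 1)) = (⟨0, w⟩ : UV n N) then (1 : R) else 0) := by
    intro i v j
    unfold Bset
    have hne : pt n N i.succ v ≠ (⟨0, w⟩ : UV n N) := by
      intro h
      have := congrArg Sigma.fst h
      simp [pt] at this
    have hni : pt n N i.succ v ∉ (range (r - 1)).image (fun t => pt n N 0 (v + j + t + 1)) := by
      intro h
      obtain ⟨t, _, ht⟩ := mem_image.1 h
      have := congrArg Sigma.fst ht
      simp [pt] at this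
      exact absurd this.symm (Fin.succ_ne_zero i)
    rw [C18_G_insert_ne _ _ _ _ hni hne]
    have himg : (range (r - 1)).image (fun t => pt n N 0 (v + j + t + 1)) =
        (range (r - 2 + 1)).image (fun t => pt n N 0 ((v + j + 1) + t)) := by
      have : r - 1 = r - 2 + 1 := by omega
      rw [this]
      apply image_congr
      intro t _
      simp only
      congr 1
      omega
    rw [himg, C18_G_image a _ _ _ (by omega)]
    have h2 : r - 2 + 1 = r - 1 := by omega
    rw [h2]
    have h3 : ∀ t, (v + j + 1) + t = v + (j + t + 1) := by intro t; omega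
    simp only [h3]
    have h4 : ((pt n N i.succ v).1 : ℕ) = (i : ℕ) + 1 := by simp [pt]
    rw [h4]; ring
  have hA : ∀ (i : Fin n) (v : ℕ), C18_G a (⟨0, w⟩ : UV n N) (Aset r n N i v) =
      a (i + 1) * a i * a 0 ^ (r - 3) *
        ∑ t ∈ range (r - 2), (if pt n N 0 (v + (t + 1)) = (⟨0, w⟩ : UV n N) then (1 : R) else 0) +
      (if (i : ℕ) = 0 then a 1 * a 0 ^ (r - 2) *
        (if pt n N 0 (v + 0) = (⟨0, w⟩ : UV n N) then (1 : R) else 0) else 0) := by
    intro i v
    unfold Aset
    have hne : pt n N i.succ v ≠ (⟨0, w⟩ : UV n N) := by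
      intro h
      have := congrArg Sigma.fst h
      simp [pt] at this
    by_cases hi : (i : ℕ) = 0
    · have hcs : i.castSucc = 0 := by
        apply Fin.ext; simpa using hi
      have himg : insert (pt n N i.castSucc v) ((range (r - 2)).image (fun t => pt n N 0 (v + t + 1))) =
          (range (r - 2 + 1)).image (fun t => pt n N 0 (v + t)) := by
        rw [hcs, range_eq_Ico, range_eq_Ico]
        ext z
        simp only [mem_insert, mem_image, mem_Ico]
        constructor
        · rintro (rfl | ⟨t, ht, rfl⟩)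
          · exact ⟨0, by omega, by simp⟩
          · exact ⟨t + 1, by omega, by congr 1⟩
        · rintro ⟨t, ht, rfl⟩
          rcases Nat.eq_zero_or_pos t with h0 | h0
          · left; subst h0; simp
          · right; exact ⟨t - 1, by omega, by congr 1; omega⟩
      rw [himg]
      have hni : pt n N i.succ v ∉ (range (r - 2 + 1)).image (fun t => pt n N 0 (v + t)) := by
        intro h
        obtain ⟨t, _, ht⟩ := mem_image.1 h
        have := congrArg Sigma.fst ht
        simp [pt] at this
        exact absurd this.symm (Fin.succ_ne_zero i)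
      rw [C18_G_insert_ne _ _ _ _ hni hne, C18_G_image a _ _ _ (by omega), if_pos hi, sum_range_succ']
      have h4 : ((pt n N i.succ v).1 : ℕ) = 1 := by simp [pt, hi]
      rw [h4, hi]
      have h5 : a 0 ^ (r - 2) = a 0 * a 0 ^ (r - 3) := by
        rw [← pow_succ']; congr 1; omega
      rw [h5]
      ring
    · have hcs : i.castSucc ≠ 0 := by
        intro h; apply hi
        have := congrArg Fin.val h
        simpa using this
      rw [if_neg hi, add_zero]
      have hne2 : pt n N i.castSucc v ≠ (⟨0, w⟩ : UV n N) := by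
        intro h
        have := congrArg Sigma.fst h
        simp only [pt] at this
        exact hcs this
      have hni2 : pt n N i.castSucc v ∉ (range (r - 2)).image (fun t => pt n N 0 (v + t + 1)) := by
        intro h
        obtain ⟨t, _, ht⟩ := mem_image.1 h
        have := congrArg Sigma.fst ht
        simp only [pt] at this
        exact hcs this.symm
      have hni : pt n N i.succ v ∉ insert (pt n N i.castSucc v) ((range (r - 2)).image (fun t => pt n N 0 (v + t + 1))) := by
        intro h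
        rcases mem_insert.1 h with h | h
        · have := congrArg Sigma.fst h
          simp only [pt] at this
          have := congrArg Fin.val this
          simp at this
        · obtain ⟨t, _, ht⟩ := mem_image.1 h
          have := congrArg Sigma.fst ht
          simp only [pt] at this
          exact absurd this.symm (Fin.succ_ne_zero i)
      rw [C18_G_insert_ne _ _ _ _ hni hne, C18_G_insert_ne _ _ _ _ hni2 hne2]
      have himg : (range (r - 2)).image (fun t => pt n N 0 (v + t + 1)) =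
          (range (r - 3 + 1)).image (fun t => pt n N 0 ((v + 1) + t)) := by
        have : r - 2 = r - 3 + 1 := by omega
        rw [this]
        apply image_congr
        intro t _
        simp only
        congr 1
        omega
      rw [himg, C18_G_image a _ _ _ (by omega)]
      have h2 : r - 3 + 1 = r - 2 := by omega
      rw [h2]
      have h3 : ∀ t, (v + 1) + t = v + (t + 1) := by intro t; omega
      simp only [h3]
      have h4 : ((pt n N i.succ v).1 : ℕ) = (i : ℕ) + 1 := by simp [pt]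
      have h5 : ((pt n N i.castSucc v).1 : ℕ) = (i : ℕ) := by simp [pt]
      rw [h4, h5]; ring
  have hsumA : ∀ i : Fin n, ∑ v ∈ range (N (i + 1)), C18_G a (⟨0, w⟩ : UV n N) (Aset r n N i v) =
      ((N (i + 1) / N 0 : ℕ) : R) * (((r - 2 : ℕ) : R) * a (i + 1) * a i * a 0 ^ (r - 3)) +
      (if (i : ℕ) = 0 then ((N 1 / N 0 : ℕ) : R) * a 1 * a 0 ^ (r - 2) else 0) := by
    intro i
    obtain ⟨q, hq⟩ := hdiv0 (i + 1)
    have hN0 : 0 < N 0 := by omega
    have hqd : N (i + 1) / N 0 = q := by rw [hq]; exact Nat.mul_div_cancel_left q hN0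
    simp only [hA]
    rw [sum_add_distrib, ← mul_sum, sum_comm, hqd]
    congr 1
    · rw [hq]
      simp only [C18_sum_pt]
      rw [sum_const, card_range, nsmul_eq_mul]
      ring
    · by_cases hi : (i : ℕ) = 0
      · simp only [if_pos hi]
        rw [← mul_sum, hq, C18_sum_pt]
        have : N 1 / N 0 = q := by rw [← hqd, hi]
        rw [this]; ring
      · simp only [if_neg hi]
        simp
  have hsumB : ∀ i : Fin n, ∑ v ∈ range (N (i + 1)), ∑ j ∈ range (p - 1), C18_G a (⟨0, w⟩ : UV n N) (Bset r n N i v j) =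
      ((N (i + 1) / N 0 : ℕ) : R) * (((p - 1 : ℕ) : R) * ((r - 1 : ℕ) : R) * a (i + 1) * a 0 ^ (r - 2)) := by
    intro i
    obtain ⟨q, hq⟩ := hdiv0 (i + 1)
    have hN0 : 0 < N 0 := by omega
    have hqd : N (i + 1) / N 0 = q := by rw [hq]; exact Nat.mul_div_cancel_left q hN0
    simp only [hB]
    rw [sum_comm, hqd]
    simp only [← mul_sum]
    have h6 : ∀ j, ∑ v ∈ range (N (i + 1)), ∑ t ∈ range (r - 1),
        (if pt n N 0 (v + (j + t + 1)) = (⟨0, w⟩ : UV n N) then (1 : R) else 0) = ((r - 1 : ℕ) : R) * q := by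
      intro j
      rw [sum_comm, hq]
      simp only [C18_sum_pt]
      rw [sum_const, card_range, nsmul_eq_mul]
    simp only [h6]
    rw [sum_const, card_range, nsmul_eq_mul]
    ring
  simp only [hsumA, hsumB]
  unfold Nval
  rw [if_pos rfl]
  rw [Finset.sum_range (fun l => ((N (l + 1) / N 0 : ℕ) : R) *
      (((r - 2 : ℕ) : R) * a (l + 1) * a l * a 0 ^ (r - 3) +
        ((p - 1 : ℕ) : R) * ((r - 1 : ℕ) : R) * a (l + 1) * a 0 ^ (r - 2)))]
  rw [sum_add_distrib, sum_add_distrib]
  have h7 : ∑ i : Fin n, (if (i : ℕ) = 0 then ((N 1 / N 0 : ℕ) : R) * a 1 * a 0 ^ (r - 2) else 0) =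
      ((N 1 / N 0 : ℕ) : R) * a 1 * a 0 ^ (r - 2) := by
    rw [sum_eq_single (⟨0, by omega⟩ : Fin n)]
    · simp
    · intro b _ hb
      rw [if_neg]
      intro h
      apply hb
      apply Fin.ext
      simpa using h
    · intro h; exact absurd (mem_univ _) h
  rw [h7]
  simp only [mul_add, sum_add_distrib]
  ring

end CT
end

section

/-!
# The pattern: values on class-constant points

Proof.  `miss` is the image of `miss0` under the injective map `e ↦ e.image inr`; sums over it are sums over `miss0`.  `PP = powersetCard r univ \ miss`,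
so `lag_sdiff`, `dlag_sdiff`.  `miss` is nonempty (`n ≥ 1`, it contains `Aset .. 0 0`), so `PP ≠ powersetCard r univ`.
-/

set_option autoImplicit false

open Finset

namespace CT

section
variable {r n p : ℕ} {N : ℕ → ℕ} [∀ i, NeZero (N i)] {M : ℕ}

private theorem im_inj : Function.Injective
    (fun e : Finset (UV n N) => e.image (Sum.inr : UV n N → PV n N M)) :=
  Finset.image_injective Sum.inr_injective

theorem unif_miss (hr : 3 ≤ r) (hN : r + p ≤ N 0) : Unif r (miss r n p N M) := by
  intro e he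
  simp only [miss, mem_image] at he
  obtain ⟨e0, he0, rfl⟩ := he
  rw [card_image_of_injective _ Sum.inr_injective]
  exact unif_miss0 hr hN e0 he0

theorem card_miss : (miss r n p N M).card = (miss0 r n p N).card :=
  card_image_of_injective _ im_inj

theorem inl_not_mem_miss (o : Fin M) {e : Finset (PV n N M)} (he : e ∈ miss r n p N M) : Sum.inl o ∉ e := by
  simp only [miss, mem_image] at he
  obtain ⟨e0, he0, rfl⟩ := he
  intro h
  rw [mem_image] at h
  obtain ⟨u, _, hu⟩ := h
  exact absurd hu (by simp)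

theorem unif_PP : Unif r (PP r n p N M) := by
  intro e he
  simp only [PP, mem_sdiff, mem_powersetCard] at he
  exact he.1.2

theorem PP_ne (hr : 3 ≤ r) (hn : 1 ≤ n) (hN : r + p ≤ N 0) : PP r n p N M ≠ powersetCard r univ := by
  intro h
  have h1 : (Aset r n N ⟨0, hn⟩ 0).image (Sum.inr : UV n N → PV n N M) ∈ miss r n p N M := by
    unfold miss
    refine mem_image_of_mem _ ?_
    unfold miss0
    rw [mem_biUnion]
    refine ⟨⟨0, hn⟩, mem_univ _, mem_union_left _ (mem_image_of_mem _ ?_)⟩
    rw [mem_range]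
    exact Nat.pos_of_ne_zero (NeZero.ne _)
  have h2 : (Aset r n N ⟨0, hn⟩ 0).image (Sum.inr : UV n N → PV n N M) ∈
      powersetCard r (univ : Finset (PV n N M)) := by
    rw [mem_powersetCard]
    exact ⟨subset_univ _, unif_miss hr hN _ h1⟩
  rw [← h] at h2
  unfold PP at h2
  rw [mem_sdiff] at h2
  exact h2.2 h1

theorem lag_PP (hr : 3 ≤ r) (hN : r + p ≤ N 0) {R : Type*} [CommRing R] (b : R) (a : ℕ → R) :
    lag (PP r n p N M) (cc n N M b a) = fval r n p N M b a := by
  unfold PP
  rw [lag_sdiff (unif_miss hr hN)]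
  unfold fval
  rw [← lag_miss0 hr hN a]
  congr 1
  unfold lag miss
  rw [sum_image (fun x _ y _ h => im_inj h)]
  refine sum_congr rfl fun e _ => ?_
  rw [prod_image (fun x _ y _ h => Sum.inr_injective h)]
  rfl

theorem dlag_PP_inl (hr : 3 ≤ r) (hN : r + p ≤ N 0) {R : Type*} [CommRing R] (b : R) (a : ℕ → R) (o : Fin M) :
    dlag (PP r n p N M) (cc n N M b a) (Sum.inl o) = esy (univ.erase (Sum.inl o)) (r - 1) (cc n N M b a) := by
  unfold PP
  rw [dlag_sdiff (by omega) (unif_miss hr hN)]
  have h : dlag (miss r n p N M) (cc n N M b a) (Sum.inl o) = 0 := by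
    unfold dlag
    refine sum_eq_zero fun e he => ?_
    rw [mem_filter] at he
    exact absurd he.2 (inl_not_mem_miss o he.1)
  rw [h, sub_zero]

theorem dlag_PP_inr (hr : 3 ≤ r) (hn : 1 ≤ n) (hN : r + p ≤ N 0) (hdiv : ∀ i, N i ∣ N (i + 1)) {R : Type*} [CommRing R]
    (b : R) (a : ℕ → R) (u : UV n N) :
    dlag (PP r n p N M) (cc n N M b a) (Sum.inr u) =
      esy (univ.erase (Sum.inr u)) (r - 1) (cc n N M b a) - Nval r n p N a (u.1 : ℕ) := by
  unfold PP
  rw [dlag_sdiff (by omega) (unif_miss hr hN)]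
  congr 1
  have h : dlag (miss r n p N M) (cc n N M b a) (Sum.inr u) =
      dlag (miss0 r n p N) (fun u => a (u.1 : ℕ)) u := by
    unfold dlag miss
    rw [filter_image, sum_image (fun x _ y _ h => im_inj h)]
    have hf : (miss0 r n p N).filter (fun e => Sum.inr u ∈ e.image (Sum.inr : UV n N → PV n N M)) =
        (miss0 r n p N).filter (fun e => u ∈ e) := by
      refine filter_congr fun e _ => ?_
      exact Sum.inr_injective.mem_finset_image
    rw [hf]
    refine sum_congr rfl fun e _ => ?_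
    rw [← image_erase Sum.inr_injective, prod_image (fun x _ y _ h => Sum.inr_injective h)]
    rfl
  rw [h]
  by_cases hu : u.1 = 0
  · rw [dlag_miss0_zero hr hn hN hdiv a u hu, hu]
    rfl
  · exact dlag_miss0_pos hr hN hdiv a u hu
end

end CT
end
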