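import Pool.Agent.Lib.MP_63f67f_co.Defs
import Pool.Agent.Lib.MP_63f67f_co.B02
import Pool.Agent.Lib.MP_63f67f_co.B08

section

section

/-!
# Maclaurin's inequality

Proof.  Induction on `k`.  With `n := s.card`, `E_k := esy s k x`, `σ := ∑ x`: it suffices that `(k+1) n E_{k+1} ≤ (n - k) σ E_k` for `k < n`
(`E_{k+1} = 0` for `k ≥ n`).  `σ E_k = (k+1) E_{k+1} + ∑_{|T|=k} x^T ∑_{v ∈ T} x v`, and
`∑_{|T|=k} x^T ∑_{v∈T} x v = ∑_{|T'|=k-1} x^{T'} ∑_{v ∉ T'} x v ^2 ≥ (1/(n-k)) ∑_{T'} x^{T'} ∑_{u ≠ v, u,v ∉ T'} x u x v = k (k+1) E_{k+1}/(n-k)`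
because `(q-1) ∑ x^2 ≥ ∑_{u≠v} x u x v` for `q = n-k+1` numbers.
-/

set_option autoImplicit false

open Finset

namespace CT

private lemma b11_dc {V : Type*} [DecidableEq V] (s : Finset V) (k : ℕ) (h : Finset V → V → ℝ) :
    ∑ T ∈ powersetCard k s, ∑ u ∈ s \ T, h T u =
      ∑ S ∈ powersetCard (k + 1) s, ∑ u ∈ S, h (S.erase u) u := by
  rw [Finset.sum_sigma', Finset.sum_sigma']
  refine Finset.sum_bij' (fun p _ => ⟨insert p.2 p.1, p.2⟩) (fun p _ => ⟨p.1.erase p.2, p.2⟩) ?_ ?_ ?_ ?_ ?_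
  · rintro ⟨T, u⟩ hp
    simp only [mem_sigma, mem_powersetCard, mem_sdiff] at hp ⊢
    obtain ⟨⟨hT, hk⟩, hu, huT⟩ := hp
    refine ⟨⟨Finset.insert_subset hu hT, ?_⟩, Finset.mem_insert_self _ _⟩
    rw [Finset.card_insert_of_notMem huT, hk]
  · rintro ⟨S, u⟩ hp
    simp only [mem_sigma, mem_powersetCard, mem_sdiff] at hp ⊢
    obtain ⟨⟨hS, hk⟩, hu⟩ := hp
    refine ⟨⟨(Finset.erase_subset _ _).trans hS, ?_⟩, hS hu, Finset.notMem_erase _ _⟩
    rw [Finset.card_erase_of_mem hu, hk]; rfl
  · rintro ⟨T, u⟩ hp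
    simp only [mem_sigma, mem_powersetCard, mem_sdiff] at hp
    simp only [Finset.erase_insert hp.2.2]
  · rintro ⟨S, u⟩ hp
    simp only [mem_sigma, mem_powersetCard] at hp
    simp only [Finset.insert_erase hp.2]
  · rintro ⟨T, u⟩ hp
    simp only [mem_sigma, mem_powersetCard, mem_sdiff] at hp
    simp only [Finset.erase_insert hp.2.2]

private lemma b11_step {V : Type*} [DecidableEq V] (s : Finset V) (x : V → ℝ) (hx : ∀ v ∈ s, 0 ≤ x v) (k : ℕ)
    (hk : k ≤ s.card) :
    ((k : ℝ) + 1) * (s.card : ℝ) * esy s (k + 1) x ≤ ((s.card : ℝ) - k) * (∑ v ∈ s, x v) * esy s k x := by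
  classical
  -- `A`
  set A : ℝ := ∑ T ∈ powersetCard k s, (∏ v ∈ T, x v) * ∑ v ∈ T, x v with hA
  have h1 : (∑ v ∈ s, x v) * esy s k x = A + ((k : ℝ) + 1) * esy s (k + 1) x := by
    have e1 : ((k : ℝ) + 1) * esy s (k + 1) x = ∑ T ∈ powersetCard k s, ∑ u ∈ s \ T, (∏ v ∈ T, x v) * x u := by
      rw [b11_dc s k (fun T u => (∏ v ∈ T, x v) * x u)]
      unfold esy
      rw [Finset.mul_sum]
      refine Finset.sum_congr rfl fun S hS => ?_
      have hc : S.card = k + 1 := (mem_powersetCard.1 hS).2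
      have : ∀ u ∈ S, (∏ v ∈ S.erase u, x v) * x u = ∏ v ∈ S, x v := fun u hu =>
        Finset.prod_erase_mul _ _ hu
      rw [Finset.sum_congr rfl this, Finset.sum_const, hc, nsmul_eq_mul]
      push_cast; ring
    rw [e1, hA, ← Finset.sum_add_distrib]
    unfold esy
    rw [Finset.mul_sum]
    refine Finset.sum_congr rfl fun T hT => ?_
    have hTs : T ⊆ s := (mem_powersetCard.1 hT).1
    rw [← Finset.mul_sum, ← mul_add, ← Finset.sum_sdiff hTs]
    ring
  have h2 : (k : ℝ) * ((k : ℝ) + 1) * esy s (k + 1) x ≤ ((s.card : ℝ) - k) * A := by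
    have e2 : ((s.card : ℝ) - k) * A =
        ∑ S ∈ powersetCard (k + 1) s, ∑ u ∈ S, (∏ v ∈ S.erase u, x v) * ∑ v ∈ S.erase u, x v := by
      rw [← b11_dc s k (fun T _ => (∏ v ∈ T, x v) * ∑ v ∈ T, x v), hA, Finset.mul_sum]
      refine Finset.sum_congr rfl fun T hT => ?_
      have hTs : T ⊆ s := (mem_powersetCard.1 hT).1
      have hc : T.card = k := (mem_powersetCard.1 hT).2
      rw [Finset.sum_const, Finset.card_sdiff_of_subset hTs, hc, nsmul_eq_mul, Nat.cast_sub hk]
    rw [e2]
    unfold esy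
    rw [Finset.mul_sum]
    refine Finset.sum_le_sum fun S hS => ?_
    have hSs : S ⊆ s := (mem_powersetCard.1 hS).1
    have hc : S.card = k + 1 := (mem_powersetCard.1 hS).2
    -- ordered pairs
    have e3 : (k : ℝ) * ((k : ℝ) + 1) * ∏ v ∈ S, x v = ∑ u ∈ S, ∑ v ∈ S.erase u, ∏ w ∈ S, x w := by
      have : ∀ u ∈ S, ∑ v ∈ S.erase u, ∏ w ∈ S, x w = (k : ℝ) * ∏ w ∈ S, x w := fun u hu => by
        rw [Finset.sum_const, Finset.card_erase_of_mem hu, hc, nsmul_eq_mul]; simp
      rw [Finset.sum_congr rfl this, Finset.sum_const, hc, nsmul_eq_mul]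
      push_cast; ring
    have e4 : ∑ u ∈ S, (∏ v ∈ S.erase u, x v) * ∑ v ∈ S.erase u, x v =
        ∑ u ∈ S, ∑ v ∈ S.erase u, (∏ w ∈ S.erase u, x w) * x v := by
      refine Finset.sum_congr rfl fun u _ => ?_
      rw [Finset.mul_sum]
    have e5 : ∑ u ∈ S, ∑ v ∈ S.erase u, (∏ w ∈ S.erase u, x w) * x v =
        ∑ u ∈ S, ∑ v ∈ S.erase u, (∏ w ∈ S.erase v, x w) * x u := by
      refine Finset.sum_comm' ?_
      intro u v
      simp only [mem_erase]
      tauto
    have e6 : ∀ u ∈ S, ∀ v ∈ S.erase u, ∏ w ∈ S, x w ≤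
        ((∏ w ∈ S.erase u, x w) * x v + (∏ w ∈ S.erase v, x w) * x u) / 2 := by
      intro u hu v hv
      have hvu : v ≠ u := (mem_erase.1 hv).1
      have hvS : v ∈ S := (mem_erase.1 hv).2
      set P : ℝ := ∏ w ∈ (S.erase u).erase v, x w with hP
      have hP0 : 0 ≤ P := Finset.prod_nonneg fun w hw =>
        hx w (hSs (mem_erase.1 (mem_erase.1 hw).2).2)
      have q1 : ∏ w ∈ S.erase u, x w = P * x v := (Finset.prod_erase_mul _ _ hv).symm
      have hu' : u ∈ S.erase v := mem_erase.2 ⟨hvu.symm, hu⟩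
      have q2 : ∏ w ∈ S.erase v, x w = P * x u := by
        rw [hP, Finset.erase_right_comm]
        exact (Finset.prod_erase_mul _ _ hu').symm
      have q3 : ∏ w ∈ S, x w = P * x v * x u := by
        rw [← q1]; exact (Finset.prod_erase_mul _ _ hu).symm
      rw [q1, q2, q3]
      nlinarith [mul_nonneg hP0 (sq_nonneg (x u - x v))]
    have e7 : ∑ u ∈ S, ∑ v ∈ S.erase u, ∏ w ∈ S, x w ≤
        ∑ u ∈ S, ∑ v ∈ S.erase u, ((∏ w ∈ S.erase u, x w) * x v + (∏ w ∈ S.erase v, x w) * x u) / 2 :=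
      Finset.sum_le_sum fun u hu => Finset.sum_le_sum fun v hv => e6 u hu v hv
    rw [e3, e4]
    refine e7.trans (le_of_eq ?_)
    simp only [← Finset.sum_div, Finset.sum_add_distrib]
    rw [← e5]; ring
  have h3 : ((k : ℝ) + 1) * (s.card : ℝ) * esy s (k + 1) x =
      ((s.card : ℝ) - k) * (((k : ℝ) + 1) * esy s (k + 1) x) + (k : ℝ) * ((k : ℝ) + 1) * esy s (k + 1) x := by
    ring
  rw [h3, mul_assoc ((s.card : ℝ) - k), h1]
  linarith

theorem esy_le {V : Type*} [DecidableEq V] (s : Finset V) (x : V → ℝ) (hx : ∀ v ∈ s, 0 ≤ x v) (k : ℕ) :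
    esy s k x ≤ ((s.card.choose k : ℕ) : ℝ) * ((∑ v ∈ s, x v) / (s.card : ℝ)) ^ k := by
  have hσ : 0 ≤ ∑ v ∈ s, x v := Finset.sum_nonneg hx
  induction k with
  | zero => simp [esy]
  | succ k ih =>
    rcases lt_or_ge k s.card with hk | hk
    · have hn : (0 : ℝ) < s.card := by exact_mod_cast (Nat.zero_le k).trans_lt hk
      have hstep := b11_step s x hx k hk.le
      have hk1 : (0 : ℝ) < (k : ℝ) + 1 := by positivity
      have hnk : (0 : ℝ) ≤ (s.card : ℝ) - k := by
        have : (k : ℝ) < s.card := by exact_mod_cast hk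
        linarith
      have hch : ((s.card.choose (k + 1) : ℕ) : ℝ) * ((k : ℝ) + 1) = ((s.card.choose k : ℕ) : ℝ) * ((s.card : ℝ) - k) := by
        have := Nat.choose_succ_right_eq s.card k
        have h' := congrArg (Nat.cast : ℕ → ℝ) this
        push_cast [Nat.cast_sub hk.le] at h'
        exact h'
      set σ : ℝ := ∑ v ∈ s, x v with hσd
      have h1 : ((k : ℝ) + 1) * (s.card : ℝ) * esy s (k + 1) x ≤
          ((s.card : ℝ) - k) * σ * (((s.card.choose k : ℕ) : ℝ) * (σ / (s.card : ℝ)) ^ k) :=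
        hstep.trans (mul_le_mul_of_nonneg_left ih (mul_nonneg hnk hσ))
      have h2 : ((s.card : ℝ) - k) * σ * (((s.card.choose k : ℕ) : ℝ) * (σ / (s.card : ℝ)) ^ k) =
          ((k : ℝ) + 1) * (s.card : ℝ) * (((s.card.choose (k + 1) : ℕ) : ℝ) * (σ / (s.card : ℝ)) ^ (k + 1)) := by
        have : ((k : ℝ) + 1) * (s.card : ℝ) * (((s.card.choose (k + 1) : ℕ) : ℝ) * (σ / (s.card : ℝ)) ^ (k + 1)) =
            (((s.card.choose (k + 1) : ℕ) : ℝ) * ((k : ℝ) + 1)) * ((s.card : ℝ) * (σ / (s.card : ℝ))) * (σ / (s.card : ℝ)) ^ k := by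
          rw [pow_succ]; ring
        rw [this, hch, mul_div_cancel₀ σ hn.ne']
        ring
      rw [h2] at h1
      exact le_of_mul_le_mul_left h1 (mul_pos hk1 hn)
    · have h0 : esy s (k + 1) x = 0 := by
        unfold esy
        rw [Finset.powersetCard_eq_empty.2 (by omega)]
        simp
      rw [h0]
      positivity

end CT
end

section

/-!
# Derivatives along a line

Proof.  Sum and product rules (`HasDerivAt.fun_sum`, `HasDerivAt.finset_prod`), then exchange sums:
`∑ e ∈ L, ∑ v ∈ e, w v * ∏ u ∈ e.erase v, (..) = ∑ v, w v * dlag L (..) v`.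
-/

set_option autoImplicit false

open Finset

namespace CT

private theorem exch_aux {V : Type*} [Fintype V] [DecidableEq V] (L : Finset (Finset V))
    (w : V → ℝ) (g : Finset V → V → ℝ) :
    ∑ v, w v * ∑ e ∈ L.filter (fun e => v ∈ e), g e v = ∑ e ∈ L, ∑ v ∈ e, w v * g e v := by
  simp_rw [Finset.mul_sum]
  apply Finset.sum_comm'
  intro v e
  simp only [Finset.mem_univ, Finset.mem_filter, true_and]
  tauto

private theorem lin_aux {V : Type*} (x w : V → ℝ) (t : ℝ) (v : V) :
    HasDerivAt (fun s : ℝ => x v + s * w v) (w v) t := by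
  have h := ((hasDerivAt_id t).mul_const (w v)).const_add (x v)
  simpa using h

private theorem prod_aux {V : Type*} [DecidableEq V] (e : Finset V) (x w : V → ℝ) (t : ℝ) :
    HasDerivAt (fun s : ℝ => ∏ v ∈ e, (x v + s * w v))
      (∑ v ∈ e, w v * ∏ u ∈ e.erase v, (x u + t * w u)) t := by
  have h := HasDerivAt.fun_finsetProd (u := e) (f := fun v s => x v + s * w v)
    (f' := fun v => w v) (x := t) (fun v _ => lin_aux x w t v)
  refine h.congr_deriv ?_
  apply Finset.sum_congr rfl
  intro v _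
  rw [smul_eq_mul, mul_comm]

theorem hasDerivAt_lag {V : Type*} [Fintype V] [DecidableEq V] (L : Finset (Finset V)) (x w : V → ℝ) (t : ℝ) :
    HasDerivAt (fun s : ℝ => lag L (fun v => x v + s * w v))
      (∑ v, w v * dlag L (fun v => x v + t * w v) v) t := by
  unfold lag dlag
  rw [exch_aux L w (fun e v => ∏ u ∈ e.erase v, (x u + t * w u))]
  exact HasDerivAt.fun_sum (fun e _ => prod_aux e x w t)

theorem hasDerivAt_dlag {V : Type*} [Fintype V] [DecidableEq V] (L : Finset (Finset V)) (x w : V → ℝ) (t : ℝ) :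
    HasDerivAt (fun s : ℝ => ∑ v, w v * dlag L (fun v => x v + s * w v) v)
      (d2lag L (fun v => x v + t * w v) w) t := by
  have h1 : (fun s : ℝ => ∑ v, w v * dlag L (fun v => x v + s * w v) v) =
      fun s : ℝ => ∑ e ∈ L, ∑ v ∈ e, w v * ∏ u ∈ e.erase v, (x u + s * w u) := by
    funext s
    unfold dlag
    exact exch_aux L w (fun e v => ∏ u ∈ e.erase v, (x u + s * w u))
  rw [h1]
  unfold d2lag
  refine HasDerivAt.fun_sum (fun e _ => HasDerivAt.fun_sum (fun v _ => ?_))
  refine ((prod_aux (e.erase v) x w t).const_mul (w v)).congr_deriv ?_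
  rw [Finset.mul_sum]
  apply Finset.sum_congr rfl
  intro u _
  rw [mul_assoc]

end CT
end
end

section

section

/-!
# (G1) on a subset

Proof.  Transport `L` to the subtype `{x // x ∈ X}`: `L' := univ.filter (fun e => e.map (Embedding.subtype _) ∈ L)`
(or `L.image` of `Finset.subtype`).  `Unif r L'`, `L'.card = L.card` since all edges of `L` are inside `X`, a hom `G → L'`
composed with the inclusion would be a `ψ` as excluded by `h`, `Fintype.card {x // x ∈ X} = X.card`.
-/

set_option autoImplicit false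

open Finset

namespace CT

theorem up_on {W : Type} [DecidableEq W] {r : ℕ} {y : ℝ} {G : Finset (Finset W)} (hG : Good r y G)
    {V : Type} [DecidableEq V] (X : Finset V) (L : Finset (Finset V)) (hL : Unif r L) (hLX : ∀ e ∈ L, e ⊆ X)
    (h : ¬ ∃ ψ : W → V, (∀ w, ψ w ∈ X) ∧ IsHom G L ψ) :
    (r.factorial : ℝ) * (L.card : ℝ) ≤ y * (X.card : ℝ) ^ r := by
  classical
  set emb : {x // x ∈ X} ↪ V := Function.Embedding.subtype (fun x => x ∈ X) with hemb
  set L' : Finset (Finset {x // x ∈ X}) :=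
    univ.filter (fun e => e.map emb ∈ L) with hL'
  have hmem : ∀ e : Finset {x // x ∈ X}, e ∈ L' ↔ e.map emb ∈ L := by
    intro e
    simp [hL']
  have hU : Unif r L' := by
    intro e he
    have := hL _ ((hmem e).1 he)
    rwa [Finset.card_map] at this
  have hno : ¬ HomTo G L' := by
    rintro ⟨φ, hφ⟩
    refine h ⟨fun w => (φ w : V), fun w => (φ w).2, fun e he => ?_⟩
    have h1 := (hmem _).1 (hφ e he)
    rw [Finset.map_eq_image, Finset.image_image] at h1
    exact h1
  have hcard : L'.card = L.card := by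
    refine Finset.card_bij (fun e _ => e.map emb) (fun e he => (hmem e).1 he)
      (fun e₁ _ e₂ _ h12 => Finset.map_injective emb h12) (fun e he => ?_)
    have he2 : (Finset.subtype (fun x => x ∈ X) e).map emb = e :=
      Finset.subtype_map_of_mem (fun x hx => hLX e he hx)
    exact ⟨Finset.subtype (fun x => x ∈ X) e, (hmem _).2 (by rw [he2]; exact he), he2⟩
  have h1 := hG.up {x // x ∈ X} L' hU hno
  rw [hcard, Fintype.card_coe] at h1
  exact h1

end CT
end

section

/-!
# Monotonicity of `choose j r / j ^ r`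

Proof.  `choose j r / j^r = (1/r!) ∏_{i<r} (1 - i/j)` for `j ≥ r` (and `0` for `1 ≤ r`, `j < r`); each factor increases with `j`.
-/

set_option autoImplicit false

open Finset

namespace CT

private theorem choose_div_succ (r n : ℕ) :
    ((n.choose (r + 1) : ℕ) : ℝ) / (n : ℝ) ^ (r + 1) =
      ((n.choose r : ℕ) : ℝ) / (n : ℝ) ^ r * (((n - r : ℕ) : ℝ) / (((r : ℝ) + 1) * n)) := by
  have h : ((n.choose (r + 1) : ℕ) : ℝ) * ((r : ℝ) + 1) =
      ((n.choose r : ℕ) : ℝ) * ((n - r : ℕ) : ℝ) := by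
    exact_mod_cast Nat.choose_succ_right_eq n r
  rcases Nat.eq_zero_or_pos n with rfl | hn
  · simp
  · have hn' : (0 : ℝ) < n := by exact_mod_cast hn
    have hr : (0 : ℝ) < (r : ℝ) + 1 := by positivity
    have e : ((n.choose (r + 1) : ℕ) : ℝ) =
        ((n.choose r : ℕ) : ℝ) * ((n - r : ℕ) : ℝ) / ((r : ℝ) + 1) := by
      rw [← h]; field_simp
    rw [e]
    field_simp
    ring

theorem choose_div_mono (r : ℕ) {j m : ℕ} (h : j ≤ m) :
    ((j.choose r : ℕ) : ℝ) / (j : ℝ) ^ r ≤ ((m.choose r : ℕ) : ℝ) / (m : ℝ) ^ r := by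
  induction r with
  | zero => simp
  | succ r ih =>
    rw [choose_div_succ r j, choose_div_succ r m]
    refine mul_le_mul ih ?_ (by positivity) (by positivity)
    rcases Nat.eq_zero_or_pos j with rfl | hj
    · simp only [Nat.zero_sub, Nat.cast_zero, zero_div]
      positivity
    · have hj' : (0 : ℝ) < j := by exact_mod_cast hj
      have hm' : (0 : ℝ) < m := by exact_mod_cast (lt_of_lt_of_le hj h)
      have hjm : (j : ℝ) ≤ m := by exact_mod_cast h
      rcases Nat.lt_or_ge j r with hlt | hge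
      · rw [Nat.sub_eq_zero_of_le hlt.le]
        simp only [Nat.cast_zero, zero_div]
        positivity
      · rw [Nat.cast_sub hge, Nat.cast_sub (hge.trans h)]
        have hr0 : (0 : ℝ) ≤ r := Nat.cast_nonneg r
        rw [div_le_div_iff₀ (by positivity) (by positivity)]
        have : ((j : ℝ) - r) * m ≤ ((m : ℝ) - r) * j := by nlinarith
        nlinarith

end CT
end

section

/-!
# The near complete inequality

Proof.  `r! choose m r / m^r = ∏_{i<r} (1 - i/m)`, so the difference `r! (choose m r/m^r - choose (m-1) r/(m-1)^r)` is at least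
`(1/(m-1) - 1/m) ∏_{2 ≤ i < r} (1 - i/(m-1)) ≥ 1/(2 m^2)` for `m` large, which is `> r! q / m^3 ≥ r! q/m^r` for `m > 2 r! q`.
-/

set_option autoImplicit false

open Finset

namespace CT

private lemma near_bern (m : ℝ) (hm : 1 ≤ m) (k : ℕ) :
    (m - ((k : ℝ) + 2)) * m ^ (k + 1) + m ^ k ≤ (m - 1) ^ (k + 2) := by
  induction k with
  | zero =>
    have : (m - (((0 : ℕ) : ℝ) + 2)) * m ^ (0 + 1) + m ^ 0 = (m - 1) ^ (0 + 2) := by
      push_cast
      ring
    exact this.le
  | succ k ih =>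
    have h1 : (m - 1) * ((m - ((k : ℝ) + 2)) * m ^ (k + 1) + m ^ k) ≤ (m - 1) * (m - 1) ^ (k + 2) :=
      mul_le_mul_of_nonneg_left ih (by linarith)
    have h2 : (m - 1) * (m - 1) ^ (k + 2) = (m - 1) ^ (k + 1 + 2) := by ring
    have h3 : m ^ k ≤ ((k : ℝ) + 2) * m ^ (k + 1) := by
      have h4 : 0 ≤ m ^ k := by positivity
      have h5 : m ^ (k + 1) = m * m ^ k := by ring
      have h6 : m ^ k ≤ m ^ (k + 1) := by
        rw [h5]
        nlinarith
      have h7 : (0 : ℝ) ≤ (k : ℝ) := Nat.cast_nonneg k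
      nlinarith [mul_nonneg h7 (h4.trans h6)]
    have h8 : (m - 1) * ((m - ((k : ℝ) + 2)) * m ^ (k + 1) + m ^ k) =
        (m - (((k + 1 : ℕ) : ℝ) + 2)) * m ^ (k + 1 + 1) + m ^ (k + 1) +
          (((k : ℝ) + 2) * m ^ (k + 1) - m ^ k) := by
      push_cast
      ring
    rw [h2, h8] at h1
    linarith

private lemma near_choose (s q n : ℕ) (h1 : 2 * (s + 3) ≤ n + 1) (h2 : 4 * (q * (s + 3).factorial) < n + 1) :
    q * (s + 3) * (n + 1) < n.choose (s + 2) := by
  have h3 : (n + 1 - (s + 2)) ^ (s + 2) ≤ (s + 2).factorial * n.choose (s + 2) := by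
    have h := Nat.pow_sub_le_descFactorial n (s + 2)
    rw [Nat.descFactorial_eq_factorial_mul_choose] at h
    exact h
  have h4 : (n + 1 - (s + 2)) ^ 2 ≤ (n + 1 - (s + 2)) ^ (s + 2) :=
    Nat.pow_le_pow_right (by omega) (by omega)
  have h5 : n + 1 ≤ 2 * (n + 1 - (s + 2)) := by omega
  have h6 : (n + 1) * (n + 1) ≤ 4 * ((s + 2).factorial * n.choose (s + 2)) := by
    calc (n + 1) * (n + 1) ≤ (2 * (n + 1 - (s + 2))) * (2 * (n + 1 - (s + 2))) := Nat.mul_le_mul h5 h5
      _ = 4 * (n + 1 - (s + 2)) ^ 2 := by ring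
      _ ≤ 4 * ((s + 2).factorial * n.choose (s + 2)) := Nat.mul_le_mul_left 4 (h4.trans h3)
  have h7 : 4 * (q * (s + 3).factorial) * (n + 1) < (n + 1) * (n + 1) :=
    Nat.mul_lt_mul_of_pos_right h2 (by omega)
  have h8 : (s + 3).factorial = (s + 3) * (s + 2).factorial := Nat.factorial_succ (s + 2)
  rw [h8] at h7
  have h9 : 4 * ((s + 2).factorial) * (q * (s + 3) * (n + 1)) < 4 * ((s + 2).factorial) * n.choose (s + 2) := by
    calc 4 * ((s + 2).factorial) * (q * (s + 3) * (n + 1))
        = 4 * (q * ((s + 3) * (s + 2).factorial)) * (n + 1) := by ring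
      _ < (n + 1) * (n + 1) := h7
      _ ≤ 4 * ((s + 2).factorial * n.choose (s + 2)) := h6
      _ = 4 * ((s + 2).factorial) * n.choose (s + 2) := by ring
  exact Nat.lt_of_mul_lt_mul_left h9

theorem near_numeric (r q : ℕ) (hr : 3 ≤ r) : ∃ m0 : ℕ, ∀ m : ℕ, m0 ≤ m →
    (((m - 1).choose r : ℕ) : ℝ) / ((m - 1 : ℕ) : ℝ) ^ r < (((m.choose r : ℕ) : ℝ) - q) / (m : ℝ) ^ r := by
  obtain ⟨s, rfl⟩ : ∃ s, r = s + 3 := ⟨r - 3, by omega⟩
  refine ⟨2 * (s + 3) + 4 * (q * (s + 3).factorial) + 1, fun m hm => ?_⟩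
  obtain ⟨n, rfl⟩ : ∃ n, m = n + 1 := ⟨m - 1, by omega⟩
  have hc := near_choose s q n (by omega) (by omega)
  have e1 : n.choose (s + 3) * (s + 3) = n.choose (s + 2) * (n - (s + 2)) := Nat.choose_succ_right_eq n (s + 2)
  have e2 : (n + 1) * n.choose (s + 2) = (n + 1).choose (s + 3) * (s + 3) := Nat.add_one_mul_choose_eq n (s + 2)
  have hn : s + 2 ≤ n := by omega
  have e1' : ((n.choose (s + 3) : ℕ) : ℝ) * ((s : ℝ) + 3) =
      ((n.choose (s + 2) : ℕ) : ℝ) * ((n : ℝ) - ((s : ℝ) + 2)) := by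
    have := congrArg (fun t : ℕ => (t : ℝ)) e1
    simp only [Nat.cast_mul, Nat.cast_sub hn] at this
    push_cast at this
    exact this
  have e2' : ((n : ℝ) + 1) * ((n.choose (s + 2) : ℕ) : ℝ) =
      (((n + 1).choose (s + 3) : ℕ) : ℝ) * ((s : ℝ) + 3) := by
    exact_mod_cast e2
  have hc' : (q : ℝ) * ((s : ℝ) + 3) * ((n : ℝ) + 1) < ((n.choose (s + 2) : ℕ) : ℝ) := by
    exact_mod_cast hc
  have hn0 : (0 : ℝ) < (n : ℝ) := by
    have : 0 < n := by omega
    exact_mod_cast this
  have hb := near_bern ((n : ℝ) + 1) (by linarith) (s + 1)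
  have hb' : ((n : ℝ) + 1 - ((s : ℝ) + 3)) * ((n : ℝ) + 1) ^ (s + 2) + ((n : ℝ) + 1) ^ (s + 1) ≤
      (n : ℝ) ^ (s + 3) := by
    have h1 : ((n : ℝ) + 1 - 1) ^ (s + 1 + 2) = (n : ℝ) ^ (s + 3) := by
      rw [add_sub_cancel_right]
    have h2 : ((n : ℝ) + 1 - (((s + 1 : ℕ) : ℝ) + 2)) * ((n : ℝ) + 1) ^ (s + 1 + 1) + ((n : ℝ) + 1) ^ (s + 1) =
        ((n : ℝ) + 1 - ((s : ℝ) + 3)) * ((n : ℝ) + 1) ^ (s + 2) + ((n : ℝ) + 1) ^ (s + 1) := by
      push_cast
      ring
    rw [h1, h2] at hb
    exact hb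
  show (((n + 1 - 1).choose (s + 3) : ℕ) : ℝ) / ((n + 1 - 1 : ℕ) : ℝ) ^ (s + 3) <
    (((((n + 1).choose (s + 3) : ℕ)) : ℝ) - q) / ((n + 1 : ℕ) : ℝ) ^ (s + 3)
  rw [Nat.add_sub_cancel]
  push_cast
  have hs3 : (0 : ℝ) < (s : ℝ) + 3 := by positivity
  set A : ℝ := ((n.choose (s + 3) : ℕ) : ℝ) with hA
  set B : ℝ := (((n + 1).choose (s + 3) : ℕ) : ℝ) with hB
  set c : ℝ := ((n.choose (s + 2) : ℕ) : ℝ) with hcdef
  have hc0 : 0 ≤ c := by
    have : (0 : ℝ) ≤ (q : ℝ) * ((s : ℝ) + 3) * ((n : ℝ) + 1) := by positivity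
    linarith
  set N : ℝ := (n : ℝ) + 1 with hN
  have hN0 : 0 < N := by linarith
  rw [div_lt_div_iff₀ (by positivity) (by positivity)]
  have hpn : (n : ℝ) ^ (s + 3) ≤ N ^ (s + 3) := by
    apply pow_le_pow_left₀ hn0.le
    linarith
  have k1 : A * N ^ (s + 3) * ((s : ℝ) + 3) = c * (N - ((s : ℝ) + 3)) * N ^ (s + 3) := by
    have : A * N ^ (s + 3) * ((s : ℝ) + 3) = (A * ((s : ℝ) + 3)) * N ^ (s + 3) := by ring
    rw [this, e1', hN]
    ring
  have k2 : (B - q) * (n : ℝ) ^ (s + 3) * ((s : ℝ) + 3) =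
      N * c * (n : ℝ) ^ (s + 3) - q * ((s : ℝ) + 3) * (n : ℝ) ^ (s + 3) := by
    have : (B - q) * (n : ℝ) ^ (s + 3) * ((s : ℝ) + 3) =
      (B * ((s : ℝ) + 3)) * (n : ℝ) ^ (s + 3) - q * ((s : ℝ) + 3) * (n : ℝ) ^ (s + 3) := by ring
    rw [this, ← e2']
  have k3 : N * c * ((N - ((s : ℝ) + 3)) * N ^ (s + 2) + N ^ (s + 1)) ≤ N * c * (n : ℝ) ^ (s + 3) :=
    mul_le_mul_of_nonneg_left hb' (by positivity)
  have k4 : (q : ℝ) * ((s : ℝ) + 3) * (n : ℝ) ^ (s + 3) ≤ q * ((s : ℝ) + 3) * N ^ (s + 3) :=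
    mul_le_mul_of_nonneg_left hpn (by positivity)
  have k5 : (q : ℝ) * ((s : ℝ) + 3) * N * N ^ (s + 2) < c * N ^ (s + 2) :=
    mul_lt_mul_of_pos_right hc' (by positivity)
  have k6 : A * N ^ (s + 3) * ((s : ℝ) + 3) < (B - q) * (n : ℝ) ^ (s + 3) * ((s : ℝ) + 3) := by
    rw [k1, k2]
    have k7 : N * c * ((N - ((s : ℝ) + 3)) * N ^ (s + 2) + N ^ (s + 1)) =
        c * (N - ((s : ℝ) + 3)) * N ^ (s + 3) + c * N ^ (s + 2) := by ring
    have k8 : (q : ℝ) * ((s : ℝ) + 3) * N * N ^ (s + 2) = q * ((s : ℝ) + 3) * N ^ (s + 3) := by ring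
    rw [k7] at k3
    rw [k8] at k5
    linarith
  exact lt_of_mul_lt_mul_right k6 hs3.le

end CT
end

section

/-!
# A transcendental real is moved by some derivation

Proof.  For instance: `Ω[ℝ⁄ℚ]` is a real vector space and `D x ≠ 0` for `x` transcendental (char 0), so a linear functional gives the
derivation.  Or: extend `{x}` to a transcendence basis, the derivation `d/dx` of `ℚ(basis)` extends to the algebraic
(separable) extension `ℝ`; or: if all derivations of `ℚ(x) → ℝ`.. (`d/dX` on `RatFunc`/`Polynomial`) extended along formally etale extensions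
(`Algebra.FormallyEtale`, `Derivation` lifting).
-/

set_option autoImplicit false

open Finset

namespace CT

lemma smooth_charZero (F : Type) [Field F] [Algebra F ℝ] [CharZero F] :
    Algebra.FormallySmooth F ℝ := by
  obtain ⟨s, hs⟩ := exists_isTranscendenceBasis F ℝ
  have h1 : Algebra.IsAlgebraic
      (IntermediateField.adjoin F (Set.range ((↑) : s → ℝ))) ℝ := hs.isAlgebraic_field
  have h2 : Algebra.IsSeparable
      (IntermediateField.adjoin F (Set.range ((↑) : s → ℝ))) ℝ := inferInstance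
  exact Algebra.FormallySmooth.of_algebraicIndependent_of_isSeparable hs.1

lemma smooth_poly [Algebra (Polynomial ℚ) ℝ]
    (hinj : Function.Injective (algebraMap (Polynomial ℚ) ℝ)) :
    Algebra.FormallySmooth (Polynomial ℚ) ℝ := by
  haveI : FaithfulSMul (Polynomial ℚ) ℝ := (faithfulSMul_iff_algebraMap_injective _ _).mpr hinj
  letI := FractionRing.liftAlgebra (Polynomial ℚ) ℝ
  haveI : IsScalarTower (Polynomial ℚ) (FractionRing (Polynomial ℚ)) ℝ :=
    FractionRing.isScalarTower_liftAlgebra _ _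
  haveI h1 : Algebra.FormallySmooth (FractionRing (Polynomial ℚ)) ℝ := smooth_charZero _
  haveI h2 : Algebra.FormallyEtale (Polynomial ℚ) (FractionRing (Polynomial ℚ)) :=
    Algebra.FormallyEtale.of_isLocalization (nonZeroDivisors _)
  exact Algebra.FormallySmooth.comp (Polynomial ℚ) (FractionRing (Polynomial ℚ)) ℝ

lemma lift_aux {R T : Type} [CommRing R] [CommRing T] [Algebra R ℝ] [Algebra R T]
    [Algebra.FormallySmooth R ℝ] (g : T →+* ℝ)
    (hg0 : ∀ r, g (algebraMap R T r) = algebraMap R ℝ r) (hg : Function.Surjective g)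
    (hn : IsNilpotent (RingHom.ker g)) :
    ∃ σ : ℝ →+* T, (∀ y, g (σ y) = y) ∧ ∀ r, σ (algebraMap R ℝ r) = algebraMap R T r := by
  let g' : T →ₐ[R] ℝ := { g with commutes' := hg0 }
  refine ⟨(Algebra.FormallySmooth.liftOfSurjective (AlgHom.id R ℝ) g' hg hn : ℝ →ₐ[R] T), ?_, ?_⟩
  · intro y
    exact Algebra.FormallySmooth.liftOfSurjective_apply (AlgHom.id R ℝ) g' hg hn y
  · intro r
    exact AlgHom.commutes _ r

theorem exists_derivation {x : ℝ} (hx : Transcendental ℚ x) : ∃ D : Derivation ℚ ℝ ℝ, D x ≠ 0 := by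
  have key : ∃ σ : ℝ →+* TrivSqZeroExt ℝ ℝ, (∀ y, (σ y).fst = y) ∧ (σ x).snd = 1 := by
    let φ : Polynomial ℚ →+* ℝ := (Polynomial.aeval x : Polynomial ℚ →ₐ[ℚ] ℝ).toRingHom
    let ψ : Polynomial ℚ →+* TrivSqZeroExt ℝ ℝ :=
      (Polynomial.aeval (TrivSqZeroExt.inl x + TrivSqZeroExt.inr 1 : TrivSqZeroExt ℝ ℝ) :
      Polynomial ℚ →ₐ[ℚ] TrivSqZeroExt ℝ ℝ).toRingHom
    letI iA : Algebra (Polynomial ℚ) ℝ := φ.toAlgebra
    letI iT : Algebra (Polynomial ℚ) (TrivSqZeroExt ℝ ℝ) := ψ.toAlgebra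
    have hinj : Function.Injective (@algebraMap (Polynomial ℚ) ℝ _ _ iA) :=
      transcendental_iff_injective.mp hx
    haveI := smooth_poly hinj
    have hker : ∀ t : TrivSqZeroExt ℝ ℝ, t ∈ RingHom.ker (TrivSqZeroExt.fstHom ℝ ℝ ℝ).toRingHom →
        t.fst = 0 := fun t ht => ht
    obtain ⟨σ, h1, h2⟩ := @lift_aux (Polynomial ℚ) (TrivSqZeroExt ℝ ℝ) _ _ iA iT this
      (TrivSqZeroExt.fstHom ℝ ℝ ℝ).toRingHom (by
        intro r
        have : ((TrivSqZeroExt.fstHom ℚ ℝ ℝ).comp (Polynomial.aeval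
          (TrivSqZeroExt.inl x + TrivSqZeroExt.inr 1 : TrivSqZeroExt ℝ ℝ) :
            Polynomial ℚ →ₐ[ℚ] TrivSqZeroExt ℝ ℝ)) = Polynomial.aeval x := by
          ext
          simp
        exact congrArg (fun f => f r) this) (by
        intro y
        exact ⟨TrivSqZeroExt.inl y, by simp⟩) (by
        refine ⟨2, ?_⟩
        rw [pow_two, Ideal.zero_eq_bot, eq_bot_iff, Ideal.mul_le]
        intro a ha b hb
        have ha' := hker a ha
        have hb' := hker b hb
        rw [Ideal.mem_bot]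
        ext
        · simp [ha', hb']
        · simp [ha', hb'])
    refine ⟨σ, fun y => h1 y, ?_⟩
    have h3 := h2 Polynomial.X
    have h4 : @algebraMap (Polynomial ℚ) ℝ _ _ iA Polynomial.X = x := by
      change (Polynomial.aeval x : Polynomial ℚ →ₐ[ℚ] ℝ) Polynomial.X = x
      simp
    have h5 : @algebraMap (Polynomial ℚ) (TrivSqZeroExt ℝ ℝ) _ _ iT Polynomial.X =
        TrivSqZeroExt.inl x + TrivSqZeroExt.inr 1 := by
      change (Polynomial.aeval (TrivSqZeroExt.inl x + TrivSqZeroExt.inr 1 : TrivSqZeroExt ℝ ℝ) :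
      Polynomial ℚ →ₐ[ℚ] TrivSqZeroExt ℝ ℝ) Polynomial.X = _
      simp
    rw [h4, h5] at h3
    rw [h3]
    simp
  obtain ⟨σ, h1, h2⟩ := key
  let f : ℝ →+ ℝ :=
    { toFun := fun y => (σ y).snd
      map_zero' := by simp
      map_add' := by intro a b; simp }
  refine ⟨Derivation.mk' f.toRatLinearMap ?_, ?_⟩
  · intro a b
    change (σ (a * b)).snd = a • (σ b).snd + b • (σ a).snd
    rw [map_mul, TrivSqZeroExt.snd_mul, h1, h1]
    simp [mul_comm]
  · change (σ x).snd ≠ 0
    rw [h2]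
    exact one_ne_zero

end CT
end

section

/-!
# The class-constant maximiser exists

Proof.  The map `(b, a') ↦ cc b (extension of a' : Fin (n+1) → ℝ by 0)` is linear and continuous from a finite dimensional space; its preimage of the simplex
intersected with nonnegative `(b,a')` is compact (each coordinate is at most `1`, as `M ≥ 1` and `N i ≥ 1`) and nonempty (the uniform point).
`lag` is continuous.  Values `a i`, `i > n`, do not matter (`cc` only uses `i ≤ n`): given `b', a''` with `cc b' a''` in the simplex, truncate.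
-/

set_option autoImplicit false

open Finset

namespace CT

/-- class-constant points -/
private def ClassSet (n : ℕ) (N : ℕ → ℕ) (M : ℕ) : Set (PV n N M → ℝ) :=
  {x | (∀ o o' : Fin M, x (Sum.inl o) = x (Sum.inl o')) ∧
    ∀ u u' : UV n N, u.1 = u'.1 → x (Sum.inr u) = x (Sum.inr u')}

private theorem isClosed_classSet (n : ℕ) (N : ℕ → ℕ) (M : ℕ) : IsClosed (ClassSet n N M) := by
  have h : ClassSet n N M =
      (⋂ (o : Fin M) (o' : Fin M), {x : PV n N M → ℝ | x (Sum.inl o) = x (Sum.inl o')}) ∩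
      (⋂ (u : UV n N) (u' : UV n N) (_ : u.1 = u'.1),
        {x : PV n N M → ℝ | x (Sum.inr u) = x (Sum.inr u')}) := by
    ext x
    simp only [ClassSet, Set.mem_ofPred_eq, Set.mem_inter_iff, Set.mem_iInter]
  rw [h]
  refine IsClosed.inter ?_ ?_
  · exact isClosed_iInter (fun o => isClosed_iInter (fun o' =>
      isClosed_eq (continuous_apply _) (continuous_apply _)))
  · exact isClosed_iInter (fun u => isClosed_iInter (fun u' => isClosed_iInter (fun _ =>
      isClosed_eq (continuous_apply _) (continuous_apply _))))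

private theorem continuous_lag_aux {V : Type*} [DecidableEq V] (L : Finset (Finset V)) :
    Continuous (fun x : V → ℝ => lag L x) := by
  unfold lag
  exact continuous_finsetSum _ (fun e _ => continuous_finsetProd _ (fun v _ => continuous_apply v))

private theorem cc_mem_classSet (n : ℕ) (N : ℕ → ℕ) (M : ℕ) (b : ℝ) (a : ℕ → ℝ) :
    cc n N M b a ∈ ClassSet n N M := by
  refine ⟨fun o o' => rfl, fun u u' h => ?_⟩
  simp only [cc, Sum.elim_inr, h]

theorem exists_class_max {r n p : ℕ} {N : ℕ → ℕ} [∀ i, NeZero (N i)] {M : ℕ} (hM : 1 ≤ M) :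
    ∃ (b : ℝ) (a : ℕ → ℝ), cc n N M b a ∈ stdSimplex ℝ (PV n N M) ∧
      ∀ (b' : ℝ) (a' : ℕ → ℝ), cc n N M b' a' ∈ stdSimplex ℝ (PV n N M) →
        lag (PP r n p N M) (cc n N M b' a') ≤ lag (PP r n p N M) (cc n N M b a) := by
  have hcomp : IsCompact (stdSimplex ℝ (PV n N M) ∩ ClassSet n N M) :=
    (isCompact_stdSimplex ℝ (PV n N M)).inter_right (isClosed_classSet n N M)
  have hne : (stdSimplex ℝ (PV n N M) ∩ ClassSet n N M).Nonempty := by
    refine ⟨fun _ => (Fintype.card (PV n N M) : ℝ)⁻¹, ⟨fun v => by positivity, ?_⟩,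
      fun o o' => rfl, fun u u' _ => rfl⟩
    have hc : (0 : ℝ) < (Fintype.card (PV n N M) : ℝ) := by
      have : 0 < Fintype.card (PV n N M) := by
        rw [Fintype.card_pos_iff]
        exact ⟨Sum.inl ⟨0, hM⟩⟩
      exact_mod_cast this
    rw [Finset.sum_const, Finset.card_univ, nsmul_eq_mul]
    exact mul_inv_cancel₀ hc.ne'
  obtain ⟨x, hx, hmax⟩ := hcomp.exists_isMaxOn hne (continuous_lag_aux (PP r n p N M)).continuousOn
  have hNpos : ∀ i, 0 < N i := fun i => Nat.pos_of_ne_zero (NeZero.ne (N i))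
  have hcc : cc n N M (x (Sum.inl ⟨0, hM⟩))
      (fun i => if h : i < n + 1 then x (Sum.inr ⟨⟨i, h⟩, ⟨0, hNpos i⟩⟩) else 0) = x := by
    funext v
    rcases v with o | u
    · simp only [cc, Sum.elim_inl]
      exact hx.2.1 _ _
    · simp only [cc, Sum.elim_inr]
      rw [dif_pos u.1.2]
      exact hx.2.2 _ _ rfl
  refine ⟨x (Sum.inl ⟨0, hM⟩),
    (fun i => if h : i < n + 1 then x (Sum.inr ⟨⟨i, h⟩, ⟨0, hNpos i⟩⟩) else 0), ?_, ?_⟩
  · rw [hcc]
    exact hx.1
  · intro b' a' h'
    rw [hcc]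
    exact hmax ⟨h', cc_mem_classSet n N M b' a'⟩

end CT
end

section

/-!
# The whole vertex set is rich

Proof.  `n0 := N0 + r + 2` with `N0` from `hG.cov`.  Fix `b0`.  On `X := {v // v ≠ b0}` let `L` be the set of `r`-sets `T` with
`insert b0 (T.image val) ∈ H`.  For `u ≠ v` in `X` choose an `r`-set `S ⊆ V` containing `b0, u, v` (`r ≥ 3`); it has a neighbour
`w` (`0 < c`), `insert w S ∈ H` has `r + 1` elements, and removing `b0` gives an edge of `L` containing `u, v`.  So
`hG.cov` gives a hom `G → L`; compose with the inclusion.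
-/

set_option autoImplicit false

open Finset

namespace CT

theorem rich_univ {W : Type} [DecidableEq W] {r : ℕ} (hr : 3 ≤ r) {y : ℝ} {G : Finset (Finset W)} (hG : Good r y G) :
    ∃ n0 : ℕ, ∀ (V : Type) [Fintype V] [DecidableEq V], n0 ≤ Fintype.card V → ∀ (H : Finset (Finset V)) (c : ℝ),
      Unif (r + 1) H → MinCo r H c → 0 < c → Rich G H univ := by
  obtain ⟨N0, hcov⟩ := hG.cov
  refine ⟨N0 + r + 2, ?_⟩
  intro V _ _ hV H c hH hco hc
  have hVpos : 0 < Fintype.card V := by omega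
  obtain ⟨b0⟩ := Fintype.card_pos_iff.mp hVpos
  let L : Finset (Finset {v : V // v ≠ b0}) :=
    univ.filter (fun T => T.card = r ∧ insert b0 (T.image Subtype.val) ∈ H)
  have hL : Unif r L := by
    intro T hT
    exact (mem_filter.mp hT).2.1
  have hcardX : N0 ≤ Fintype.card {v : V // v ≠ b0} := by
    rw [Fintype.card_subtype_compl, Fintype.card_subtype_eq]
    omega
  have hpair : ∀ u v : {v : V // v ≠ b0}, u ≠ v → ∃ e ∈ L, u ∈ e ∧ v ∈ e := by
    intro u v huv
    have h3 : ({b0, u.1, v.1} : Finset V).card ≤ r :=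
      (card_le_three).trans hr
    obtain ⟨S, hS1, hS2⟩ := Finset.exists_superset_card_eq h3 (by omega : r ≤ Fintype.card V)
    have hnb : (0 : ℝ) < ((nb H S).card : ℝ) := lt_of_lt_of_le hc (hco S hS2)
    have hnb' : 0 < (nb H S).card := by exact_mod_cast hnb
    obtain ⟨w, hw⟩ := card_pos.mp hnb'
    rw [mem_nb] at hw
    have hb0 : b0 ∈ S := hS1 (by simp)
    have hu : u.1 ∈ S := hS1 (by simp)
    have hv : v.1 ∈ S := hS1 (by simp)
    have himg : ((insert w S).subtype (fun v => v ≠ b0)).image Subtype.val = (insert w S).erase b0 := by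
      ext z
      simp only [mem_image, Finset.mem_subtype, mem_erase]
      constructor
      · rintro ⟨a, ha, rfl⟩
        exact ⟨a.2, ha⟩
      · rintro ⟨h1, h2⟩
        exact ⟨⟨z, h1⟩, h2, rfl⟩
    have hmem : b0 ∈ insert w S := mem_insert_of_mem hb0
    refine ⟨(insert w S).subtype (fun v => v ≠ b0), ?_, ?_, ?_⟩
    · refine mem_filter.mpr ⟨mem_univ _, ?_, ?_⟩
      · rw [← card_image_of_injective _ Subtype.val_injective, himg, card_erase_of_mem hmem, hH _ hw.2]
        rfl
      · rw [himg, insert_erase hmem]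
        exact hw.2
    · rw [Finset.mem_subtype]; exact mem_insert_of_mem hu
    · rw [Finset.mem_subtype]; exact mem_insert_of_mem hv
  obtain ⟨φ, hφ⟩ := hcov {v : V // v ≠ b0} L hL hcardX hpair
  refine ⟨b0, fun w => (φ w).1, fun w => mem_univ _, ?_⟩
  intro e he
  have h1 := (mem_filter.mp (hφ e he)).2.2
  rw [image_image] at h1
  exact h1

end CT
end

section

/-!
# Outdegrees in the digraph of `r`-sets

Proof.  The out-neighbours of `R` are the `r`-subsets of `nb H R`, so their number is `choose (card (nb H R)) r` with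
`card (nb H R) ≥ d * card V`; `Fintype.card {R // R.card = r} = choose (card V) r`.  For `x ≥ d n`, `n` large:
`choose x r ≥ (x - r)^r / r! ≥ (d n / 2)^r / r! ≥ (d/2)^r choose n r`.
-/

set_option autoImplicit false

open Finset

namespace CT

private theorem card_filter_sub {V : Type} [Fintype V] [DecidableEq V] (r : ℕ) (X : Finset V) :
    (univ.filter (fun R' : {R : Finset V // R.card = r} => R'.1 ⊆ X)).card = X.card.choose r := by
  rw [← card_powersetCard]
  refine card_bij (fun R' _ => R'.1) ?_ ?_ ?_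
  · intro R' h
    rw [mem_filter] at h
    exact mem_powersetCard.2 ⟨h.2, R'.2⟩
  · intro a _ b _ h
    exact Subtype.ext h
  · intro S hS
    rw [mem_powersetCard] at hS
    exact ⟨⟨S, hS.2⟩, mem_filter.2 ⟨mem_univ _, hS.1⟩, rfl⟩

theorem outdeg_ge (r : ℕ) (d : ℝ) (hd : 0 < d) (hd1 : d ≤ 1) : ∃ n0 : ℕ, ∀ (V : Type) [Fintype V] [DecidableEq V],
    n0 ≤ Fintype.card V → ∀ H : Finset (Finset V), MinCo r H (d * (Fintype.card V : ℝ)) →
    ∀ R : {R : Finset V // R.card = r}, (d / 2) ^ r * (Fintype.card {R : Finset V // R.card = r} : ℝ) ≤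
      ((univ.filter (fun R' : {R : Finset V // R.card = r} => R'.1 ⊆ nb H R.1)).card : ℝ) := by
  obtain ⟨n0, hn0⟩ := exists_nat_ge (2 * (r : ℝ) / d)
  refine ⟨n0, ?_⟩
  intro V _ _ hV H hH R
  have hx := hH R.1 R.2
  rw [card_filter_sub, Fintype.card_finset_len]
  set n := Fintype.card V with hn
  set x := (nb H R.1).card with hxd
  have hnn : (n0 : ℝ) ≤ (n : ℝ) := by exact_mod_cast hV
  have h1 : 2 * (r : ℝ) ≤ d * n := by
    have := hn0.trans hnn
    rw [div_le_iff₀ hd] at this
    linarith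
  have h2 : d / 2 * n ≤ ((x + 1 - r : ℕ) : ℝ) := by
    have h3 : (x : ℝ) + 1 - r ≤ ((x + 1 - r : ℕ) : ℝ) := by
      have : x + 1 ≤ (x + 1 - r) + r := by omega
      have h4 : ((x + 1 : ℕ) : ℝ) ≤ (((x + 1 - r) + r : ℕ) : ℝ) := by exact_mod_cast this
      push_cast at h4 ⊢
      linarith
    linarith
  have h3 : (n.choose r : ℝ) ≤ (n : ℝ) ^ r / (r.factorial : ℝ) := Nat.choose_le_pow_div r n
  have h4 : (((x + 1 - r : ℕ) : ℝ) ^ r) / (r.factorial : ℝ) ≤ (x.choose r : ℝ) :=
    Nat.pow_le_choose r x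
  have hf : (0 : ℝ) < (r.factorial : ℝ) := by exact_mod_cast r.factorial_pos
  have h5 : (d / 2) ^ r * (n.choose r : ℝ) ≤ (d / 2) ^ r * ((n : ℝ) ^ r / (r.factorial : ℝ)) :=
    mul_le_mul_of_nonneg_left h3 (by positivity)
  have h6 : (d / 2) ^ r * ((n : ℝ) ^ r / (r.factorial : ℝ)) =
      (d / 2 * n) ^ r / (r.factorial : ℝ) := by
    rw [mul_pow]
    ring
  have h7 : (d / 2 * n) ^ r / (r.factorial : ℝ) ≤ (((x + 1 - r : ℕ) : ℝ) ^ r) / (r.factorial : ℝ) := by
    apply div_le_div_of_nonneg_right _ hf.le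
    exact pow_le_pow_left₀ (by positivity) h2 r
  linarith

end CT
end

section

/-!
# Counting the edges of a blow-up

Proof.  `L := (powersetCard r univ).filter (fun e => e.image c ∈ P)` with `c` from `exists_colouring`.  For every `e ∈ P` the sets meeting the classes `c⁻¹(v)`,
`v ∈ e`, in one point each are edges: `card L ≥ ∑_{e ∈ P} ∏_{v ∈ e} card (c⁻¹ v)`, each factor at least `max (x v n - 1) 0`, so
`card L ≥ n^r lag P x - C n^(r-1)`, and `choose n r ≤ n^r / r!`, `r! lag P x = y`.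
-/

set_option autoImplicit false

open Finset

namespace CT

/-- the number of transversals of the classes of `e` -/
private theorem b16_fiber {V : Type} [Fintype V] [DecidableEq V] {r n : ℕ} (c : Fin n → V) (e : Finset V)
    (he : e.card = r) :
    ∏ v ∈ e, (univ.filter (fun i => c i = v)).card ≤
      ((powersetCard r (univ : Finset (Fin n))).filter (fun T => T.image c = e)).card := by
  classical
  rw [← Finset.card_pi]
  have hg : ∀ g ∈ e.pi (fun v => univ.filter (fun i => c i = v)), ∀ v (hv : v ∈ e), c (g v hv) = v := by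
    intro g hg v hv
    have := Finset.mem_pi.1 hg v hv
    simpa using this
  refine Finset.card_le_card_of_injOn (fun g => e.attach.image (fun v => g v.1 v.2)) ?_ ?_
  · intro g hgm
    have hgm' : g ∈ e.pi (fun v => univ.filter (fun i => c i = v)) := by simpa using hgm
    have hc := hg g hgm'
    simp only [Finset.coe_filter, Set.mem_setOf_eq, Finset.mem_powersetCard]
    refine ⟨⟨Finset.subset_univ _, ?_⟩, ?_⟩
    · rw [Finset.card_image_of_injective]
      · rw [Finset.card_attach, he]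
      · intro v w hvw
        have h1 := hc v.1 v.2
        have h2 := hc w.1 w.2
        simp only at hvw
        rw [hvw] at h1
        exact Subtype.ext (h1.symm.trans h2)
    · rw [Finset.image_image]
      ext w
      simp only [Finset.mem_image, Finset.mem_attach, Function.comp_apply, true_and, Subtype.exists]
      constructor
      · rintro ⟨v, hv, h⟩
        rw [hc v hv] at h
        exact h ▸ hv
      · intro hw
        exact ⟨w, hw, hc w hw⟩
  · intro g hgm g' hgm' hgg
    have h1 : g ∈ e.pi (fun v => univ.filter (fun i => c i = v)) := by simpa using hgm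
    have h2 : g' ∈ e.pi (fun v => univ.filter (fun i => c i = v)) := by simpa using hgm'
    have hc := hg g h1
    have hc' := hg g' h2
    funext v hv
    have hm : g v hv ∈ e.attach.image (fun v => g v.1 v.2) :=
      Finset.mem_image.2 ⟨⟨v, hv⟩, Finset.mem_attach _ _, rfl⟩
    simp only at hgg
    rw [hgg] at hm
    obtain ⟨w, -, hw⟩ := Finset.mem_image.1 hm
    have h3 := hc' w.1 w.2
    rw [hw, hc v hv] at h3
    have : w = ⟨v, hv⟩ := Subtype.ext h3.symm
    subst this
    exact hw.symm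

private theorem b16_prod {V : Type} [DecidableEq V] (a b : V → ℝ) (N : ℝ) (hN : 0 ≤ N)
    (ha : ∀ v, 0 ≤ a v) (haN : ∀ v, a v ≤ N) (hb : ∀ v, 0 ≤ b v) (hab : ∀ v, a v - 1 ≤ b v)
    (e : Finset V) : ∏ v ∈ e, a v - (e.card : ℝ) * N ^ (e.card - 1) ≤ ∏ v ∈ e, b v := by
  classical
  induction e using Finset.induction_on with
  | empty => simp
  | @insert u s hu ih =>
    rw [Finset.prod_insert hu, Finset.prod_insert hu, Finset.card_insert_of_notMem hu]
    have hA0 : 0 ≤ ∏ v ∈ s, a v := Finset.prod_nonneg (fun v _ => ha v)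
    have hA1 : ∏ v ∈ s, a v ≤ N ^ s.card := by
      calc ∏ v ∈ s, a v ≤ ∏ _v ∈ s, N := Finset.prod_le_prod (fun v _ => ha v) (fun v _ => haN v)
        _ = N ^ s.card := by simp
    have hB0 : 0 ≤ ∏ v ∈ s, b v := Finset.prod_nonneg (fun v _ => hb v)
    set A := ∏ v ∈ s, a v
    set B := ∏ v ∈ s, b v
    have hm0 : 0 ≤ max (a u - 1) 0 := le_max_right _ _
    have hm1 : max (a u - 1) 0 ≤ b u := max_le (hab u) (hb u)
    have hm2 : max (a u - 1) 0 ≤ N := max_le (by linarith [haN u]) hN
    have hm3 : a u - 1 ≤ max (a u - 1) 0 := le_max_left _ _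
    set m := max (a u - 1) 0
    have hk : (0 : ℝ) ≤ (s.card : ℝ) * N ^ (s.card - 1) := by positivity
    have h1 : m * B ≤ b u * B := mul_le_mul_of_nonneg_right hm1 hB0
    have h2 : m * (A - (s.card : ℝ) * N ^ (s.card - 1)) ≤ m * B := mul_le_mul_of_nonneg_left ih hm0
    have h3 : (a u - 1) * A ≤ m * A := mul_le_mul_of_nonneg_right hm3 hA0
    have h4 : m * ((s.card : ℝ) * N ^ (s.card - 1)) ≤ N * ((s.card : ℝ) * N ^ (s.card - 1)) :=
      mul_le_mul_of_nonneg_right hm2 hk
    have h5 : N * ((s.card : ℝ) * N ^ (s.card - 1)) = (s.card : ℝ) * N ^ s.card := by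
      rcases Nat.eq_zero_or_pos s.card with h0 | h0
      · rw [h0]; simp
      · obtain ⟨k, hk⟩ := Nat.exists_eq_add_of_le h0
        have : s.card = k + 1 := by omega
        rw [this]; simp only [Nat.add_sub_cancel]; ring
    have h6 : (((s.card + 1 : ℕ) : ℝ)) * N ^ (s.card + 1 - 1) = (s.card : ℝ) * N ^ s.card + N ^ s.card := by
      rw [Nat.add_sub_cancel]; push_cast; ring
    rw [h6]
    nlinarith

theorem blowup_count {V : Type} [Fintype V] [DecidableEq V] {r : ℕ} (hr : 1 ≤ r) {P : Finset (Finset V)}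
    (hPu : Unif r P) {y : ℝ} {x : V → ℝ} (hx : x ∈ stdSimplex ℝ V) (hy : (r.factorial : ℝ) * lag P x = y) (ε : ℝ)
    (hε : 0 < ε) : ∃ n0 : ℕ, ∀ n : ℕ, n0 ≤ n → ∃ L : Finset (Finset (Fin n)), Unif r L ∧ HomTo L P ∧
      (y - ε) * ((n.choose r : ℕ) : ℝ) ≤ (L.card : ℝ) := by
  classical
  obtain ⟨n0, hn0⟩ := exists_nat_ge ((r.factorial : ℝ) * ((P.card : ℝ) * r) / ε)
  refine ⟨n0, fun n hn => ?_⟩
  obtain ⟨c, hc⟩ := exists_colouring hx n
  refine ⟨(powersetCard r univ).filter (fun e => e.image c ∈ P), ?_, ⟨c, ?_⟩, ?_⟩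
  · intro e he
    exact (Finset.mem_powersetCard.1 (Finset.mem_filter.1 he).1).2
  · intro e he
    exact (Finset.mem_filter.1 he).2
  · set L := (powersetCard r (univ : Finset (Fin n))).filter (fun e => e.image c ∈ P) with hL
    rcases le_or_gt (y - ε) 0 with hneg | hpos
    · exact le_trans (mul_nonpos_of_nonpos_of_nonneg hneg (Nat.cast_nonneg _)) (Nat.cast_nonneg _)
    · have hcard : L.card = ∑ e ∈ P, (L.filter (fun T => T.image c = e)).card :=
        Finset.card_eq_sum_card_fiberwise (fun T hT => (Finset.mem_filter.1 hT).2)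
      have hfib : ∀ e ∈ P, (∏ v ∈ e, (univ.filter (fun i => c i = v)).card) ≤
          (L.filter (fun T => T.image c = e)).card := by
        intro e he
        refine le_trans (b16_fiber c e (hPu e he)) (Finset.card_le_card ?_)
        intro T hT
        rw [Finset.mem_filter] at hT ⊢
        exact ⟨Finset.mem_filter.2 ⟨hT.1, by rw [hT.2]; exact he⟩, hT.2⟩
      have hxn : ∀ v, 0 ≤ x v := hx.1
      have hx1 : ∀ v, x v ≤ 1 := by
        intro v
        rw [← hx.2]
        exact Finset.single_le_sum (f := x) (fun v _ => hxn v) (Finset.mem_univ v)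
      have hNn : (0 : ℝ) ≤ (n : ℝ) := Nat.cast_nonneg _
      have hprod : ∀ e ∈ P, (n : ℝ) ^ r * ∏ v ∈ e, x v - (r : ℝ) * (n : ℝ) ^ (r - 1) ≤
          ((L.filter (fun T => T.image c = e)).card : ℝ) := by
        intro e he
        have h1 := b16_prod (fun v => x v * n) (fun v => ((univ.filter (fun i => c i = v)).card : ℝ)) n hNn
          (fun v => mul_nonneg (hxn v) hNn) (fun v => by
            have := mul_le_mul_of_nonneg_right (hx1 v) hNn
            simpa using this) (fun v => Nat.cast_nonneg _) hc e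
        rw [hPu e he, Finset.prod_mul_distrib, Finset.prod_const, hPu e he] at h1
        have h2 : (∏ v ∈ e, ((univ.filter (fun i => c i = v)).card : ℝ)) ≤
            ((L.filter (fun T => T.image c = e)).card : ℝ) := by
          exact_mod_cast hfib e he
        have h3 : (n : ℝ) ^ r * ∏ v ∈ e, x v = (∏ v ∈ e, x v) * (n : ℝ) ^ r := mul_comm _ _
        rw [h3]
        exact le_trans h1 h2
      have hsum : (n : ℝ) ^ r * lag P x - (P.card : ℝ) * ((r : ℝ) * (n : ℝ) ^ (r - 1)) ≤ (L.card : ℝ) := by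
        rw [hcard]
        push_cast
        refine le_trans (le_of_eq ?_) (Finset.sum_le_sum hprod)
        rw [Finset.sum_sub_distrib, ← Finset.mul_sum, Finset.sum_const, nsmul_eq_mul]
        rfl
      refine le_trans ?_ hsum
      have hch : ((n.choose r : ℕ) : ℝ) ≤ (n : ℝ) ^ r / (r.factorial : ℝ) := Nat.choose_le_pow_div r n
      have hf : (0 : ℝ) < (r.factorial : ℝ) := by exact_mod_cast Nat.factorial_pos r
      have h1 : (y - ε) * ((n.choose r : ℕ) : ℝ) ≤ (y - ε) * ((n : ℝ) ^ r / (r.factorial : ℝ)) :=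
        mul_le_mul_of_nonneg_left hch hpos.le
      refine le_trans h1 ?_
      have h2 : (n : ℝ) ^ r = (n : ℝ) ^ (r - 1) * n := by
        conv_lhs => rw [show r = (r - 1) + 1 by omega]
        rw [pow_succ]
      have h3 : (r.factorial : ℝ) * ((P.card : ℝ) * r) / ε ≤ n := le_trans hn0 (by exact_mod_cast hn)
      rw [div_le_iff₀ hε] at h3
      have h4 : (y - ε) * ((n : ℝ) ^ r / (r.factorial : ℝ)) =
          (n : ℝ) ^ r * lag P x - ε * (n : ℝ) ^ r / (r.factorial : ℝ) := by
        rw [← hy]; field_simp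
      rw [h4]
      have h5 : (P.card : ℝ) * ((r : ℝ) * (n : ℝ) ^ (r - 1)) ≤ ε * (n : ℝ) ^ r / (r.factorial : ℝ) := by
        rw [le_div_iff₀ hf, h2]
        have hp : (0 : ℝ) ≤ (n : ℝ) ^ (r - 1) := by positivity
        nlinarith [mul_le_mul_of_nonneg_left h3 hp]
      linarith

end CT
end

section

/-!
# Critical equations at an interior maximiser

Proof.  `w := Pi.single u 1 - Pi.single v 1`; `x + s w` is in the simplex for `|s|` small, so `s = 0` is a local maximum of
`s ↦ lag L (x + s w)`, whose derivative at `0` is `dlag L x u - dlag L x v` (`hasDerivAt_lag`).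
-/

set_option autoImplicit false

open Finset

namespace CT

theorem kkt {V : Type*} [Fintype V] [DecidableEq V] (L : Finset (Finset V)) {x : V → ℝ} (hx : x ∈ stdSimplex ℝ V)
    (hpos : ∀ v, 0 < x v) (hmax : ∀ x' ∈ stdSimplex ℝ V, lag L x' ≤ lag L x) (u v : V) :
    dlag L x u = dlag L x v := by
  by_cases huv : u = v
  · rw [huv]
  set w : V → ℝ := fun z => (if z = u then 1 else 0) - (if z = v then 1 else 0) with hw
  have hsumw : ∀ g : V → ℝ, ∑ z, w z * g z = g u - g v := by
    intro g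
    simp only [hw, sub_mul, sum_sub_distrib, ite_mul, one_mul, zero_mul, sum_ite_eq', mem_univ,
      if_true]
  have hder := hasDerivAt_lag L x w 0
  have hmaxl : IsLocalMax (fun s : ℝ => lag L (fun z => x z + s * w z)) 0 := by
    refine Metric.eventually_nhds_iff.2 ⟨min (x u) (x v), lt_min (hpos u) (hpos v), ?_⟩
    intro s hs
    rw [Real.dist_eq, sub_zero, lt_min_iff, abs_lt, abs_lt] at hs
    have h0 : (fun z => x z + 0 * w z) = x := by
      funext z
      ring
    show lag L (fun z => x z + s * w z) ≤ lag L (fun z => x z + 0 * w z)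
    rw [h0]
    apply hmax
    refine ⟨?_, ?_⟩
    · intro z
      simp only [hw]
      by_cases hzu : z = u
      · rw [if_pos hzu, if_neg (fun h => huv (hzu.symm.trans h)), hzu]
        linarith [hs.1.1]
      · by_cases hzv : z = v
        · rw [if_neg hzu, if_pos hzv, hzv]
          linarith [hs.2.2]
        · rw [if_neg hzu, if_neg hzv]
          linarith [hpos z]
    · have h1 := hsumw (fun _ => s)
      rw [sub_self] at h1
      have h2 : ∑ z, (x z + s * w z) = ∑ z, x z + ∑ z, w z * s := by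
        rw [← sum_add_distrib]
        exact sum_congr rfl fun z _ => by ring
      rw [h2, h1, add_zero]
      exact hx.2
  have hz := hmaxl.hasDerivAt_eq_zero hder
  have h0 : (fun z => x z + 0 * w z) = x := by
    funext z
    ring
  rw [h0, hsumw (dlag L x)] at hz
  linarith

end CT
end

section

/-!
# At a critical point all coordinates are at most `1 / card O`

Proof.  For `o ≠ v`: `esy (univ.erase v) (r-1) x = esy U (r-1) x + x o * esy U (r-2) x`, `U := (univ.erase v).erase o`, and the same with `o, v`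
exchanged, so by `dlag_sdiff` (`dlag Ms x o = 0` for `o ∈ O`) `(x o - x v) * esy U (r-2) x = dlag Ms x v ≥ 0`, and `esy U (r-2) x > 0` because
`card U ≥ r - 2`.  So `x v ≤ x o` for all `o ∈ O`; sum over `O`.
-/

set_option autoImplicit false

open Finset

namespace CT

private theorem esy_insert_aux {V : Type*} [DecidableEq V] {R : Type*} [CommRing R] (x : V → R) {a : V}
    {s : Finset V} (ha : a ∉ s) (k : ℕ) :
    esy (insert a s) (k + 1) x = esy s (k + 1) x + x a * esy s k x := by
  unfold esy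
  rw [Finset.powersetCard_succ_insert ha, Finset.sum_union, Finset.sum_image, Finset.mul_sum]
  · congr 1
    refine Finset.sum_congr rfl fun e he => ?_
    rw [Finset.mem_powersetCard] at he
    rw [Finset.prod_insert (fun h => ha (he.1 h))]
  · intro e he f hf hef
    rw [Finset.mem_coe, Finset.mem_powersetCard] at he hf
    have h1 : a ∉ e := fun h => ha (he.1 h)
    have h2 : a ∉ f := fun h => ha (hf.1 h)
    rw [← Finset.erase_insert h1, ← Finset.erase_insert h2]
    exact congrArg (fun q => q.erase a) hef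
  · rw [Finset.disjoint_left]
    intro e he he'
    rw [Finset.mem_powersetCard] at he
    rw [Finset.mem_image] at he'
    obtain ⟨f, -, rfl⟩ := he'
    exact ha (he.1 (Finset.mem_insert_self a f))

theorem esy_erase_sub {V : Type*} [Fintype V] [DecidableEq V] {R : Type*} [CommRing R] (x : V → R) {o v : V} (h : o ≠ v)
    (k : ℕ) : esy (univ.erase v) (k + 1) x - esy (univ.erase o) (k + 1) x =
      (x o - x v) * esy ((univ.erase v).erase o) k x := by
  have h1 : (univ.erase v : Finset V) = insert o ((univ.erase v).erase o) := by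
    rw [Finset.insert_erase]
    rw [Finset.mem_erase]
    exact ⟨h, Finset.mem_univ o⟩
  have h2 : (univ.erase o : Finset V) = insert v ((univ.erase v).erase o) := by
    rw [Finset.erase_right_comm, Finset.insert_erase]
    rw [Finset.mem_erase]
    exact ⟨h.symm, Finset.mem_univ v⟩
  have e1 := esy_insert_aux x (a := o) (s := (univ.erase v).erase o) (by simp) k
  have e2 := esy_insert_aux x (a := v) (s := (univ.erase v).erase o) (by simp) k
  rw [← h1] at e1
  rw [← h2] at e2
  rw [e1, e2]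
  ring

theorem le_of_crit {V : Type*} [Fintype V] [DecidableEq V] {r : ℕ} (hr : 2 ≤ r) (hV : r ≤ Fintype.card V)
    {Ms : Finset (Finset V)} (hMs : Unif r Ms) {x : V → ℝ} (hpos : ∀ v, 0 < x v) (hx1 : ∑ v, x v = 1)
    (hcrit : ∀ u v, dlag (powersetCard r univ \ Ms) x u = dlag (powersetCard r univ \ Ms) x v)
    {O : Finset V} (hO : ∀ o ∈ O, ∀ e ∈ Ms, o ∉ e) (hne : O.Nonempty) (v : V) : x v ≤ 1 / (O.card : ℝ) := by
  have key : ∀ o ∈ O, x v ≤ x o := by
    intro o ho
    by_cases hov : o = v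
    · rw [hov]
    have hzero : dlag Ms x o = 0 := by
      unfold dlag
      rw [Finset.filter_eq_empty_iff.mpr (fun e he => hO o ho e he)]
      simp
    have hnn : 0 ≤ dlag Ms x v := by
      unfold dlag
      exact Finset.sum_nonneg fun e _ => Finset.prod_nonneg fun u _ => (hpos u).le
    have hc := hcrit v o
    rw [dlag_sdiff (by omega) hMs, dlag_sdiff (by omega) hMs, hzero] at hc
    have hsub := esy_erase_sub x hov (r - 2)
    have hr2 : r - 2 + 1 = r - 1 := by omega
    rw [hr2] at hsub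
    have hE : 0 < esy ((univ.erase v).erase o) (r - 2) x := by
      unfold esy
      apply Finset.sum_pos
      · intro e _
        exact Finset.prod_pos fun u _ => hpos u
      · rw [Finset.powersetCard_nonempty]
        rw [Finset.card_erase_of_mem (by rw [Finset.mem_erase]; exact ⟨hov, Finset.mem_univ o⟩),
          Finset.card_erase_of_mem (Finset.mem_univ v), Finset.card_univ]
        omega
    have hprod : 0 ≤ (x o - x v) * esy ((univ.erase v).erase o) (r - 2) x := by
      rw [← hsub]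
      linarith
    by_contra hlt
    push Not at hlt
    have : (x o - x v) * esy ((univ.erase v).erase o) (r - 2) x < 0 :=
      mul_neg_of_neg_of_pos (by linarith) hE
    linarith
  have hcard : (0 : ℝ) < (O.card : ℝ) := by
    exact_mod_cast Finset.card_pos.mpr hne
  rw [le_div_iff₀ hcard]
  calc x v * (O.card : ℝ) = ∑ _o ∈ O, x v := by
        rw [Finset.sum_const, nsmul_eq_mul]
        ring
    _ ≤ ∑ o ∈ O, x o := Finset.sum_le_sum key
    _ ≤ ∑ o, x o := Finset.sum_le_sum_of_subset_of_nonneg (Finset.subset_univ O)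
        (fun u _ _ => (hpos u).le)
    _ = 1 := hx1

end CT
end

section

/-!
# A critical point in the region of concavity is a maximum there

Proof.  `w := x' - x`, `g s := lag L (x + s w)` on `[0,1]`; `g' s = ∑ w v * dlag L (..) v` with `g' 0 = dlag L x v0 * ∑ w = 0`, `g'' s = d2lag L (..) w ≤ 0`
because the segment stays in the region (if `w = 0` trivial).  So `g'` is antitone, `g' ≤ 0`, `g 1 ≤ g 0`.
-/

set_option autoImplicit false

open Finset

namespace CT

theorem max_of_crit {V : Type*} [Fintype V] [DecidableEq V] (L : Finset (Finset V)) {μ : ℝ} {x x' : V → ℝ}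
    (hneg : ∀ z ∈ stdSimplex ℝ V, (∀ v, z v ≤ μ) → ∀ w : V → ℝ, ∑ v, w v = 0 → w ≠ 0 → d2lag L z w < 0)
    (hx : x ∈ stdSimplex ℝ V) (hxμ : ∀ v, x v ≤ μ) (hx' : x' ∈ stdSimplex ℝ V) (hx'μ : ∀ v, x' v ≤ μ)
    (hcrit : ∀ u v, dlag L x u = dlag L x v) : lag L x' ≤ lag L x := by
  classical
  obtain ⟨w, hw⟩ : ∃ w : V → ℝ, w = fun v => x' v - x v := ⟨_, rfl⟩
  have hwv : ∀ v, w v = x' v - x v := fun v => by rw [hw]
  by_cases hw0 : w = 0
  · have : x' = x := by
      funext v
      have := congrFun hw0 v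
      rw [hwv v] at this
      simp only [Pi.zero_apply] at this
      linarith
    rw [this]
  have hsum : ∑ v, w v = 0 := by
    simp only [hwv, Finset.sum_sub_distrib, hx.2, hx'.2, sub_self]
  have hmem : ∀ s : ℝ, 0 ≤ s → s ≤ 1 → (fun v => x v + s * w v) ∈ stdSimplex ℝ V ∧
      ∀ v, x v + s * w v ≤ μ := by
    intro s hs0 hs1
    have hcomb : ∀ v, x v + s * w v = (1 - s) * x v + s * x' v := by
      intro v; rw [hwv v]; ring
    refine ⟨⟨fun v => ?_, ?_⟩, fun v => ?_⟩
    · simp only [hcomb v]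
      have h1 := hx.1 v
      have h2 := hx'.1 v
      have : 0 ≤ 1 - s := by linarith
      positivity
    · rw [Finset.sum_add_distrib, ← Finset.mul_sum, hsum, hx.2]; ring
    · rw [hcomb v]
      have h1 := hxμ v
      have h2 := hx'μ v
      nlinarith
  have hg := hasDerivAt_lag L x w
  have hh := hasDerivAt_dlag L x w
  set g : ℝ → ℝ := fun s : ℝ => lag L (fun v => x v + s * w v) with hgdef
  set h : ℝ → ℝ := fun s : ℝ => ∑ v, w v * dlag L (fun v => x v + s * w v) v with hhdef
  have hanti : AntitoneOn h (Set.Icc 0 1) := by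
    apply antitoneOn_of_deriv_nonpos (convex_Icc 0 1)
    · exact fun s _ => (hh s).continuousAt.continuousWithinAt
    · exact fun s _ => (hh s).differentiableAt.differentiableWithinAt
    · intro s hs
      rw [interior_Icc] at hs
      rw [(hh s).deriv]
      obtain ⟨h1, h2⟩ := hmem s hs.1.le hs.2.le
      exact (hneg _ h1 h2 w hsum hw0).le
  have hh0 : h 0 = 0 := by
    have e1 : (fun v => x v + (0 : ℝ) * w v) = x := by funext v; ring
    show ∑ v, w v * dlag L (fun v => x v + (0 : ℝ) * w v) v = 0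
    rw [e1]
    rcases isEmpty_or_nonempty V with hV | hV
    · simp
    · obtain ⟨v0⟩ := hV
      have : ∀ v, w v * dlag L x v = w v * dlag L x v0 := fun v => by rw [hcrit v v0]
      rw [Finset.sum_congr rfl (fun v _ => this v), ← Finset.sum_mul, hsum, zero_mul]
  have hganti : AntitoneOn g (Set.Icc 0 1) := by
    apply antitoneOn_of_deriv_nonpos (convex_Icc 0 1)
    · exact fun s _ => (hg s).continuousAt.continuousWithinAt
    · exact fun s _ => (hg s).differentiableAt.differentiableWithinAt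
    · intro s hs
      rw [interior_Icc] at hs
      rw [(hg s).deriv]
      have := hanti (Set.mem_Icc.mpr ⟨le_refl _, zero_le_one⟩) (Set.mem_Icc.mpr ⟨hs.1.le, hs.2.le⟩) hs.1.le
      rw [hh0] at this
      exact this
  have hfin := hganti (Set.mem_Icc.mpr ⟨le_refl _, zero_le_one⟩) (Set.mem_Icc.mpr ⟨zero_le_one, le_refl _⟩) zero_le_one
  have e0 : g 0 = lag L x := by
    show lag L (fun v => x v + (0 : ℝ) * w v) = lag L x
    congr 1; funext v; ring
  have e1 : g 1 = lag L x' := by
    show lag L (fun v => x v + (1 : ℝ) * w v) = lag L x'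
    congr 1; funext v; rw [hwv v]; ring
  rw [e0, e1] at hfin
  exact hfin

end CT
end

section

/-!
# Nondegenerate critical points are algebraic

Proof.  Let `D` be a derivation of `ℝ` over `ℚ`, `w := fun v => D (x v)`.  `∑ w = D 1 = 0`.  `D (dlag L x v) = ∑_{e ∋ v} ∑_{u ∈ e.erase v} w u * ∏ ..` (Leibniz
rule for products), the same number `δ` for all `v`.  So `d2lag L x w = ∑ v, w v * D (dlag L x v) = δ ∑ w = 0`, hence `w = 0`.  By
`exists_derivation` no `x v` is transcendental.
-/

set_option autoImplicit false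

open Finset

namespace CT

private lemma c13_leibniz {V : Type*} [DecidableEq V] (D : Derivation ℚ ℝ ℝ) (x : V → ℝ) (s : Finset V) :
    D (∏ u ∈ s, x u) = ∑ v ∈ s, D (x v) * ∏ z ∈ s.erase v, x z := by
  induction s using Finset.induction_on with
  | empty => simp
  | insert a s ha ih =>
    rw [Finset.prod_insert ha, Derivation.leibniz, ih, Finset.sum_insert ha, Finset.erase_insert ha,
      smul_eq_mul, smul_eq_mul, Finset.mul_sum]
    have : ∑ v ∈ s, D (x v) * ∏ z ∈ (insert a s).erase v, x z =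
        ∑ v ∈ s, x a * (D (x v) * ∏ z ∈ s.erase v, x z) := by
      refine Finset.sum_congr rfl fun v hv => ?_
      have hva : a ≠ v := fun h => ha (h ▸ hv)
      rw [Finset.erase_insert_of_ne hva, Finset.prod_insert (fun h => ha (Finset.mem_of_mem_erase h))]
      ring
    rw [this]; ring

theorem alg_of_nondeg {V : Type*} [Fintype V] [DecidableEq V] (L : Finset (Finset V)) {x : V → ℝ}
    (hx1 : ∑ v, x v = 1) (hcrit : ∀ u v, dlag L x u = dlag L x v)
    (hneg : ∀ w : V → ℝ, ∑ v, w v = 0 → w ≠ 0 → d2lag L x w < 0) (v : V) : IsAlgebraic ℚ (x v) := by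
  by_contra hx
  obtain ⟨D, hD⟩ := exists_derivation hx
  have hw0 : ∑ u, D (x u) = 0 := by
    rw [← map_sum, hx1, Derivation.map_one_eq_zero]
  have hwne : (fun u => D (x u)) ≠ 0 := fun h => hD (congrFun h v)
  have hlt := hneg (fun u => D (x u)) hw0 hwne
  have hkey : d2lag L x (fun u => D (x u)) = ∑ u, D (x u) * D (dlag L x u) := by
    have h1 : ∀ u, D (dlag L x u) = ∑ e ∈ L.filter (fun e => u ∈ e), ∑ v ∈ e.erase u,
        D (x v) * ∏ z ∈ (e.erase u).erase v, x z := by
      intro u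
      unfold dlag
      rw [map_sum]
      exact Finset.sum_congr rfl fun e _ => c13_leibniz D x (e.erase u)
    unfold d2lag
    have h2 : ∑ u, D (x u) * D (dlag L x u) = ∑ u, ∑ e ∈ L, if u ∈ e then
        ∑ v ∈ e.erase u, D (x u) * D (x v) * ∏ z ∈ (e.erase u).erase v, x z else 0 := by
      refine Finset.sum_congr rfl fun u _ => ?_
      rw [h1 u, Finset.mul_sum, Finset.sum_filter]
      refine Finset.sum_congr rfl fun e _ => ?_
      by_cases hu : u ∈ e
      · simp only [hu, if_true]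
        rw [Finset.mul_sum]
        exact Finset.sum_congr rfl fun v _ => by ring
      · simp [hu]
    rw [h2, Finset.sum_comm]
    refine Finset.sum_congr rfl fun e _ => ?_
    rw [← Finset.sum_filter]
    refine Finset.sum_congr ?_ fun _ _ => rfl
    ext u; simp
  have hzero : ∑ u, D (x u) * D (dlag L x u) = 0 := by
    have : ∀ u, D (x u) * D (dlag L x u) = D (x u) * D (dlag L x v) := fun u => by rw [hcrit u v]
    rw [Finset.sum_congr rfl fun u _ => this u, ← Finset.sum_mul, hw0, zero_mul]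
  rw [hkey, hzero] at hlt
  exact lt_irrefl _ hlt

end CT
end

section

/-!
# If NN X is large then NN (NN X) is everything

Proof.  Let `z : V`.  Choose `S' ⊆ (NN r H X).erase z` with `r - 1` elements, `S := insert z S'` has `r` elements, so
`card (nb H S) ≥ c`; as `card V < card (NN r H X) + c` there is `u ∈ nb H S ∩ NN r H X`.  `T := insert u S'` has `r` elements,
`T ⊆ NN r H X`, `z ∉ T`, `insert z T = insert u S ∈ H`.  The last statement is similar (or the same with `X` replaced by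
`univ`).
-/

set_option autoImplicit false

open Finset

namespace CT

private theorem NN_eq_univ_aux {V : Type*} [Fintype V] [DecidableEq V] {r : ℕ} (hr : 1 ≤ r)
    {H : Finset (Finset V)} {c : ℝ} (hc : MinCo r H c) {N : Finset V}
    (h1 : (Fintype.card V : ℝ) < (N.card : ℝ) + c) (h2 : r ≤ N.card) : NN r H N = univ := by
  rw [eq_univ_iff_forall]
  intro z
  have hcard : r - 1 ≤ (N.erase z).card := by
    have := pred_card_le_card_erase (s := N) (a := z)
    omega
  obtain ⟨S', hS', hS'c⟩ := exists_subset_card_eq hcard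
  have hz : z ∉ S' := fun h => notMem_erase z N (hS' h)
  have hSc : (insert z S').card = r := by
    rw [card_insert_of_notMem hz, hS'c]; omega
  have hnb := hc _ hSc
  have hlt : Fintype.card V < N.card + (nb H (insert z S')).card := by
    have : (Fintype.card V : ℝ) < (N.card : ℝ) + ((nb H (insert z S')).card : ℝ) := by linarith
    exact_mod_cast this
  have hint : (N ∩ nb H (insert z S')).Nonempty := by
    rw [← card_pos]
    have h3 := card_union_add_card_inter N (nb H (insert z S'))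
    have h4 : (N ∪ nb H (insert z S')).card ≤ Fintype.card V := card_le_univ _
    omega
  obtain ⟨u, hu⟩ := hint
  rw [mem_inter] at hu
  obtain ⟨huN, hu2⟩ := hu
  simp only [nb, mem_filter, mem_univ, true_and] at hu2
  obtain ⟨hu3, hu4⟩ := hu2
  rw [mem_insert, not_or] at hu3
  unfold NN
  rw [mem_biUnion]
  refine ⟨insert u S', ?_, ?_⟩
  · rw [mem_powersetCard]
    refine ⟨?_, ?_⟩
    · intro w hw
      rcases mem_insert.mp hw with h | h
      · rw [h]; exact huN
      · exact mem_of_mem_erase (hS' h)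
    · rw [card_insert_of_notMem hu3.2, hS'c]; omega
  · simp only [nb, mem_filter, mem_univ, true_and]
    refine ⟨?_, ?_⟩
    · rw [mem_insert, not_or]
      exact ⟨fun h => hu3.1 h.symm, hz⟩
    · rw [insert_comm]; exact hu4

theorem NN_NN_eq_univ {V : Type*} [Fintype V] [DecidableEq V] {r : ℕ} (hr : 1 ≤ r) {H : Finset (Finset V)} {c : ℝ}
    (hc : MinCo r H c) {X : Finset V} (h1 : (Fintype.card V : ℝ) < ((NN r H X).card : ℝ) + c)
    (h2 : r ≤ (NN r H X).card) : NN r H (NN r H X) = univ :=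
  NN_eq_univ_aux hr hc h1 h2

theorem NN_univ {V : Type*} [Fintype V] [DecidableEq V] {r : ℕ} (hr : 1 ≤ r) {H : Finset (Finset V)} {c : ℝ}
    (hc : MinCo r H c) (h0 : 0 < c) (hV : r ≤ Fintype.card V) : NN r H univ = univ := by
  apply NN_eq_univ_aux hr hc
  · rw [card_univ]; linarith
  · rw [card_univ]; exact hV

end CT
end

section

/-!
# The uniform point and points with a zero coordinate

Proof.  `lag_sdiff`.  Uniform point: every `r`-set contributes `1/m^r`.  Zero coordinate `x v0 = 0`: `lag Ms x ≥ 0`,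
`esy univ r x = esy (univ.erase v0) r x ≤ choose (m-1) r / (m-1)^r` by `esy_le`.
-/

set_option autoImplicit false

open Finset

namespace CT

theorem lag_uniform {V : Type*} [Fintype V] [DecidableEq V] {r : ℕ} {Ms : Finset (Finset V)} (h : Unif r Ms) :
    lag (powersetCard r univ \ Ms) (fun _ : V => 1 / (Fintype.card V : ℝ)) =
      ((((Fintype.card V).choose r : ℕ) : ℝ) - Ms.card) / (Fintype.card V : ℝ) ^ r := by
  rw [lag_sdiff h]
  have h1 : esy (univ : Finset V) r (fun _ : V => 1 / (Fintype.card V : ℝ)) =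
      (((Fintype.card V).choose r : ℕ) : ℝ) * (1 / (Fintype.card V : ℝ)) ^ r := by
    unfold esy
    rw [Finset.sum_congr rfl (g := fun _ => (1 / (Fintype.card V : ℝ)) ^ r), Finset.sum_const,
      card_powersetCard, card_univ, nsmul_eq_mul]
    intro e he
    rw [Finset.prod_const, (mem_powersetCard.1 he).2]
  have h2 : lag Ms (fun _ : V => 1 / (Fintype.card V : ℝ)) =
      (Ms.card : ℝ) * (1 / (Fintype.card V : ℝ)) ^ r := by
    unfold lag
    rw [Finset.sum_congr rfl (g := fun _ => (1 / (Fintype.card V : ℝ)) ^ r), Finset.sum_const,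
      nsmul_eq_mul]
    intro e he
    rw [Finset.prod_const, h e he]
  rw [h1, h2, ← sub_mul, one_div_pow, mul_one_div]

theorem lag_zero_coord {V : Type*} [Fintype V] [DecidableEq V] {r : ℕ} {Ms : Finset (Finset V)} (hr : 1 ≤ r)
    (h : Unif r Ms) {x : V → ℝ} (hx : x ∈ stdSimplex ℝ V) {v0 : V} (hv : x v0 = 0) :
    lag (powersetCard r univ \ Ms) x ≤
      (((Fintype.card V - 1).choose r : ℕ) : ℝ) / ((Fintype.card V - 1 : ℕ) : ℝ) ^ r := by
  obtain ⟨hx0, hx1⟩ := hx
  rw [lag_sdiff h]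
  have h1 : 0 ≤ lag Ms x := by
    unfold lag
    exact Finset.sum_nonneg fun e _ => Finset.prod_nonneg fun v _ => hx0 v
  have h2 : esy (univ : Finset V) r x = esy (univ.erase v0) r x := by
    unfold esy
    symm
    apply Finset.sum_subset (powersetCard_mono (erase_subset _ _))
    intro e he he2
    have hv0 : v0 ∈ e := by
      by_contra hc
      apply he2
      rw [mem_powersetCard]
      refine ⟨?_, (mem_powersetCard.1 he).2⟩
      intro v hve
      rw [mem_erase]
      exact ⟨fun h3 => hc (h3 ▸ hve), mem_univ _⟩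
    exact Finset.prod_eq_zero hv0 hv
  have h3 := esy_le (univ.erase v0) x (fun v _ => hx0 v) r
  have h4 : (univ.erase v0 : Finset V).card = Fintype.card V - 1 := by
    rw [card_erase_of_mem (mem_univ _), card_univ]
  have h5 : ∑ v ∈ univ.erase v0, x v = 1 := by
    have h6 := Finset.add_sum_erase univ x (mem_univ v0)
    rw [hv, zero_add, hx1] at h6
    exact h6
  rw [h4, h5, one_div_pow, mul_one_div] at h3
  rw [h2]
  linarith

end CT
end

section

/-!
# Thin sets expand

Proof.  For every `b` let `L b := (powersetCard r X).filter (fun T => b ∉ T ∧ insert b T ∈ H)`.  Since `X` is not rich,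
`up_on` applies to `L b` (a hom `ψ : G → L b` with values in `X` gives `insert b (e.image ψ) ∈ H`), so
`r! card (L b) ≤ y card X ^ r`.  `∑ b, card (L b) = ∑ T ∈ powersetCard r X, card (nb H T) ≥ choose (card X) r * c`, and
`L b` is empty for `b ∉ NN r H X`.
-/

set_option autoImplicit false

open Finset

namespace CT

theorem thin_bound {W : Type} [DecidableEq W] {r : ℕ} {y : ℝ} {G : Finset (Finset W)} (hG : Good r y G)
    {V : Type} [Fintype V] [DecidableEq V] {H : Finset (Finset V)} {c : ℝ}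
    (hc : MinCo r H c) {X : Finset V} (hX : ¬ Rich G H X) :
    ((X.card.choose r : ℕ) : ℝ) * c * (r.factorial : ℝ) ≤ ((NN r H X).card : ℝ) * (y * (X.card : ℝ) ^ r) := by
  set L : V → Finset (Finset V) :=
    fun b => (powersetCard r X).filter (fun T => b ∉ T ∧ insert b T ∈ H) with hLdef
  have h1 : ∀ b, (r.factorial : ℝ) * ((L b).card : ℝ) ≤ y * (X.card : ℝ) ^ r := by
    intro b
    apply up_on hG X (L b)
    · intro e he
      exact (mem_powersetCard.1 (mem_filter.1 he).1).2
    · intro e he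
      exact (mem_powersetCard.1 (mem_filter.1 he).1).1
    · rintro ⟨ψ, hψ, hh⟩
      exact hX ⟨b, ψ, hψ, fun e he => (mem_filter.1 (hh e he)).2.2⟩
  have h2 : ∑ T ∈ powersetCard r X, ((nb H T).card : ℝ) = ∑ b ∈ NN r H X, ((L b).card : ℝ) := by
    have e1 : ∑ T ∈ powersetCard r X, (nb H T).card = ∑ b : V, (L b).card := by
      simp only [nb, hLdef, card_filter]
      rw [sum_comm]
    have e2 : ∑ b : V, (L b).card = ∑ b ∈ NN r H X, (L b).card := by
      symm
      apply sum_subset (subset_univ _)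
      intro b _ hb
      rw [card_eq_zero, filter_eq_empty_iff]
      rintro T hT ⟨h4, h5⟩
      exact hb (mem_NN.2 ⟨T, (mem_powersetCard.1 hT).1, (mem_powersetCard.1 hT).2, h4, h5⟩)
    exact_mod_cast e1.trans e2
  have h3 : ((X.card.choose r : ℕ) : ℝ) * c ≤ ∑ T ∈ powersetCard r X, ((nb H T).card : ℝ) := by
    rw [← card_powersetCard, ← nsmul_eq_mul]
    exact card_nsmul_le_sum _ _ _ (fun T hT => hc T (mem_powersetCard.1 hT).2)
  have hf : (0 : ℝ) ≤ (r.factorial : ℝ) := Nat.cast_nonneg _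
  calc ((X.card.choose r : ℕ) : ℝ) * c * (r.factorial : ℝ)
      ≤ (∑ b ∈ NN r H X, ((L b).card : ℝ)) * (r.factorial : ℝ) := by
        rw [← h2]
        exact mul_le_mul_of_nonneg_right h3 hf
    _ = ∑ b ∈ NN r H X, (r.factorial : ℝ) * ((L b).card : ℝ) := by
        rw [Finset.sum_mul]
        exact Finset.sum_congr rfl fun b _ => mul_comm _ _
    _ ≤ ∑ b ∈ NN r H X, y * (X.card : ℝ) ^ r := Finset.sum_le_sum fun b _ => h1 b
    _ = ((NN r H X).card : ℝ) * (y * (X.card : ℝ) ^ r) := by
        rw [Finset.sum_const, nsmul_eq_mul]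

end CT
end

section

/-!
# The Lagrangian number is at most one

Proof.  `lag P x ≤ esy univ r x` (`x ≥ 0`, `P ⊆ powersetCard r univ`) `≤ choose m r / m^r ≤ 1/r!` (`esy_le`).
-/

set_option autoImplicit false

open Finset

namespace CT

theorem LAM_le_one {V : Type*} [Fintype V] [DecidableEq V] {r : ℕ} {P : Finset (Finset V)} (hP : Unif r P) {y : ℝ}
    (h : IsLAM r P y) : y ≤ 1 := by
  obtain ⟨x, hx, hxy⟩ := h.2
  have hx0 : ∀ v, 0 ≤ x v := hx.1
  have hsub : P ⊆ powersetCard r univ := fun e he =>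
    Finset.mem_powersetCard.2 ⟨Finset.subset_univ _, hP e he⟩
  have h1 : lag P x ≤ esy univ r x := by
    unfold lag esy
    exact Finset.sum_le_sum_of_subset_of_nonneg hsub (fun e _ _ => Finset.prod_nonneg (fun v _ => hx0 v))
  have hf : (0 : ℝ) < (r.factorial : ℝ) := by exact_mod_cast Nat.factorial_pos r
  have hne : Nonempty V := by
    by_contra hV
    rw [not_nonempty_iff] at hV
    have := hx.2
    simp at this
  have hm : (0 : ℝ) < (Fintype.card V : ℝ) := by exact_mod_cast Fintype.card_pos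
  have h2 : (r.factorial : ℝ) * esy univ r x ≤ 1 := by
    have h3 := esy_le (s := (univ : Finset V)) (x := x) (k := r) (fun v _ => hx0 v)
    rw [hx.2, Finset.card_univ] at h3
    have h4 : (((Fintype.card V).choose r : ℕ) : ℝ) ≤ (Fintype.card V : ℝ) ^ r / (r.factorial : ℝ) :=
      Nat.choose_le_pow_div r _
    have h5 : (0 : ℝ) ≤ (1 / (Fintype.card V : ℝ)) ^ r := by positivity
    calc (r.factorial : ℝ) * esy univ r x
        ≤ (r.factorial : ℝ) * ((((Fintype.card V).choose r : ℕ) : ℝ) * (1 / (Fintype.card V : ℝ)) ^ r) :=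
          mul_le_mul_of_nonneg_left h3 hf.le
      _ ≤ (r.factorial : ℝ) * ((Fintype.card V : ℝ) ^ r / (r.factorial : ℝ) * (1 / (Fintype.card V : ℝ)) ^ r) :=
          mul_le_mul_of_nonneg_left (mul_le_mul_of_nonneg_right h4 h5) hf.le
      _ = 1 := by
          rw [one_div, inv_pow]
          field_simp
  calc y = (r.factorial : ℝ) * lag P x := hxy.symm
    _ ≤ (r.factorial : ℝ) * esy univ r x := mul_le_mul_of_nonneg_left h1 hf.le
    _ ≤ 1 := h2

end CT
end
end
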