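import Pool.Agent.Lib.MP_63f67f_co.Defs
import Pool.Agent.Lib.MP_63f67f_co.DDefs
import Pool.Agent.Lib.MP_63f67f_co.B08
import Pool.Agent.Lib.MP_63f67f_co.A20

section

section

/-!
# Elementary symmetric polynomials: unions, constants, shift

Proof.  `esy_union`: a `k`-subset of the disjoint union is a pair of subsets.  `esy_const`: `card_powersetCard`.  `esy_shift`: expand
`∏_{v∈e} (b - y v) = ∑_{T ⊆ e} b^(k - card T) (-1)^(card T) ∏_T y` and count the `k`-sets `e` with `T ⊆ e ⊆ s`: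
`choose (card s - card T) (k - card T)`.
-/

set_option autoImplicit false

open Finset

namespace CT

section
variable {V : Type*} [DecidableEq V] {R : Type*} [CommRing R]

omit [DecidableEq V] in
private theorem d02_coeff (s : Finset V) (k : ℕ) (x : V → R) :
    (∏ v ∈ s, (1 + Polynomial.C (x v) * Polynomial.X)).coeff k = esy s k x := by
  classical
  rw [Finset.prod_one_add, Polynomial.finset_sum_coeff]
  unfold esy
  rw [Finset.powersetCard_eq_filter, Finset.sum_filter]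
  refine Finset.sum_congr rfl (fun t _ => ?_)
  rw [Finset.prod_mul_distrib, Finset.prod_const, ← map_prod, Polynomial.coeff_C_mul,
    Polynomial.coeff_X_pow]
  by_cases h : k = t.card
  · rw [if_pos h, if_pos h.symm, mul_one]
  · rw [if_neg h, if_neg (fun h' => h h'.symm), mul_zero]

theorem esy_union {s t : Finset V} (h : Disjoint s t) (k : ℕ) (x : V → R) :
    esy (s ∪ t) k x = ∑ j ∈ range (k + 1), esy s j x * esy t (k - j) x := by
  rw [← d02_coeff, Finset.prod_union h, Polynomial.coeff_mul,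
    Finset.Nat.sum_antidiagonal_eq_sum_range_succ_mk]
  refine Finset.sum_congr rfl (fun j _ => ?_)
  rw [d02_coeff, d02_coeff]

theorem esy_const {s : Finset V} {c : R} {x : V → R} (h : ∀ v ∈ s, x v = c) (k : ℕ) :
    esy s k x = ((s.card.choose k : ℕ) : R) * c ^ k := by
  unfold esy
  rw [← Finset.card_powersetCard, ← nsmul_eq_mul, ← Finset.sum_const]
  refine Finset.sum_congr rfl (fun e he => ?_)
  rw [Finset.mem_powersetCard] at he
  rw [Finset.prod_congr rfl (fun v hv => h v (he.1 hv)), Finset.prod_const, he.2]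

theorem esy_zero_right (s : Finset V) (x : V → R) : esy s 0 x = 1 := by
  simp [esy]

theorem esy_shift (s : Finset V) (k : ℕ) (hk : k ≤ s.card) (b : R) (y : V → R) :
    esy s k (fun v => b - y v) =
      ∑ j ∈ range (k + 1), (((s.card - j).choose (k - j) : ℕ) : R) * b ^ (k - j) * (-1) ^ j * esy s j y := by
  have h1 : ∀ e ∈ powersetCard k s, ∏ v ∈ e, (b - y v) =
      ∑ j ∈ range (k + 1), ∑ t ∈ powersetCard j e, b ^ (k - j) * (-1) ^ j * ∏ v ∈ t, y v := by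
    intro e he
    rw [Finset.mem_powersetCard] at he
    have h2 : ∏ v ∈ e, (b - y v) = ∏ v ∈ e, (-(y v) + b) :=
      Finset.prod_congr rfl (fun v _ => by ring)
    rw [h2, Finset.prod_add, Finset.sum_powerset, he.2]
    refine Finset.sum_congr rfl (fun j _ => Finset.sum_congr rfl (fun t ht => ?_))
    rw [Finset.mem_powersetCard] at ht
    rw [Finset.prod_neg, Finset.prod_const, Finset.card_sdiff_of_subset ht.1, he.2, ht.2]
    ring
  unfold esy
  rw [Finset.sum_congr rfl h1, Finset.sum_comm]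
  refine Finset.sum_congr rfl (fun j hj => ?_)
  have hjk : j ≤ k := Nat.lt_succ_iff.mp (Finset.mem_range.mp hj)
  rw [Finset.sum_comm' (t' := powersetCard j s)
    (s' := fun t => (powersetCard k s).filter (fun e => t ⊆ e))]
  · rw [Finset.mul_sum]
    refine Finset.sum_congr rfl (fun t ht => ?_)
    rw [Finset.mem_powersetCard] at ht
    rw [Finset.sum_const, Finset.card_filter_powersetCard_subset t s k ht.1 (by omega), ht.2,
      nsmul_eq_mul]
    ring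
  · intro e t
    simp only [Finset.mem_powersetCard, Finset.mem_filter]
    constructor
    · rintro ⟨⟨h1, h2⟩, h3, h4⟩
      exact ⟨⟨⟨h1, h2⟩, h3⟩, h3.trans h1, h4⟩
    · rintro ⟨⟨⟨h1, h2⟩, h3⟩, _, h4⟩
      exact ⟨⟨h1, h2⟩, h3, h4⟩
end

theorem norm_esy_le {V : Type*} [DecidableEq V] {Ω : Type*} [NormedField Ω] [IsUltrametricDist Ω] {s : Finset V}
    {y : V → Ω} {R : ℝ} (hR : 0 ≤ R) (h : ∀ v ∈ s, ‖y v‖ ≤ R) (k : ℕ) : ‖esy s k y‖ ≤ R ^ k := by
  unfold esy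
  refine IsUltrametricDist.norm_sum_le_of_forall_le_of_nonneg (pow_nonneg hR k) (fun e he => ?_)
  rw [Finset.mem_powersetCard] at he
  rw [norm_prod, ← he.2, ← Finset.prod_const]
  exact Finset.prod_le_prod (fun v _ => norm_nonneg _) (fun v hv => h v (he.1 hv))

end CT
end

section

/-!
# Symmetric polynomials of class-constant functions vanishing on `O`

Proof.  `N i = p^(sx i)` with `sx i ≥ s0`, `y := cc 0 z`, `y = 0` on the left part.  For a set `I` of classes let `T_I` be the union of the classes in `I`;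
by `esy_union`, `esy_const`: `esy T_{I ∪ {i}} k y = ∑_j choose (N i) j * z i^j * esy T_I (k-j) y` for `i ∉ I`; by induction on `I` and
`norm_choose_pow`: `‖esy T_I k y‖ ≤ π^s0 R^k` for `1 ≤ k ≤ r` and `‖esy T_I r y - ∑_{i∈I} choose (N i) r z i^r‖ ≤ π^(2 s0) R^r` (`π = 1/p`).  The part `O`
contributes only `j = 0` (all values `0`).  `esy_cc_inr`: remove one vertex from the class `i`: `univ.erase (inr u)` is the disjoint union of `O`, the class minus
`u` (`N i - 1` vertices) and the union of the other classes; main term `choose (N i - 1) (r-1) z i^(r-1)` (`choose_pred`).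
-/

set_option autoImplicit false

open Finset

namespace CT

private theorem d04_rec {V : Type*} [DecidableEq V] {R : Type*} [CommRing R] {s : Finset V} {v : V}
    (hv : v ∈ s) (k : ℕ) (x : V → R) :
    esy s (k + 1) x = esy (s.erase v) (k + 1) x + x v * esy (s.erase v) k x := by
  have hn : v ∉ s.erase v := Finset.notMem_erase v s
  conv_lhs => rw [← Finset.insert_erase hv]
  unfold esy
  rw [Finset.powersetCard_succ_insert hn, Finset.sum_union]
  · congr 1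
    rw [Finset.sum_image, Finset.mul_sum]
    · refine Finset.sum_congr rfl fun e he => ?_
      rw [Finset.mem_powersetCard] at he
      rw [Finset.prod_insert (fun h => hn (he.1 h))]
    · intro e he e' he' hee
      have he2 : v ∉ e := fun h => hn ((Finset.mem_powersetCard.1 he).1 h)
      have he2' : v ∉ e' := fun h => hn ((Finset.mem_powersetCard.1 he').1 h)
      rw [← Finset.erase_insert he2, ← Finset.erase_insert he2']
      exact congrArg (fun t => t.erase v) hee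
  · rw [Finset.disjoint_left]
    intro e he he'
    rw [Finset.mem_powersetCard] at he
    rw [Finset.mem_image] at he'
    obtain ⟨e', _, rfl⟩ := he'
    exact hn (he.1 (Finset.mem_insert_self _ _))

section
variable {Ω : Type*} [NormedField Ω] [IsUltrametricDist Ω] {r n p M : ℕ} [Fact p.Prime]

/-- the level of a vertex: `0` on `O`, `i + 1` on the class `i` -/
private def lev {n : ℕ} {N : ℕ → ℕ} {M : ℕ} : PV n N M → ℕ := Sum.elim (fun _ => 0) (fun u => (u.1 : ℕ) + 1)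

private theorem d04_cc {N : ℕ → ℕ} {z : ℕ → Ω} {m : ℕ} {v : PV n N M} (hv : lev v = m + 1) :
    cc n N M (0 : Ω) z v = z m := by
  cases v with
  | inl o => simp [lev] at hv
  | inr u =>
    have h1 : (u.1 : ℕ) = m := by simpa [lev] using hv
    show z (u.1 : ℕ) = z m
    rw [h1]

private theorem d04_cc0 {N : ℕ → ℕ} {z : ℕ → Ω} {v : PV n N M} (hv : lev v = 0) :
    cc n N M (0 : Ω) z v = 0 := by
  cases v with
  | inl o => rfl
  | inr u => simp [lev] at hv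

private theorem d04_card {N : ℕ → ℕ} {m : ℕ} (hm : m ≤ n) :
    ((univ : Finset (PV n N M)).filter (fun v => lev v = m + 1)).card = N m := by
  have h1 : (univ : Finset (PV n N M)).filter (fun v => lev v = m + 1) =
      (univ : Finset (Fin (N m))).image
        (fun t => (Sum.inr ⟨⟨m, Nat.lt_succ_of_le hm⟩, t⟩ : PV n N M)) := by
    ext v
    simp only [Finset.mem_filter, Finset.mem_univ, true_and, Finset.mem_image]
    constructor
    · intro hv
      cases v with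
      | inl o => simp [lev] at hv
      | inr u =>
        obtain ⟨i, t⟩ := u
        have h1 : (i : ℕ) = m := by simpa [lev] using hv
        subst h1
        exact ⟨t, rfl⟩
    · rintro ⟨t, rfl⟩
      rfl
  rw [h1, Finset.card_image_of_injective, Finset.card_univ, Fintype.card_fin]
  intro a b hab
  simpa using hab

private theorem d04_step {N : ℕ → ℕ} {m : ℕ} (hm : m ≤ n) (z : ℕ → Ω) (k : ℕ) :
    esy ((univ : Finset (PV n N M)).filter (fun v => lev v ≤ m + 1)) k (cc n N M 0 z) =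
      ∑ j ∈ range (k + 1),
        esy ((univ : Finset (PV n N M)).filter (fun v => lev v ≤ m)) j (cc n N M 0 z) *
          ((((N m).choose (k - j) : ℕ) : Ω) * z m ^ (k - j)) := by
  have h1 : (univ : Finset (PV n N M)).filter (fun v => lev v ≤ m + 1) =
      (univ : Finset (PV n N M)).filter (fun v => lev v ≤ m) ∪
        (univ : Finset (PV n N M)).filter (fun v => lev v = m + 1) := by
    ext v
    simp only [Finset.mem_filter, Finset.mem_univ, true_and, Finset.mem_union]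
    omega
  have h2 : Disjoint ((univ : Finset (PV n N M)).filter (fun v => lev v ≤ m))
      ((univ : Finset (PV n N M)).filter (fun v => lev v = m + 1)) := by
    rw [Finset.disjoint_left]
    intro v hv hv'
    simp only [Finset.mem_filter, Finset.mem_univ, true_and] at hv hv'
    omega
  rw [h1, esy_union h2]
  refine Finset.sum_congr rfl fun j _ => ?_
  rw [esy_const (s := (univ : Finset (PV n N M)).filter (fun v => lev v = m + 1)) (c := z m)
    (fun v hv => d04_cc (by simpa using hv)), d04_card hm]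

private theorem d04_zero {N : ℕ → ℕ} (z : ℕ → Ω) {k : ℕ} (hk : 1 ≤ k) :
    esy ((univ : Finset (PV n N M)).filter (fun v => lev v ≤ 0)) k (cc n N M 0 z) = 0 := by
  rw [esy_const (c := (0 : Ω)) (fun v hv => d04_cc0 (by simpa using hv)), zero_pow (by omega),
    mul_zero]

private theorem d04_top {N : ℕ → ℕ} :
    (univ : Finset (PV n N M)).filter (fun v => lev v ≤ n + 1) = univ := by
  rw [Finset.filter_true_of_mem]
  intro v _
  cases v with
  | inl o => simp [lev]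
  | inr u =>
    have h1 := u.1.2
    show (u.1 : ℕ) + 1 ≤ n + 1
    omega

private theorem d04_pi0 : (0 : ℝ) ≤ (p : ℝ)⁻¹ := by positivity

private theorem d04_pi1 : (p : ℝ)⁻¹ ≤ 1 := by
  have h2 : 1 ≤ p := (Fact.out : p.Prime).one_lt.le
  have h3 : (1 : ℝ) ≤ p := by exact_mod_cast h2
  exact inv_le_one_of_one_le₀ h3

private theorem d04_term (hp : ‖(p : Ω)‖ = (p : ℝ)⁻¹) (h : Par r n p M) {R : ℝ} (hR : 0 ≤ R)
    {z : ℕ → Ω} (hz : ∀ i, i ≤ n → ‖z i‖ ≤ R) {m j : ℕ} (hm : m ≤ n) (hj : 1 ≤ j) (hjr : j ≤ r) :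
    ‖(((Nx r n p m).choose j : ℕ) : Ω) * z m ^ j‖ ≤ ((p : ℝ)⁻¹) ^ s0 r n * R ^ j := by
  rw [norm_mul, norm_pow]
  have h1 : ‖(((Nx r n p m).choose j : ℕ) : Ω)‖ ≤ ((p : ℝ)⁻¹) ^ sx r n m :=
    norm_choose_pow hp hj (lt_of_le_of_lt hjr h.hp)
  have h2 : ((p : ℝ)⁻¹) ^ sx r n m ≤ ((p : ℝ)⁻¹) ^ s0 r n :=
    pow_le_pow_of_le_one d04_pi0 d04_pi1 (s0_le m)
  exact mul_le_mul (h1.trans h2) (pow_le_pow_left₀ (norm_nonneg _) (hz m hm) j)
    (by positivity) (pow_nonneg d04_pi0 _)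

private theorem d04_sq_le : ((p : ℝ)⁻¹) ^ (2 * s0 r n) ≤ ((p : ℝ)⁻¹) ^ s0 r n :=
  pow_le_pow_of_le_one d04_pi0 d04_pi1 (by omega)

private theorem d04_cross (hp : ‖(p : Ω)‖ = (p : ℝ)⁻¹) (h : Par r n p M) {R : ℝ} (hR : 0 ≤ R)
    {z : ℕ → Ω} (hz : ∀ i, i ≤ n → ‖z i‖ ≤ R) {m : ℕ} (hm : m ≤ n)
    (ih : ∀ k, 1 ≤ k → k ≤ r →
      ‖esy ((univ : Finset (PV n (Nx r n p) M)).filter (fun v => lev v ≤ m)) k
        (cc n (Nx r n p) M 0 z)‖ ≤ ((p : ℝ)⁻¹) ^ s0 r n * R ^ k) {j k : ℕ} (hj : 1 ≤ j)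
    (hjk : j < k) (hk : k ≤ r) :
    ‖esy ((univ : Finset (PV n (Nx r n p) M)).filter (fun v => lev v ≤ m)) j
        (cc n (Nx r n p) M 0 z) * ((((Nx r n p m).choose (k - j) : ℕ) : Ω) * z m ^ (k - j))‖ ≤
      ((p : ℝ)⁻¹) ^ (2 * s0 r n) * R ^ k := by
  rw [norm_mul]
  have h1 := ih j hj (by omega)
  have h2 := d04_term hp h hR hz hm (show 1 ≤ k - j by omega) (show k - j ≤ r by omega)
  have h3 := mul_le_mul h1 h2 (norm_nonneg _)
    (mul_nonneg (pow_nonneg d04_pi0 _) (pow_nonneg hR _))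
  refine h3.trans (le_of_eq ?_)
  have e1 : R ^ k = R ^ j * R ^ (k - j) := by rw [← pow_add]; congr 1; omega
  rw [e1, two_mul, pow_add]
  ring

private theorem d04_bound (hp : ‖(p : Ω)‖ = (p : ℝ)⁻¹) (h : Par r n p M) {R : ℝ} (hR : 0 ≤ R)
    {z : ℕ → Ω} (hz : ∀ i, i ≤ n → ‖z i‖ ≤ R) (m : ℕ) (hm : m ≤ n + 1) :
    ∀ k, 1 ≤ k → k ≤ r →
      ‖esy ((univ : Finset (PV n (Nx r n p) M)).filter (fun v => lev v ≤ m)) k
        (cc n (Nx r n p) M 0 z)‖ ≤ ((p : ℝ)⁻¹) ^ s0 r n * R ^ k := by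
  induction m with
  | zero =>
    intro k hk _
    rw [d04_zero z hk, norm_zero]
    exact mul_nonneg (pow_nonneg d04_pi0 _) (pow_nonneg hR _)
  | succ m ih =>
    intro k hk hkr
    have ih' := ih (by omega)
    have hmn : m ≤ n := by omega
    rw [d04_step hmn]
    refine IsUltrametricDist.norm_sum_le_of_forall_le_of_nonneg
      (mul_nonneg (pow_nonneg d04_pi0 _) (pow_nonneg hR _)) fun j hj => ?_
    rw [Finset.mem_range] at hj
    rcases Nat.eq_zero_or_pos j with rfl | hj0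
    · rw [esy_zero_right, one_mul, Nat.sub_zero]
      exact d04_term hp h hR hz hmn hk hkr
    · rcases Nat.lt_or_ge j k with hjk | hjk
      · exact (d04_cross hp h hR hz hmn ih' hj0 hjk hkr).trans
          (mul_le_mul_of_nonneg_right d04_sq_le (pow_nonneg hR _))
      · obtain rfl : j = k := by omega
        rw [Nat.sub_self, Nat.choose_zero_right, pow_zero, Nat.cast_one, mul_one, mul_one]
        exact ih' j hk hkr

private theorem d04_main (hp : ‖(p : Ω)‖ = (p : ℝ)⁻¹) (h : Par r n p M) {R : ℝ} (hR : 0 ≤ R)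
    {z : ℕ → Ω} (hz : ∀ i, i ≤ n → ‖z i‖ ≤ R) (m : ℕ) (hm : m ≤ n + 1) :
    ‖esy ((univ : Finset (PV n (Nx r n p) M)).filter (fun v => lev v ≤ m)) r
        (cc n (Nx r n p) M 0 z) -
        ∑ i ∈ range m, (((Nx r n p i).choose r : ℕ) : Ω) * z i ^ r‖ ≤
      ((p : ℝ)⁻¹) ^ (2 * s0 r n) * R ^ r := by
  have hr : 1 ≤ r := by have := h.hr; omega
  have hnn : (0 : ℝ) ≤ ((p : ℝ)⁻¹) ^ (2 * s0 r n) * R ^ r :=
    mul_nonneg (pow_nonneg d04_pi0 _) (pow_nonneg hR _)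
  induction m with
  | zero =>
    rw [d04_zero z hr, Finset.sum_range_zero, sub_zero, norm_zero]
    exact hnn
  | succ m ih =>
    have ih' := ih (by omega)
    have hmn : m ≤ n := by omega
    have hb := d04_bound hp h hR hz m (by omega)
    obtain ⟨q, rfl⟩ : ∃ q, r = q + 1 := ⟨r - 1, by omega⟩
    rw [d04_step hmn, Finset.sum_range_succ, Finset.sum_range_succ', Finset.sum_range_succ]
    have e : (∑ k ∈ range q,
          esy ((univ : Finset (PV n (Nx (q + 1) n p) M)).filter (fun v => lev v ≤ m)) (k + 1)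
            (cc n (Nx (q + 1) n p) M 0 z) *
            ((((Nx (q + 1) n p m).choose (q + 1 - (k + 1)) : ℕ) : Ω) * z m ^ (q + 1 - (k + 1))) +
          esy ((univ : Finset (PV n (Nx (q + 1) n p) M)).filter (fun v => lev v ≤ m)) 0
            (cc n (Nx (q + 1) n p) M 0 z) *
            ((((Nx (q + 1) n p m).choose (q + 1 - 0) : ℕ) : Ω) * z m ^ (q + 1 - 0)) +
          esy ((univ : Finset (PV n (Nx (q + 1) n p) M)).filter (fun v => lev v ≤ m)) (q + 1)
            (cc n (Nx (q + 1) n p) M 0 z) *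
            ((((Nx (q + 1) n p m).choose (q + 1 - (q + 1)) : ℕ) : Ω) *
              z m ^ (q + 1 - (q + 1)))) -
        (∑ i ∈ range m, (((Nx (q + 1) n p i).choose (q + 1) : ℕ) : Ω) * z i ^ (q + 1) +
          (((Nx (q + 1) n p m).choose (q + 1) : ℕ) : Ω) * z m ^ (q + 1)) =
        (∑ k ∈ range q,
          esy ((univ : Finset (PV n (Nx (q + 1) n p) M)).filter (fun v => lev v ≤ m)) (k + 1)
            (cc n (Nx (q + 1) n p) M 0 z) *
            ((((Nx (q + 1) n p m).choose (q + 1 - (k + 1)) : ℕ) : Ω) *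
              z m ^ (q + 1 - (k + 1)))) +
        (esy ((univ : Finset (PV n (Nx (q + 1) n p) M)).filter (fun v => lev v ≤ m)) (q + 1)
            (cc n (Nx (q + 1) n p) M 0 z) -
          ∑ i ∈ range m, (((Nx (q + 1) n p i).choose (q + 1) : ℕ) : Ω) * z i ^ (q + 1)) := by
      rw [esy_zero_right, Nat.sub_self, Nat.choose_zero_right, pow_zero, Nat.cast_one, Nat.sub_zero]
      ring
    rw [e]
    refine (IsUltrametricDist.norm_add_le_max _ _).trans (max_le ?_ ih')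
    refine IsUltrametricDist.norm_sum_le_of_forall_le_of_nonneg hnn fun k hk => ?_
    rw [Finset.mem_range] at hk
    exact d04_cross hp h hR hz hmn hb (by omega) (by omega) le_rfl

theorem esy_cc_bound (hp : ‖(p : Ω)‖ = (p : ℝ)⁻¹) (h : Par r n p M) {R : ℝ} (hR : 0 ≤ R) {z : ℕ → Ω} (hz : ∀ i, i ≤ n → ‖z i‖ ≤ R) {k : ℕ}
    (hk : 1 ≤ k) (hkr : k ≤ r) : ‖esy univ k (cc n (Nx r n p) M 0 z)‖ ≤ ((p : ℝ)⁻¹) ^ s0 r n * R ^ k := by
  have h1 := d04_bound hp h hR hz (n + 1) le_rfl k hk hkr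
  rwa [d04_top] at h1

theorem esy_cc_main (hp : ‖(p : Ω)‖ = (p : ℝ)⁻¹) (h : Par r n p M) {R : ℝ} (hR : 0 ≤ R) {z : ℕ → Ω} (hz : ∀ i, i ≤ n → ‖z i‖ ≤ R) :
    ‖esy univ r (cc n (Nx r n p) M 0 z) - ∑ i ∈ range (n + 1), (((Nx r n p i).choose r : ℕ) : Ω) * z i ^ r‖ ≤
      ((p : ℝ)⁻¹) ^ (2 * s0 r n) * R ^ r := by
  have h1 := d04_main hp h hR hz (n + 1) le_rfl
  rwa [d04_top] at h1

theorem esy_cc_inl (o : Fin M) (k : ℕ) (z : ℕ → Ω) :
    esy (univ.erase (Sum.inl o)) k (cc n (Nx r n p) M 0 z) = esy univ k (cc n (Nx r n p) M 0 z) := by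
  cases k with
  | zero => rw [esy_zero_right, esy_zero_right]
  | succ k =>
    rw [d04_rec (Finset.mem_univ (Sum.inl o : PV n (Nx r n p) M)) k (cc n (Nx r n p) M 0 z)]
    have h0 : cc n (Nx r n p) M (0 : Ω) z (Sum.inl o) = 0 := rfl
    rw [h0, zero_mul, add_zero]

theorem esy_cc_inr (hp : ‖(p : Ω)‖ = (p : ℝ)⁻¹) (h : Par r n p M) {R : ℝ} (hR : 0 ≤ R) {z : ℕ → Ω} (hz : ∀ i, i ≤ n → ‖z i‖ ≤ R)
    (u : UV n (Nx r n p)) :
    ‖esy (univ.erase (Sum.inr u)) (r - 1) (cc n (Nx r n p) M 0 z) - (-1) ^ (r - 1) * z (u.1 : ℕ) ^ (r - 1)‖ ≤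
      ((p : ℝ)⁻¹) ^ s0 r n * R ^ (r - 1) := by
  have hu : (u.1 : ℕ) ≤ n := Nat.lt_succ_iff.1 u.1.2
  have hnn : ∀ k : ℕ, (0 : ℝ) ≤ ((p : ℝ)⁻¹) ^ s0 r n * R ^ k := fun k =>
    mul_nonneg (pow_nonneg d04_pi0 _) (pow_nonneg hR _)
  have key : ∀ k, k ≤ r - 1 →
      ‖esy (univ.erase (Sum.inr u)) k (cc n (Nx r n p) M 0 z) - (-1) ^ k * z (u.1 : ℕ) ^ k‖ ≤
        ((p : ℝ)⁻¹) ^ s0 r n * R ^ k := by
    intro k
    induction k with
    | zero =>
      intro _
      rw [esy_zero_right, pow_zero, pow_zero, mul_one, sub_self, norm_zero]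
      exact hnn 0
    | succ k ih =>
      intro hk
      have ih' := ih (by omega)
      have h1 := d04_rec (Finset.mem_univ (Sum.inr u : PV n (Nx r n p) M)) k
        (cc n (Nx r n p) M (0 : Ω) z)
      have h0 : cc n (Nx r n p) M (0 : Ω) z (Sum.inr u) = z (u.1 : ℕ) := rfl
      rw [h0] at h1
      have e : esy (univ.erase (Sum.inr u)) (k + 1) (cc n (Nx r n p) M 0 z) -
          (-1) ^ (k + 1) * z (u.1 : ℕ) ^ (k + 1) =
          esy univ (k + 1) (cc n (Nx r n p) M 0 z) -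
          z (u.1 : ℕ) * (esy (univ.erase (Sum.inr u)) k (cc n (Nx r n p) M 0 z) -
            (-1) ^ k * z (u.1 : ℕ) ^ k) := by
        rw [h1]
        ring
      rw [e, sub_eq_add_neg]
      refine (IsUltrametricDist.norm_add_le_max _ _).trans (max_le ?_ ?_)
      · exact esy_cc_bound hp h hR hz (by omega) (by omega)
      · rw [norm_neg, norm_mul, pow_succ, ← mul_assoc, mul_comm]
        exact mul_le_mul ih' (hz _ hu) (norm_nonneg _) (hnn k)
  exact key (r - 1) le_rfl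
end

end CT
end

section

/-!
# Symmetric polynomials of class-constant functions

Proof.  `cc b a v = b - cc 0 z v` with `z i = b - a i`; `‖z i‖ ≤ R`.  `esy_shift` for `s = univ` (`card = m`), `k = r`, and for `s = univ.erase _` (`card = m - 1`), `k = r - 1`; the
coefficients with `j < k` have norm `≤ π^(2 s0)` by `choose_dvd`, `choose_dvd'`, `‖esy s j y‖ ≤ R^j` (`norm_esy_le`); the term `j = k` is `(-1)^k esy s k y`,
given by `D04`.  For `esy_b_main` also `choose_pow_main`: `(-1)^r choose (N i) r = - N i / r` up to `π^(2 s0)`.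
-/

set_option autoImplicit false

open Finset

namespace CT

private lemma d5x_shift {V : Type*} [DecidableEq V] {Ω : Type*} [NormedField Ω] [IsUltrametricDist Ω]
    (s : Finset V) (k : ℕ) (hk : k ≤ s.card) {b : Ω} {y : V → Ω} {R E : ℝ} (hR : 0 ≤ R) (hE : 0 ≤ E)
    (hb : ‖b‖ ≤ R) (hy : ∀ v ∈ s, ‖y v‖ ≤ R)
    (hc : ∀ j < k, ‖(((s.card - j).choose (k - j) : ℕ) : Ω)‖ ≤ E) :
    ‖esy s k (fun v => b - y v) - (-1) ^ k * esy s k y‖ ≤ E * R ^ k := by
  rw [esy_shift s k hk b y, Finset.sum_range_succ, Nat.sub_self, Nat.choose_zero_right, pow_zero,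
    Nat.cast_one, one_mul, one_mul, add_sub_cancel_right]
  apply IsUltrametricDist.norm_sum_le_of_forall_le_of_nonneg (by positivity)
  intro j hj
  rw [mem_range] at hj
  rw [norm_mul, norm_mul, norm_mul, norm_pow, norm_pow, norm_neg, norm_one, one_pow, mul_one]
  have h1 : ‖esy s j y‖ ≤ R ^ j := norm_esy_le hR hy j
  have h2 : ‖b‖ ^ (k - j) ≤ R ^ (k - j) := pow_le_pow_left₀ (norm_nonneg _) hb _
  calc ‖(((s.card - j).choose (k - j) : ℕ) : Ω)‖ * ‖b‖ ^ (k - j) * ‖esy s j y‖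
      ≤ E * R ^ (k - j) * R ^ j := by
        apply mul_le_mul (mul_le_mul (hc j hj) h2 (by positivity) hE) h1 (by positivity)
          (by positivity)
    _ = E * R ^ k := by
        rw [mul_assoc, ← pow_add, Nat.sub_add_cancel hj.le]

private lemma d5x_add {Ω : Type*} [NormedField Ω] [IsUltrametricDist Ω] {x y : Ω} {C : ℝ}
    (hx : ‖x‖ ≤ C) (hy : ‖y‖ ≤ C) : ‖x + y‖ ≤ C :=
  (IsUltrametricDist.norm_add_le_max x y).trans (max_le hx hy)

private lemma d5x_sub {Ω : Type*} [NormedField Ω] [IsUltrametricDist Ω] {x y : Ω} {C : ℝ}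
    (hx : ‖x‖ ≤ C) (hy : ‖y‖ ≤ C) : ‖x - y‖ ≤ C := by
  rw [sub_eq_add_neg]
  exact d5x_add hx (by rwa [norm_neg])

private lemma d5x_sign {Ω : Type*} [NormedField Ω] (k : ℕ) (x : Ω) : ‖(-1 : Ω) ^ k * x‖ = ‖x‖ := by
  rw [norm_mul, norm_pow, norm_neg, norm_one, one_pow, one_mul]

section
variable {Ω : Type*} [NormedField Ω] [IsUltrametricDist Ω] {r n p M : ℕ} [Fact p.Prime]

omit [IsUltrametricDist Ω] [Fact p.Prime] in
private lemma d5x_cc (b : Ω) (a : ℕ → Ω) :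
    cc n (Nx r n p) M b a = fun v => b - cc n (Nx r n p) M 0 (fun i => b - a i) v := by
  funext v
  rcases v with v | v
  · simp [cc]
  · simp [cc]

private lemma d5x_z {R : ℝ} {b : Ω} {a : ℕ → Ω} (hb : ‖b‖ ≤ R)
    (ha : ∀ i, i ≤ n → ‖a i‖ ≤ R) (i : ℕ) (hi : i ≤ n) : ‖(fun i => b - a i) i‖ ≤ R :=
  d5x_sub hb (ha i hi)

private lemma d5x_y {R : ℝ} (hR : 0 ≤ R) {b : Ω} {a : ℕ → Ω} (hb : ‖b‖ ≤ R)
    (ha : ∀ i, i ≤ n → ‖a i‖ ≤ R) (v : PV n (Nx r n p) M) :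
    ‖cc n (Nx r n p) M 0 (fun i => b - a i) v‖ ≤ R := by
  rcases v with v | v
  · simpa [cc] using hR
  · have h1 : (v.1 : ℕ) ≤ n := Nat.lt_succ_iff.1 v.1.2
    simpa [cc] using d5x_z (n := n) hb ha (v.1 : ℕ) h1

omit [Fact p.Prime] in
private lemma d5x_pow (h : Par r n p M) : ((p : ℝ)⁻¹) ^ (2 * s0 r n) ≤ ((p : ℝ)⁻¹) ^ s0 r n := by
  have hp1 : (1 : ℝ) ≤ p := by exact_mod_cast h.prime.one_lt.le
  apply pow_le_pow_of_le_one (by positivity) (inv_le_one_of_one_le₀ hp1)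
  omega

private lemma d5x_erase (hp : ‖(p : Ω)‖ = (p : ℝ)⁻¹) (h : Par r n p M) {R : ℝ} (hR : 0 ≤ R) {b : Ω}
    {a : ℕ → Ω} (hb : ‖b‖ ≤ R) (ha : ∀ i, i ≤ n → ‖a i‖ ≤ R) (v : PV n (Nx r n p) M) :
    ‖esy (univ.erase v) (r - 1) (cc n (Nx r n p) M b a) -
      (-1) ^ (r - 1) * esy (univ.erase v) (r - 1) (cc n (Nx r n p) M 0 (fun i => b - a i))‖ ≤
      ((p : ℝ)⁻¹) ^ (2 * s0 r n) * R ^ (r - 1) := by
  have hcard : (univ.erase v : Finset (PV n (Nx r n p) M)).card =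
      Fintype.card (PV n (Nx r n p) M) - 1 := by
    rw [card_erase_of_mem (mem_univ _), card_univ]
  have h3 := h.hr
  have h4 := h.hcard
  rw [d5x_cc b a]
  apply d5x_shift _ _ (by rw [hcard]; omega) hR (by positivity) hb
  · intro w _
    exact d5x_y hR hb ha w
  · intro j hj
    rw [hcard]
    exact choose_dvd' hp h.hcard h.hdvd h.hp hj

theorem esy_b_inl (hp : ‖(p : Ω)‖ = (p : ℝ)⁻¹) (h : Par r n p M) {R : ℝ} (hR : 0 ≤ R) {b : Ω} {a : ℕ → Ω} (hb : ‖b‖ ≤ R)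
    (ha : ∀ i, i ≤ n → ‖a i‖ ≤ R) (o : Fin M) :
    ‖esy (univ.erase (Sum.inl o)) (r - 1) (cc n (Nx r n p) M b a)‖ ≤ ((p : ℝ)⁻¹) ^ s0 r n * R ^ (r - 1) := by
  have h1 := (d5x_erase hp h hR hb ha (Sum.inl o)).trans
    (mul_le_mul_of_nonneg_right (d5x_pow h) (by positivity))
  have h3 := h.hr
  have h2 := esy_cc_bound hp h hR (d5x_z (n := n) hb ha) (k := r - 1) (by omega) (by omega)
  rw [← esy_cc_inl o, ← d5x_sign (r - 1)] at h2
  have h4 := d5x_add h1 h2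
  rwa [sub_add_cancel] at h4

theorem esy_b_inr (hp : ‖(p : Ω)‖ = (p : ℝ)⁻¹) (h : Par r n p M) {R : ℝ} (hR : 0 ≤ R) {b : Ω} {a : ℕ → Ω} (hb : ‖b‖ ≤ R)
    (ha : ∀ i, i ≤ n → ‖a i‖ ≤ R) (u : UV n (Nx r n p)) :
    ‖esy (univ.erase (Sum.inr u)) (r - 1) (cc n (Nx r n p) M b a) - (b - a (u.1 : ℕ)) ^ (r - 1)‖ ≤
      ((p : ℝ)⁻¹) ^ s0 r n * R ^ (r - 1) := by
  have h1 := (d5x_erase hp h hR hb ha (Sum.inr u)).trans
    (mul_le_mul_of_nonneg_right (d5x_pow h) (by positivity))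
  have h2 := esy_cc_inr hp h hR (d5x_z (n := n) hb ha) u
  rw [← d5x_sign (r - 1), mul_sub, ← mul_assoc, ← mul_pow, neg_one_mul, neg_neg, one_pow,
    one_mul] at h2
  have h4 := d5x_add h1 h2
  rwa [sub_add_sub_cancel] at h4

theorem esy_b_main (hp : ‖(p : Ω)‖ = (p : ℝ)⁻¹) (h : Par r n p M) {R : ℝ} (hR : 0 ≤ R) {b : Ω} {a : ℕ → Ω} (hb : ‖b‖ ≤ R)
    (ha : ∀ i, i ≤ n → ‖a i‖ ≤ R) :
    ‖esy univ r (cc n (Nx r n p) M b a) + ∑ i ∈ range (n + 1), ((Nx r n p i : ℕ) : Ω) * (b - a i) ^ r / (r : Ω)‖ ≤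
      ((p : ℝ)⁻¹) ^ (2 * s0 r n) * R ^ r := by
  have h3 := h.hr
  have h4 := h.hcard
  have hp1 : (1 : ℝ) ≤ p := by exact_mod_cast h.prime.one_lt.le
  have h1 : ‖esy univ r (cc n (Nx r n p) M b a) -
      (-1) ^ r * esy univ r (cc n (Nx r n p) M 0 (fun i => b - a i))‖ ≤
      ((p : ℝ)⁻¹) ^ (2 * s0 r n) * R ^ r := by
    rw [d5x_cc b a]
    apply d5x_shift _ _ (by rw [card_univ]; omega) hR (by positivity) hb
    · intro w _
      exact d5x_y hR hb ha w
    · intro j hj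
      rw [card_univ]
      exact choose_dvd hp h.hcard h.hdvd h.hp hj
  have h2 := esy_cc_main hp h hR (d5x_z (n := n) hb ha)
  rw [← d5x_sign r, mul_sub] at h2
  have h5 : ‖(-1 : Ω) ^ r * ∑ i ∈ range (n + 1), (((Nx r n p i).choose r : ℕ) : Ω) * (b - a i) ^ r +
      ∑ i ∈ range (n + 1), ((Nx r n p i : ℕ) : Ω) * (b - a i) ^ r / (r : Ω)‖ ≤
      ((p : ℝ)⁻¹) ^ (2 * s0 r n) * R ^ r := by
    rw [Finset.mul_sum, ← Finset.sum_add_distrib]
    apply IsUltrametricDist.norm_sum_le_of_forall_le_of_nonneg (by positivity)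
    intro i hi
    rw [mem_range] at hi
    have h6 := choose_pow_main (Ω := Ω) hp (e := sx r n i) (r := r) (by omega) h.hp
    have h7 : (-1 : Ω) ^ r * ((((Nx r n p i).choose r : ℕ) : Ω) * (b - a i) ^ r) +
        ((Nx r n p i : ℕ) : Ω) * (b - a i) ^ r / (r : Ω) =
        (-1 : Ω) ^ r * ((((p ^ (sx r n i)).choose r : ℕ) : Ω) -
          (-1) ^ (r - 1) / (r : Ω) * ((p ^ (sx r n i) : ℕ) : Ω)) * (b - a i) ^ r := by
      have h8 : (-1 : Ω) ^ r * (-1 : Ω) ^ (r - 1) = -1 := by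
        rw [← pow_add]
        exact Odd.neg_one_pow ⟨r - 1, by omega⟩
      have h9 : (-1 : Ω) ^ r * ((-1) ^ (r - 1) / (r : Ω)) = - (1 / (r : Ω)) := by
        rw [← mul_div_assoc, h8]
        ring
      rw [mul_sub, sub_mul, ← mul_assoc ((-1 : Ω) ^ r) ((-1) ^ (r - 1) / (r : Ω)), h9]
      unfold Nx
      ring
    rw [h7, norm_mul, d5x_sign, norm_pow]
    apply mul_le_mul _ _ (by positivity) (by positivity)
    · refine h6.trans ?_
      apply pow_le_pow_of_le_one (by positivity) (inv_le_one_of_one_le₀ hp1)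
      have h10 : s0 r n ≤ sx r n i := s0_le i
      omega
    · exact pow_le_pow_left₀ (norm_nonneg _) (d5x_z (n := n) hb ha i (by omega)) r
  have h6 := d5x_add (d5x_add h1 h2) h5
  have h7 : esy univ r (cc n (Nx r n p) M b a) +
      ∑ i ∈ range (n + 1), ((Nx r n p i : ℕ) : Ω) * (b - a i) ^ r / (r : Ω) =
      esy univ r (cc n (Nx r n p) M b a) -
        (-1) ^ r * esy univ r (cc n (Nx r n p) M 0 (fun i => b - a i)) +
      ((-1) ^ r * esy univ r (cc n (Nx r n p) M 0 (fun i => b - a i)) -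
        (-1) ^ r * ∑ i ∈ range (n + 1), (((Nx r n p i).choose r : ℕ) : Ω) * (b - a i) ^ r) +
      ((-1 : Ω) ^ r * ∑ i ∈ range (n + 1), (((Nx r n p i).choose r : ℕ) : Ω) * (b - a i) ^ r +
        ∑ i ∈ range (n + 1), ((Nx r n p i : ℕ) : Ω) * (b - a i) ^ r / (r : Ω)) := by
    ring
  rw [h7]
  exact h6
end

end CT
end

section

/-!
# The critical equations

Proof.  Let `Λ` be as in `Sol.crit`; a vertex `o` exists (`1 ≤ M`) so `‖Λ‖ ≤ π^s0 R^(r-1)` by `esy_b_inl`; a vertex `u` of every class `i ≤ n` exists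
(`Nx > 0`), so `Nval i = esy .. - Λ` and `esy_b_inr`.
-/

set_option autoImplicit false

open Finset

namespace CT

theorem sol_eq {Ω : Type*} [NormedField Ω] [IsUltrametricDist Ω] {r n p M : ℕ} [Fact p.Prime]
    (hp : ‖(p : Ω)‖ = (p : ℝ)⁻¹) (h : Par r n p M) {R : ℝ} (hR : 0 ≤ R) {b : Ω} {a : ℕ → Ω} (hb : ‖b‖ ≤ R)
    (ha : ∀ i, i ≤ n → ‖a i‖ ≤ R) (hS : Sol r n p (Nx r n p) M b a) {i : ℕ} (hi : i ≤ n) :
    ‖(b - a i) ^ (r - 1) - Nval r n p (Nx r n p) a i‖ ≤ ((p : ℝ)⁻¹) ^ s0 r n * R ^ (r - 1) := by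
  obtain ⟨Λ, h1, h2⟩ := hS.crit
  have hΛ : ‖Λ‖ ≤ ((p : ℝ)⁻¹) ^ s0 r n * R ^ (r - 1) := by
    rw [← h1 ⟨0, h.hM⟩]
    exact esy_b_inl hp h hR hb ha _
  have hN : 0 < Nx r n p i := by
    unfold Nx
    exact pow_pos h.prime.pos _
  have h3 := h2 ⟨⟨i, Nat.lt_succ_of_le hi⟩, ⟨0, hN⟩⟩
  have h4 := esy_b_inr hp h hR hb ha ⟨⟨i, Nat.lt_succ_of_le hi⟩, ⟨0, hN⟩⟩
  dsimp only at h3 h4
  set E := esy (univ.erase (Sum.inr (⟨⟨i, Nat.lt_succ_of_le hi⟩, ⟨0, hN⟩⟩ : UV n (Nx r n p)))) (r - 1)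
    (cc n (Nx r n p) M b a) with hE
  have e : (b - a i) ^ (r - 1) - Nval r n p (Nx r n p) a i = Λ - (E - (b - a i) ^ (r - 1)) := by
    rw [← h3]
    ring
  rw [e, sub_eq_add_neg]
  exact (IsUltrametricDist.norm_add_le_max Λ _).trans (max_le hΛ (by rwa [norm_neg]))

end CT
end

section

/-!
# Norms of a solution

Proof (papers 388, IV.2).  `R := max (‖b‖, ‖a i‖ (i ≤ n)) > 0` (since `∑ = 1`).  All coefficients of `Nval _ 0` are divisible by `p^((r-1) k0)` (`Nx_div_zero`,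
`sx (l+1) - s0 ≥ (r-1) k0`), so `‖b - a 0‖^(r-1) ≤ π^((r-1) k0) R^(r-1)`, `‖b - a 0‖ ≤ π^k0 R`.  `Nval _ 1 = a 0^(r-2) * (a 0 + (p-1) a 0) + .. = p a 0^(r-1) + p^(K_1)(..)`, so
`‖b - a 1‖^(r-1) ≤ π R^(r-1)`; for `i ≥ 2` `a (i-1) + (p-1) a 0 = p a 0 + (b - a 0) - (b - a (i-1))` has norm `< R` by induction.  So all `‖b - a i‖ < R`, hence `‖b‖ = R`.
`M b + ∑ N i a i = 1`, `‖M‖ = 1` (`M = r - 1` mod `p`, `2 ≤ r - 1 < p`), `‖∑ N i a i‖ ≤ π^s0 R < R`: so `R = 1`.  `M = card - ∑ N i`, so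
`‖(M : Ω) - (r - 1)‖ ≤ π^s0`, and `‖b - β‖ ≤ π^s0` (`‖r - 1‖ = 1`).
-/

set_option autoImplicit false

open Finset

namespace CT

section

variable {Ω : Type*} [NormedField Ω] [IsUltrametricDist Ω]

private lemma d07_add {x y : Ω} {C : ℝ} (hx : ‖x‖ ≤ C) (hy : ‖y‖ ≤ C) : ‖x + y‖ ≤ C :=
  (IsUltrametricDist.norm_add_le_max x y).trans (max_le hx hy)

private lemma d07_sub {x y : Ω} {C : ℝ} (hx : ‖x‖ ≤ C) (hy : ‖y‖ ≤ C) : ‖x - y‖ ≤ C := by
  rw [sub_eq_add_neg]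
  exact d07_add hx (by rwa [norm_neg])

private lemma d07_add_lt {x y : Ω} {C : ℝ} (hx : ‖x‖ < C) (hy : ‖y‖ < C) : ‖x + y‖ < C :=
  lt_of_le_of_lt (IsUltrametricDist.norm_add_le_max x y) (max_lt hx hy)

private lemma d07_sub_lt {x y : Ω} {C : ℝ} (hx : ‖x‖ < C) (hy : ‖y‖ < C) : ‖x - y‖ < C := by
  rw [sub_eq_add_neg]
  exact d07_add_lt hx (by rwa [norm_neg])

omit [IsUltrametricDist Ω] in
private lemma d07_mul {x y : Ω} {C D : ℝ} (hC : 0 ≤ C) (hx : ‖x‖ ≤ C) (hy : ‖y‖ ≤ D) :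
    ‖x * y‖ ≤ C * D := by
  rw [norm_mul]
  exact mul_le_mul hx hy (norm_nonneg _) hC

private lemma d07_nat {x : Ω} {C : ℝ} (k : ℕ) (hx : ‖x‖ ≤ C) : ‖(k : Ω) * x‖ ≤ C := by
  rw [norm_mul]
  exact (mul_le_of_le_one_left (norm_nonneg _) (norm_nat_le k)).trans hx

omit [IsUltrametricDist Ω] in
private lemma d07_root {x : Ω} {k : ℕ} {C : ℝ} (hk : k ≠ 0) (hC : 0 ≤ C) (h : ‖x ^ k‖ ≤ C ^ k) :
    ‖x‖ ≤ C := by
  rw [norm_pow] at h
  exact (pow_le_pow_iff_left₀ (norm_nonneg _) hC hk).1 h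

omit [IsUltrametricDist Ω] in
private lemma d07_root_lt {x : Ω} {k : ℕ} {C : ℝ} (hk : k ≠ 0) (hC : 0 ≤ C)
    (h : ‖x ^ k‖ < C ^ k) : ‖x‖ < C := by
  rw [norm_pow] at h
  exact (pow_lt_pow_iff_left₀ (norm_nonneg _) hC hk).1 h

omit [IsUltrametricDist Ω] in
private lemma d07_pow {x : Ω} {k : ℕ} {C : ℝ} (h : ‖x‖ ≤ C) : ‖x ^ k‖ ≤ C ^ k := by
  rw [norm_pow]
  exact pow_le_pow_left₀ (norm_nonneg _) h k

end

theorem sol_norm {Ω : Type*} [NormedField Ω] [IsUltrametricDist Ω] {r n p M : ℕ} [Fact p.Prime]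
    (hp : ‖(p : Ω)‖ = (p : ℝ)⁻¹) (h : Par r n p M) {b : Ω} {a : ℕ → Ω} (hS : Sol r n p (Nx r n p) M b a) :
    ‖b‖ = 1 ∧ (∀ i, i ≤ n → ‖a i‖ ≤ 1) ∧ ‖b - bt Ω r‖ ≤ ((p : ℝ)⁻¹) ^ s0 r n ∧
      ‖b - a 0‖ ≤ ((p : ℝ)⁻¹) ^ k0 n := by
  have hpp : p.Prime := h.prime
  have hr := h.hr
  have hn := h.hn
  have hrp := h.hp
  have hk0 : 1 ≤ k0 n := by
    unfold k0
    exact Nat.succ_le_of_lt (by positivity)
  have hs0 : 1 ≤ s0 r n := hk0.trans k0_le_s0
  set π : ℝ := (p : ℝ)⁻¹ with hπ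
  have hπ0 : 0 < π := by
    rw [hπ]
    exact inv_pos.2 (by exact_mod_cast hpp.pos)
  have hπ1 : π < 1 := by
    rw [hπ]
    exact inv_lt_one_of_one_lt₀ (by exact_mod_cast hpp.one_lt)
  -- the maximum of the norms
  obtain ⟨R, hb, ha, hatt⟩ : ∃ R : ℝ, ‖b‖ ≤ R ∧ (∀ i, i ≤ n → ‖a i‖ ≤ R) ∧
      (R = ‖b‖ ∨ ∃ i, i ≤ n ∧ R = ‖a i‖) := by
    have hne : (range (n + 1)).Nonempty := ⟨0, mem_range.2 (by omega)⟩
    refine ⟨max ‖b‖ ((range (n + 1)).sup' hne (fun i => ‖a i‖)), le_max_left _ _, ?_, ?_⟩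
    · intro i hi
      exact (Finset.le_sup' (fun i => ‖a i‖) (mem_range.2 (by omega))).trans (le_max_right _ _)
    · rcases max_choice ‖b‖ ((range (n + 1)).sup' hne (fun i => ‖a i‖)) with h1 | h1
      · exact Or.inl h1
      · obtain ⟨i, hi, hi'⟩ := Finset.exists_mem_eq_sup' hne (fun i => ‖a i‖)
        exact Or.inr ⟨i, by have := mem_range.1 hi; omega, h1.trans hi'⟩
  have hR0 : 0 ≤ R := (norm_nonneg _).trans hb
  have hsum := hS.sum_one
  have hRpos : 0 < R := by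
    rcases hR0.lt_or_eq with h1 | h1
    · exact h1
    · exfalso
      have hb0 : b = 0 := by
        have := hb
        rw [← h1] at this
        exact norm_le_zero_iff.1 this
      have ha0 : ∀ i ∈ range (n + 1), ((Nx r n p i : ℕ) : Ω) * a i = 0 := by
        intro i hi
        have := ha i (by have := mem_range.1 hi; omega)
        rw [← h1] at this
        rw [norm_le_zero_iff.1 this, mul_zero]
      rw [hb0, mul_zero, Finset.sum_eq_zero ha0, add_zero] at hsum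
      exact zero_ne_one hsum
  have hk : r - 1 ≠ 0 := by omega
  have hk' : r - 2 + 1 = r - 1 := by omega
  have hRk : ∀ k : ℕ, 0 ≤ R ^ k := fun k => pow_nonneg hR0 k
  -- norms of the class sizes
  have hNx : ∀ i, ‖((Nx r n p i : ℕ) : Ω)‖ ≤ π ^ s0 r n := by
    intro i
    refine norm_nat_dvd hp ?_
    unfold Nx
    exact pow_dvd_pow p (s0_le i)
  have hsN : ‖∑ i ∈ range (n + 1), ((Nx r n p i : ℕ) : Ω) * a i‖ ≤ π ^ s0 r n * R := by
    refine IsUltrametricDist.norm_sum_le_of_forall_le_of_nonneg (by positivity) fun i hi => ?_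
    exact d07_mul (by positivity) (hNx i) (ha i (by have := mem_range.1 hi; omega))
  have hs0k : (r - 1) * k0 n ≤ s0 r n := by
    unfold s0
    exact Nat.mul_le_mul_right _ (by omega)
  have hπs : π ^ s0 r n ≤ π ^ ((r - 1) * k0 n) := pow_le_pow_of_le_one hπ0.le hπ1.le hs0k
  have hπs1 : π ^ s0 r n ≤ π := by
    calc π ^ s0 r n ≤ π ^ 1 := pow_le_pow_of_le_one hπ0.le hπ1.le hs0
      _ = π := pow_one π
  -- class 0
  have h0 : ‖b - a 0‖ ≤ π ^ k0 n * R := by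
    have h1 := sol_eq hp h hR0 hb ha hS (Nat.zero_le n)
    have h2 : ‖Nval r n p (Nx r n p) a 0‖ ≤ π ^ ((r - 1) * k0 n) * R ^ (r - 1) := by
      have hq : ∀ l, ‖((Nx r n p (l + 1) / Nx r n p 0 : ℕ) : Ω)‖ ≤ π ^ ((r - 1) * k0 n) := by
        intro l
        rw [Nx_div_zero hpp.pos]
        refine norm_nat_dvd hp (pow_dvd_pow p ?_)
        have h3 := sx_mono (r := r) (n := n) 1 (l + 1) (by omega)
        rw [sx_one] at h3
        omega
      have hA : ∀ l, l < n → ‖((r - 2 : ℕ) : Ω) * a (l + 1) * a l * a 0 ^ (r - 3) +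
          ((p - 1 : ℕ) : Ω) * ((r - 1 : ℕ) : Ω) * a (l + 1) * a 0 ^ (r - 2)‖ ≤ R ^ (r - 1) := by
        intro l hl
        refine d07_add ?_ ?_
        · have e : R ^ (r - 1) = R * (R * R ^ (r - 3)) := by
            rw [← pow_succ', ← pow_succ']
            congr 1
            omega
          rw [e, mul_assoc, mul_assoc]
          refine d07_nat _ (d07_mul hR0 (ha _ (by omega)) (d07_mul hR0 (ha _ (by omega))
            (d07_pow (ha 0 (by omega)))))
        · have e : R ^ (r - 1) = R * R ^ (r - 2) := by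
            rw [← pow_succ']
            congr 1
            omega
          rw [e, mul_assoc, mul_assoc]
          exact d07_nat _ (d07_nat _ (d07_mul hR0 (ha _ (by omega)) (d07_pow (ha 0 (by omega)))))
      unfold Nval
      rw [if_pos rfl]
      refine d07_add ?_ ?_
      · refine IsUltrametricDist.norm_sum_le_of_forall_le_of_nonneg (by positivity) fun l hl => ?_
        exact d07_mul (by positivity) (hq l) (hA l (mem_range.1 hl))
      · have e : R ^ (r - 1) = R * R ^ (r - 2) := by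
          rw [← pow_succ']
          congr 1
          omega
        rw [e, mul_assoc]
        exact d07_mul (by positivity) (hq 0) (d07_mul hR0 (ha _ (by omega))
          (d07_pow (ha 0 (by omega))))
    have h3 : ‖(b - a 0) ^ (r - 1)‖ ≤ (π ^ k0 n * R) ^ (r - 1) := by
      have e : (π ^ k0 n * R) ^ (r - 1) = π ^ ((r - 1) * k0 n) * R ^ (r - 1) := by
        rw [mul_pow, ← pow_mul, mul_comm (k0 n)]
      rw [e]
      have h4 := d07_add (h1.trans (mul_le_mul_of_nonneg_right hπs (hRk _))) h2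
      rwa [sub_add_cancel] at h4
    exact d07_root hk (by positivity) h3
  have hlt0 : ‖b - a 0‖ < R := by
    refine lt_of_le_of_lt h0 ?_
    have : π ^ k0 n < 1 := pow_lt_one₀ hπ0.le hπ1 (by omega)
    exact mul_lt_of_lt_one_left hRpos this
  -- all the classes
  have hlt : ∀ i, i ≤ n → ‖b - a i‖ < R := by
    intro i
    induction i with
    | zero => intro _; exact hlt0
    | succ i ih =>
      intro hi
      have h1 := sol_eq hp h hR0 hb ha hS hi
      have hlast : ‖(if i + 1 < n then ((Nx r n p (i + 1 + 1) / Nx r n p (i + 1) : ℕ) : Ω) *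
          a (i + 1 + 1) * a 0 ^ (r - 2) else 0)‖ ≤ π * R ^ (r - 1) := by
        split_ifs with h2
        · have e : R ^ (r - 1) = R * R ^ (r - 2) := by
            rw [← pow_succ']
            congr 1
            omega
          rw [e, mul_assoc]
          refine d07_mul hπ0.le ?_ (d07_mul hR0 (ha _ (by omega)) (d07_pow (ha 0 (by omega))))
          rw [Nx_div hpp.pos, if_neg (by omega)]
          have h3 := Kx_ge (n := n) (i + 1)
          refine (norm_nat_dvd hp (e := 1) ?_).trans (le_of_eq (pow_one π))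
          exact pow_dvd_pow p (by omega)
        · rw [norm_zero]
          positivity
      have hmid : ‖a i + ((p - 1 : ℕ) : Ω) * a 0‖ < R := by
        have e : a i + ((p - 1 : ℕ) : Ω) * a 0 = (p : Ω) * a 0 + ((b - a 0) - (b - a i)) := by
          rw [Nat.cast_sub hpp.one_lt.le]
          push_cast
          ring
        rw [e]
        refine d07_add_lt ?_ (d07_sub_lt hlt0 (ih (by omega)))
        rw [norm_mul, hp]
        exact lt_of_le_of_lt (mul_le_mul_of_nonneg_left (ha 0 (by omega)) hπ0.le)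
          (mul_lt_of_lt_one_left hRpos hπ1)
      have hfirst : ‖a 0 ^ (r - 2) * (a i + ((p - 1 : ℕ) : Ω) * a 0)‖ < R ^ (r - 1) := by
        have e : R ^ (r - 1) = R ^ (r - 2) * R := by
          rw [← pow_succ, hk']
        rw [e, norm_mul]
        have hpowR : 0 < R ^ (r - 2) := pow_pos hRpos _
        exact lt_of_le_of_lt
          (mul_le_mul_of_nonneg_right (d07_pow (ha 0 (by omega))) (norm_nonneg _))
          (mul_lt_mul_of_pos_left hmid hpowR)
      have hπR : π * R ^ (r - 1) < R ^ (r - 1) := mul_lt_of_lt_one_left (pow_pos hRpos _) hπ1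
      have hN : ‖Nval r n p (Nx r n p) a (i + 1)‖ < R ^ (r - 1) := by
        unfold Nval
        rw [if_neg (by omega), Nat.add_sub_cancel]
        exact d07_add_lt hfirst (lt_of_le_of_lt hlast hπR)
      have h4 := d07_add_lt (lt_of_le_of_lt (h1.trans (mul_le_mul_of_nonneg_right hπs1 (hRk _))) hπR) hN
      rw [sub_add_cancel] at h4
      exact d07_root_lt hk hR0 h4
  have hbR : ‖b‖ = R := by
    refine le_antisymm hb ?_
    by_contra hcon
    push Not at hcon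
    rcases hatt with h1 | ⟨i, hi, h1⟩
    · exact absurd h1 (ne_of_gt hcon)
    · have h2 : ‖a i‖ < R := by
        have e : a i = b - (b - a i) := by ring
        rw [e]
        exact d07_sub_lt hcon (hlt i hi)
      exact absurd h1 (ne_of_gt h2)
  -- the number of ordinary vertices
  have hr1 : ‖((r - 1 : ℕ) : Ω)‖ = 1 :=
    norm_nat_coprime hp (fun hd => absurd (Nat.le_of_dvd (by omega) hd) (by omega))
  have hcard : Fintype.card (PV n (Nx r n p) M) = M + ∑ i ∈ range (n + 1), Nx r n p i := by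
    rw [Fintype.card_sum, Fintype.card_fin, Fintype.card_sigma]
    congr 1
    rw [← Fin.sum_univ_eq_sum_range (fun i => Nx r n p i)]
    exact Finset.sum_congr rfl fun i _ => Fintype.card_fin _
  have hM : ‖(M : Ω) - ((r - 1 : ℕ) : Ω)‖ ≤ π ^ s0 r n := by
    have h1 : ‖((Fintype.card (PV n (Nx r n p) M) - (r - 1) : ℕ) : Ω)‖ ≤ π ^ s0 r n := by
      refine norm_nat_dvd hp ((pow_dvd_pow p ?_).trans h.hdvd)
      omega
    have h2 : ‖((∑ i ∈ range (n + 1), Nx r n p i : ℕ) : Ω)‖ ≤ π ^ s0 r n := by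
      push_cast
      exact IsUltrametricDist.norm_sum_le_of_forall_le_of_nonneg (by positivity) fun i _ => hNx i
    have h3 := h.hcard
    rw [Nat.cast_sub (by omega), hcard, Nat.cast_add] at h1
    have e : (M : Ω) - ((r - 1 : ℕ) : Ω) =
        ((M : Ω) + ((∑ i ∈ range (n + 1), Nx r n p i : ℕ) : Ω) - ((r - 1 : ℕ) : Ω)) -
          ((∑ i ∈ range (n + 1), Nx r n p i : ℕ) : Ω) := by ring
    rw [e]
    exact d07_sub h1 h2
  have hπs2 : π ^ s0 r n < 1 := lt_of_le_of_lt hπs1 hπ1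
  have hM1 : ‖(M : Ω)‖ = 1 := by
    have h1 : ‖(M : Ω) - ((r - 1 : ℕ) : Ω)‖ < ‖((r - 1 : ℕ) : Ω)‖ := by
      rw [hr1]
      exact lt_of_le_of_lt hM hπs2
    have h2 := IsUltrametricDist.norm_add_eq_max_of_norm_ne_norm (ne_of_lt h1)
    rw [sub_add_cancel, max_eq_right h1.le, hr1] at h2
    exact h2
  have hR1 : R = 1 := by
    have h1 : ‖∑ i ∈ range (n + 1), ((Nx r n p i : ℕ) : Ω) * a i‖ < ‖(M : Ω) * b‖ := by
      rw [norm_mul, hM1, one_mul, hbR]
      exact lt_of_le_of_lt hsN (mul_lt_of_lt_one_left hRpos hπs2)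
    have h2 := IsUltrametricDist.norm_add_eq_max_of_norm_ne_norm (ne_of_gt h1)
    rw [hsum, norm_one, max_eq_left h1.le, norm_mul, hM1, one_mul, hbR] at h2
    exact h2.symm
  rw [hR1] at hbR ha h0 hsN
  rw [mul_one] at h0 hsN
  refine ⟨hbR, ha, ?_, h0⟩
  have hrne : ((r - 1 : ℕ) : Ω) ≠ 0 := by
    intro h1
    rw [h1, norm_zero] at hr1
    exact zero_ne_one hr1
  have hbt : bt Ω r = (((r - 1 : ℕ) : Ω))⁻¹ := by
    unfold bt
    rw [Nat.cast_sub (by omega), Nat.cast_one]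
  have e : b - bt Ω r = (((r - 1 : ℕ) : Ω))⁻¹ * (-(((M : Ω) - ((r - 1 : ℕ) : Ω)) * b) -
      ∑ i ∈ range (n + 1), ((Nx r n p i : ℕ) : Ω) * a i) := by
    rw [hbt, eq_inv_mul_iff_mul_eq₀ hrne, mul_sub, mul_inv_cancel₀ hrne, ← hsum]
    ring
  rw [e, norm_mul, norm_inv, hr1, inv_one, one_mul]
  refine d07_sub ?_ hsN
  rw [norm_neg, norm_mul, hbR, mul_one]
  exact hM

end CT
end
end

section

section

/-!
# The numerical consequence for thin sets

Proof.  `choose x r * r! ≥ (x - r)^r ≥ x^r (1 - r/x)^r ≥ x^r (1 - r^2/x)` and `x ≥ d n` is large, so from the hypothesis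
`(1 - r^2/x) (d+ε) n ≤ z y`.  `d / y = 1/(1+y) = 1 - d`, `(d+ε)/y ≥ (1-d) + ε` (`y ≤ 1`), and
`(1 - r^2/(d n)) ((1-d) + ε) ≥ 1 - d` for `n` large.
-/

set_option autoImplicit false

open Finset

namespace CT

theorem thin_numeric (r : ℕ) (y ε : ℝ) (hy : 0 < y) (hy1 : y ≤ 1) (hε : 0 < ε) : ∃ n0 : ℕ, ∀ n x z : ℕ,
    n0 ≤ n → y / (1 + y) * (n : ℝ) ≤ (x : ℝ) → x ≤ n →
    ((x.choose r : ℕ) : ℝ) * ((y / (1 + y) + ε) * n) * (r.factorial : ℝ) ≤ (z : ℝ) * (y * (x : ℝ) ^ r) →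
    (1 - y / (1 + y)) * (n : ℝ) ≤ (z : ℝ) := by
  have hd : 0 < y / (1 + y) := by positivity
  have hdy : y / (1 + y) = (1 - y / (1 + y)) * y := by field_simp; ring
  have h1d : 1 - y / (1 + y) ≤ 1 := by linarith
  have h1d0 : 0 < 1 - y / (1 + y) := by
    have : 1 - y / (1 + y) = 1 / (1 + y) := by field_simp; ring
    rw [this]; positivity
  generalize hdd : y / (1 + y) = d at *
  obtain ⟨n0, hn0⟩ := exists_nat_ge (((r : ℝ) ^ 2 * (1 + ε) / ε + r + 1) / d)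
  refine ⟨n0, fun n x z hn hx hxn hmain => ?_⟩
  have hnr : ((n0 : ℕ) : ℝ) ≤ n := by exact_mod_cast hn
  have hxbig : (r : ℝ) ^ 2 * (1 + ε) / ε + r + 1 ≤ x := by
    have h1 : ((r : ℝ) ^ 2 * (1 + ε) / ε + r + 1) / d ≤ n := hn0.trans hnr
    rw [div_le_iff₀ hd] at h1
    linarith
  have hq : 0 ≤ (r : ℝ) ^ 2 * (1 + ε) / ε := by positivity
  have hr0 : (0 : ℝ) ≤ r := Nat.cast_nonneg r
  have hxr : (r : ℝ) + 1 ≤ x := by linarith
  have hxr' : r + 1 ≤ x := by exact_mod_cast hxr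
  have hx0 : (0 : ℝ) < x := by linarith
  have hn0' : (0 : ℝ) ≤ n := Nat.cast_nonneg n
  -- lower bound for the binomial coefficient
  have hch : ((x : ℝ)) ^ r * (1 - (r : ℝ) ^ 2 / x) ≤ ((x.choose r : ℕ) : ℝ) * (r.factorial : ℝ) := by
    have e1 : ((x + 1 - r : ℕ) : ℝ) ^ r ≤ ((x.choose r : ℕ) : ℝ) * (r.factorial : ℝ) := by
      have := Nat.pow_sub_le_descFactorial x r
      rw [Nat.descFactorial_eq_factorial_mul_choose] at this
      have h2 : (((x + 1 - r) ^ r : ℕ) : ℝ) ≤ ((r.factorial * x.choose r : ℕ) : ℝ) := by exact_mod_cast this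
      push_cast at h2
      linarith
    have e2 : (x : ℝ) - r ≤ ((x + 1 - r : ℕ) : ℝ) := by
      rw [Nat.cast_sub (by omega)]; push_cast; linarith
    have e3 : ((x : ℝ) - r) ^ r ≤ ((x + 1 - r : ℕ) : ℝ) ^ r :=
      pow_le_pow_left₀ (by linarith) e2 r
    have e4 : 1 + (r : ℝ) * (-(r : ℝ) / x) ≤ (1 + (-(r : ℝ) / x)) ^ r := by
      apply one_add_mul_le_pow
      have : (r : ℝ) / x ≤ 1 := by rw [div_le_one hx0]; linarith
      rw [neg_div]; linarith
    have e5 : (x : ℝ) ^ r * (1 + (-(r : ℝ) / x)) ^ r = ((x : ℝ) - r) ^ r := by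
      rw [← mul_pow]; congr 1; field_simp; ring
    have e6 : (x : ℝ) ^ r * (1 - (r : ℝ) ^ 2 / x) ≤ (x : ℝ) ^ r * (1 + (-(r : ℝ) / x)) ^ r := by
      apply mul_le_mul_of_nonneg_left _ (by positivity)
      have : 1 - (r : ℝ) ^ 2 / x = 1 + (r : ℝ) * (-(r : ℝ) / x) := by ring
      rw [this]; exact e4
    linarith
  have hxp : (0 : ℝ) < (x : ℝ) ^ r := by positivity
  have k1 : (x : ℝ) ^ r * ((1 - (r : ℝ) ^ 2 / x) * ((d + ε) * n)) ≤ (x : ℝ) ^ r * (z * y) := by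
    have : (x : ℝ) ^ r * (1 - (r : ℝ) ^ 2 / x) * ((d + ε) * n) ≤
        ((x.choose r : ℕ) : ℝ) * (r.factorial : ℝ) * ((d + ε) * n) :=
      mul_le_mul_of_nonneg_right hch (by positivity)
    nlinarith [this, hmain]
  have k2 : (1 - (r : ℝ) ^ 2 / x) * ((d + ε) * n) ≤ z * y := le_of_mul_le_mul_left k1 hxp
  -- `ε ≥ (r^2/x) (1-d+ε)`
  have k3 : (r : ℝ) ^ 2 / x * (1 + ε) ≤ ε := by
    rw [div_mul_eq_mul_div, div_le_iff₀ hx0]
    have : (r : ℝ) ^ 2 * (1 + ε) / ε ≤ x := by linarith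
    rw [div_le_iff₀ hε] at this
    linarith
  have hrx : 0 ≤ (r : ℝ) ^ 2 / x := by positivity
  have k4 : (1 - d) ≤ (1 - (r : ℝ) ^ 2 / x) * ((1 - d) + ε) := by
    nlinarith [mul_nonneg hrx h1d0.le, mul_nonneg hrx hd.le]
  have hr1 : (r : ℝ) ^ 2 / x ≤ 1 := by
    nlinarith [hrx, mul_nonneg hrx hε.le]
  have k5 : (1 - d) * y ≤ (1 - (r : ℝ) ^ 2 / x) * (d + ε) := by
    have h1 : ((1 - d) + ε) * y ≤ d + ε := by nlinarith
    have h2 : (1 - (r : ℝ) ^ 2 / x) * (((1 - d) + ε) * y) ≤ (1 - (r : ℝ) ^ 2 / x) * (d + ε) :=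
      mul_le_mul_of_nonneg_left h1 (by linarith)
    have h3 : (1 - d) * y ≤ (1 - (r : ℝ) ^ 2 / x) * ((1 - d) + ε) * y :=
      mul_le_mul_of_nonneg_right k4 hy.le
    linarith
  have k6 : (1 - d) * n * y ≤ z * y := by
    have := mul_le_mul_of_nonneg_right k5 hn0'
    linarith
  exact le_of_mul_le_mul_right k6 hy

end CT
end

section

/-!
# The levels below the first macroscopic difference

Proof (papers 388, IV.5).  Induction on `i`: `‖z i^(r-1) - z' i^(r-1)‖ ≤ max (‖cci z i - cci z' i‖, π^(kap n i))`, the left side is `δ_i ‖z i‖^(r-2) ≥ δ_i π` by `pow_sub_norm`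
(`‖r - 1‖ = 1`), `cci z 1 = cci z' 1`, `‖cci z i - cci z' i‖ = δ_{i-1} ≤ p π^(Kx n (i-1)) ≤ π^(Kx n i)` for `i ≥ 2` (`Kx_pred`), `kap n i = Kx n i` as `i < J ≤ n`.
`chi_diff_low`: `χ_i - χ'_i = (z i - z' i) [(∑_l z i^l z' i^(r-1-l))/r - cci z i] + (β - z' i)(cci z i - cci z' i)`; the bracket is
`z i^(r-1) - cci z i` up to `δ_i` (`geom_near`), so of norm `≤ p π^(Kx n i)`.
-/

set_option autoImplicit false

open Finset

namespace CT

section
variable {Ω : Type*} [NormedField Ω] [IsUltrametricDist Ω] {r n p : ℕ} [Fact p.Prime]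

private theorem D12_sub (a b : Ω) : ‖a - b‖ ≤ max ‖a‖ ‖b‖ := by
  have h := IsUltrametricDist.norm_add_le_max a (-b)
  rwa [← sub_eq_add_neg, norm_neg] at h

private theorem D12_cci (hp : ‖(p : Ω)‖ = (p : ℝ)⁻¹) (hr : 3 ≤ r) (hrp : r < p) (z z' : ℕ → Ω) (i : ℕ) :
    ‖cci p r z i - cci p r z' i‖ = if i ≤ 1 then 0 else ‖z (i - 1) - z' (i - 1)‖ := by
  unfold cci
  by_cases h : i ≤ 1
  · rw [if_pos h, if_pos h, if_pos h, sub_self, norm_zero]
  · rw [if_neg h, if_neg h, if_neg h]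
    have e : bt Ω r ^ (r - 2) * ((p : Ω) * bt Ω r - z (i - 1)) -
        bt Ω r ^ (r - 2) * ((p : Ω) * bt Ω r - z' (i - 1)) =
        bt Ω r ^ (r - 2) * (z' (i - 1) - z (i - 1)) := by ring
    rw [e, norm_mul, norm_pow, norm_bt hp hr hrp, one_pow, one_mul, norm_sub_rev]

private theorem D12_pi_pos (p : ℕ) [hF : Fact p.Prime] : (0 : ℝ) < (p : ℝ)⁻¹ := by
  have : (0 : ℝ) < p := by exact_mod_cast hF.out.pos
  positivity

private theorem D12_p_one (p : ℕ) [hF : Fact p.Prime] : (1 : ℝ) ≤ (p : ℝ) := by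
  exact_mod_cast hF.out.one_lt.le

private theorem D12_step {p : ℕ} [hF : Fact p.Prime] {a b : ℕ} (h : a + 1 ≤ b) :
    (p : ℝ) * ((p : ℝ)⁻¹) ^ b ≤ ((p : ℝ)⁻¹) ^ a := by
  have h0 : (0 : ℝ) < p := by exact_mod_cast hF.out.pos
  have h1 : ((p : ℝ)⁻¹) ^ b ≤ ((p : ℝ)⁻¹) ^ (a + 1) :=
    pow_le_pow_of_le_one (D12_pi_pos p).le (inv_le_one_of_one_le₀ (D12_p_one p)) h
  calc (p : ℝ) * ((p : ℝ)⁻¹) ^ b ≤ (p : ℝ) * ((p : ℝ)⁻¹) ^ (a + 1) :=
        mul_le_mul_of_nonneg_left h1 h0.le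
    _ = ((p : ℝ)⁻¹) ^ a := by
        rw [pow_succ]
        field_simp

theorem delta_low (hp : ‖(p : Ω)‖ = (p : ℝ)⁻¹) (hr : 3 ≤ r) (hrp : r < p) {z z' : ℕ → Ω} (hz : Approx r n p z)
    (hz' : Approx r n p z') {J : ℕ} (hJ : J ≤ n) (hlow : ∀ i, 1 ≤ i → i < J → ‖z i - z' i‖ < ‖z i‖) {i : ℕ}
    (hi : 1 ≤ i) (hiJ : i < J) : ‖z i - z' i‖ ≤ (p : ℝ) * ((p : ℝ)⁻¹) ^ Kx n i := by
  have h0 : (0 : ℝ) < p := by
    have := (Fact.out : p.Prime).pos
    exact_mod_cast this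
  induction i, hi using Nat.le_induction with
  | base =>
    have hk1 : ‖((r - 1 : ℕ) : Ω)‖ = 1 := norm_nat_coprime hp (fun hd => by
      have := Nat.le_of_dvd (by omega) hd
      omega)
    have hpw := pow_sub_norm (k := r - 1) (by omega) hk1 (hlow 1 le_rfl hiJ)
    have hn := norm_z hp hr hrp hz (i := 1) le_rfl (by omega)
    have hπ : (p : ℝ)⁻¹ ≤ ‖z 1‖ ^ (r - 1 - 1) := hn.2.2.2.2.2.1
    have hkap : kap n 1 = Kx n 1 := by unfold kap; rw [if_pos (by omega)]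
    have h1 := hz 1 le_rfl (by omega)
    have h2 := hz' 1 le_rfl (by omega)
    rw [hkap] at h1 h2
    have hc := D12_cci hp hr hrp z z' 1
    rw [if_pos le_rfl] at hc
    have hceq : cci p r z 1 = cci p r z' 1 := sub_eq_zero.1 (norm_eq_zero.1 hc)
    have e : z 1 ^ (r - 1) - z' 1 ^ (r - 1) =
        (z 1 ^ (r - 1) - cci p r z 1) - (z' 1 ^ (r - 1) - cci p r z' 1) := by rw [hceq]; ring
    have h3 : ‖z 1 ^ (r - 1) - z' 1 ^ (r - 1)‖ ≤ ((p : ℝ)⁻¹) ^ Kx n 1 := by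
      rw [e]
      exact (D12_sub _ _).trans (max_le h1 h2)
    rw [hpw] at h3
    have h4 : ‖z 1 - z' 1‖ * (p : ℝ)⁻¹ ≤ ((p : ℝ)⁻¹) ^ Kx n 1 :=
      (mul_le_mul_of_nonneg_left hπ (norm_nonneg _)).trans h3
    rw [← div_eq_mul_inv, div_le_iff₀ h0] at h4
    linarith
  | succ i hi ih =>
    have ih' := ih (by omega)
    have hk1 : ‖((r - 1 : ℕ) : Ω)‖ = 1 := norm_nat_coprime hp (fun hd => by
      have := Nat.le_of_dvd (by omega) hd
      omega)
    have hpw := pow_sub_norm (k := r - 1) (by omega) hk1 (hlow (i + 1) (by omega) hiJ)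
    have hn := norm_z hp hr hrp hz (i := i + 1) (by omega) (by omega)
    have hπ : (p : ℝ)⁻¹ ≤ ‖z (i + 1)‖ ^ (r - 1 - 1) := hn.2.2.2.2.2.1
    have hkap : kap n (i + 1) = Kx n (i + 1) := by unfold kap; rw [if_pos (by omega)]
    have h1 := hz (i + 1) (by omega) (by omega)
    have h2 := hz' (i + 1) (by omega) (by omega)
    rw [hkap] at h1 h2
    have hc := D12_cci hp hr hrp z z' (i + 1)
    rw [if_neg (by omega), Nat.add_sub_cancel] at hc
    have hK := Kx_pred (n := n) (i := i + 1) (by omega) (by omega)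
    rw [Nat.add_sub_cancel] at hK
    have hc' : ‖cci p r z (i + 1) - cci p r z' (i + 1)‖ ≤ ((p : ℝ)⁻¹) ^ Kx n (i + 1) := by
      rw [hc]
      exact ih'.trans (D12_step hK)
    have e : z (i + 1) ^ (r - 1) - z' (i + 1) ^ (r - 1) =
        ((z (i + 1) ^ (r - 1) - cci p r z (i + 1)) - (z' (i + 1) ^ (r - 1) - cci p r z' (i + 1))) +
          (cci p r z (i + 1) - cci p r z' (i + 1)) := by ring
    have h3 : ‖z (i + 1) ^ (r - 1) - z' (i + 1) ^ (r - 1)‖ ≤ ((p : ℝ)⁻¹) ^ Kx n (i + 1) := by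
      rw [e]
      exact (IsUltrametricDist.norm_add_le_max _ _).trans
        (max_le ((D12_sub _ _).trans (max_le h1 h2)) hc')
    rw [hpw] at h3
    have h4 : ‖z (i + 1) - z' (i + 1)‖ * (p : ℝ)⁻¹ ≤ ((p : ℝ)⁻¹) ^ Kx n (i + 1) :=
      (mul_le_mul_of_nonneg_left hπ (norm_nonneg _)).trans h3
    rw [← div_eq_mul_inv, div_le_iff₀ h0] at h4
    linarith

theorem chi_diff_low (hp : ‖(p : Ω)‖ = (p : ℝ)⁻¹) (hr : 3 ≤ r) (hrp : r < p) {z z' : ℕ → Ω} (hz : Approx r n p z)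
    (hz' : Approx r n p z') {J : ℕ} (hJ : J ≤ n) (hlow : ∀ i, 1 ≤ i → i < J → ‖z i - z' i‖ < ‖z i‖) {i : ℕ}
    (hi : 1 ≤ i) (hiJ : i < J) :
    ‖chi p r z i - chi p r z' i‖ ≤ max ((p : ℝ) ^ 2 * ((p : ℝ)⁻¹) ^ (2 * Kx n i))
      (if i = 1 then 0 else (p : ℝ) * ((p : ℝ)⁻¹) ^ Kx n (i - 1)) := by
  have h0 : (0 : ℝ) < p := by
    have := (Fact.out : p.Prime).pos
    exact_mod_cast this
  have hδ := delta_low hp hr hrp hz hz' hJ hlow hi hiJ
  have hrn : ‖(r : Ω)‖ = 1 := norm_nat_coprime hp (fun hd => by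
    have := Nat.le_of_dvd (by omega) hd
    omega)
  have hr0 : (r : Ω) ≠ 0 := by
    intro h
    rw [h, norm_zero] at hrn
    exact zero_ne_one hrn
  have hn := norm_z hp hr hrp hz (i := i) hi (by omega)
  have hn' := norm_z hp hr hrp hz' (i := i) hi (by omega)
  have hz1 : ‖z i‖ ≤ 1 := hn.2.2.2.1.le
  have hz1' : ‖z' i‖ ≤ 1 := hn'.2.2.2.1.le
  have hg := geom_near (k := r) hz1 hz1' (le_refl ‖z i - z' i‖)
  have hkap : kap n i = Kx n i := by unfold kap; rw [if_pos (by omega)]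
  have h1 := hz i hi (by omega)
  rw [hkap] at h1
  have h1' : ‖z i ^ (r - 1) - cci p r z i‖ ≤ (p : ℝ) * ((p : ℝ)⁻¹) ^ Kx n i :=
    h1.trans (le_mul_of_one_le_left (by positivity) (D12_p_one p))
  set S : Ω := ∑ l ∈ range r, z i ^ l * z' i ^ (r - 1 - l) with hS
  have hgs : (z i - z' i) * S = z i ^ r - z' i ^ r := (Commute.all _ _).mul_geom_sum₂ r
  have hbr : ‖S / (r : Ω) - cci p r z i‖ ≤ (p : ℝ) * ((p : ℝ)⁻¹) ^ Kx n i := by
    have e : S / (r : Ω) - cci p r z i =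
        (S - (r : Ω) * z i ^ (r - 1)) / (r : Ω) + (z i ^ (r - 1) - cci p r z i) := by
      field_simp
      ring
    rw [e]
    refine (IsUltrametricDist.norm_add_le_max _ _).trans (max_le ?_ h1')
    rw [norm_div, hrn, div_one]
    exact hg.trans hδ
  have e : chi p r z i - chi p r z' i = (z i - z' i) * (S / (r : Ω) - cci p r z i) +
      (bt Ω r - z' i) * (cci p r z i - cci p r z' i) := by
    unfold chi
    have : z i ^ r / (r : Ω) - z' i ^ r / (r : Ω) = (z i - z' i) * (S / (r : Ω)) := by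
      rw [← sub_div, ← hgs, mul_div_assoc]
    linear_combination this
  rw [e]
  refine (IsUltrametricDist.norm_add_le_max _ _).trans (max_le_max ?_ ?_)
  · rw [norm_mul]
    calc ‖z i - z' i‖ * ‖S / (r : Ω) - cci p r z i‖
        ≤ ((p : ℝ) * ((p : ℝ)⁻¹) ^ Kx n i) * ((p : ℝ) * ((p : ℝ)⁻¹) ^ Kx n i) :=
          mul_le_mul hδ hbr (norm_nonneg _) (by positivity)
      _ = (p : ℝ) ^ 2 * ((p : ℝ)⁻¹) ^ (2 * Kx n i) := by rw [two_mul, pow_add]; ring
  · rw [norm_mul, D12_cci hp hr hrp]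
    have hb : ‖bt Ω r - z' i‖ ≤ 1 :=
      (D12_sub _ _).trans (max_le (norm_bt hp hr hrp).le hz1')
    by_cases h : i = 1
    · rw [if_pos (by omega), if_pos h, mul_zero]
    · rw [if_neg (by omega), if_neg h]
      have hd := delta_low hp hr hrp hz hz' hJ hlow (i := i - 1) (by omega) (by omega)
      calc ‖bt Ω r - z' i‖ * ‖z (i - 1) - z' (i - 1)‖ ≤ 1 * ‖z (i - 1) - z' (i - 1)‖ :=
            mul_le_mul_of_nonneg_right hb (norm_nonneg _)
        _ = ‖z (i - 1) - z' (i - 1)‖ := one_mul _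
        _ ≤ _ := hd
end

end CT
end

section

/-!
# The level of the first macroscopic difference

Proof (papers 388, IV.5).  `c := cci z J`, `c' := cci z' J`, `‖c - c'‖ ≤ δ_{J-1} ≤ p π^8 ≤ π^7` (`0` if `J = 1`).  `z J^r - z' J^r = (z J - z' J) c + z' J (c - c') + O(π^(kap n J))`, so
`χ_J - χ'_J = (1/r - 1) (z J - z' J) c + O(π^7)`, `‖1/r - 1‖ = ‖r - 1‖/‖r‖ = 1`, and `‖z J - z' J‖ ‖c‖ = ‖z J‖ ‖z J‖^(r-1) = ‖z J‖^r > π^2`.
-/

set_option autoImplicit false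

open Finset

namespace CT

private theorem nsub_le_max {Ω : Type*} [NormedField Ω] [IsUltrametricDist Ω] (a b : Ω) :
    ‖a - b‖ ≤ max ‖a‖ ‖b‖ := by
  have h := IsUltrametricDist.norm_add_le_max a (-b)
  rwa [norm_neg, ← sub_eq_add_neg] at h

theorem chi_diff_main {Ω : Type*} [NormedField Ω] [IsUltrametricDist Ω] {r n p : ℕ} [Fact p.Prime]
    (hp : ‖(p : Ω)‖ = (p : ℝ)⁻¹) (hr : 3 ≤ r) (hrp : r < p) {z z' : ℕ → Ω} (hz : Approx r n p z)
    (hz' : Approx r n p z') {J : ℕ} (hJ1 : 1 ≤ J) (hJ : J ≤ n)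
    (hlow : ∀ i, 1 ≤ i → i < J → ‖z i - z' i‖ < ‖z i‖) (hJJ : ‖z J‖ ≤ ‖z J - z' J‖) :
    ((p : ℝ)⁻¹) ^ 2 < ‖chi p r z J - chi p r z' J‖ := by
  have hp1 : (1 : ℝ) < (p : ℝ) := by
    have : 1 < p := (Fact.out : p.Prime).one_lt
    exact_mod_cast this
  have hpp : (0 : ℝ) < (p : ℝ) := by linarith
  have hπ0 : (0 : ℝ) < (p : ℝ)⁻¹ := inv_pos.2 hpp
  have hπ1 : (p : ℝ)⁻¹ ≤ 1 := inv_le_one_of_one_le₀ hp1.le
  -- norms of `z J`, `z' J`
  obtain ⟨-, hcz, hz1, hz2, -, -, hz3⟩ := norm_z hp hr hrp hz hJ1 hJ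
  obtain ⟨-, -, hz1', hz2', -, -, -⟩ := norm_z hp hr hrp hz' hJ1 hJ
  have heq : ‖z J‖ = ‖z' J‖ := by
    have h1 := norm_z_n hp hr hrp hz hJ1 hJ
    have h2 := norm_z_n hp hr hrp hz' hJ1 hJ
    have hne : (r - 1) ^ J ≠ 0 := pow_ne_zero _ (by omega)
    exact (pow_left_inj₀ (norm_nonneg _) (norm_nonneg _) hne).1 (h1.trans h2.symm)
  have hd : ‖z J - z' J‖ = ‖z J‖ := by
    apply le_antisymm _ hJJ
    refine (nsub_le_max _ _).trans ?_
    rw [← heq, max_self]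
  -- norm of `c - c'`
  have hcc : ‖cci p r z J - cci p r z' J‖ ≤ ((p : ℝ)⁻¹) ^ 7 := by
    by_cases hJ2 : J ≤ 1
    · unfold cci
      rw [if_pos hJ2, if_pos hJ2, sub_self, norm_zero]
      positivity
    · have h1 : cci p r z J - cci p r z' J = -(bt Ω r ^ (r - 2) * (z (J - 1) - z' (J - 1))) := by
        unfold cci
        rw [if_neg hJ2, if_neg hJ2]
        ring
      rw [h1, norm_neg, norm_mul, norm_pow, norm_bt hp hr hrp, one_pow, one_mul]
      have h2 := delta_low hp hr hrp hz hz' hJ hlow (i := J - 1) (by omega) (by omega)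
      have h3 : ((p : ℝ)⁻¹) ^ Kx n (J - 1) ≤ ((p : ℝ)⁻¹) ^ 8 :=
        pow_le_pow_of_le_one hπ0.le hπ1 (Kx_ge _)
      have h4 : (p : ℝ) * ((p : ℝ)⁻¹) ^ 8 = ((p : ℝ)⁻¹) ^ 7 := by
        rw [pow_succ' _ 7, ← mul_assoc, mul_inv_cancel₀ hpp.ne', one_mul]
      calc ‖z (J - 1) - z' (J - 1)‖ ≤ (p : ℝ) * ((p : ℝ)⁻¹) ^ Kx n (J - 1) := h2
        _ ≤ (p : ℝ) * ((p : ℝ)⁻¹) ^ 8 := mul_le_mul_of_nonneg_left h3 hpp.le
        _ = _ := h4
  -- the errors of the approximate equations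
  have he : ∀ y : ℕ → Ω, Approx r n p y → ‖y J ^ (r - 1) - cci p r y J‖ ≤ ((p : ℝ)⁻¹) ^ 7 := by
    intro y hy
    refine (hy J hJ1 hJ).trans ?_
    exact pow_le_pow_of_le_one hπ0.le hπ1 (le_trans (by norm_num) (kap_ge J))
  have he1 := he z hz
  have he2 := he z' hz'
  -- norms of the integers
  have hr1 : ‖(r : Ω)‖ = 1 :=
    norm_nat_coprime hp (fun h => by have := Nat.le_of_dvd (by omega) h; omega)
  have hr2 : ‖((r : Ω) - 1)‖ = 1 := by
    have h1 : ((r - 1 : ℕ) : Ω) = (r : Ω) - 1 := by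
      rw [Nat.cast_sub (by omega : 1 ≤ r), Nat.cast_one]
    rw [← h1]
    exact norm_nat_coprime hp (fun h => by have := Nat.le_of_dvd (by omega) h; omega)
  have hr0 : (r : Ω) ≠ 0 := by
    intro h
    rw [h, norm_zero] at hr1
    exact zero_ne_one hr1
  have hri : ‖(r : Ω)⁻¹‖ = 1 := by rw [norm_inv, hr1, inv_one]
  -- decomposition
  set c := cci p r z J with hc
  set c' := cci p r z' J with hc'
  have hpow : ∀ y : Ω, y ^ r = y * y ^ (r - 1) := by
    intro y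
    rw [← pow_succ']
    congr 1
    omega
  have hdec : chi p r z J - chi p r z' J =
      ((1 - (r : Ω)) * (r : Ω)⁻¹) * ((z J - z' J) * c) +
        ((r : Ω)⁻¹ * (z' J * (c - c')) + (r : Ω)⁻¹ * (z J * (z J ^ (r - 1) - c)) -
          (r : Ω)⁻¹ * (z' J * (z' J ^ (r - 1) - c')) + (bt Ω r - z' J) * (c - c')) := by
    unfold chi
    rw [← hc, ← hc', hpow (z J), hpow (z' J), div_eq_mul_inv, div_eq_mul_inv]
    have h5 : (1 - (r : Ω)) * (r : Ω)⁻¹ = (r : Ω)⁻¹ - 1 := by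
      field_simp
    rw [h5]
    ring
  have hmain : ‖((1 - (r : Ω)) * (r : Ω)⁻¹) * ((z J - z' J) * c)‖ = ‖z J‖ ^ r := by
    rw [norm_mul, norm_mul, norm_mul, hri, norm_sub_rev (1 : Ω), hr2, hd, hcz, one_mul, one_mul,
      ← pow_succ']
    congr 1
    omega
  have hb1 : ‖bt Ω r - z' J‖ ≤ 1 := by
    refine (nsub_le_max _ _).trans ?_
    rw [norm_bt hp hr hrp]
    exact max_le le_rfl hz2'.le
  have hmul : ∀ (a b : Ω) (t : ℝ), ‖a‖ ≤ 1 → ‖b‖ ≤ t → ‖a * b‖ ≤ t := by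
    intro a b t ha hb
    rw [norm_mul]
    have h1 := norm_nonneg b
    have h2 := norm_nonneg a
    nlinarith
  have hadd : ∀ (a b : Ω) (t : ℝ), ‖a‖ ≤ t → ‖b‖ ≤ t → ‖a + b‖ ≤ t := fun a b t ha hb =>
    (IsUltrametricDist.norm_add_le_max a b).trans (max_le ha hb)
  have hsub : ∀ (a b : Ω) (t : ℝ), ‖a‖ ≤ t → ‖b‖ ≤ t → ‖a - b‖ ≤ t := fun a b t ha hb =>
    (nsub_le_max a b).trans (max_le ha hb)
  have herr : ‖(r : Ω)⁻¹ * (z' J * (c - c')) + (r : Ω)⁻¹ * (z J * (z J ^ (r - 1) - c)) -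
          (r : Ω)⁻¹ * (z' J * (z' J ^ (r - 1) - c')) + (bt Ω r - z' J) * (c - c')‖ ≤
      ((p : ℝ)⁻¹) ^ 7 := by
    apply hadd
    · apply hsub
      · apply hadd
        · exact hmul _ _ _ hri.le (hmul _ _ _ hz2'.le hcc)
        · exact hmul _ _ _ hri.le (hmul _ _ _ hz2.le he1)
      · exact hmul _ _ _ hri.le (hmul _ _ _ hz2'.le he2)
    · exact hmul _ _ _ hb1 hcc
  have hπ72 : ((p : ℝ)⁻¹) ^ 7 ≤ ((p : ℝ)⁻¹) ^ 2 := pow_le_pow_of_le_one hπ0.le hπ1 (by norm_num)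
  rw [hdec]
  set A := ((1 - (r : Ω)) * (r : Ω)⁻¹) * ((z J - z' J) * c) with hA
  set E := (r : Ω)⁻¹ * (z' J * (c - c')) + (r : Ω)⁻¹ * (z J * (z J ^ (r - 1) - c)) -
          (r : Ω)⁻¹ * (z' J * (z' J ^ (r - 1) - c')) + (bt Ω r - z' J) * (c - c') with hE
  have h6 : ‖A‖ ≤ max ‖A + E‖ ‖E‖ := by
    have := nsub_le_max (A + E) E
    rwa [add_sub_cancel_right] at this
  by_contra hcon
  rw [not_lt] at hcon
  have h7 : max ‖A + E‖ ‖E‖ ≤ ((p : ℝ)⁻¹) ^ 2 := max_le hcon (herr.trans hπ72)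
  rw [hmain] at h6
  linarith

end CT
end

section

/-!
# Equal critical values: no macroscopic difference

Proof (papers 388, IV.5).  Suppose not; let `J ∈ [1,n]` be minimal with `‖z J‖ ≤ ‖z J - z' J‖`.  In the sum the term `J` has norm `> π^(sx J) π^2`
(`chi_diff_main`, `‖N J‖ = π^(sx J)`).  Terms `i < J`: `chi_diff_low`, `exp_alpha`, `exp_beta`: norm `≤ π^(sx J + 3)`.  Terms `i > J`: `‖χ‖ ≤ 1`, `exp_gamma`.  Right side:
`exp_delta`.  Contradiction to the ultrametric inequality.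
-/

set_option autoImplicit false

open Finset

namespace CT

section
variable {Ω : Type*} [NormedField Ω] [IsUltrametricDist Ω] {r n p : ℕ} [Fact p.Prime]

omit [Fact p.Prime] in
private theorem nsub_max (a b : Ω) : ‖a - b‖ ≤ max ‖a‖ ‖b‖ := by
  have h := IsUltrametricDist.norm_add_le_max a (-b)
  rwa [norm_neg, ← sub_eq_add_neg] at h

private theorem norm_chi_le (hp : ‖(p : Ω)‖ = (p : ℝ)⁻¹) (hr : 3 ≤ r) (hrp : r < p) {z : ℕ → Ω}
    (hz : Approx r n p z) {i : ℕ} (hi : 1 ≤ i) (hin : i ≤ n) : ‖chi p r z i‖ ≤ 1 := by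
  obtain ⟨_, h2, _, h4, _⟩ := norm_z hp hr hrp hz hi hin
  have hb := norm_bt (Ω := Ω) hp hr hrp
  have hr1 : ‖(r : Ω)‖ = 1 :=
    norm_nat_coprime hp (fun h => absurd (Nat.le_of_dvd (by omega) h) (by omega))
  unfold chi
  refine (IsUltrametricDist.norm_add_le_max _ _).trans (max_le ?_ ?_)
  · rw [norm_div, norm_pow, hr1, div_one]
    exact pow_le_one₀ (norm_nonneg _) h4.le
  · rw [norm_mul, h2]
    refine mul_le_one₀ ((nsub_max _ _).trans ?_) (by positivity)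
      (pow_le_one₀ (norm_nonneg _) h4.le)
    exact max_le hb.le h4.le

private theorem norm_Nx (hp : ‖(p : Ω)‖ = (p : ℝ)⁻¹) (i : ℕ) :
    ‖((Nx r n p i : ℕ) : Ω)‖ = ((p : ℝ)⁻¹) ^ sx r n i := by
  unfold Nx
  rw [Nat.cast_pow, norm_pow, hp]
end

theorem no_macro {Ω : Type*} [NormedField Ω] [IsUltrametricDist Ω] {r n p : ℕ} [Fact p.Prime]
    (hp : ‖(p : Ω)‖ = (p : ℝ)⁻¹) (hr : 3 ≤ r) (hrp : r < p) {z z' : ℕ → Ω} (hz : Approx r n p z)
    (hz' : Approx r n p z')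
    (hf : ‖∑ i ∈ range n, ((Nx r n p (i + 1) : ℕ) : Ω) * (chi p r z (i + 1) - chi p r z' (i + 1))‖ ≤
      ((p : ℝ)⁻¹) ^ (sx r n 1 + k0 n)) {i : ℕ} (hi : 1 ≤ i) (hin : i ≤ n) : ‖z i - z' i‖ < ‖z i‖ := by
  by_contra hcon
  rw [not_lt] at hcon
  classical
  have hex : ∃ J : ℕ, 1 ≤ J ∧ J ≤ n ∧ ‖z J‖ ≤ ‖z J - z' J‖ := ⟨i, hi, hin, hcon⟩
  obtain ⟨J, hJ⟩ : ∃ J : ℕ, J = Nat.find hex := ⟨_, rfl⟩
  obtain ⟨hJ1, hJn, hJJ⟩ := Nat.find_spec hex
  rw [← hJ] at hJ1 hJn hJJ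
  have hlow : ∀ i, 1 ≤ i → i < J → ‖z i - z' i‖ < ‖z i‖ := by
    intro i hi1 hi2
    rw [hJ] at hi2
    by_contra h
    rw [not_lt] at h
    exact Nat.find_min hex hi2 ⟨hi1, by omega, h⟩
  have hmain := chi_diff_main hp hr hrp hz hz' hJ1 hJn hlow hJJ
  have hpp : (1 : ℝ) < p := by exact_mod_cast (Fact.out : p.Prime).one_lt
  obtain ⟨π, hπ⟩ : ∃ π : ℝ, π = (p : ℝ)⁻¹ := ⟨_, rfl⟩
  have hπ0 : 0 < π := by rw [hπ]; exact inv_pos.2 (by linarith)
  have hπ1 : π < 1 := by rw [hπ]; exact inv_lt_one_of_one_lt₀ hpp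
  have hpπ : (p : ℝ) * π = 1 := by rw [hπ]; exact mul_inv_cancel₀ (by linarith)
  have hle : ∀ {a b : ℕ}, a ≤ b → π ^ b ≤ π ^ a := fun h => pow_le_pow_of_le_one hπ0.le hπ1.le h
  rw [← hπ] at hf hmain
  have hother : ∀ j ∈ (range n).erase (J - 1),
      ‖((Nx r n p (j + 1) : ℕ) : Ω) * (chi p r z (j + 1) - chi p r z' (j + 1))‖ ≤
        π ^ (sx r n J + 3) := by
    intro j hj
    rw [mem_erase, mem_range] at hj
    rw [norm_mul, norm_Nx hp, ← hπ]
    rcases lt_or_ge (j + 1) J with h1 | h1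
    · have h2 := chi_diff_low hp hr hrp hz hz' hJn hlow (i := j + 1) (by omega) h1
      rw [← hπ] at h2
      have h3 := mul_le_mul_of_nonneg_left h2 (pow_nonneg hπ0.le (sx r n (j + 1)))
      refine h3.trans ?_
      rw [mul_max_of_nonneg _ _ (pow_nonneg hπ0.le _)]
      refine max_le ?_ ?_
      · have h4 := (exp_alpha (r := r) (i := j + 1) (by omega) h1 hJn).2
        have h5 := hle h4
        have h6 : π ^ sx r n (j + 1) * ((p : ℝ) ^ 2 * π ^ (2 * Kx n (j + 1))) =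
            (p : ℝ) ^ 2 * π ^ (sx r n (j + 1) + 2 * Kx n (j + 1)) := by
          rw [pow_add]
          ring
        have h7 : (p : ℝ) ^ 2 * π ^ (sx r n J + 5) = π ^ (sx r n J + 3) := by
          have : π ^ (sx r n J + 5) = π ^ (sx r n J + 3) * π ^ 2 := by rw [← pow_add]
          rw [this]
          calc (p : ℝ) ^ 2 * (π ^ (sx r n J + 3) * π ^ 2) = (p * π) ^ 2 * π ^ (sx r n J + 3) := by
                ring
            _ = π ^ (sx r n J + 3) := by rw [hpπ, one_pow, one_mul]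
        rw [h6, ← h7]
        exact mul_le_mul_of_nonneg_left h5 (by positivity)
      · split_ifs with h8
        · rw [mul_zero]
          positivity
        · have h4 := exp_beta (r := r) (i := j + 1) (by omega) h1 hJn
          have h5 := hle h4
          have h6 : π ^ sx r n (j + 1) * ((p : ℝ) * π ^ (Kx n (j + 1 - 1))) =
              (p : ℝ) * π ^ (sx r n (j + 1) + Kx n (j + 1 - 1)) := by
            rw [pow_add]
            ring
          have h7 : (p : ℝ) * π ^ (sx r n J + 4) = π ^ (sx r n J + 3) := by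
            have : π ^ (sx r n J + 4) = π ^ (sx r n J + 3) * π := by rw [← pow_succ]
            rw [this]
            calc (p : ℝ) * (π ^ (sx r n J + 3) * π) = (p * π) * π ^ (sx r n J + 3) := by
                  ring
              _ = π ^ (sx r n J + 3) := by rw [hpπ, one_mul]
          rw [h6, ← h7]
          exact mul_le_mul_of_nonneg_left h5 (by positivity)
    · have h2 : J < j + 1 := by omega
      have h3 : ‖chi p r z (j + 1) - chi p r z' (j + 1)‖ ≤ 1 :=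
        (nsub_max _ _).trans
          (max_le (norm_chi_le hp hr hrp hz (by omega) (by omega))
            (norm_chi_le hp hr hrp hz' (by omega) (by omega)))
      have h4 := exp_gamma (r := r) (n := n) hJ1 h2
      calc π ^ sx r n (j + 1) * ‖chi p r z (j + 1) - chi p r z' (j + 1)‖
          ≤ π ^ sx r n (j + 1) * 1 := mul_le_mul_of_nonneg_left h3 (by positivity)
        _ = π ^ sx r n (j + 1) := mul_one _
        _ ≤ π ^ (sx r n J + 3) := hle (by omega)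
  have hsum : ‖∑ j ∈ (range n).erase (J - 1),
      ((Nx r n p (j + 1) : ℕ) : Ω) * (chi p r z (j + 1) - chi p r z' (j + 1))‖ ≤
        π ^ (sx r n J + 3) :=
    IsUltrametricDist.norm_sum_le_of_forall_le_of_nonneg (by positivity) hother
  have hf' : ‖∑ i ∈ range n, ((Nx r n p (i + 1) : ℕ) : Ω) *
      (chi p r z (i + 1) - chi p r z' (i + 1))‖ ≤ π ^ (sx r n J + 3) :=
    hf.trans (hle (exp_delta hJ1 hJn))
  have hmem : J - 1 ∈ range n := mem_range.2 (by omega)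
  rw [← Finset.sum_erase_add _ _ hmem] at hf'
  have hterm : ‖((Nx r n p (J - 1 + 1) : ℕ) : Ω) *
      (chi p r z (J - 1 + 1) - chi p r z' (J - 1 + 1))‖ ≤ π ^ (sx r n J + 3) := by
    have h1 := nsub_max
      (∑ j ∈ (range n).erase (J - 1),
        ((Nx r n p (j + 1) : ℕ) : Ω) * (chi p r z (j + 1) - chi p r z' (j + 1)) +
        ((Nx r n p (J - 1 + 1) : ℕ) : Ω) * (chi p r z (J - 1 + 1) - chi p r z' (J - 1 + 1)))
      (∑ j ∈ (range n).erase (J - 1),
        ((Nx r n p (j + 1) : ℕ) : Ω) * (chi p r z (j + 1) - chi p r z' (j + 1)))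
    rw [add_sub_cancel_left] at h1
    exact h1.trans (max_le hf' hsum)
  have e1 : J - 1 + 1 = J := by omega
  rw [e1, norm_mul, norm_Nx hp, ← hπ] at hterm
  have h2 := mul_lt_mul_of_pos_left hmain (pow_pos hπ0 (sx r n J))
  rw [← pow_add] at h2
  have h3 := hle (a := sx r n J + 2) (b := sx r n J + 3) (by omega)
  linarith

end CT
end
end
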