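import Pool.Agent.Lib.MP_63f67f_co.Defs
import Pool.Agent.Lib.MP_63f67f_co.B02
import Pool.Agent.Lib.MP_63f67f_co.A20

section

/-!
# Kovari-Sos-Turan step for boxes

Proof.  For `h : Fin j → V` let `d h := card {v | Fin.snoc h v ∈ R}` (or `Fin.cons v h`); `∑ h, d h = card R ≥ c n^(j+1)`, `n = card V`.  Count pairs
`(h, B)` with `B` a `t`-subset of the `v`'s: `∑ h, choose (d h) t`; those `h` with `d h ≥ c n / 2` are at least `(c/2) n^j` many, each with
`choose ⌈c n/2⌉ t ≥ (c/4)^t choose n t` sets `B` (`n` large).  So some `t`-set `B` is counted at least `(c/2)(c/4)^t n^j` times.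
-/

set_option autoImplicit false

open Finset

namespace CT

private theorem card_eq_sum_cons {V : Type} [Fintype V] [DecidableEq V] {j : ℕ}
    (R : Finset (Fin (j + 1) → V)) :
    R.card = ∑ h : Fin j → V, (univ.filter (fun v : V => (Fin.cons v h : Fin (j + 1) → V) ∈ R)).card := by
  classical
  rw [card_eq_sum_card_fiberwise (f := fun g : Fin (j + 1) → V => (Fin.tail g : Fin j → V))
    (t := univ) (fun _ _ => mem_coe.2 (mem_univ _))]
  refine sum_congr rfl fun h _ => ?_
  refine card_nbij' (fun g => g 0) (fun v => (Fin.cons v h : Fin (j + 1) → V)) ?_ ?_ ?_ ?_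
  · intro g hg
    have hg' := (mem_filter.1 (mem_coe.1 hg))
    refine mem_coe.2 (mem_filter.2 ⟨mem_univ _, ?_⟩)
    have : (Fin.cons (g 0) h : Fin (j + 1) → V) = g := by
      rw [← hg'.2]
      exact Fin.cons_self_tail g
    simp only [this]
    exact hg'.1
  · intro v hv
    have hv' := (mem_filter.1 (mem_coe.1 hv)).2
    exact mem_coe.2 (mem_filter.2 ⟨hv', Fin.tail_cons (α := fun _ => V) v h⟩)
  · intro g hg
    have hg' := (mem_filter.1 (mem_coe.1 hg))
    simp only
    rw [← hg'.2]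
    exact Fin.cons_self_tail g
  · intro v _
    exact Fin.cons_zero (α := fun _ => V) v h

private theorem double_count {V : Type} [Fintype V] [DecidableEq V] {j : ℕ} (t : ℕ)
    (R : Finset (Fin (j + 1) → V)) :
    ∑ B ∈ powersetCard t (univ : Finset V),
      (univ.filter (fun h : Fin j → V => ∀ v ∈ B, (Fin.cons v h : Fin (j + 1) → V) ∈ R)).card =
    ∑ h : Fin j → V,
      ((univ.filter (fun v : V => (Fin.cons v h : Fin (j + 1) → V) ∈ R)).card).choose t := by
  have h1 := sum_card_bipartiteAbove_eq_sum_card_bipartiteBelow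
    (s := powersetCard t (univ : Finset V)) (t := (univ : Finset (Fin j → V)))
    (fun (B : Finset V) (h : Fin j → V) => ∀ v ∈ B, (Fin.cons v h : Fin (j + 1) → V) ∈ R)
  unfold bipartiteAbove bipartiteBelow at h1
  rw [h1]
  refine sum_congr rfl fun h _ => ?_
  rw [← card_powersetCard]
  congr 1
  ext B
  simp only [mem_filter, mem_powersetCard, subset_iff, mem_univ, true_and, implies_true]
  tauto

theorem box_step (j t : ℕ) (c : ℝ) (hc : 0 < c) : ∃ (c' : ℝ) (n0 : ℕ), 0 < c' ∧ ∀ (V : Type) [Fintype V] [DecidableEq V],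
    n0 ≤ Fintype.card V → ∀ R : Finset (Fin (j + 1) → V), c * (Fintype.card V : ℝ) ^ (j + 1) ≤ (R.card : ℝ) →
    ∃ B : Finset V, B.card = t ∧
      c' * (Fintype.card V : ℝ) ^ j ≤
        ((univ.filter (fun h : Fin j → V => ∀ v ∈ B, Fin.cons v h ∈ R)).card : ℝ) := by
  refine ⟨(c / 2) ^ t / 2, ⌈2 * t / c⌉₊ + 1, by positivity, ?_⟩
  intro V _ _ hn R hR
  by_contra hcon
  push Not at hcon
  set n : ℝ := (Fintype.card V : ℝ) with hndef
  have hn1 : (2 * t / c : ℝ) + 1 ≤ n := by
    have h1 : ((⌈2 * (t : ℝ) / c⌉₊ + 1 : ℕ) : ℝ) ≤ n := Nat.cast_le.2 hn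
    have h2 := Nat.le_ceil (2 * t / c : ℝ)
    push_cast at h1
    linarith
  have ht0 : (0 : ℝ) ≤ 2 * t / c := by positivity
  have hnpos : 0 < n := by linarith
  have hcn : (t : ℝ) ≤ c * n / 2 := by
    have h1 : 2 * t / c ≤ n := by linarith
    rw [div_le_iff₀ hc] at h1
    linarith
  set d : (Fin j → V) → ℕ :=
    fun h => (univ.filter (fun v : V => (Fin.cons v h : Fin (j + 1) → V) ∈ R)).card with hd
  have hcardR : (R.card : ℝ) = ∑ h : Fin j → V, (d h : ℝ) := by
    rw [card_eq_sum_cons R]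
    push_cast
    rfl
  have hNj : ((univ : Finset (Fin j → V)).card : ℝ) = n ^ j := by
    rw [card_univ, Fintype.card_fun, Fintype.card_fin]
    push_cast
    rfl
  -- upper bound
  have hup : (t.factorial : ℝ) * ∑ h : Fin j → V, ((d h).choose t : ℝ) ≤
      n ^ t * ((c / 2) ^ t / 2 * n ^ j) := by
    have h1 : (∑ h : Fin j → V, ((d h).choose t : ℝ)) =
        ∑ B ∈ powersetCard t (univ : Finset V),
          ((univ.filter (fun h : Fin j → V => ∀ v ∈ B, (Fin.cons v h : Fin (j + 1) → V) ∈ R)).card : ℝ) := by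
      have h := double_count t R
      have h' := congrArg (fun x : ℕ => (x : ℝ)) h
      push_cast at h'
      exact h'.symm
    have h2 : (∑ h : Fin j → V, ((d h).choose t : ℝ)) ≤
        ((Fintype.card V).choose t : ℝ) * ((c / 2) ^ t / 2 * n ^ j) := by
      rw [h1]
      have h3 : ∀ B ∈ powersetCard t (univ : Finset V),
          ((univ.filter (fun h : Fin j → V => ∀ v ∈ B, (Fin.cons v h : Fin (j + 1) → V) ∈ R)).card : ℝ) ≤
            ((c / 2) ^ t / 2 * n ^ j) := by
        intro B hB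
        exact (hcon B (mem_powersetCard.1 hB).2).le
      have h4 := sum_le_card_nsmul _ _ _ h3
      rw [card_powersetCard, card_univ, nsmul_eq_mul] at h4
      exact h4
    have h5 : (t.factorial : ℝ) * ((Fintype.card V).choose t : ℝ) ≤ n ^ t := by
      have h6 : t.factorial * (Fintype.card V).choose t ≤ (Fintype.card V) ^ t := by
        rw [← Nat.descFactorial_eq_factorial_mul_choose]
        exact Nat.descFactorial_le_pow _ _
      have h7 : ((t.factorial * (Fintype.card V).choose t : ℕ) : ℝ) ≤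
          ((Fintype.card V ^ t : ℕ) : ℝ) := Nat.cast_le.2 h6
      rw [Nat.cast_mul, Nat.cast_pow] at h7
      exact h7
    calc (t.factorial : ℝ) * ∑ h : Fin j → V, ((d h).choose t : ℝ)
        ≤ (t.factorial : ℝ) * (((Fintype.card V).choose t : ℝ) * ((c / 2) ^ t / 2 * n ^ j)) :=
          mul_le_mul_of_nonneg_left h2 (by positivity)
      _ = ((t.factorial : ℝ) * ((Fintype.card V).choose t : ℝ)) * ((c / 2) ^ t / 2 * n ^ j) := by ring
      _ ≤ n ^ t * ((c / 2) ^ t / 2 * n ^ j) := mul_le_mul_of_nonneg_right h5 (by positivity)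
  -- lower bound
  have hlow : n ^ j * (c / 2 * n) ^ t ≤ (t.factorial : ℝ) * ∑ h : Fin j → V, ((d h).choose t : ℝ) := by
    have hterm : ∀ h : Fin j → V, (max ((d h : ℝ) - t) 0) ^ t ≤ (t.factorial : ℝ) * ((d h).choose t : ℝ) := by
      intro h
      have h6 : (d h + 1 - t) ^ t ≤ t.factorial * (d h).choose t := by
        rw [← Nat.descFactorial_eq_factorial_mul_choose]
        exact Nat.pow_sub_le_descFactorial _ _
      have h7 : (((d h + 1 - t : ℕ) : ℝ)) ^ t ≤ (t.factorial : ℝ) * ((d h).choose t : ℝ) := by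
        exact_mod_cast h6
      refine le_trans (pow_le_pow_left₀ (le_max_right _ _) ?_ t) h7
      refine max_le ?_ (by positivity)
      have h8 : d h + 1 ≤ (d h + 1 - t) + t := by omega
      have h9 : ((d h : ℝ) + 1) ≤ ((d h + 1 - t : ℕ) : ℝ) + t := by exact_mod_cast h8
      linarith
    have hsum : c / 2 * n ≤ ∑ h : Fin j → V, (n ^ j)⁻¹ * max ((d h : ℝ) - t) 0 := by
      rw [← mul_sum]
      have h1 : (c * n - t) * n ^ j ≤ ∑ h : Fin j → V, max ((d h : ℝ) - t) 0 := by
        calc (c * n - t) * n ^ j = c * n ^ (j + 1) - t * n ^ j := by ring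
          _ ≤ (R.card : ℝ) - t * n ^ j := by linarith
          _ = ∑ h : Fin j → V, ((d h : ℝ) - t) := by
              rw [hcardR, sum_sub_distrib, sum_const, nsmul_eq_mul, hNj]
              ring
          _ ≤ _ := sum_le_sum fun h _ => le_max_left _ _
      have hnj : 0 < n ^ j := by positivity
      rw [inv_mul_eq_div, le_div_iff₀ hnj]
      refine le_trans (mul_le_mul_of_nonneg_right ?_ hnj.le) h1
      linarith
    have hnj : 0 < n ^ j := by positivity
    have hpm := Real.pow_arith_mean_le_arith_mean_pow (univ : Finset (Fin j → V))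
      (fun _ => (n ^ j)⁻¹) (fun h => max ((d h : ℝ) - t) 0) (fun _ _ => by positivity)
      (by rw [sum_const, nsmul_eq_mul, hNj, mul_inv_cancel₀ hnj.ne'])
      (fun _ _ => le_max_right _ _) t
    have h2 : (c / 2 * n) ^ t ≤ ∑ h : Fin j → V, (n ^ j)⁻¹ * (max ((d h : ℝ) - t) 0) ^ t :=
      le_trans (pow_le_pow_left₀ (by positivity) hsum t) hpm
    rw [← mul_sum, inv_mul_eq_div, le_div_iff₀ hnj] at h2
    calc n ^ j * (c / 2 * n) ^ t = (c / 2 * n) ^ t * n ^ j := by ring
      _ ≤ ∑ h : Fin j → V, (max ((d h : ℝ) - t) 0) ^ t := h2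
      _ ≤ ∑ h : Fin j → V, (t.factorial : ℝ) * ((d h).choose t : ℝ) := sum_le_sum fun h _ => hterm h
      _ = _ := by rw [mul_sum]
  have hfin := hlow.trans hup
  have hpos : 0 < n ^ j * (c / 2 * n) ^ t := by positivity
  have heq : n ^ t * ((c / 2) ^ t / 2 * n ^ j) = n ^ j * (c / 2 * n) ^ t / 2 := by
    rw [mul_pow]
    ring
  rw [heq] at hfin
  linarith

end CT
end

section

/-!
# Automorphisms of `PadicAlgCl p` are isometries, the norm of `p`

Proof.  `‖x‖ = spectralNorm ℚ_[p] _ x` depends only on the minimal polynomial (`spectralNorm`, `minpoly.algEquiv_eq`).  `‖p‖`: `PadicAlgCl.norm_extends`, `padicNormE.norm_p`.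
-/

set_option autoImplicit false

open Finset

namespace CT

theorem norm_algEquiv {p : ℕ} [Fact p.Prime] (τ : PadicAlgCl p ≃ₐ[ℚ_[p]] PadicAlgCl p) (x : PadicAlgCl p) :
    ‖τ x‖ = ‖x‖ := by
  rw [← PadicAlgCl.spectralNorm_eq, ← PadicAlgCl.spectralNorm_eq]
  unfold spectralNorm
  rw [minpoly.algEquiv_eq]

theorem norm_p_algCl (p : ℕ) [Fact p.Prime] : ‖(p : PadicAlgCl p)‖ = (p : ℝ)⁻¹ := by
  have h1 : ((p : ℚ_[p]) : PadicAlgCl p) = (p : PadicAlgCl p) := by
    exact map_natCast _ p
  rw [← h1, PadicAlgCl.norm_extends, Padic.norm_p]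

end CT
end

section

/-!
# Transport of solutions along ring homomorphisms

Proof.  All expressions are polynomial with integer coefficients.  `Sol.of_injective`: `Λ := esy .. ` at some vertex `inl o` (`1 ≤ M`).  `Sol.congr`: only the values `a i`, `i ≤ n`, are used
(`1 ≤ n`).
-/

set_option autoImplicit false

open Finset

namespace CT

section
variable {R S : Type*} [CommRing R] [CommRing S] {r n p : ℕ} {N : ℕ → ℕ} {M : ℕ}

private theorem D18_esy {V : Type*} [DecidableEq V] (f : R →+* S) (s : Finset V) (k : ℕ)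
    (x : V → R) (z : V → S) (hz : ∀ v, f (x v) = z v) : f (esy s k x) = esy s k z := by
  unfold esy
  rw [map_sum]
  refine sum_congr rfl fun e _ => ?_
  rw [map_prod]
  exact prod_congr rfl fun v _ => hz v

private theorem D18_cc (f : R →+* S) (b : R) (a : ℕ → R) (v : PV n N M) :
    f (cc n N M b a v) = cc n N M (f b) (fun i => f (a i)) v := by
  rcases v with o | u
  · rfl
  · rfl

private theorem D18_Nval (f : R →+* S) (a : ℕ → R) (i : ℕ) :
    f (Nval r n p N a i) = Nval r n p N (fun i => f (a i)) i := by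
  unfold Nval
  split_ifs <;> simp only [map_add, map_mul, map_sum, map_pow, map_natCast, map_zero]

private theorem D18_Nsum (f : R →+* S) (a : ℕ → R) :
    f (Nsum r n p N a) = Nsum r n p N (fun i => f (a i)) := by
  unfold Nsum
  simp only [map_add, map_mul, map_sum, map_pow, map_natCast]

private theorem D18_sum (f : R →+* S) (b : R) (a : ℕ → R) :
    f ((M : R) * b + ∑ i ∈ range (n + 1), (N i : R) * a i) =
      (M : S) * f b + ∑ i ∈ range (n + 1), (N i : S) * f (a i) := by
  simp only [map_add, map_mul, map_sum, map_natCast]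

omit [CommRing R] in
private theorem D18_cc_congr {b : R} {a a' : ℕ → R} (h : ∀ i, i ≤ n → a i = a' i) :
    cc n N M b a = cc n N M b a' := by
  funext v
  rcases v with o | u
  · rfl
  · exact h _ (Nat.lt_succ_iff.1 u.1.isLt)

private theorem D18_Nval_congr (hn : 1 ≤ n) {a a' : ℕ → R} (h : ∀ i, i ≤ n → a i = a' i) (i : ℕ)
    (hi : i ≤ n) : Nval r n p N a i = Nval r n p N a' i := by
  unfold Nval
  by_cases h0 : i = 0
  · rw [if_pos h0, if_pos h0, h 1 hn, h 0 (Nat.zero_le _)]
    congr 1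
    refine sum_congr rfl fun l hl => ?_
    rw [mem_range] at hl
    rw [h (l + 1) (by omega), h l (by omega)]
  · rw [if_neg h0, if_neg h0, h 0 (Nat.zero_le _), h (i - 1) (by omega)]
    congr 1
    by_cases h1 : i < n
    · rw [if_pos h1, if_pos h1, h (i + 1) (by omega)]
    · rw [if_neg h1, if_neg h1]

private theorem D18_Nsum_congr {a a' : ℕ → R} (h : ∀ i, i ≤ n → a i = a' i) :
    Nsum r n p N a = Nsum r n p N a' := by
  unfold Nsum
  refine sum_congr rfl fun l hl => ?_
  rw [mem_range] at hl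
  rw [h (l + 1) (by omega), h l (by omega), h 0 (Nat.zero_le _)]

theorem fval_map (f : R →+* S) (b : R) (a : ℕ → R) :
    f (fval r n p N M b a) = fval r n p N M (f b) (fun i => f (a i)) := by
  unfold fval
  rw [map_sub, D18_esy f univ r (cc n N M b a) _ (D18_cc f b a), D18_Nsum]

theorem Sol.map (f : R →+* S) {b : R} {a : ℕ → R} (h : Sol r n p N M b a) :
    Sol r n p N M (f b) (fun i => f (a i)) := by
  refine ⟨?_, ?_⟩
  · rw [← D18_sum f b a, h.sum_one, map_one]
  · obtain ⟨Λ, h1, h2⟩ := h.crit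
    refine ⟨f Λ, ?_, ?_⟩
    · intro o
      rw [← h1 o]
      exact (D18_esy f _ _ (cc n N M b a) _ (D18_cc f b a)).symm
    · intro u
      rw [← h2 u, map_sub, D18_Nval]
      congr 1
      exact (D18_esy f _ _ (cc n N M b a) _ (D18_cc f b a)).symm

theorem Sol.of_injective (hM : 1 ≤ M) (f : R →+* S) (hf : Function.Injective f) {b : R} {a : ℕ → R}
    (h : Sol r n p N M (f b) (fun i => f (a i))) : Sol r n p N M b a := by
  refine ⟨?_, ?_⟩
  · apply hf
    rw [D18_sum f b a, h.sum_one, map_one]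
  · obtain ⟨Λ, h1, h2⟩ := h.crit
    have hes : ∀ v : PV n N M, f (esy (univ.erase v) (r - 1) (cc n N M b a)) =
        esy (univ.erase v) (r - 1) (cc n N M (f b) (fun i => f (a i))) := fun v =>
      D18_esy f _ _ (cc n N M b a) _ (D18_cc f b a)
    refine ⟨esy (univ.erase (Sum.inl ⟨0, hM⟩)) (r - 1) (cc n N M b a), ?_, ?_⟩
    · intro o
      apply hf
      rw [hes, hes, h1, h1]
    · intro u
      apply hf
      rw [map_sub, hes, hes, h1, D18_Nval, h2]

theorem Sol.congr (hn : 1 ≤ n) {b : R} {a a' : ℕ → R} (h : ∀ i, i ≤ n → a i = a' i) (hS : Sol r n p N M b a) :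
    Sol r n p N M b a' := by
  refine ⟨?_, ?_⟩
  · rw [← hS.sum_one]
    congr 1
    refine sum_congr rfl fun i hi => ?_
    rw [mem_range] at hi
    rw [h i (by omega)]
  · obtain ⟨Λ, h1, h2⟩ := hS.crit
    rw [D18_cc_congr (N := N) (M := M) (b := b) h] at h1 h2
    refine ⟨Λ, h1, ?_⟩
    intro u
    rw [← D18_Nval_congr hn h _ (Nat.lt_succ_iff.1 u.1.isLt)]
    exact h2 u

theorem fval_congr (hn : 1 ≤ n) {b : R} {a a' : ℕ → R} (h : ∀ i, i ≤ n → a i = a' i) :
    fval r n p N M b a = fval r n p N M b a' := by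
  unfold fval
  rw [D18_cc_congr h, D18_Nsum_congr h]
end

end CT
end

section

/-!
# From the two bounds to the limit

Proof.  For `n ≥ r` the set defining `minCodeg` is nonempty, `minCodeg` is attained, and `codeg = card nb`
(`codeg_eq`).  Upper bound: if `H` is `F`-free then `minCodeg (r+1) n H < (d+ε) n` (else `hU`), so
`exCodeg ≤ (d+ε) n` (the set is bounded by `n`; if it is empty the `sSup` is `0`).  Lower bound: the graph of `hL` has
`minCodeg ≥ (d-ε) n`, and the set is bounded above, so `exCodeg ≥ (d-ε) n`.  Divide by `n - r`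
(`(n:ℝ) - (r+1) + 1 = n - r`) and let `n → ∞`.
-/

set_option autoImplicit false

open Finset

namespace CT

private lemma minCodeg_attained {r n : ℕ} (hn : r ≤ n) (H : Finset (Finset (Fin n))) :
    ∃ S : Finset (Fin n), S.card = r ∧ minCodeg (r + 1) n H = codeg H S := by
  have hne : ({c | ∃ S : Finset (Fin n), S.card = r + 1 - 1 ∧ c = codeg H S} : Set ℕ).Nonempty := by
    obtain ⟨S, -, hS⟩ := Finset.exists_subset_card_eq (s := (univ : Finset (Fin n))) (n := r)
      (by simpa using hn)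
    exact ⟨codeg H S, S, by simpa using hS, rfl⟩
  obtain ⟨S, hS, hc⟩ := Nat.sInf_mem hne
  exact ⟨S, by simpa using hS, hc⟩

private lemma minCodeg_le {r n : ℕ} (H : Finset (Finset (Fin n))) {S : Finset (Fin n)}
    (hS : S.card = r) : minCodeg (r + 1) n H ≤ codeg H S :=
  Nat.sInf_le ⟨S, by simpa using hS, rfl⟩

private lemma minCodeg_le_card {r n : ℕ} (H : Finset (Finset (Fin n))) (hH : Unif (r + 1) H) :
    minCodeg (r + 1) n H ≤ n := by
  by_cases hn : r ≤ n
  · obtain ⟨S, hS, hc⟩ := minCodeg_attained hn H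
    rw [hc, codeg_eq hH hS]
    simpa using Finset.card_le_univ (nb H S)
  · have h : ({c | ∃ S : Finset (Fin n), S.card = r + 1 - 1 ∧ c = codeg H S} : Set ℕ) = ∅ := by
      ext c
      simp only [Set.mem_setOf_eq, Set.mem_empty_iff_false, iff_false]
      rintro ⟨S, hS, -⟩
      have := Finset.card_le_univ S
      simp at this hS
      omega
    unfold minCodeg
    rw [h, Nat.sInf_empty]
    exact Nat.zero_le _

private lemma exCodeg_upper {r s : ℕ} {F : Finset (Finset (Fin s))} {n : ℕ} {c : ℝ} (hc : 0 ≤ c)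
    (hU : ∀ H : Finset (Finset (Fin n)), Unif (r + 1) H → MinCo r H c → Contains F H) :
    (exCodeg (r + 1) n F : ℝ) ≤ c := by
  have key : exCodeg (r + 1) n F ≤ ⌊c⌋₊ := by
    unfold exCodeg
    rcases Set.eq_empty_or_nonempty
      ({c | ∃ H : Finset (Finset (Fin n)), Unif (r + 1) H ∧ ¬ Contains F H ∧
        c = minCodeg (r + 1) n H} : Set ℕ) with h | h
    · rw [h, csSup_empty]
      exact Nat.zero_le _
    · refine csSup_le h ?_
      rintro b ⟨H, hH, hF, rfl⟩
      by_contra hcon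
      have h1 : c < (minCodeg (r + 1) n H : ℝ) := by
        have := Nat.lt_of_floor_lt (not_le.1 hcon)
        exact this
      refine hF (hU H hH fun S hS => ?_)
      have h2 := minCodeg_le H hS
      rw [codeg_eq hH hS] at h2
      have h3 : (minCodeg (r + 1) n H : ℝ) ≤ ((nb H S).card : ℝ) := by exact_mod_cast h2
      linarith
  calc (exCodeg (r + 1) n F : ℝ) ≤ (⌊c⌋₊ : ℝ) := by exact_mod_cast key
    _ ≤ c := Nat.floor_le hc

private lemma exCodeg_lower {r s : ℕ} {F : Finset (Finset (Fin s))} {n : ℕ} (hn : r ≤ n) {c : ℝ}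
    {H : Finset (Finset (Fin n))} (hH : Unif (r + 1) H) (hM : MinCo r H c) (hF : ¬ Contains F H) :
    c ≤ (exCodeg (r + 1) n F : ℝ) := by
  obtain ⟨S, hS, hc⟩ := minCodeg_attained hn H
  have h1 : c ≤ (minCodeg (r + 1) n H : ℝ) := by
    rw [hc, codeg_eq hH hS]
    exact hM S hS
  have h2 : minCodeg (r + 1) n H ≤ exCodeg (r + 1) n F := by
    unfold exCodeg
    refine le_csSup ⟨n, ?_⟩ ⟨H, hH, hF, rfl⟩
    rintro b ⟨H', hH', -, rfl⟩
    exact minCodeg_le_card H' hH'
  have h3 : (minCodeg (r + 1) n H : ℝ) ≤ (exCodeg (r + 1) n F : ℝ) := by exact_mod_cast h2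
  linarith

private lemma tendsto_ratio (r : ℕ) (c : ℝ) :
    Filter.Tendsto (fun n : ℕ => c * (n : ℝ) / ((n : ℝ) - r)) Filter.atTop (nhds c) := by
  have h1 : Filter.Tendsto (fun n : ℕ => (n : ℝ) - r) Filter.atTop Filter.atTop :=
    Filter.tendsto_atTop_add_const_right _ _ tendsto_natCast_atTop_atTop
  have h2 : Filter.Tendsto (fun n : ℕ => c + c * r / ((n : ℝ) - r)) Filter.atTop (nhds (c + 0)) :=
    tendsto_const_nhds.add (tendsto_const_nhds.div_atTop h1)
  rw [add_zero] at h2
  refine h2.congr' ?_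
  filter_upwards [Filter.eventually_gt_atTop r] with n hn
  have h3 : (n : ℝ) - r ≠ 0 := by
    have : (r : ℝ) < n := by exact_mod_cast hn
    linarith
  field_simp
  ring

theorem density_of_bounds (r s : ℕ) (F : Finset (Finset (Fin s))) (d : ℝ) (hd : 0 ≤ d)
    (hU : ∀ ε : ℝ, 0 < ε → ∃ n0 : ℕ, ∀ n : ℕ, n0 ≤ n → ∀ H : Finset (Finset (Fin n)),
      Unif (r + 1) H → MinCo r H ((d + ε) * n) → Contains F H)
    (hL : ∀ ε : ℝ, 0 < ε → ∃ n0 : ℕ, ∀ n : ℕ, n0 ≤ n → ∃ H : Finset (Finset (Fin n)),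
      Unif (r + 1) H ∧ MinCo r H ((d - ε) * n) ∧ ¬ Contains F H) :
    IsCodegDensity (r + 1) F d := by
  unfold IsCodegDensity
  have he : ∀ n : ℕ, (n : ℝ) - ((r + 1 : ℕ) : ℝ) + 1 = (n : ℝ) - r := fun n => by
    push_cast
    ring
  simp_rw [he]
  refine tendsto_order.2 ⟨fun a ha => ?_, fun a ha => ?_⟩
  · have hε : 0 < (d - a) / 2 := by linarith
    obtain ⟨n0, hn0⟩ := hL _ hε
    have h1 := (tendsto_ratio r (d - (d - a) / 2)).eventually (lt_mem_nhds (show a < d - (d - a) / 2 by linarith))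
    filter_upwards [h1, Filter.eventually_gt_atTop r, Filter.eventually_ge_atTop n0] with n h2 h3 h4
    obtain ⟨H, hH, hM, hF⟩ := hn0 n h4
    have h5 := exCodeg_lower h3.le hH hM hF
    have h6 : (0 : ℝ) < (n : ℝ) - r := by
      have : (r : ℝ) < n := by exact_mod_cast h3
      linarith
    exact lt_of_lt_of_le h2 (div_le_div_of_nonneg_right h5 h6.le)
  · have hε : 0 < (a - d) / 2 := by linarith
    obtain ⟨n0, hn0⟩ := hU _ hε
    have h1 := (tendsto_ratio r (d + (a - d) / 2)).eventually (gt_mem_nhds (show d + (a - d) / 2 < a by linarith))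
    filter_upwards [h1, Filter.eventually_gt_atTop r, Filter.eventually_ge_atTop n0] with n h2 h3 h4
    have h5 : (exCodeg (r + 1) n F : ℝ) ≤ (d + (a - d) / 2) * n :=
      exCodeg_upper (by positivity) (hn0 n h4)
    have h6 : (0 : ℝ) < (n : ℝ) - r := by
      have : (r : ℝ) < n := by exact_mod_cast h3
      linarith
    exact lt_of_le_of_lt (div_le_div_of_nonneg_right h5 h6.le) h2

end CT
end

section

/-!
# The box theorem of Erdos

Proof.  Induction on `j` with `box_step`.
-/

set_option autoImplicit false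

open Finset

namespace CT

theorem box_thm (j t : ℕ) : ∀ c : ℝ, 0 < c → ∃ n0 : ℕ, ∀ (V : Type) [Fintype V] [DecidableEq V],
    n0 ≤ Fintype.card V → ∀ R : Finset (Fin j → V), c * (Fintype.card V : ℝ) ^ j ≤ (R.card : ℝ) →
    ∃ B : Fin j → Finset V, (∀ i, (B i).card = t) ∧ ∀ h : Fin j → V, (∀ i, h i ∈ B i) → h ∈ R := by
  induction j with
  | zero =>
    intro c hc
    refine ⟨0, fun V _ _ _ R hR => ⟨fun i => i.elim0, fun i => i.elim0, fun h _ => ?_⟩⟩
    rw [pow_zero, mul_one] at hR
    have h1 : 0 < R.card := by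
      have : (0 : ℝ) < (R.card : ℝ) := lt_of_lt_of_le hc hR
      exact_mod_cast this
    obtain ⟨g, hg⟩ := card_pos.1 h1
    rwa [Subsingleton.elim h g]
  | succ j ih =>
    intro c hc
    obtain ⟨c', n0, hc', hstep⟩ := box_step j t c hc
    obtain ⟨n1, hn1⟩ := ih c' hc'
    refine ⟨max n0 n1, fun V _ _ hV R hR => ?_⟩
    obtain ⟨B0, hB0, hcard⟩ := hstep V (le_trans (le_max_left _ _) hV) R hR
    obtain ⟨B', hB', hbox⟩ := hn1 V (le_trans (le_max_right _ _) hV) _ hcard
    refine ⟨Fin.cons B0 B', ?_, ?_⟩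
    · intro i
      refine Fin.cases ?_ ?_ i
      · rw [Fin.cons_zero]; exact hB0
      · intro i; rw [Fin.cons_succ]; exact hB' i
    · intro h hh
      have h1 := hbox (Fin.tail h) (fun i => by
        have := hh i.succ
        rw [Fin.cons_succ] at this
        exact this)
      rw [mem_filter] at h1
      have h2 := h1.2 (h 0) (by
        have := hh 0
        rw [Fin.cons_zero] at this
        exact this)
      rwa [Fin.cons_self_tail] at h2

end CT
end

section

/-!
# Ramification bounds the degree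

Proof.  The powers `ω^j`, `0 ≤ j < e`, are linearly independent over `ℚ_[p]`: in `∑ c j ω^j` the nonzero terms have pairwise different norms `p^(-k_j) ‖ω‖^j`
(the `e`-th powers `p^(-(e k_j + j))` are different), so the norm of the sum is the maximum (ultrametric) and the sum is nonzero unless all `c j = 0`.
-/

set_option autoImplicit false

open Finset

namespace CT

private lemma norm_ne_d17 {p : ℕ} [Fact p.Prime] {x : ℝ} {e : ℕ} (he : 1 ≤ e)
    (h : x ^ e = (p : ℝ)⁻¹) {a b : ℚ_[p]} (ha : a ≠ 0) (hb : b ≠ 0) {i j : ℕ}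
    (hij : i < j) (hje : j < e) : ‖a‖ * x ^ i ≠ ‖b‖ * x ^ j := by
  intro heq
  have hp0 : (0 : ℝ) < p := by exact_mod_cast (Fact.out : p.Prime).pos
  have hp1 : (1 : ℝ) < p := by exact_mod_cast (Fact.out : p.Prime).one_lt
  have h1 : (‖a‖ * x ^ i) ^ e = (‖b‖ * x ^ j) ^ e := by rw [heq]
  rw [mul_pow, mul_pow, ← pow_mul, ← pow_mul, mul_comm i e, mul_comm j e, pow_mul, pow_mul, h,
    Padic.norm_eq_zpow_neg_valuation ha, Padic.norm_eq_zpow_neg_valuation hb] at h1
  have h2 : ∀ (v : ℤ) (k : ℕ), ((p : ℝ) ^ (-v)) ^ e * ((p : ℝ)⁻¹) ^ k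
      = (p : ℝ) ^ (-(v * e) - k) := by
    intro v k
    rw [← zpow_natCast, ← zpow_mul, ← zpow_natCast, inv_zpow', ← zpow_add₀ hp0.ne']
    congr 1
    ring
  rw [h2, h2] at h1
  have h3 := zpow_right_injective₀ hp0 hp1.ne' h1
  have h4 : (e : ℤ) * (b.valuation - a.valuation) = (i : ℤ) - j := by linarith [h3, mul_comm a.valuation (e:ℤ), mul_comm b.valuation (e:ℤ)]
  have h5 : (e : ℤ) ∣ (j : ℤ) - i := ⟨-(b.valuation - a.valuation), by rw [mul_neg, h4]; ring⟩
  have h6 := Int.le_of_dvd (by omega) h5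
  omega

theorem ram_le {p : ℕ} [Fact p.Prime] (L : IntermediateField ℚ_[p] (PadicAlgCl p)) [FiniteDimensional ℚ_[p] L]
    {ω : PadicAlgCl p} (hω : ω ∈ L) {e : ℕ} (he : 1 ≤ e) (h : ‖ω‖ ^ e = (p : ℝ)⁻¹) : e ≤ Module.finrank ℚ_[p] L := by
  have hp0 : (0 : ℝ) < p := by exact_mod_cast (Fact.out : p.Prime).pos
  have hω0 : 0 < ‖ω‖ := by
    rcases (norm_nonneg ω).eq_or_lt with h0 | h0
    · rw [← h0, zero_pow (by omega)] at h
      exact absurd h.symm (inv_ne_zero hp0.ne')
    · exact h0
  have hω1 : ω ≠ 0 := norm_pos_iff.1 hω0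
  have key : LinearIndependent ℚ_[p] (fun j : Fin e => (⟨ω ^ (j : ℕ), pow_mem hω _⟩ : L)) := by
    rw [Fintype.linearIndependent_iff]
    intro c hc
    by_contra hcon
    push_neg at hcon
    have hc' : ∑ j : Fin e, (algebraMap ℚ_[p] (PadicAlgCl p) (c j)) * ω ^ (j : ℕ) = 0 := by
      have := congrArg (fun y : L => (y : PadicAlgCl p)) hc
      simpa [Algebra.smul_def] using this
    set t : Fin e → PadicAlgCl p := fun j => (algebraMap ℚ_[p] (PadicAlgCl p) (c j)) * ω ^ (j : ℕ) with ht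
    have hnt : ∀ j, ‖t j‖ = ‖c j‖ * ‖ω‖ ^ (j : ℕ) := by
      intro j
      rw [ht]
      simp only [norm_mul, norm_pow]
      rw [norm_algebraMap']
    obtain ⟨i0, hi0⟩ := hcon
    obtain ⟨j0, _, hj0⟩ := Finset.exists_max_image (Finset.univ : Finset (Fin e)) (fun j => ‖t j‖) ⟨i0, Finset.mem_univ _⟩
    have hpos : 0 < ‖t j0‖ := by
      refine lt_of_lt_of_le ?_ (hj0 i0 (Finset.mem_univ _))
      rw [hnt]
      exact mul_pos (norm_pos_iff.2 hi0) (pow_pos hω0 _)
    have hcj0 : c j0 ≠ 0 := by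
      intro h0
      rw [hnt, h0, norm_zero, zero_mul] at hpos
      exact lt_irrefl _ hpos
    have hlt : ∀ j, j ≠ j0 → ‖t j‖ < ‖t j0‖ := by
      intro j hj
      refine lt_of_le_of_ne (hj0 j (Finset.mem_univ _)) ?_
      by_cases hcj : c j = 0
      · rw [hnt j, hcj, norm_zero, zero_mul]
        exact hpos.ne
      · rw [hnt, hnt]
        have hne : (j : ℕ) ≠ (j0 : ℕ) := fun h' => hj (Fin.ext h')
        rcases lt_or_gt_of_ne hne with h' | h'
        · exact norm_ne_d17 he h hcj hcj0 h' j0.2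
        · exact (norm_ne_d17 he h hcj0 hcj h' j.2).symm
    have hsum : t j0 = -∑ j ∈ Finset.univ.erase j0, t j := by
      have := Finset.add_sum_erase Finset.univ t (Finset.mem_univ j0)
      rw [hc'] at this
      exact eq_neg_of_add_eq_zero_left this
    haveI : Nonempty (Fin e) := ⟨i0⟩
    obtain ⟨b, hb, hb2⟩ := IsNonarchimedean.finset_image_add (f := (norm : PadicAlgCl p → ℝ)) norm_zero
      (fun x => norm_nonneg x) (PadicAlgCl.isNonarchimedean p) t (Finset.univ.erase j0)
    rcases (Finset.univ.erase j0).eq_empty_or_nonempty with hemp | hne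
    · rw [hemp, Finset.sum_empty, neg_zero] at hsum
      rw [hsum, norm_zero] at hpos
      exact lt_irrefl _ hpos
    · have hb' := hb hne
      have : ‖t j0‖ ≤ ‖t b‖ := by
        calc ‖t j0‖ = ‖∑ j ∈ Finset.univ.erase j0, t j‖ := by rw [hsum, norm_neg]
          _ ≤ ‖t b‖ := hb2
      exact absurd this (not_le.2 (hlt b (Finset.ne_of_mem_erase hb')))
  have := key.fintype_card_le_finrank
  simpa using this

end CT
end

section

/-!
# Sampling keeps the minimum codegree

Proof.  Call `f : Fin M → V` bad for the `r`-set `S ⊆ Fin M` if `f` is injective on `S` and fewer than `(d + ε/2) M` indices `i ∉ S` have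
`f i ∈ nb H (S.image f)`.  Splitting `f` into its restrictions to `S` and to the complement (`M - r` coordinates), `few_bad` with
`B := nb H (S.image f)` (`card ≥ (d+ε) card V`), `q := d + ε`, shows that at most `ϑ^(M-r) card V ^ M` functions are bad for `S`
when `(d + ε/2) M ≤ (d + 3ε/4)(M - r)`.  There are at most `M^r` sets `S`, so for `M` large at most `card V ^ M / 4` functions are bad
for some `S`.  At most `M^2 card V^(M-1) ≤ card V^M / 4` functions are not injective (`card V` large depending on `M`).  For a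
good injective `f`, `nb (pull) S` contains all those `i`.
-/

set_option autoImplicit false

open Finset

namespace CT

/-- bad functions for one set `S` -/
private theorem A27_bad {r M : ℕ} {q ε' ϑ c : ℝ} {V : Type} [Fintype V] [DecidableEq V] (hϑ : 0 < ϑ)
    (hfew : ∀ (B : Finset V), q * (Fintype.card V : ℝ) ≤ (B.card : ℝ) → ∀ N : ℕ,
      ((univ.filter (fun f : Fin N → V => ((univ.filter (fun i => f i ∈ B)).card : ℝ) ≤ (q - ε') * N)).card : ℝ)
        ≤ ϑ ^ N * (Fintype.card V : ℝ) ^ N)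
    {H : Finset (Finset V)} (hH : MinCo r H (q * (Fintype.card V : ℝ)))
    (S : Finset (Fin M)) (hS : S.card = r) (hrM : r ≤ M) (hc : c ≤ (q - ε') * ((M - r : ℕ) : ℝ))
    (Bad : Finset (Fin M → V)) (hBad : ∀ f ∈ Bad, Set.InjOn f (S : Set (Fin M)) ∧
      ((univ.filter (fun i => i ∉ S ∧ f i ∈ nb H (S.image f))).card : ℝ) < c) :
    (Bad.card : ℝ) ≤ ϑ ^ (M - r) * (Fintype.card V : ℝ) ^ M := by
  classical
  have hcard : Fintype.card {i : Fin M // i ∉ S} = M - r := by
    rw [Fintype.card_subtype_compl]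
    simp [hS]
  have hcard2 : Fintype.card {i : Fin M // i ∈ S} = r := by
    simp [hS]
  obtain ⟨e⟩ : Nonempty ({i : Fin M // i ∉ S} ≃ Fin (M - r)) := ⟨Fintype.equivFinOfCardEq hcard⟩
  have h0 : 0 ≤ ϑ ^ (M - r) * (Fintype.card V : ℝ) ^ (M - r) := by positivity
  have hfib : ∀ g : ({i : Fin M // i ∈ S} → V),
      ((Bad.filter (fun f => (fun i : {i : Fin M // i ∈ S} => f i.1) = g)).card : ℝ)
        ≤ ϑ ^ (M - r) * (Fintype.card V : ℝ) ^ (M - r) := by
    intro g
    rcases (Bad.filter (fun f => (fun i : {i : Fin M // i ∈ S} => f i.1) = g)).eq_empty_or_nonempty with h | h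
    · rw [h]; simpa using h0
    · obtain ⟨f0, hf0⟩ := h
      obtain ⟨hf0b, hf0g⟩ := Finset.mem_filter.mp hf0
      have hinj0 := (hBad f0 hf0b).1
      have himg : ∀ f ∈ Bad.filter (fun f => (fun i : {i : Fin M // i ∈ S} => f i.1) = g),
          S.image f = S.image f0 := by
        intro f hf
        obtain ⟨_, hfg⟩ := Finset.mem_filter.mp hf
        apply Finset.image_congr
        intro i hi
        have h1 := congrFun hfg ⟨i, hi⟩
        have h2 := congrFun hf0g ⟨i, hi⟩
        simp only at h1 h2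
        rw [h1, h2]
      have hB := hH (S.image f0) (by rw [Finset.card_image_of_injOn hinj0, hS])
      refine le_trans ?_ (hfew (nb H (S.image f0)) hB (M - r))
      have := Finset.card_le_card_of_injOn (s := Bad.filter (fun f => (fun i : {i : Fin M // i ∈ S} => f i.1) = g))
        (t := univ.filter (fun h : Fin (M - r) → V =>
          ((univ.filter (fun i => h i ∈ nb H (S.image f0))).card : ℝ) ≤ (q - ε') * ((M - r : ℕ) : ℝ)))
        (fun f => fun j => f (e.symm j).1) ?_ ?_
      · exact_mod_cast this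
      · intro f hf
        have hf' : f ∈ Bad.filter (fun f => (fun i : {i : Fin M // i ∈ S} => f i.1) = g) := hf
        obtain ⟨hfb, hfg⟩ := Finset.mem_filter.mp hf'
        simp only [Finset.coe_filter, Finset.mem_univ, true_and, Set.mem_ofPred_eq]
        refine le_trans ?_ hc
        refine le_trans ?_ (hBad f hfb).2.le
        rw [himg f hf']
        have hc2 := Finset.card_le_card_of_injOn
          (s := univ.filter (fun j : Fin (M - r) => f (e.symm j).1 ∈ nb H (S.image f0)))
          (t := univ.filter (fun i : Fin M => i ∉ S ∧ f i ∈ nb H (S.image f0)))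
          (fun j => (e.symm j).1) ?_ ?_
        · exact_mod_cast hc2
        · intro j hj
          simp only [Finset.coe_filter, Finset.mem_univ, true_and, Set.mem_ofPred_eq] at hj ⊢
          exact ⟨(e.symm j).2, hj⟩
        · intro j1 _ j2 _ hj
          exact e.symm.injective (Subtype.ext hj)
      · intro f1 hf1 f2 hf2 h12
        have hf1' : f1 ∈ Bad.filter (fun f => (fun i : {i : Fin M // i ∈ S} => f i.1) = g) := hf1
        have hf2' : f2 ∈ Bad.filter (fun f => (fun i : {i : Fin M // i ∈ S} => f i.1) = g) := hf2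
        funext i
        by_cases hi : i ∈ S
        · have h1 := congrFun (Finset.mem_filter.mp hf1').2 ⟨i, hi⟩
          have h2 := congrFun (Finset.mem_filter.mp hf2').2 ⟨i, hi⟩
          simp only at h1 h2
          rw [h1, h2]
        · have h3 := congrFun h12 (e ⟨i, hi⟩)
          simpa using h3
  have hsum : (Bad.card : ℝ) = ∑ g : ({i : Fin M // i ∈ S} → V),
      ((Bad.filter (fun f => (fun i : {i : Fin M // i ∈ S} => f i.1) = g)).card : ℝ) := by
    have := Finset.card_eq_sum_card_fiberwise (s := Bad) (t := (univ : Finset ({i : Fin M // i ∈ S} → V)))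
      (f := fun f => (fun i : {i : Fin M // i ∈ S} => f i.1)) (fun _ _ => by simp)
    rw [this]
    push_cast
    rfl
  rw [hsum]
  refine (Finset.sum_le_sum (fun g _ => hfib g)).trans ?_
  rw [Finset.sum_const, Finset.card_univ, Fintype.card_fun, hcard2, nsmul_eq_mul]
  push_cast
  have : (Fintype.card V : ℝ) ^ M = (Fintype.card V : ℝ) ^ r * (Fintype.card V : ℝ) ^ (M - r) := by
    rw [← pow_add]; congr 1; omega
  rw [this]
  apply le_of_eq
  ring

/-- most functions are injective -/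
private theorem A27_inj (M : ℕ) : ∃ n0 : ℕ, ∀ n : ℕ, n0 ≤ n →
    (3 / 4 : ℝ) * (n : ℝ) ^ M ≤ (n.descFactorial M : ℝ) := by
  refine ⟨4 * M ^ 2 + M + 1, fun n hn => ?_⟩
  have hnM : M ≤ n := by nlinarith
  have hn0 : (0 : ℝ) < n := by
    have : 0 < n := by omega
    exact_mod_cast this
  have h1 : (((n : ℝ) - M) ^ M) ≤ (n.descFactorial M : ℝ) := by
    have := Nat.pow_sub_le_descFactorial n M
    have h2 : ((n + 1 - M : ℕ) : ℝ) ^ M ≤ (n.descFactorial M : ℝ) := by exact_mod_cast this
    refine le_trans ?_ h2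
    have h3 : ((n + 1 - M : ℕ) : ℝ) = (n : ℝ) + 1 - M := by
      rw [Nat.cast_sub (by omega)]; push_cast; ring
    rw [h3]
    apply pow_le_pow_left₀
    · have : (M : ℝ) ≤ n := by exact_mod_cast hnM
      linarith
    · linarith
  refine le_trans ?_ h1
  have h4 : ((n : ℝ) - M) = n * (1 + (-(M : ℝ) / n)) := by field_simp; ring
  rw [h4, mul_pow]
  have hMn : (M : ℝ) ≤ n := by exact_mod_cast hnM
  have h5 : -2 ≤ -(M : ℝ) / n := by
    rw [le_div_iff₀ hn0]; linarith
  have h6 := one_add_mul_le_pow h5 M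
  have h7 : (3 / 4 : ℝ) ≤ 1 + (M : ℝ) * (-(M : ℝ) / n) := by
    have hnR : (4 : ℝ) * M ^ 2 ≤ n := by
      have : 4 * M ^ 2 ≤ n := by omega
      exact_mod_cast this
    have : (M : ℝ) * (-(M : ℝ) / n) = -((M : ℝ) ^ 2 / n) := by ring
    rw [this]
    have h8 : (M : ℝ) ^ 2 / n ≤ 1 / 4 := by
      rw [div_le_iff₀ hn0]; linarith
    linarith
  have h9 : (0 : ℝ) < (n : ℝ) ^ M := by positivity
  nlinarith

theorem sampling (r : ℕ) (d ε : ℝ) (hd : 0 ≤ d) (hε : 0 < ε) (h1 : d + ε ≤ 1) : ∃ M0 : ℕ, ∀ M : ℕ, M0 ≤ M → ∃ n0 : ℕ,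
    ∀ (V : Type) [Fintype V] [DecidableEq V], n0 ≤ Fintype.card V → ∀ H : Finset (Finset V), Unif (r + 1) H →
      MinCo r H ((d + ε) * (Fintype.card V : ℝ)) →
      (1 / 2 : ℝ) * (Fintype.card V : ℝ) ^ M ≤
        (Nat.card {f : Fin M → V // MinCo r
          ((powersetCard (r + 1) (univ : Finset (Fin M))).filter (fun e => e.image f ∈ H)) ((d + ε / 2) * M)} : ℝ) := by
  classical
  obtain ⟨ϑ, hϑ0, hϑ1, hfew⟩ := few_bad (d + ε) (ε / 4) (by positivity) (by linarith) h1
  have ht := tendsto_pow_const_mul_const_pow_of_abs_lt_one r (r := ϑ) (by rw [abs_of_pos hϑ0]; exact hϑ1)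
  have hev : ∀ᶠ n : ℕ in Filter.atTop, (n : ℝ) ^ r * ϑ ^ n < ϑ ^ r / 4 :=
    ht.eventually (gt_mem_nhds (by positivity))
  obtain ⟨M1, hM1⟩ := Filter.eventually_atTop.mp hev
  obtain ⟨M2, hM2⟩ := exists_nat_ge (4 * (r : ℝ) / ε)
  refine ⟨max (max M1 M2) r, fun M hM => ?_⟩
  have hMM1 : M1 ≤ M := le_trans (le_trans (le_max_left _ _) (le_max_left _ _)) hM
  have hMM2 : M2 ≤ M := le_trans (le_trans (le_max_right _ _) (le_max_left _ _)) hM
  have hrM : r ≤ M := le_trans (le_max_right _ _) hM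
  obtain ⟨n0, hn0⟩ := A27_inj M
  refine ⟨n0, fun V _ _ hV H hHu hH => ?_⟩
  set Good' : Finset (Fin M → V) := univ.filter (fun f => MinCo r
          ((powersetCard (r + 1) (univ : Finset (Fin M))).filter (fun e => e.image f ∈ H)) ((d + ε / 2) * M)) with hGood'
  have hNat : Nat.card {f : Fin M → V // MinCo r
          ((powersetCard (r + 1) (univ : Finset (Fin M))).filter (fun e => e.image f ∈ H)) ((d + ε / 2) * M)} = Good'.card := by
    rw [Nat.card_eq_fintype_card, Fintype.card_subtype]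
  rw [hNat]
  set Inj : Finset (Fin M → V) := univ.filter (fun f => Function.Injective f) with hInj
  set Bad : Finset (Fin M) → Finset (Fin M → V) := fun S => univ.filter (fun f => Set.InjOn f (S : Set (Fin M)) ∧
      ((univ.filter (fun i => i ∉ S ∧ f i ∈ nb H (S.image f))).card : ℝ) < (d + ε / 2) * M) with hBad
  have hsub : Inj ⊆ Good' ∪ (powersetCard r (univ : Finset (Fin M))).biUnion Bad := by
    intro f hf
    have hfi : Function.Injective f := (Finset.mem_filter.mp hf).2
    rw [Finset.mem_union]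
    by_cases hcase : ∃ S ∈ powersetCard r (univ : Finset (Fin M)), f ∈ Bad S
    · right
      exact Finset.mem_biUnion.mpr hcase
    · left
      push Not at hcase
      refine Finset.mem_filter.mpr ⟨Finset.mem_univ _, fun S hS => ?_⟩
      have h2 := hcase S (Finset.mem_powersetCard.mpr ⟨Finset.subset_univ _, hS⟩)
      have h3 : (d + ε / 2) * M ≤ ((univ.filter (fun i => i ∉ S ∧ f i ∈ nb H (S.image f))).card : ℝ) := by
        by_contra hcon
        push Not at hcon
        exact h2 (Finset.mem_filter.mpr ⟨Finset.mem_univ _, hfi.injOn, hcon⟩)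
      refine h3.trans ?_
      have h4 : (univ.filter (fun i => i ∉ S ∧ f i ∈ nb H (S.image f))) ⊆
          nb ((powersetCard (r + 1) (univ : Finset (Fin M))).filter (fun e => e.image f ∈ H)) S := by
        intro i hi
        obtain ⟨_, hi1, hi2⟩ := Finset.mem_filter.mp hi
        obtain ⟨hi3, hi4⟩ := mem_nb.mp hi2
        rw [mem_nb]
        refine ⟨hi1, Finset.mem_filter.mpr ⟨Finset.mem_powersetCard.mpr ⟨Finset.subset_univ _, ?_⟩, ?_⟩⟩
        · rw [Finset.card_insert_of_notMem hi1, hS]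
        · rw [Finset.image_insert]; exact hi4
      exact_mod_cast Finset.card_le_card h4
  have hInjcard : (Inj.card : ℝ) = ((Fintype.card V).descFactorial M : ℝ) := by
    have h2 : Fintype.card (Fin M ↪ V) = (Fintype.card V).descFactorial M := by
      rw [Fintype.card_embedding_eq, Fintype.card_fin]
    have h3 : Inj.card = Fintype.card (Fin M ↪ V) := by
      rw [hInj, ← Fintype.card_subtype]
      exact Fintype.card_congr (Equiv.subtypeInjectiveEquivEmbedding _ _)
    rw [h3, h2]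
  have hbadcard : ∀ S ∈ powersetCard r (univ : Finset (Fin M)),
      ((Bad S).card : ℝ) ≤ ϑ ^ (M - r) * (Fintype.card V : ℝ) ^ M := by
    intro S hS
    refine A27_bad (r := r) (q := d + ε) (ε' := ε / 4) (c := (d + ε / 2) * M) hϑ0 (fun B hB N => hfew V B hB N) hH S
      (Finset.mem_powersetCard.mp hS).2 hrM ?_ (Bad S) (fun f hf => (Finset.mem_filter.mp hf).2)
    rw [Nat.cast_sub hrM]
    have hMR : 4 * (r : ℝ) / ε ≤ M := hM2.trans (by exact_mod_cast hMM2)
    rw [div_le_iff₀ hε] at hMR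
    have hr0 : (0 : ℝ) ≤ r := Nat.cast_nonneg r
    nlinarith
  have hunion : (((powersetCard r (univ : Finset (Fin M))).biUnion Bad).card : ℝ) ≤ (1 / 4) * (Fintype.card V : ℝ) ^ M := by
    have h2 : (((powersetCard r (univ : Finset (Fin M))).biUnion Bad).card : ℝ) ≤
        ∑ S ∈ powersetCard r (univ : Finset (Fin M)), ((Bad S).card : ℝ) := by
      exact_mod_cast Finset.card_biUnion_le
    refine h2.trans ((Finset.sum_le_sum hbadcard).trans ?_)
    rw [Finset.sum_const, Finset.card_powersetCard, Finset.card_univ, Fintype.card_fin, nsmul_eq_mul]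
    have h3 : ((M.choose r : ℕ) : ℝ) ≤ (M : ℝ) ^ r := by
      have := Nat.choose_le_pow_div (α := ℝ) r M
      refine this.trans ?_
      apply div_le_self (by positivity)
      exact_mod_cast Nat.succ_le_of_lt (Nat.factorial_pos r)
    have h4 := hM1 M hMM1
    have h5 : ϑ ^ M = ϑ ^ (M - r) * ϑ ^ r := by rw [← pow_add]; congr 1; omega
    rw [h5] at h4
    have hϑr : 0 < ϑ ^ r := by positivity
    have h6 : (M : ℝ) ^ r * ϑ ^ (M - r) ≤ 1 / 4 := by
      by_contra hcon
      push Not at hcon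
      have : 1 / 4 * ϑ ^ r < (M : ℝ) ^ r * ϑ ^ (M - r) * ϑ ^ r := mul_lt_mul_of_pos_right hcon hϑr
      nlinarith
    have h7 : (0 : ℝ) ≤ (Fintype.card V : ℝ) ^ M := by positivity
    have h8 : (0 : ℝ) ≤ ϑ ^ (M - r) := by positivity
    calc ((M.choose r : ℕ) : ℝ) * (ϑ ^ (M - r) * (Fintype.card V : ℝ) ^ M)
        ≤ (M : ℝ) ^ r * (ϑ ^ (M - r) * (Fintype.card V : ℝ) ^ M) :=
          mul_le_mul_of_nonneg_right h3 (by positivity)
      _ = ((M : ℝ) ^ r * ϑ ^ (M - r)) * (Fintype.card V : ℝ) ^ M := by ring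
      _ ≤ (1 / 4) * (Fintype.card V : ℝ) ^ M := mul_le_mul_of_nonneg_right h6 h7
  have hfin := hn0 (Fintype.card V) hV
  have h8 : (Inj.card : ℝ) ≤ (Good'.card : ℝ) + (((powersetCard r (univ : Finset (Fin M))).biUnion Bad).card : ℝ) := by
    exact_mod_cast (Finset.card_le_card hsub).trans (Finset.card_union_le _ _)
  rw [hInjcard] at h8
  linarith

end CT
end

section

/-!
# From homomorphisms to copies

Proof (papers 388, I.11).  W.l.o.g. `d + ε ≤ 1` (otherwise no such `H`, `card (nb H S) ≤ card V`, exists for `card V ≥ 1`.. choose an `r`-set).  Let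
`M ≥ M0` of `sampling` and `M ≥ n0(ε/2)` of `hhom` (so the pullback `H_f` on `Fin M` has a hom from `F` for good `f`).  For
each good `f` choose `g : U → Fin M`, a hom `F → H_f`; pigeonhole: some `g` serves at least `card V^M / (2 M^(card U))` functions `f`.
`f ∘ g` is then a hom `F → H`.  Let `J := univ.image g`, `j := card J ≤ card U`; the number of `h : J → V` such that `h ∘ g` is a hom is at
least `c (card V)^j` with `c = 1/(2 M^(card U))` (each `h` is the restriction of `card V^(M-j)` functions `f`).  Remove the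
non-injective ones (at most `j^2 card V^(j-1)`).  Transport `J ≃ Fin j`, apply `box_thm` with `t := card U`: `B i` pairwise disjoint
(an element in two of them would give a non-injective `h`, `t ≥ 1`; if `U` is empty the claim is trivial).  Choose injections `g⁻¹(i) → B i`: this is an
injective `φ : U → V`, and for every edge `e` of `F` (`g` is injective on `e` as `card (e.image g) = r + 1`) `φ` agrees on `e` with
`h ∘ g` for some `h` in the box.  So `e.image φ ∈ H`.
-/

set_option autoImplicit false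

open Finset

namespace CT

private theorem A28_noninj (M : ℕ) (V : Type) [Fintype V] [DecidableEq V]
    (hV : 1 ≤ Fintype.card V) (hMV : M ≤ Fintype.card V) :
    ((univ.filter (fun f : Fin M → V => ¬ Function.Injective f)).card : ℝ) ≤
      (M : ℝ) ^ 2 / (Fintype.card V : ℝ) * (Fintype.card V : ℝ) ^ M := by
  classical
  set n := Fintype.card V with hn
  have hn0 : (0 : ℝ) < n := by exact_mod_cast hV
  have h1 : (univ.filter (fun f : Fin M → V => Function.Injective f)).card = n.descFactorial M := by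
    have h2 : Fintype.card (Fin M ↪ V) = n.descFactorial M := by
      rw [Fintype.card_embedding_eq, Fintype.card_fin]
    rw [← h2, ← Fintype.card_subtype]
    exact Fintype.card_congr (Equiv.subtypeInjectiveEquivEmbedding (Fin M) V)
  have h2 : (univ.filter (fun f : Fin M → V => Function.Injective f)).card +
      (univ.filter (fun f : Fin M → V => ¬ Function.Injective f)).card = n ^ M := by
    have h := Finset.card_filter_add_card_filter_not (s := (univ : Finset (Fin M → V)))
      (fun f : Fin M → V => Function.Injective f)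
    rw [h, Finset.card_univ, Fintype.card_fun, Fintype.card_fin]
  have h3 : (n + 1 - M) ^ M ≤ n.descFactorial M := Nat.pow_sub_le_descFactorial n M
  have h4 : ((n : ℝ) + 1 - M) ^ M ≤ ((univ.filter (fun f : Fin M → V => Function.Injective f)).card : ℝ) := by
    rw [h1]
    have h5 : (((n + 1 - M : ℕ) : ℝ)) ^ M ≤ ((n.descFactorial M : ℕ) : ℝ) := by exact_mod_cast h3
    have h6 : (((n + 1 - M : ℕ) : ℝ)) = (n : ℝ) + 1 - M := by
      rw [Nat.cast_sub (by omega)]
      push_cast
      ring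
    rwa [h6] at h5
  have h7 : (1 - (M : ℝ) ^ 2 / n) * (n : ℝ) ^ M ≤ ((n : ℝ) + 1 - M) ^ M := by
    have hMn : (M : ℝ) ≤ n := by exact_mod_cast hMV
    have hb := one_add_mul_le_pow (a := (1 - (M : ℝ)) / n) (by
      rw [le_div_iff₀ hn0]
      linarith) M
    have e1 : ((n : ℝ) + 1 - M) ^ M = (1 + (1 - (M : ℝ)) / n) ^ M * (n : ℝ) ^ M := by
      rw [← mul_pow]
      congr 1
      field_simp
      ring
    rw [e1]
    apply mul_le_mul_of_nonneg_right _ (by positivity)
    refine le_trans ?_ hb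
    have e2 : (M : ℝ) ^ 2 / n = (M : ℝ) * ((M : ℝ) / n) := by ring
    have e3 : (1 - (M : ℝ)) / n = 1 / n - (M : ℝ) / n := by ring
    rw [e2, e3]
    have h8 : 0 ≤ (M : ℝ) * (1 / n) := by positivity
    nlinarith
  have h9 : ((univ.filter (fun f : Fin M → V => Function.Injective f)).card : ℝ) +
      ((univ.filter (fun f : Fin M → V => ¬ Function.Injective f)).card : ℝ) = (n : ℝ) ^ M := by
    exact_mod_cast h2
  nlinarith

private theorem A28_embed {U : Type} [Fintype U] [DecidableEq U] (r : ℕ) (F : Finset (Finset U))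
    (hF : Unif (r + 1) F) {V : Type} [Fintype V] [DecidableEq V] {H : Finset (Finset V)} {M : ℕ}
    (g : U → Fin M) (B : Fin M → Finset V) (hB : ∀ i, (B i).card = Fintype.card U + 1)
    (hR : ∀ h : Fin M → V, (∀ i, h i ∈ B i) → Function.Injective h ∧
      ∀ e ∈ F, (e.image g).card = r + 1 ∧ (e.image g).image h ∈ H) : Contains F H := by
  classical
  have hne : ∀ i, (B i).Nonempty := fun i => Finset.card_pos.mp (by rw [hB i]; omega)
  choose b hb using hne
  have hdisj : ∀ i j, i ≠ j → ∀ v, v ∈ B i → v ∈ B j → False := by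
    intro i j hij v hvi hvj
    have h1 := (hR (fun l => if l = i ∨ l = j then v else b l) (by
      intro l
      by_cases hl : l = i ∨ l = j
      · rw [if_pos hl]
        rcases hl with rfl | rfl
        · exact hvi
        · exact hvj
      · rw [if_neg hl]
        exact hb l)).1
    exact hij (h1 (by simp))
  have hemb : ∀ i, Nonempty (U ↪ B i) := by
    intro i
    apply Function.Embedding.nonempty_of_card_le
    rw [Fintype.card_coe, hB i]
    omega
  let ι : ∀ i, U ↪ B i := fun i => (hemb i).some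
  let φ : U → V := fun u => ((ι (g u) u : B (g u)) : V)
  have hφB : ∀ u, φ u ∈ B (g u) := fun u => (ι (g u) u).2
  refine ⟨φ, ?_, ?_⟩
  · intro u u' h
    by_cases hg : g u = g u'
    · have h1 : ((ι (g u) u : B (g u)) : V) = ((ι (g u') u' : B (g u')) : V) := h
      rw [← hg] at h1
      exact (ι (g u)).injective (Subtype.ext h1)
    · exfalso
      refine hdisj _ _ hg (φ u) (hφB u) ?_
      have h1 : φ u = φ u' := h
      rw [h1]
      exact hφB u'
  · intro e he
    have hcard := (hR b hb).2 e he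
    have hinj : Set.InjOn g (e : Set U) := by
      rw [← Finset.card_image_iff, hcard.1, hF e he]
    let h : Fin M → V := fun i => if hi : ∃ u ∈ e, g u = i then φ hi.choose else b i
    have hhB : ∀ i, h i ∈ B i := by
      intro i
      by_cases hi : ∃ u ∈ e, g u = i
      · have h1 : h i = φ hi.choose := dif_pos hi
        rw [h1]
        have h2 := hφB hi.choose
        rwa [hi.choose_spec.2] at h2
      · have h1 : h i = b i := dif_neg hi
        rw [h1]
        exact hb i
    have h3 := ((hR h hhB).2 e he).2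
    rw [Finset.image_image] at h3
    have h4 : e.image (h ∘ g) = e.image φ := by
      apply Finset.image_congr
      intro u hu
      have hi : ∃ u' ∈ e, g u' = g u := ⟨u, hu, rfl⟩
      have h5 : (h ∘ g) u = φ hi.choose := dif_pos hi
      rw [h5]
      congr 1
      exact hinj hi.choose_spec.1 hu hi.choose_spec.2
    rwa [h4] at h3

theorem copies_of_homs {U : Type} [Fintype U] [DecidableEq U] (r : ℕ) (F : Finset (Finset U)) (hF : Unif (r + 1) F) (d : ℝ)
    (hd : 0 ≤ d)
    (hhom : ∀ ε : ℝ, 0 < ε → ∃ n0 : ℕ, ∀ (V : Type) [Fintype V] [DecidableEq V], n0 ≤ Fintype.card V →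
      ∀ H : Finset (Finset V), Unif (r + 1) H → MinCo r H ((d + ε) * (Fintype.card V : ℝ)) → HomTo F H) :
    ∀ ε : ℝ, 0 < ε → ∃ n0 : ℕ, ∀ (V : Type) [Fintype V] [DecidableEq V], n0 ≤ Fintype.card V →
      ∀ H : Finset (Finset V), Unif (r + 1) H → MinCo r H ((d + ε) * (Fintype.card V : ℝ)) → Contains F H := by
  intro ε hε
  by_cases h1 : d + ε ≤ 1
  swap
  · refine ⟨r + 1, fun V _ _ hV H _ hco => ?_⟩
    exfalso
    obtain ⟨S, -, hS⟩ := Finset.exists_subset_card_eq (s := (univ : Finset V)) (n := r)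
      (by rw [Finset.card_univ]; omega)
    have h2 := hco S hS
    have h3 : ((nb H S).card : ℝ) ≤ Fintype.card V := by exact_mod_cast Finset.card_le_univ _
    have h4 : (0 : ℝ) < Fintype.card V := by
      exact_mod_cast (by omega : 0 < Fintype.card V)
    have h5 : 1 < d + ε := not_le.mp h1
    nlinarith
  obtain ⟨M0, hM0⟩ := sampling r d ε hd hε h1
  obtain ⟨n0, hn0⟩ := hhom (ε / 2) (by positivity)
  obtain ⟨M, hM⟩ : ∃ M, M = max (max M0 n0) 1 := ⟨_, rfl⟩
  have hMM0 : M0 ≤ M := by rw [hM]; exact le_trans (le_max_left _ _) (le_max_left _ _)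
  have hMn0 : n0 ≤ M := by rw [hM]; exact le_trans (le_max_right _ _) (le_max_left _ _)
  have hM1 : 1 ≤ M := by rw [hM]; exact le_max_right _ _
  obtain ⟨n1, hn1⟩ := hM0 M hMM0
  have hMpos : (0 : ℝ) < M := by exact_mod_cast hM1
  obtain ⟨c0, hc0⟩ : ∃ c0 : ℝ, c0 = 1 / (2 * (M : ℝ) ^ (Fintype.card U)) := ⟨_, rfl⟩
  have hc0pos : 0 < c0 := by rw [hc0]; positivity
  obtain ⟨n2, hn2⟩ := box_thm M (Fintype.card U + 1) (c0 / 2) (by positivity)
  refine ⟨max (max n1 n2) (max (max 1 M) ⌈2 * (M : ℝ) ^ 2 / c0⌉₊), ?_⟩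
  intro V _ _ hV H hH hco
  have hV1 : n1 ≤ Fintype.card V :=
    le_trans (le_trans (le_max_left _ _) (le_max_left _ _)) hV
  have hV2 : n2 ≤ Fintype.card V :=
    le_trans (le_trans (le_max_right _ _) (le_max_left _ _)) hV
  have hV3 : 1 ≤ Fintype.card V :=
    le_trans (le_trans (le_trans (le_max_left _ _) (le_max_left _ _)) (le_max_right _ _)) hV
  have hV3' : M ≤ Fintype.card V :=
    le_trans (le_trans (le_trans (le_max_right _ _) (le_max_left _ _)) (le_max_right _ _)) hV
  have hV4 : 2 * (M : ℝ) ^ 2 / c0 ≤ Fintype.card V :=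
    le_trans (Nat.le_ceil _) (by
      exact_mod_cast le_trans (le_trans (le_max_right _ _) (le_max_right _ _)) hV)
  have hVpos : (0 : ℝ) < Fintype.card V := by exact_mod_cast hV3
  have hgood := hn1 V hV1 H hH hco
  classical
  let pull : (Fin M → V) → Finset (Finset (Fin M)) := fun f =>
    (powersetCard (r + 1) (univ : Finset (Fin M))).filter (fun e => e.image f ∈ H)
  let R' : (U → Fin M) → Finset (Fin M → V) := fun g => univ.filter (fun f => IsHom F (pull f) g)
  have hcover : (univ.filter (fun f : Fin M → V => MinCo r (pull f) ((d + ε / 2) * M))) ⊆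
      univ.biUnion R' := by
    intro f hf
    have hf' := (Finset.mem_filter.mp hf).2
    have hun : Unif (r + 1) (pull f) := by
      intro e he
      exact (Finset.mem_powersetCard.mp (Finset.mem_filter.mp he).1).2
    obtain ⟨g, hg⟩ := hn0 (Fin M) (by rw [Fintype.card_fin]; exact hMn0) (pull f) hun (by
      rw [Fintype.card_fin]; exact hf')
    exact Finset.mem_biUnion.mpr ⟨g, Finset.mem_univ _, Finset.mem_filter.mpr ⟨Finset.mem_univ _, hg⟩⟩
  have hcard : (1 / 2 : ℝ) * (Fintype.card V : ℝ) ^ M ≤ ∑ g : U → Fin M, ((R' g).card : ℝ) := by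
    refine le_trans hgood ?_
    rw [Nat.card_eq_fintype_card, Fintype.card_subtype]
    have h2 := (Finset.card_le_card hcover).trans Finset.card_biUnion_le
    exact_mod_cast h2
  obtain ⟨g, hg⟩ : ∃ g : U → Fin M, c0 * (Fintype.card V : ℝ) ^ M ≤ ((R' g).card : ℝ) := by
    by_contra hcon
    push Not at hcon
    have : Nonempty (Fin M) := ⟨⟨0, hM1⟩⟩
    have h2 : ∑ g : U → Fin M, ((R' g).card : ℝ) <
        ∑ g : U → Fin M, c0 * (Fintype.card V : ℝ) ^ M :=
      Finset.sum_lt_sum_of_nonempty Finset.univ_nonempty (fun g _ => hcon g)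
    rw [Finset.sum_const, Finset.card_univ, Fintype.card_fun, Fintype.card_fin, nsmul_eq_mul] at h2
    have h3 : ((M ^ Fintype.card U : ℕ) : ℝ) * (c0 * (Fintype.card V : ℝ) ^ M) =
        (1 / 2 : ℝ) * (Fintype.card V : ℝ) ^ M := by
      rw [hc0]
      push_cast
      field_simp
    rw [h3] at h2
    linarith
  have hnon := A28_noninj M V hV3 hV3'
  have hnon2 : (M : ℝ) ^ 2 / (Fintype.card V : ℝ) ≤ c0 / 2 := by
    rw [div_le_iff₀ hVpos]
    rw [div_le_iff₀ hc0pos] at hV4
    nlinarith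
  let R : Finset (Fin M → V) := univ.filter (fun f => Function.Injective f ∧ IsHom F (pull f) g)
  have hsub : R' g ⊆ R ∪ univ.filter (fun f : Fin M → V => ¬ Function.Injective f) := by
    intro f hf
    have hf' := (Finset.mem_filter.mp hf).2
    by_cases hi : Function.Injective f
    · exact Finset.mem_union_left _ (Finset.mem_filter.mpr ⟨Finset.mem_univ _, hi, hf'⟩)
    · exact Finset.mem_union_right _ (Finset.mem_filter.mpr ⟨Finset.mem_univ _, hi⟩)
  have hRcard : c0 / 2 * (Fintype.card V : ℝ) ^ M ≤ (R.card : ℝ) := by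
    have h2 := (Finset.card_le_card hsub).trans (Finset.card_union_le _ _)
    have h3 : ((R' g).card : ℝ) ≤ (R.card : ℝ) +
        ((univ.filter (fun f : Fin M → V => ¬ Function.Injective f)).card : ℝ) := by
      exact_mod_cast h2
    have h4 : (M : ℝ) ^ 2 / (Fintype.card V : ℝ) * (Fintype.card V : ℝ) ^ M ≤
        c0 / 2 * (Fintype.card V : ℝ) ^ M :=
      mul_le_mul_of_nonneg_right hnon2 (by positivity)
    linarith
  obtain ⟨B, hB, hBR⟩ := hn2 V hV2 R hRcard
  apply A28_embed r F hF g B hB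
  intro h hh
  have h2 := (Finset.mem_filter.mp (hBR h hh)).2
  refine ⟨h2.1, fun e he => ?_⟩
  have h3 := Finset.mem_filter.mp (h2.2 e he)
  exact ⟨(Finset.mem_powersetCard.mp h3.1).2, h3.2⟩

end CT
end

section

/-!
# Descent

Proof (papers 388, IV.6).  Construct by induction `ω i` (`1 ≤ i ≤ n`) with `ω 1^(r-1) = p β^(r-1)`, `ω i^(r-1) = β^(r-2) (p β - ω (i-1))`, `‖z i - ω i‖ < ‖z i‖`: `root_near` applies since
`‖z i^(r-1) - (..)‖ ≤ max (π^8, ‖z (i-1) - ω (i-1)‖) < ‖z i‖^(r-1)` (`norm_z`).  Every `τ` in the fixing subgroup of `L` fixes `ω i`: `τ (ω i)` is a root of the same equation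
(`τ` fixes `ω (i-1)`, `β`, `p`) and `‖ω i - τ (ω i)‖ ≤ max (‖ω i - z i‖, ‖z i - τ (z i)‖, ‖τ (z i - ω i)‖) < ‖z i‖ = ‖ω i‖`; `root_unique`.  So `ω n ∈ L` by
`InfiniteGalois.fixedField_fixingSubgroup` (`PadicAlgCl p` is Galois over `ℚ_[p]`: algebraic closure, char 0).  `‖ω n‖ = ‖z n‖`, `norm_z_n`.
-/

set_option autoImplicit false

open Finset

namespace CT

private theorem norm_eq_of_close {Ω : Type*} [NormedField Ω] [IsUltrametricDist Ω] {a b : Ω}
    (h : ‖a - b‖ < ‖a‖) : ‖b‖ = ‖a‖ := by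
  have h1 : ‖b - a‖ < ‖a‖ := by rwa [norm_sub_rev]
  have h2 : b = a + (b - a) := by ring
  rw [h2]
  rw [IsUltrametricDist.norm_add_eq_max_of_norm_ne_norm (ne_of_gt h1)]
  exact max_eq_left h1.le

private theorem sub_lt_max {Ω : Type*} [NormedField Ω] [IsUltrametricDist Ω] {a b c : Ω} {t : ℝ}
    (h1 : ‖a - b‖ < t) (h2 : ‖b - c‖ < t) : ‖a - c‖ < t := by
  have h : a - c = (a - b) + (b - c) := by ring
  rw [h]
  exact lt_of_le_of_lt (IsUltrametricDist.norm_add_le_max _ _) (max_lt h1 h2)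

/-- one step: a root of an equation with coefficients in `L`, close to `z`, is in `L` -/
private theorem step {p k : ℕ} [Fact p.Prime] (hk : 1 ≤ k) (hk1 : ‖(k : PadicAlgCl p)‖ = 1)
    (L : IntermediateField ℚ_[p] (PadicAlgCl p)) {z c : PadicAlgCl p} (hc : c ∈ L)
    (hz : ‖z ^ k - c‖ < ‖z‖ ^ k)
    (hL : ∀ τ ∈ L.fixingSubgroup, ‖z - τ z‖ < ‖z‖) : ∃ ω ∈ L, ‖z - ω‖ < ‖z‖ := by
  obtain ⟨ω, hω, hzω⟩ := root_near hk hz
  refine ⟨ω, ?_, hzω⟩
  have hnorm : ‖ω‖ = ‖z‖ := norm_eq_of_close hzω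
  have hfix : ω ∈ IntermediateField.fixedField L.fixingSubgroup := by
    rw [IntermediateField.mem_fixedField_iff]
    intro τ hτ
    have hτc : τ c = c := by
      have := (mem_fixingSubgroup_iff (M := PadicAlgCl p ≃ₐ[ℚ_[p]] PadicAlgCl p)).1 hτ c hc
      simpa using this
    have h1 : ω ^ k = (τ ω) ^ k := by
      rw [← map_pow, hω, hτc]
    have h2 : ‖ω - z‖ < ‖ω‖ := by rw [norm_sub_rev, hnorm]; exact hzω
    have h3 : ‖z - τ z‖ < ‖ω‖ := by rw [hnorm]; exact hL τ hτ
    have h4 : ‖τ z - τ ω‖ < ‖ω‖ := by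
      rw [← map_sub, norm_algEquiv, hnorm]; exact hzω
    have h5 : ‖ω - τ ω‖ < ‖ω‖ := sub_lt_max (sub_lt_max h2 h3) h4
    exact (root_unique hk hk1 h1 h5).symm
  have hgal : IsGalois ℚ_[p] (PadicAlgCl p) := inferInstance
  rw [InfiniteGalois.fixedField_fixingSubgroup] at hfix
  exact hfix

theorem descent {r n p : ℕ} [Fact p.Prime] (hr : 3 ≤ r) (hn : 1 ≤ n) (hrp : r < p) {z : ℕ → PadicAlgCl p}
    (hz : Approx r n p z) (L : IntermediateField ℚ_[p] (PadicAlgCl p))
    (hL : ∀ τ ∈ L.fixingSubgroup, ∀ i, 1 ≤ i → i ≤ n → ‖z i - τ (z i)‖ < ‖z i‖) :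
    ∃ ω ∈ L, ‖ω‖ ^ ((r - 1) ^ n) = (p : ℝ)⁻¹ := by
  have hpn := norm_p_algCl p
  have hp0 : (0:ℝ) < (p:ℝ) := by
    have := (Fact.out : p.Prime).pos
    exact_mod_cast this
  have hp1 : (1:ℝ) < (p:ℝ) := by
    have := (Fact.out : p.Prime).one_lt
    exact_mod_cast this
  have hπ1 : (p:ℝ)⁻¹ < 1 := inv_lt_one_of_one_lt₀ hp1
  have hπ0 : (0:ℝ) < (p:ℝ)⁻¹ := inv_pos.2 hp0
  have hk : 1 ≤ r - 1 := by omega
  have hk1 : ‖((r - 1 : ℕ) : PadicAlgCl p)‖ = 1 := by
    apply norm_nat_coprime hpn
    intro hd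
    have := Nat.le_of_dvd (by omega) hd
    omega
  have hbt : bt (PadicAlgCl p) r ∈ L := by
    unfold bt
    exact L.inv_mem (L.sub_mem (natCast_mem L r) L.one_mem)
  have hbn : ‖bt (PadicAlgCl p) r‖ = 1 := norm_bt hpn hr hrp
  have hkey : ∀ i, 1 ≤ i → i ≤ n → ∃ ω ∈ L, ‖z i - ω‖ < ‖z i‖ := by
    intro i hi
    induction i, hi using Nat.le_induction with
    | base =>
      intro hin
      obtain ⟨h1, h2, h3, h4, h5, h6, h7⟩ := norm_z hpn hr hrp hz (le_refl 1) hin
      have hA := hz 1 (le_refl 1) hin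
      apply step hk hk1 L (c := cci p r z 1)
      · unfold cci
        simp only [le_refl, if_true]
        exact L.mul_mem (natCast_mem L p) (pow_mem hbt _)
      · refine lt_of_le_of_lt hA (lt_of_lt_of_le ?_ h5)
        have h8 := kap_ge (n := n) 1
        calc ((p:ℝ)⁻¹) ^ kap n 1 ≤ ((p:ℝ)⁻¹) ^ 2 :=
              pow_le_pow_of_le_one hπ0.le hπ1.le (by omega)
          _ < (p:ℝ)⁻¹ := by nlinarith
      · intro τ hτ
        exact hL τ hτ 1 (le_refl 1) hin
    | succ i hi ih =>
      intro hin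
      obtain ⟨ω, hωL, hω⟩ := ih (by omega)
      obtain ⟨h1, h2, h3, h4, h5, h6, h7⟩ := norm_z hpn hr hrp hz (i := i + 1) (by omega) hin
      have hA := hz (i + 1) (by omega) hin
      have hne : ¬ (i + 1 = 1) := by omega
      rw [if_neg hne, Nat.add_sub_cancel] at h1
      have hcc : cci p r z (i + 1) = bt (PadicAlgCl p) r ^ (r - 2) * ((p : PadicAlgCl p) * bt (PadicAlgCl p) r - z i) := by
        unfold cci
        have : ¬ (i + 1 ≤ 1) := by omega
        rw [if_neg this, Nat.add_sub_cancel]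
      apply step hk hk1 L (c := bt (PadicAlgCl p) r ^ (r - 2) * ((p : PadicAlgCl p) * bt (PadicAlgCl p) r - ω))
      · exact L.mul_mem (pow_mem hbt _) (L.sub_mem (L.mul_mem (natCast_mem L p) hbt) hωL)
      · have e1 : ‖z (i + 1) ^ (r - 1) - cci p r z (i + 1)‖ < ‖z (i + 1)‖ ^ (r - 1) := by
          refine lt_of_le_of_lt hA (lt_of_lt_of_le ?_ h5)
          have h8 := kap_ge (n := n) (i + 1)
          calc ((p:ℝ)⁻¹) ^ kap n (i + 1) ≤ ((p:ℝ)⁻¹) ^ 2 :=
                pow_le_pow_of_le_one hπ0.le hπ1.le (by omega)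
            _ < (p:ℝ)⁻¹ := by nlinarith
        refine sub_lt_max e1 ?_
        rw [hcc, ← mul_sub]
        have : (p : PadicAlgCl p) * bt (PadicAlgCl p) r - z i - ((p : PadicAlgCl p) * bt (PadicAlgCl p) r - ω) = -(z i - ω) := by ring
        rw [this, norm_mul, norm_pow, hbn, one_pow, one_mul, norm_neg, h1]
        exact hω
      · intro τ hτ
        exact hL τ hτ (i + 1) (by omega) hin
  obtain ⟨ω, hωL, hω⟩ := hkey n hn (le_refl n)
  refine ⟨ω, hωL, ?_⟩
  rw [norm_eq_of_close hω]
  exact norm_z_n hpn hr hrp hz hn (le_refl n)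

end CT
end

section

/-!
# Degrees over `ℚ` and over `ℚ_p`

Proof.  `minpoly ℚ_[p] (σ γ)` divides `(minpoly ℚ γ).map _` (it vanishes at `σ γ`), degrees; `IntermediateField.adjoin.finrank`.
-/

set_option autoImplicit false

open Finset

namespace CT

theorem finrank_le_natDegree {p : ℕ} [Fact p.Prime] (σ : algebraicClosure ℚ ℝ →ₐ[ℚ] PadicAlgCl p)
    (γ : algebraicClosure ℚ ℝ) :
    Module.finrank ℚ_[p] (IntermediateField.adjoin ℚ_[p] ({σ γ} : Set (PadicAlgCl p))) ≤
      (minpoly ℚ (γ : ℝ)).natDegree := by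
  have halg : IsIntegral ℚ γ := by
    have h : IsAlgebraic ℚ (γ : ℝ) := mem_algebraicClosure_iff.1 γ.2
    have h2 : IsAlgebraic ℚ γ := by
      rwa [← isAlgebraic_algebraMap_iff (A := ℝ) (algebraMap (algebraicClosure ℚ ℝ) ℝ).injective]
    exact h2.isIntegral
  have hmin : minpoly ℚ (γ : ℝ) = minpoly ℚ γ :=
    minpoly.algebraMap_eq (B' := ℝ) (algebraMap (algebraicClosure ℚ ℝ) ℝ).injective γ
  have hint : IsIntegral ℚ_[p] (σ γ) := Algebra.IsIntegral.isIntegral (R := ℚ_[p]) (σ γ)
  have h0 : (Polynomial.aeval (σ γ)) ((minpoly ℚ γ).map (algebraMap ℚ ℚ_[p])) = 0 := by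
    rw [Polynomial.aeval_map_algebraMap, Polynomial.aeval_algHom_apply, minpoly.aeval, map_zero]
  have hdvd := minpoly.dvd ℚ_[p] (σ γ) h0
  have hne : (minpoly ℚ γ).map (algebraMap ℚ ℚ_[p]) ≠ 0 :=
    (Polynomial.map_ne_zero_iff (algebraMap ℚ ℚ_[p]).injective).2 (minpoly.ne_zero halg)
  rw [IntermediateField.adjoin.finrank hint, hmin]
  calc (minpoly ℚ_[p] (σ γ)).natDegree ≤ ((minpoly ℚ γ).map (algebraMap ℚ ℚ_[p])).natDegree :=
        Polynomial.natDegree_le_of_dvd hdvd hne
    _ = (minpoly ℚ γ).natDegree := Polynomial.natDegree_map _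

end CT
end
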