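import Mathlib

/-!
# Codegree Turan densities of unbounded algebraic degree (MP_63f67f_co): definitions

Paper proof: table `papers`, id 388.  Here `r = k - 1` and hypergraphs are finite sets of finite sets.
-/

set_option autoImplicit false

open Finset

namespace CT

section Basic

variable {V : Type*} [DecidableEq V] {W : Type*} [DecidableEq W]

/-- all edges have exactly `k` elements -/
def Unif (k : ℕ) (H : Finset (Finset V)) : Prop := ∀ e ∈ H, e.card = k

/-- `φ` sends every edge of `F` onto an edge of `H` -/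
def IsHom (F : Finset (Finset W)) (H : Finset (Finset V)) (φ : W → V) : Prop :=
  ∀ e ∈ F, e.image φ ∈ H

/-- there is a homomorphism `F → H` -/
def HomTo (F : Finset (Finset W)) (H : Finset (Finset V)) : Prop := ∃ φ : W → V, IsHom F H φ

/-- `H` contains a copy of `F` (as a not necessarily induced subgraph) -/
def Contains (F : Finset (Finset W)) (H : Finset (Finset V)) : Prop :=
  ∃ φ : W → V, Function.Injective φ ∧ IsHom F H φ

/-- the number of edges of `H` containing `S` -/
def codeg (H : Finset (Finset V)) (S : Finset V) : ℕ := (H.filter (fun e => S ⊆ e)).card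

variable [Fintype V]

/-- the vertices extending `S` to an edge -/
def nb (H : Finset (Finset V)) (S : Finset V) : Finset V :=
  univ.filter (fun v => v ∉ S ∧ insert v S ∈ H)

/-- all `r`-sets have at least `c` neighbours -/
def MinCo (r : ℕ) (H : Finset (Finset V)) (c : ℝ) : Prop :=
  ∀ S : Finset V, S.card = r → c ≤ ((nb H S).card : ℝ)

/-- vertices extending some `r`-subset of `X` to an edge -/
def NN (r : ℕ) (H : Finset (Finset V)) (X : Finset V) : Finset V :=
  (powersetCard r X).biUnion (nb H)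

/-- iterates of `NN` -/
def iterN (r : ℕ) (H : Finset (Finset V)) (R : Finset V) : ℕ → Finset V
  | 0 => R
  | i + 1 => NN r H (iterN r H R i)

omit [Fintype V] in
/-- some link contains a homomorphic image of `G` inside `X` -/
def Rich (G : Finset (Finset W)) (H : Finset (Finset V)) (X : Finset V) : Prop :=
  ∃ b : V, ∃ ψ : W → V, (∀ w, ψ w ∈ X) ∧ ∀ e ∈ G, insert b (e.image ψ) ∈ H

omit [Fintype V] in
/-- the class `S_G` -/
def InS (G : Finset (Finset W)) (H : Finset (Finset V)) : Prop :=
  ∃ A : Finset V, (∀ e ∈ H, ¬ e ⊆ A) ∧ (∀ e ∈ H, ∃ v ∈ e, v ∈ A) ∧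
    ∀ b, b ∉ A → ∀ ψ : W → V, (∀ w, ψ w ∈ A) → ∃ e ∈ G, insert b (e.image ψ) ∉ H

end Basic

/-- the hypotheses (G1), (G2), (G3) on a single `r`-graph `G` with number `y` -/
structure Good {W : Type} [DecidableEq W] (r : ℕ) (y : ℝ) (G : Finset (Finset W)) : Prop where
  unif : Unif r G
  ne : G.Nonempty
  up : ∀ (X : Type) [Fintype X] [DecidableEq X] (L : Finset (Finset X)), Unif r L → ¬ HomTo G L →
    (r.factorial : ℝ) * (L.card : ℝ) ≤ y * (Fintype.card X : ℝ) ^ r
  low : ∀ ε : ℝ, 0 < ε → ∃ n0 : ℕ, ∀ n : ℕ, n0 ≤ n → ∃ L : Finset (Finset (Fin n)),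
    Unif r L ∧ ¬ HomTo G L ∧ (y - ε) * (n.choose r : ℝ) ≤ (L.card : ℝ)
  cov : ∃ N0 : ℕ, ∀ (X : Type) [Fintype X] [DecidableEq X] (L : Finset (Finset X)), Unif r L →
    N0 ≤ Fintype.card X → (∀ u v : X, u ≠ v → ∃ e ∈ L, u ∈ e ∧ v ∈ e) → HomTo G L

/-- walks of length exactly `t` -/
def Walk {T : Type*} (A : T → T → Prop) : ℕ → T → T → Prop
  | 0, u, v => u = v
  | t + 1, u, v => ∃ w, A u w ∧ Walk A t w v

section Final

/-- the minimum codegree of a `k`-graph on `Fin n`: the minimum of `codeg H S` over `(k-1)`-sets `S` -/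
noncomputable def minCodeg (k n : ℕ) (H : Finset (Finset (Fin n))) : ℕ :=
  sInf {c | ∃ S : Finset (Fin n), S.card = k - 1 ∧ c = codeg H S}

/-- the largest minimum codegree of an `F`-free `k`-graph on `n` vertices -/
noncomputable def exCodeg (k n : ℕ) {s : ℕ} (F : Finset (Finset (Fin s))) : ℕ :=
  sSup {c | ∃ H : Finset (Finset (Fin n)), Unif k H ∧ ¬ Contains F H ∧ c = minCodeg k n H}

/-- `γ` is the codegree Turan density of the `k`-graph `F` -/
def IsCodegDensity (k : ℕ) {s : ℕ} (F : Finset (Finset (Fin s))) (γ : ℝ) : Prop :=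
  Filter.Tendsto (fun n : ℕ => (exCodeg k n F : ℝ) / ((n : ℝ) - k + 1)) Filter.atTop (nhds γ)

end Final

section Lag

variable {V : Type*} [DecidableEq V] {R : Type*} [CommRing R]

/-- the polynomial of a hypergraph -/
def lag (L : Finset (Finset V)) (x : V → R) : R := ∑ e ∈ L, ∏ v ∈ e, x v

/-- its partial derivative in the direction `v` -/
def dlag (L : Finset (Finset V)) (x : V → R) (v : V) : R :=
  ∑ e ∈ L.filter (fun e => v ∈ e), ∏ u ∈ e.erase v, x u

/-- elementary symmetric polynomial of degree `k` of the `x v`, `v ∈ s` -/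
def esy (s : Finset V) (k : ℕ) (x : V → R) : R := ∑ e ∈ powersetCard k s, ∏ v ∈ e, x v

/-- the second derivative of `lag L` applied to `(w,w)` -/
def d2lag (L : Finset (Finset V)) (x w : V → R) : R :=
  ∑ e ∈ L, ∑ u ∈ e, ∑ v ∈ e.erase u, w u * w v * ∏ z ∈ (e.erase u).erase v, x z

/-- `y` is `r!` times the Lagrangian of `L` -/
def IsLAM [Fintype V] (r : ℕ) (L : Finset (Finset V)) (y : ℝ) : Prop :=
  (∀ x ∈ stdSimplex ℝ V, (r.factorial : ℝ) * lag L x ≤ y) ∧
    ∃ x ∈ stdSimplex ℝ V, (r.factorial : ℝ) * lag L x = y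

end Lag

section Product

variable {V : Type*} [DecidableEq V] [Fintype V] {W : Type*} [DecidableEq W] [Fintype W]
  {ι : Type*} [Fintype ι] [DecidableEq ι]

/-- product of two `r`-graphs -/
def prod2 (r : ℕ) (E : Finset (Finset V)) (F : Finset (Finset W)) : Finset (Finset (V × W)) :=
  univ.filter (fun S => S.card = r ∧ S.image Prod.fst ∈ E ∧ S.image Prod.snd ∈ F)

/-- product of a family of `r`-graphs on `V` -/
def piH (r : ℕ) (E : ι → Finset (Finset V)) : Finset (Finset (ι → V)) :=
  univ.filter (fun S => S.card = r ∧ ∀ i, S.image (fun q => q i) ∈ E i)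

/-- every pair of distinct vertices is covered by an edge -/
def Cov2 (E : Finset (Finset V)) : Prop := ∀ u v : V, u ≠ v → ∃ e ∈ E, u ∈ e ∧ v ∈ e

/-- vertices of the expansion of the complete graph on `m + 1` vertices -/
abbrev KV (m r : ℕ) := Fin (m + 1) ⊕ ((Fin (m + 1) × Fin (m + 1)) × Fin (r - 2))

/-- the edge of the expansion belonging to the pair `(i,j)` -/
def KE (m r : ℕ) (i j : Fin (m + 1)) : Finset (KV m r) :=
  insert (Sum.inl i) (insert (Sum.inl j) (univ.image (fun l : Fin (r - 2) => Sum.inr ((i, j), l))))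

/-- the expansion of the complete graph on `m + 1` vertices -/
def Kplus (m r : ℕ) : Finset (Finset (KV m r)) :=
  (univ.filter (fun q : Fin (m + 1) × Fin (m + 1) => q.1 ≠ q.2)).image (fun q => KE m r q.1 q.2)

/-- the 2-covering `r`-graphs on `V` which are not isomorphic to a subgraph of `P` -/
noncomputable def QQ (r : ℕ) (P : Finset (Finset V)) : Finset (Finset (Finset V)) := by
  classical
  exact (powersetCard r (univ : Finset V)).powerset.filter
    (fun Q => Cov2 Q ∧ ¬ ∃ θ : V → V, Function.Injective θ ∧ IsHom Q P θ)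

/-- the vertex type of `G` -/
abbrev GV (m r : ℕ) (P : Finset (Finset V)) := KV m r × ({Q // Q ∈ QQ r P} → V)

/-- the single `r`-graph `G` belonging to the pattern `P` -/
noncomputable def GG (r : ℕ) (P : Finset (Finset V)) :
    Finset (Finset (GV (Fintype.card V) r P)) :=
  prod2 r (Kplus (Fintype.card V) r) (piH r (fun Q : {Q // Q ∈ QQ r P} => Q.1))

end Product

section Design

/-- the special vertices -/
abbrev UV (n : ℕ) (N : ℕ → ℕ) := Σ i : Fin (n + 1), Fin (N i)

/-- all vertices of the pattern -/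
abbrev PV (n : ℕ) (N : ℕ → ℕ) (M : ℕ) := Fin M ⊕ UV n N

variable (r n p : ℕ) (N : ℕ → ℕ) [∀ i, NeZero (N i)]

/-- the `t`-th vertex (mod `N i`) of the class `i` -/
def pt (i : Fin (n + 1)) (t : ℕ) : UV n N := ⟨i, Fin.ofNat (N i) t⟩

/-- missing edges of the first kind, `i : Fin n` stands for the level `i + 1` -/
def Aset (i : Fin n) (v : ℕ) : Finset (UV n N) :=
  insert (pt n N i.succ v) (insert (pt n N i.castSucc v)
    ((range (r - 2)).image (fun t => pt n N 0 (v + t + 1))))

/-- missing edges of the second kind -/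
def Bset (i : Fin n) (v j : ℕ) : Finset (UV n N) :=
  insert (pt n N i.succ v) ((range (r - 1)).image (fun t => pt n N 0 (v + j + t + 1)))

/-- the missing edges, as a hypergraph on the special vertices -/
def miss0 : Finset (Finset (UV n N)) :=
  (univ : Finset (Fin n)).biUnion (fun i =>
    (range (N (i + 1))).image (fun v => Aset r n N i v) ∪
    (range (N (i + 1)) ×ˢ range (p - 1)).image (fun q => Bset r n N i q.1 q.2))

variable (M : ℕ)

/-- the missing edges -/
def miss : Finset (Finset (PV n N M)) := (miss0 r n p N).image (fun e => e.image Sum.inr)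

/-- the pattern -/
def PP : Finset (Finset (PV n N M)) := powersetCard r univ \ miss r n p N M

variable {R : Type*} [CommRing R]

omit [∀ i, NeZero (N i)] in
/-- class-constant functions -/
def cc (b : R) (a : ℕ → R) : PV n N M → R := Sum.elim (fun _ => b) (fun u => a u.1)

/-- value of `dlag (miss ..)` on the class `i` -/
def Nval (a : ℕ → R) (i : ℕ) : R :=
  if i = 0 then
    (∑ l ∈ range n, ((N (l + 1) / N 0 : ℕ) : R) *
      (((r - 2 : ℕ) : R) * a (l + 1) * a l * a 0 ^ (r - 3) +
        ((p - 1 : ℕ) : R) * ((r - 1 : ℕ) : R) * a (l + 1) * a 0 ^ (r - 2))) +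
      ((N 1 / N 0 : ℕ) : R) * a 1 * a 0 ^ (r - 2)
  else a 0 ^ (r - 2) * (a (i - 1) + ((p - 1 : ℕ) : R) * a 0) +
    if i < n then ((N (i + 1) / N i : ℕ) : R) * a (i + 1) * a 0 ^ (r - 2) else 0

/-- value of `lag (miss ..)` -/
def Nsum (a : ℕ → R) : R :=
  ∑ i ∈ range n, (N (i + 1) : R) * a (i + 1) * a 0 ^ (r - 2) * (a i + ((p - 1 : ℕ) : R) * a 0)

/-- class-constant critical points of `lag (PP ..)` on the simplex `∑ x = 1` -/
structure Sol (b : R) (a : ℕ → R) : Prop where
  sum_one : (M : R) * b + ∑ i ∈ range (n + 1), (N i : R) * a i = 1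
  crit : ∃ Λ : R, (∀ o : Fin M, esy (univ.erase (Sum.inl o)) (r - 1) (cc n N M b a) = Λ) ∧
    ∀ u : UV n N, esy (univ.erase (Sum.inr u)) (r - 1) (cc n N M b a) - Nval r n p N a u.1 = Λ

/-- the critical value -/
def fval (b : R) (a : ℕ → R) : R := esy univ r (cc n N M b a) - Nsum r n p N a

end Design

section Parameters

/-- the exponent `k_0` -/
def k0 (n : ℕ) : ℕ := 8 * 2 ^ n

/-- the exponents `K_i`, `1 ≤ i < n` -/
def Kx (n i : ℕ) : ℕ := 8 * 2 ^ (n - 1 - i)

/-- the exponent `s_0` -/
def s0 (r n : ℕ) : ℕ := 2 * (r + 2) * k0 n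

/-- the exponents `s_i` -/
def sx (r n : ℕ) : ℕ → ℕ
  | 0 => s0 r n
  | i + 1 => sx r n i + (if i = 0 then (r - 1) * k0 n else Kx n i)

/-- the class sizes -/
def Nx (r n p : ℕ) (i : ℕ) : ℕ := p ^ sx r n i

end Parameters

end CT
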