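import Pool.Agent.Lib.MP_63f67f_co.Defs
import Pool.Agent.Lib.MP_63f67f_co.C19
import Pool.Agent.Lib.MP_63f67f_co.D14
import Pool.Agent.Lib.MP_63f67f_co.B02
import Pool.Agent.Lib.MP_63f67f_co.A20
import Pool.Agent.Lib.MP_63f67f_co.B08
import Pool.Agent.Lib.MP_63f67f_co.C24
import Pool.Agent.Lib.MP_63f67f_co.D19

section

/-!
# `dlag` is constant on the classes

Proof.  `esy_erase_swap`: the transposition of `u` and `v` maps `univ.erase u` to `univ.erase v` and preserves `x` when `x u = x v` (`Finset.sum_bij`, or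
`esy_erase_sub` with `x o - x v = 0`).  Then `C19`.
-/

set_option autoImplicit false

open Finset

namespace CT

theorem esy_erase_eq {V : Type*} [Fintype V] [DecidableEq V] {R : Type*} [CommRing R] (x : V → R) {u v : V}
    (h : x u = x v) (k : ℕ) : esy (univ.erase u) k x = esy (univ.erase v) k x := by
  have h1 : (univ.erase v : Finset V) = (univ.erase u).map (Equiv.swap u v).toEmbedding := by
    rw [Finset.map_erase, Finset.map_univ_equiv]
    simp
  have h2 : ∀ w, x (Equiv.swap u v w) = x w := by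
    intro w
    by_cases hu : w = u
    · rw [hu, Equiv.swap_apply_left, h]
    · by_cases hv : w = v
      · rw [hv, Equiv.swap_apply_right, h]
      · rw [Equiv.swap_apply_of_ne_of_ne hu hv]
  unfold esy
  rw [h1, Finset.powersetCard_map, Finset.sum_map]
  refine Finset.sum_congr rfl fun e _ => ?_
  show ∏ w ∈ e, x w = ∏ w ∈ e.map (Equiv.swap u v).toEmbedding, x w
  rw [Finset.prod_map]
  exact Finset.prod_congr rfl fun w _ => (h2 w).symm

theorem dlag_class {r n p : ℕ} {N : ℕ → ℕ} [∀ i, NeZero (N i)] {M : ℕ} (hr : 3 ≤ r) (hn : 1 ≤ n) (hN : r + p ≤ N 0)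
    (hdiv : ∀ i, N i ∣ N (i + 1)) {R : Type*} [CommRing R] (b : R) (a : ℕ → R) :
    (∀ o o' : Fin M, dlag (PP r n p N M) (cc n N M b a) (Sum.inl o) = dlag (PP r n p N M) (cc n N M b a) (Sum.inl o')) ∧
    ∀ u u' : UV n N, u.1 = u'.1 →
      dlag (PP r n p N M) (cc n N M b a) (Sum.inr u) = dlag (PP r n p N M) (cc n N M b a) (Sum.inr u') := by
  constructor
  · intro o o'
    rw [dlag_PP_inl hr hN, dlag_PP_inl hr hN]
    exact esy_erase_eq (cc n N M b a) (u := Sum.inl o) (v := Sum.inl o') rfl _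
  · intro u u' huu
    rw [dlag_PP_inr hr hn hN hdiv, dlag_PP_inr hr hn hN hdiv, huu,
      esy_erase_eq (cc n N M b a) (u := Sum.inr u) (v := Sum.inr u') ?_]
    show a (u.1 : ℕ) = a (u'.1 : ℕ)
    rw [huu]

end CT
end

section

/-!
# The approximate equations

Proof (papers 388, IV.3).  `sol_eq` with `R = 1`, `z i = b - a i`.  `a 0 = β + O(π^k0)`, `a i = b - z i`; for `i = 1` the main part of `Nval` is `p * a 0^(r-1)`, for `i ≥ 2` it is
`a 0^(r-2) * (p a 0 + z 0 - z (i-1)) = β^(r-2) (p β - z (i-1)) + O(π^k0)`; the last term of `Nval` (if `i < n`) has norm `≤ π^(Kx n i)` (`Nx_div`).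
`π^s0 ≤ π^k0`, `kap n i ≤ k0 n`.
-/

set_option autoImplicit false

open Finset

namespace CT

section aux
variable {Ω : Type*} [NormedField Ω] [IsUltrametricDist Ω]

private theorem nadd {x y : Ω} {c : ℝ} (hx : ‖x‖ ≤ c) (hy : ‖y‖ ≤ c) : ‖x + y‖ ≤ c :=
  (IsUltrametricDist.norm_add_le_max x y).trans (max_le hx hy)

private theorem nsub {x y : Ω} {c : ℝ} (hx : ‖x‖ ≤ c) (hy : ‖y‖ ≤ c) : ‖x - y‖ ≤ c := by
  rw [sub_eq_add_neg]
  exact nadd hx (by rwa [norm_neg])

omit [IsUltrametricDist Ω] in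
private theorem nmul {x y : Ω} {c : ℝ} (hx : ‖x‖ ≤ 1) (hy : ‖y‖ ≤ c) : ‖x * y‖ ≤ c := by
  rw [norm_mul]
  calc ‖x‖ * ‖y‖ ≤ 1 * ‖y‖ := mul_le_mul_of_nonneg_right hx (norm_nonneg _)
    _ ≤ c := by rwa [one_mul]

omit [IsUltrametricDist Ω] in
private theorem npow1 {x : Ω} (hx : ‖x‖ ≤ 1) (k : ℕ) : ‖x ^ k‖ ≤ 1 := by
  rw [norm_pow]
  exact pow_le_one₀ (norm_nonneg _) hx

private theorem npow {x y : Ω} {c : ℝ} (hx : ‖x‖ ≤ 1) (hy : ‖y‖ ≤ 1) (h : ‖x - y‖ ≤ c) (hc : 0 ≤ c) (k : ℕ) :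
    ‖x ^ k - y ^ k‖ ≤ c := by
  induction k with
  | zero => simpa using hc
  | succ k ih =>
    have e : x ^ (k + 1) - y ^ (k + 1) = x * (x ^ k - y ^ k) + y ^ k * (x - y) := by ring
    rw [e]
    exact nadd (nmul hx ih) (nmul (npow1 hy k) h)

end aux

theorem sol_approx {Ω : Type*} [NormedField Ω] [IsUltrametricDist Ω] {r n p M : ℕ} [Fact p.Prime]
    (hp : ‖(p : Ω)‖ = (p : ℝ)⁻¹) (h : Par r n p M) {b : Ω} {a : ℕ → Ω} (hS : Sol r n p (Nx r n p) M b a) :
    Approx r n p (fun i => b - a i) := by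
  obtain ⟨hb, ha, hbβ, hba⟩ := sol_norm hp h hS
  have hr := h.hr
  have hp0 : 0 < p := h.prime.pos
  have hp1 : (1 : ℝ) ≤ p := by exact_mod_cast hp0
  have hq0 : 0 ≤ (p : ℝ)⁻¹ := by positivity
  have hq1 : (p : ℝ)⁻¹ ≤ 1 := inv_le_one_of_one_le₀ hp1
  have hanti : ∀ {i j : ℕ}, i ≤ j → ((p : ℝ)⁻¹) ^ j ≤ ((p : ℝ)⁻¹) ^ i := fun h =>
    pow_le_pow_of_le_one hq0 hq1 h
  have hqk : 0 ≤ ((p : ℝ)⁻¹) ^ k0 n := pow_nonneg hq0 _
  have hqk1 : ((p : ℝ)⁻¹) ^ k0 n ≤ 1 := pow_le_one₀ hq0 hq1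
  have hbβ' : ‖b - bt Ω r‖ ≤ ((p : ℝ)⁻¹) ^ k0 n := hbβ.trans (hanti k0_le_s0)
  have ha0 : ‖a 0‖ ≤ 1 := ha 0 (Nat.zero_le _)
  have hβ : ‖bt Ω r‖ ≤ 1 := by
    have e : bt Ω r = b - (b - bt Ω r) := by ring
    rw [e]
    exact nsub hb.le (hbβ'.trans hqk1)
  have haβ : ‖a 0 - bt Ω r‖ ≤ ((p : ℝ)⁻¹) ^ k0 n := by
    have e : a 0 - bt Ω r = (b - bt Ω r) - (b - a 0) := by ring
    rw [e]
    exact nsub hbβ' hba
  have hpn : ‖(p : Ω)‖ ≤ 1 := by
    rw [hp]
    exact hq1
  have hp1c : ((p - 1 : ℕ) : Ω) = (p : Ω) - 1 := by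
    rw [Nat.cast_sub hp0, Nat.cast_one]
  intro i hi1 hin
  have hb1 : ∀ j, j ≤ n → ‖b - a j‖ ≤ 1 := fun j hj => nsub hb.le (ha j hj)
  have key := sol_eq hp h zero_le_one hb.le ha hS hin
  rw [one_pow, mul_one] at key
  have hks : ((p : ℝ)⁻¹) ^ k0 n ≤ ((p : ℝ)⁻¹) ^ kap n i := hanti (kap_le_k0 i)
  have hlast : ‖(if i < n then ((Nx r n p (i + 1) / Nx r n p i : ℕ) : Ω) * a (i + 1) * a 0 ^ (r - 2) else 0)‖ ≤
      ((p : ℝ)⁻¹) ^ kap n i := by
    split_ifs with hlt
    · rw [Nx_div hp0, if_neg (by omega)]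
      have e1 : kap n i = Kx n i := if_pos hlt
      rw [e1]
      have e2 : (((p ^ Kx n i : ℕ) : Ω) * a (i + 1) * a 0 ^ (r - 2)) =
          (a (i + 1) * a 0 ^ (r - 2)) * ((p ^ Kx n i : ℕ) : Ω) := by ring
      rw [e2]
      refine nmul ?_ ?_
      · exact nmul (ha _ (by omega)) (npow1 ha0 _)
      · rw [Nat.cast_pow, norm_pow, hp]
    · rw [norm_zero]
      exact pow_nonneg hq0 _
  have hmain : ‖a 0 ^ (r - 2) * (a (i - 1) + ((p - 1 : ℕ) : Ω) * a 0) - cci p r (fun i => b - a i) i‖ ≤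
      ((p : ℝ)⁻¹) ^ k0 n := by
    unfold cci
    rcases Nat.lt_or_ge 1 i with hi | hi
    · rw [if_neg (by omega), hp1c]
      have e : a 0 ^ (r - 2) * (a (i - 1) + ((p : Ω) - 1) * a 0) -
          bt Ω r ^ (r - 2) * ((p : Ω) * bt Ω r - (b - a (i - 1))) =
          ((p : Ω) * a 0 + (b - a 0) - (b - a (i - 1))) * (a 0 ^ (r - 2) - bt Ω r ^ (r - 2)) +
          bt Ω r ^ (r - 2) * ((p : Ω) * (a 0 - bt Ω r) + (b - a 0)) := by ring
      change ‖a 0 ^ (r - 2) * (a (i - 1) + ((p : Ω) - 1) * a 0) -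
          bt Ω r ^ (r - 2) * ((p : Ω) * bt Ω r - (b - a (i - 1)))‖ ≤ _
      rw [e]
      refine nadd (nmul ?_ (npow ha0 hβ haβ hqk _)) (nmul (npow1 hβ _) (nadd (nmul hpn haβ) hba))
      exact nsub (nadd (nmul hpn ha0) (hb1 0 (Nat.zero_le _))) (hb1 _ (by omega))
    · have hi' : i = 1 := by omega
      subst hi'
      rw [if_pos le_rfl, hp1c]
      obtain ⟨r', rfl⟩ : ∃ r', r = r' + 2 := ⟨r - 2, by omega⟩
      have e : a 0 ^ (r' + 2 - 2) * (a (1 - 1) + ((p : Ω) - 1) * a 0) -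
          (p : Ω) * bt Ω (r' + 2) ^ (r' + 2 - 1) =
          (p : Ω) * (a 0 ^ (r' + 1) - bt Ω (r' + 2) ^ (r' + 1)) := by
        have e1 : r' + 2 - 2 = r' := rfl
        have e2 : r' + 2 - 1 = r' + 1 := rfl
        rw [e1, e2, Nat.sub_self]
        ring
      rw [e]
      exact nmul hpn (npow ha0 hβ haβ hqk _)
  have hN : Nval r n p (Nx r n p) a i = a 0 ^ (r - 2) * (a (i - 1) + ((p - 1 : ℕ) : Ω) * a 0) +
      (if i < n then ((Nx r n p (i + 1) / Nx r n p i : ℕ) : Ω) * a (i + 1) * a 0 ^ (r - 2) else 0) := by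
    unfold Nval
    rw [if_neg (by omega)]
  rw [hN] at key
  have e : (fun i => b - a i) i ^ (r - 1) - cci p r (fun i => b - a i) i =
      ((b - a i) ^ (r - 1) - (a 0 ^ (r - 2) * (a (i - 1) + ((p - 1 : ℕ) : Ω) * a 0) +
      (if i < n then ((Nx r n p (i + 1) / Nx r n p i : ℕ) : Ω) * a (i + 1) * a 0 ^ (r - 2) else 0))) +
      ((a 0 ^ (r - 2) * (a (i - 1) + ((p - 1 : ℕ) : Ω) * a 0) - cci p r (fun i => b - a i) i) +
      (if i < n then ((Nx r n p (i + 1) / Nx r n p i : ℕ) : Ω) * a (i + 1) * a 0 ^ (r - 2) else 0)) := by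
    ring
  rw [e]
  exact nadd (key.trans ((hanti k0_le_s0).trans hks)) (nadd (hmain.trans hks) hlast)

end CT
end

section

/-!
# The critical value

Proof (papers 388, IV.4).  `fval = esy univ r _ - Nsum`; `esy_b_main` with `R = 1` (error `π^(2 s0) ≤ π^(sx 1 + k0)`); the term `i = 0` has norm
`≤ π^(s0 + r k0) = π^(sx 1 + k0)`.  `Nsum = ∑ N (i+1) a (i+1) a 0^(r-2) (a i + (p-1) a 0)`; with `z i = b - a i`, `a 0 = β + O(π^k0)`, `b = β + O(π^s0)`:
`a (i+1) a 0^(r-2) (a i + (p-1) a 0) = (β - z (i+1)) * cci (i+1) + O(π^k0)` (for `i = 0`: `a 0 + (p-1) a 0 = p a 0`), and `‖N (i+1)‖ ≤ π^(sx 1)`.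
-/

set_option autoImplicit false

open Finset

namespace CT

section aux
variable {Ω : Type*} [NormedField Ω] [IsUltrametricDist Ω]

private theorem nadd9 {x y : Ω} {c : ℝ} (hx : ‖x‖ ≤ c) (hy : ‖y‖ ≤ c) : ‖x + y‖ ≤ c :=
  (IsUltrametricDist.norm_add_le_max x y).trans (max_le hx hy)

private theorem nsub9 {x y : Ω} {c : ℝ} (hx : ‖x‖ ≤ c) (hy : ‖y‖ ≤ c) : ‖x - y‖ ≤ c := by
  rw [sub_eq_add_neg]
  exact nadd9 hx (by rwa [norm_neg])

omit [IsUltrametricDist Ω] in
private theorem nmul9 {x y : Ω} {c : ℝ} (hx : ‖x‖ ≤ 1) (hy : ‖y‖ ≤ c) : ‖x * y‖ ≤ c := by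
  rw [norm_mul]
  calc ‖x‖ * ‖y‖ ≤ 1 * ‖y‖ := mul_le_mul_of_nonneg_right hx (norm_nonneg _)
    _ ≤ c := by rwa [one_mul]

omit [IsUltrametricDist Ω] in
private theorem npow19 {x : Ω} (hx : ‖x‖ ≤ 1) (k : ℕ) : ‖x ^ k‖ ≤ 1 := by
  rw [norm_pow]
  exact pow_le_one₀ (norm_nonneg _) hx

private theorem npow9 {x y : Ω} {c : ℝ} (hx : ‖x‖ ≤ 1) (hy : ‖y‖ ≤ 1) (h : ‖x - y‖ ≤ c) (hc : 0 ≤ c) (k : ℕ) :
    ‖x ^ k - y ^ k‖ ≤ c := by
  induction k with
  | zero => simpa using hc
  | succ k ih =>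
    have e : x ^ (k + 1) - y ^ (k + 1) = x * (x ^ k - y ^ k) + y ^ k * (x - y) := by ring
    rw [e]
    exact nadd9 (nmul9 hx ih) (nmul9 (npow19 hy k) h)

end aux

theorem sol_fval {Ω : Type*} [NormedField Ω] [IsUltrametricDist Ω] {r n p M : ℕ} [Fact p.Prime]
    (hp : ‖(p : Ω)‖ = (p : ℝ)⁻¹) (h : Par r n p M) {b : Ω} {a : ℕ → Ω} (hS : Sol r n p (Nx r n p) M b a) :
    ‖fval r n p (Nx r n p) M b a +
      ∑ i ∈ range n, ((Nx r n p (i + 1) : ℕ) : Ω) * chi p r (fun i => b - a i) (i + 1)‖ ≤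
      ((p : ℝ)⁻¹) ^ (sx r n 1 + k0 n) := by
  obtain ⟨hb, ha, hbβ, hba⟩ := sol_norm hp h hS
  have hr := h.hr
  have hrp := h.hp
  have hp0 : 0 < p := h.prime.pos
  have hp1 : (1 : ℝ) ≤ p := by exact_mod_cast hp0
  have hq0 : 0 ≤ (p : ℝ)⁻¹ := by positivity
  have hq1 : (p : ℝ)⁻¹ ≤ 1 := inv_le_one_of_one_le₀ hp1
  have hanti : ∀ {i j : ℕ}, i ≤ j → ((p : ℝ)⁻¹) ^ j ≤ ((p : ℝ)⁻¹) ^ i := fun h =>
    pow_le_pow_of_le_one hq0 hq1 h
  have hqk : 0 ≤ ((p : ℝ)⁻¹) ^ k0 n := pow_nonneg hq0 _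
  have hqk1 : ((p : ℝ)⁻¹) ^ k0 n ≤ 1 := pow_le_one₀ hq0 hq1
  have hbβ' : ‖b - bt Ω r‖ ≤ ((p : ℝ)⁻¹) ^ k0 n := hbβ.trans (hanti k0_le_s0)
  have ha0 : ‖a 0‖ ≤ 1 := ha 0 (Nat.zero_le _)
  have hβ : ‖bt Ω r‖ ≤ 1 := by
    have e : bt Ω r = b - (b - bt Ω r) := by ring
    rw [e]
    exact nsub9 hb.le (hbβ'.trans hqk1)
  have haβ : ‖a 0 - bt Ω r‖ ≤ ((p : ℝ)⁻¹) ^ k0 n := by
    have e : a 0 - bt Ω r = (b - bt Ω r) - (b - a 0) := by ring
    rw [e]
    exact nsub9 hbβ' hba
  have hpn : ‖(p : Ω)‖ ≤ 1 := by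
    rw [hp]
    exact hq1
  have hp1c : ((p - 1 : ℕ) : Ω) = (p : Ω) - 1 := by
    rw [Nat.cast_sub hp0, Nat.cast_one]
  have hb1 : ∀ j, j ≤ n → ‖b - a j‖ ≤ 1 := fun j hj => nsub9 hb.le (ha j hj)
  have hmain : ∀ i, 1 ≤ i → i ≤ n →
      ‖a 0 ^ (r - 2) * (a (i - 1) + ((p - 1 : ℕ) : Ω) * a 0) - cci p r (fun i => b - a i) i‖ ≤
      ((p : ℝ)⁻¹) ^ k0 n := by
    intro i hi1 hin
    unfold cci
    rcases Nat.lt_or_ge 1 i with hi | hi
    · rw [if_neg (by omega), hp1c]
      have e : a 0 ^ (r - 2) * (a (i - 1) + ((p : Ω) - 1) * a 0) -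
          bt Ω r ^ (r - 2) * ((p : Ω) * bt Ω r - (b - a (i - 1))) =
          ((p : Ω) * a 0 + (b - a 0) - (b - a (i - 1))) * (a 0 ^ (r - 2) - bt Ω r ^ (r - 2)) +
          bt Ω r ^ (r - 2) * ((p : Ω) * (a 0 - bt Ω r) + (b - a 0)) := by ring
      change ‖a 0 ^ (r - 2) * (a (i - 1) + ((p : Ω) - 1) * a 0) -
          bt Ω r ^ (r - 2) * ((p : Ω) * bt Ω r - (b - a (i - 1)))‖ ≤ _
      rw [e]
      refine nadd9 (nmul9 ?_ (npow9 ha0 hβ haβ hqk _)) (nmul9 (npow19 hβ _) (nadd9 (nmul9 hpn haβ) hba))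
      exact nsub9 (nadd9 (nmul9 hpn ha0) (hb1 0 (Nat.zero_le _))) (hb1 _ (by omega))
    · have hi' : i = 1 := by omega
      subst hi'
      rw [if_pos le_rfl, hp1c]
      obtain ⟨r', rfl⟩ : ∃ r', r = r' + 2 := ⟨r - 2, by omega⟩
      have e : a 0 ^ (r' + 2 - 2) * (a (1 - 1) + ((p : Ω) - 1) * a 0) -
          (p : Ω) * bt Ω (r' + 2) ^ (r' + 2 - 1) =
          (p : Ω) * (a 0 ^ (r' + 1) - bt Ω (r' + 2) ^ (r' + 1)) := by
        have e1 : r' + 2 - 2 = r' := rfl
        have e2 : r' + 2 - 1 = r' + 1 := rfl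
        rw [e1, e2, Nat.sub_self]
        ring
      rw [e]
      exact nmul9 hpn (npow9 ha0 hβ haβ hqk _)
  have hX : ∀ i, 1 ≤ i → i ≤ n → ‖a 0 ^ (r - 2) * (a (i - 1) + ((p - 1 : ℕ) : Ω) * a 0)‖ ≤ 1 := by
    intro i hi1 hin
    refine nmul9 (npow19 ha0 _) (nadd9 (ha _ (by omega)) (nmul9 ?_ ha0))
    exact IsUltrametricDist.norm_natCast_le_one Ω _
  -- the three error terms
  have T1 := esy_b_main hp h zero_le_one hb.le ha
  rw [one_pow, mul_one] at T1
  have T1' := T1.trans (hanti (sx_one_add_le (r := r) (n := n) (by omega)))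
  have hrn : ‖(r : Ω)‖ = 1 := norm_nat_coprime hp (fun hd => by
    have := Nat.le_of_dvd (by omega) hd
    omega)
  have T2 : ‖((Nx r n p 0 : ℕ) : Ω) * (b - a 0) ^ r / (r : Ω)‖ ≤ ((p : ℝ)⁻¹) ^ (sx r n 1 + k0 n) := by
    rw [norm_div, hrn, div_one, norm_mul, norm_pow]
    have e1 : ‖((Nx r n p 0 : ℕ) : Ω)‖ = ((p : ℝ)⁻¹) ^ s0 r n := by
      unfold Nx
      rw [Nat.cast_pow, norm_pow, hp]
      rfl
    have e2 : sx r n 1 + k0 n = s0 r n + k0 n * r := by
      rw [sx_one]
      obtain ⟨r', rfl⟩ : ∃ r', r = r' + 1 := ⟨r - 1, by omega⟩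
      rw [Nat.add_sub_cancel]
      ring
    rw [e1, e2, pow_add, pow_mul]
    exact mul_le_mul_of_nonneg_left (pow_le_pow_left₀ (norm_nonneg _) hba r) (pow_nonneg hq0 _)
  have T3 : ‖∑ i ∈ range n, (((Nx r n p (i + 1) : ℕ) : Ω) *
      ((bt Ω r - (b - a (i + 1))) * cci p r (fun i => b - a i) (i + 1) -
        a (i + 1) * (a 0 ^ (r - 2) * (a i + ((p - 1 : ℕ) : Ω) * a 0))))‖ ≤
      ((p : ℝ)⁻¹) ^ (sx r n 1 + k0 n) := by
    refine IsUltrametricDist.norm_sum_le_of_forall_le_of_nonneg (pow_nonneg hq0 _) (fun i hi => ?_)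
    rw [mem_range] at hi
    have e1 : ‖((Nx r n p (i + 1) : ℕ) : Ω)‖ = ((p : ℝ)⁻¹) ^ sx r n (i + 1) := by
      unfold Nx
      rw [Nat.cast_pow, norm_pow, hp]
    have m1 := hmain (i + 1) (by omega) (by omega)
    have x1 := hX (i + 1) (by omega) (by omega)
    rw [Nat.add_sub_cancel] at m1 x1
    have e2 : (bt Ω r - (b - a (i + 1))) * cci p r (fun i => b - a i) (i + 1) -
        a (i + 1) * (a 0 ^ (r - 2) * (a i + ((p - 1 : ℕ) : Ω) * a 0)) =
        (bt Ω r - (b - a (i + 1))) * (cci p r (fun i => b - a i) (i + 1) -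
          a 0 ^ (r - 2) * (a i + ((p - 1 : ℕ) : Ω) * a 0)) +
        (a 0 ^ (r - 2) * (a i + ((p - 1 : ℕ) : Ω) * a 0)) * (bt Ω r - b) := by ring
    have b2 : ‖(bt Ω r - (b - a (i + 1))) * cci p r (fun i => b - a i) (i + 1) -
        a (i + 1) * (a 0 ^ (r - 2) * (a i + ((p - 1 : ℕ) : Ω) * a 0))‖ ≤ ((p : ℝ)⁻¹) ^ k0 n := by
      rw [e2]
      refine nadd9 (nmul9 (nsub9 hβ (hb1 _ (by omega))) ?_) (nmul9 x1 ?_)
      · rw [← norm_neg, neg_sub]
        exact m1
      · rw [← norm_neg, neg_sub]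
        exact hbβ'
    rw [norm_mul, e1, pow_add]
    exact mul_le_mul (hanti (sx_mono _ _ (by omega))) b2 (norm_nonneg _) (pow_nonneg hq0 _)
  have key : fval r n p (Nx r n p) M b a +
      ∑ i ∈ range n, ((Nx r n p (i + 1) : ℕ) : Ω) * chi p r (fun i => b - a i) (i + 1) =
      ((esy univ r (cc n (Nx r n p) M b a) +
        ∑ i ∈ range (n + 1), ((Nx r n p i : ℕ) : Ω) * (b - a i) ^ r / (r : Ω)) -
        ((Nx r n p 0 : ℕ) : Ω) * (b - a 0) ^ r / (r : Ω)) +
      ∑ i ∈ range n, (((Nx r n p (i + 1) : ℕ) : Ω) *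
      ((bt Ω r - (b - a (i + 1))) * cci p r (fun i => b - a i) (i + 1) -
        a (i + 1) * (a 0 ^ (r - 2) * (a i + ((p - 1 : ℕ) : Ω) * a 0)))) := by
    rw [Finset.sum_range_succ' (fun i => ((Nx r n p i : ℕ) : Ω) * (b - a i) ^ r / (r : Ω)) n]
    unfold fval Nsum
    have e3 : ∀ x y z w v u : Ω, x - y + z = (x + (w + v) - v) + u ↔ z - y = w + u := by
      intro x y z w v u
      constructor
      · intro h
        linear_combination h
      · intro h
        linear_combination h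
    rw [e3, ← Finset.sum_sub_distrib, ← Finset.sum_add_distrib]
    refine Finset.sum_congr rfl fun i _ => ?_
    unfold chi
    ring
  rw [key]
  exact nadd9 (nsub9 T1' T2) T3

end CT
end

section

/-!
# Properties of `GG`

Proof.  `GG` is a product of `Kplus` and the members of `QQ`.  `QQ` contains the complete `r`-graph (an injective hom from it to `P` would
force `P` to be complete) so it is nonempty.  `GG_nonempty`: `edge_prod2`, `edge_piH` with arbitrary edges.  `GG_not_hom`: `elim_K`, `not_hom_pi`.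
-/

set_option autoImplicit false

open Finset

namespace CT

section
variable {V : Type} [Fintype V] [DecidableEq V] {r : ℕ} {P : Finset (Finset V)}

theorem mem_QQ {Q : Finset (Finset V)} : Q ∈ QQ r P ↔ Unif r Q ∧ Cov2 Q ∧
    ¬ ∃ θ : V → V, Function.Injective θ ∧ IsHom Q P θ := by
  classical
  unfold QQ
  rw [mem_filter, mem_powerset]
  have h : Q ⊆ powersetCard r (univ : Finset V) ↔ Unif r Q := by
    constructor
    · intro h e he
      exact (mem_powersetCard.mp (h he)).2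
    · intro h e he
      exact mem_powersetCard.mpr ⟨subset_univ _, h e he⟩
  rw [h]

omit [DecidableEq V] in
private theorem cov2_edge {Q : Finset (Finset V)} (hV : 2 ≤ Fintype.card V) (hQ : Cov2 Q) :
    ∃ e, e ∈ Q := by
  obtain ⟨u, v, huv⟩ := Fintype.exists_pair_of_one_lt_card (by omega : 1 < Fintype.card V)
  obtain ⟨e, he, -⟩ := hQ u v huv
  exact ⟨e, he⟩

theorem complete_mem_QQ (hr : 2 ≤ r) (hV : r ≤ Fintype.card V) (hP : Unif r P) (hne : P ≠ powersetCard r univ) :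
    powersetCard r (univ : Finset V) ∈ QQ r P := by
  rw [mem_QQ]
  refine ⟨fun e he => (mem_powersetCard.mp he).2, ?_, ?_⟩
  · intro u v huv
    have h2 : ({u, v} : Finset V).card ≤ r := by
      rw [card_pair huv]; exact hr
    obtain ⟨e, he1, he2, he3⟩ := exists_subsuperset_card_eq (subset_univ ({u, v} : Finset V)) h2
      (by rw [card_univ]; exact hV)
    refine ⟨e, mem_powersetCard.mpr ⟨subset_univ _, he3⟩, he1 (by simp), he1 (by simp)⟩
  · rintro ⟨θ, hθ, hhom⟩
    apply hne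
    have hbij : Function.Bijective θ := Finite.injective_iff_bijective.mp hθ
    obtain ⟨θ', h1, h2⟩ := Function.bijective_iff_has_inverse.mp hbij
    apply Subset.antisymm
    · intro e he
      exact mem_powersetCard.mpr ⟨subset_univ _, hP e he⟩
    · intro e he
      have hec := (mem_powersetCard.mp he).2
      have h3 : (e.image θ').image θ = e := by
        rw [image_image]
        have : θ ∘ θ' = id := by
          funext x; exact h2 x
        rw [this, image_id]
      have h4 : e.image θ' ∈ powersetCard r (univ : Finset V) := by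
        rw [mem_powersetCard]
        refine ⟨subset_univ _, ?_⟩
        rw [card_image_of_injective _ h2.injective, hec]
      have h5 := hhom _ h4
      rw [h3] at h5
      exact h5

private theorem nonempty_QQ (hr : 2 ≤ r) (hV : r ≤ Fintype.card V) (hP : Unif r P)
    (hne : P ≠ powersetCard r univ) : Nonempty {Q // Q ∈ QQ r P} :=
  ⟨⟨_, complete_mem_QQ hr hV hP hne⟩⟩

theorem GG_unif : Unif r (GG r P) := prod2_unif _ _

theorem GG_nonempty (hr : 3 ≤ r) (hV : r ≤ Fintype.card V) (hP : Unif r P) (hne : P ≠ powersetCard r univ) :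
    (GG r P).Nonempty := by
  have := nonempty_QQ (by omega) hV hP hne
  have h0 : (⟨0, by omega⟩ : Fin (Fintype.card V + 1)) ≠ ⟨1, by omega⟩ := by
    intro h; simp at h
  have hK : KE (Fintype.card V) r ⟨0, by omega⟩ ⟨1, by omega⟩ ∈ Kplus (Fintype.card V) r := by
    unfold Kplus
    rw [mem_image]
    exact ⟨(⟨0, by omega⟩, ⟨1, by omega⟩), by rw [mem_filter]; exact ⟨mem_univ _, h0⟩, rfl⟩
  obtain ⟨a, ha, hae⟩ := enum_edge (Kplus_unif (Fintype.card V) (by omega : 2 ≤ r) _ hK)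
  have hQ : ∀ Q : {Q // Q ∈ QQ r P}, ∃ b : Fin r → V, Function.Injective b ∧
      univ.image b ∈ Q.1 := by
    intro Q
    obtain ⟨h1, h2, -⟩ := mem_QQ.mp Q.2
    obtain ⟨e, he⟩ := cov2_edge (by omega) h2
    obtain ⟨b, hb, hbe⟩ := enum_edge (h1 e he)
    exact ⟨b, hb, by rw [hbe]; exact he⟩
  choose b hb hbe using hQ
  have h1 := edge_piH (E := fun Q : {Q // Q ∈ QQ r P} => Q.1) hb hbe
  refine ⟨_, edge_prod2 ha (by rw [hae]; exact hK) h1⟩

theorem GG_to_K : HomTo (GG r P) (Kplus (Fintype.card V) r) := prod2_fst _ _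

theorem GG_to_Q {Q : Finset (Finset V)} (hQ : Q ∈ QQ r P) : HomTo (GG r P) Q :=
  HomTo.trans (prod2_snd _ _) (piH_proj (fun Q : {Q // Q ∈ QQ r P} => Q.1) ⟨Q, hQ⟩)

theorem GG_not_hom (hr : 3 ≤ r) (hV : r ≤ Fintype.card V) (hP : Unif r P) (hne : P ≠ powersetCard r univ) :
    ¬ HomTo (GG r P) P := by
  have := nonempty_QQ (by omega) hV hP hne
  intro h
  have h1 := elim_K hr (by omega) (fun Q : {Q // Q ∈ QQ r P} => Q.1)
    (fun Q => (mem_QQ.mp Q.2).1) (fun Q => (mem_QQ.mp Q.2).2.1) hP h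
  exact not_hom_pi (by omega) (by omega) (fun Q : {Q // Q ∈ QQ r P} => Q.1)
    (fun Q => (mem_QQ.mp Q.2).1) (fun Q => (mem_QQ.mp Q.2).2.1) hP
    (fun Q => (mem_QQ.mp Q.2).2.2) h1
end

end CT
end

section

/-!
# The class-constant maximiser is critical

Proof.  For a class `i` take the class-constant direction `w := cc (-1/M) (fun l => if l = i then 1/N i else 0)`, `∑ w = 0`; `x + s w` is class-constant and in the
simplex for `|s|` small, so the derivative `∑ w v * dlag L x v` at `0` vanishes; by `dlag_class` it equals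
`dlag L x (inr u) - dlag L x (inl o)` for `u` in the class `i` and any `o`.
-/

set_option autoImplicit false

open Finset

namespace CT

private theorem cc_sum_aux {n : ℕ} {N : ℕ → ℕ} [∀ i, NeZero (N i)] {M : ℕ} (hM : 1 ≤ M) (i : Fin (n + 1))
    (F : PV n N M → ℝ) (o0 : Fin M) (t0 : Fin (N i)) (h1 : ∀ o : Fin M, F (Sum.inl o) = F (Sum.inl o0))
    (h2 : ∀ t : Fin (N i), F (Sum.inr ⟨i, t⟩) = F (Sum.inr ⟨i, t0⟩)) :
    ∑ v, cc n N M (-(1 / (M : ℝ))) (fun l => if l = (i : ℕ) then 1 / (N i : ℝ) else 0) v * F v =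
      F (Sum.inr ⟨i, t0⟩) - F (Sum.inl o0) := by
  have hM0 : (M : ℝ) ≠ 0 := by
    have : M ≠ 0 := by omega
    exact_mod_cast this
  have hN0 : (N i : ℝ) ≠ 0 := by
    have : N i ≠ 0 := NeZero.ne _
    exact_mod_cast this
  rw [Fintype.sum_sum_type]
  have e1 : ∑ o : Fin M, cc n N M (-(1 / (M : ℝ))) (fun l => if l = (i : ℕ) then 1 / (N i : ℝ) else 0) (Sum.inl o) *
      F (Sum.inl o) = - F (Sum.inl o0) := by
    have : ∀ o ∈ (univ : Finset (Fin M)),
        cc n N M (-(1 / (M : ℝ))) (fun l => if l = (i : ℕ) then 1 / (N i : ℝ) else 0) (Sum.inl o) *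
          F (Sum.inl o) = -(1 / (M : ℝ)) * F (Sum.inl o0) := by
      intro o _
      rw [h1 o]
      rfl
    rw [sum_congr rfl this, sum_const, card_univ, Fintype.card_fin, nsmul_eq_mul]
    field_simp
  have e2 : ∑ u : UV n N, cc n N M (-(1 / (M : ℝ))) (fun l => if l = (i : ℕ) then 1 / (N i : ℝ) else 0) (Sum.inr u) *
      F (Sum.inr u) = F (Sum.inr ⟨i, t0⟩) := by
    rw [Fintype.sum_sigma, sum_eq_single i]
    · have : ∀ t ∈ (univ : Finset (Fin (N i))),
          cc n N M (-(1 / (M : ℝ))) (fun l => if l = (i : ℕ) then 1 / (N i : ℝ) else 0) (Sum.inr ⟨i, t⟩) *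
            F (Sum.inr ⟨i, t⟩) = (1 / (N i : ℝ)) * F (Sum.inr ⟨i, t0⟩) := by
        intro t _
        rw [h2 t]
        simp [cc]
      rw [sum_congr rfl this, sum_const, card_univ, Fintype.card_fin, nsmul_eq_mul]
      field_simp
    · intro j _ hj
      refine sum_eq_zero fun t _ => ?_
      have hj' : ((j : Fin (n + 1)) : ℕ) ≠ (i : ℕ) := fun h => hj (Fin.ext h)
      simp [cc, hj']
    · intro h
      exact absurd (mem_univ _) h
  rw [e1, e2]
  ring

theorem class_crit {r n p : ℕ} {N : ℕ → ℕ} [∀ i, NeZero (N i)] {M : ℕ} (hr : 3 ≤ r) (hn : 1 ≤ n) (hN : r + p ≤ N 0)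
    (hdiv : ∀ i, N i ∣ N (i + 1)) (hM : 1 ≤ M) {b : ℝ} {a : ℕ → ℝ}
    (hx : cc n N M b a ∈ stdSimplex ℝ (PV n N M)) (hpos : ∀ v, 0 < cc n N M b a v)
    (hmax : ∀ (b' : ℝ) (a' : ℕ → ℝ), cc n N M b' a' ∈ stdSimplex ℝ (PV n N M) →
        lag (PP r n p N M) (cc n N M b' a') ≤ lag (PP r n p N M) (cc n N M b a)) (u v : PV n N M) :
    dlag (PP r n p N M) (cc n N M b a) u = dlag (PP r n p N M) (cc n N M b a) v := by
  obtain ⟨hc1, hc2⟩ := dlag_class (r := r) (n := n) (p := p) (N := N) (M := M) hr hn hN hdiv b a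
  have o0 : Fin M := ⟨0, hM⟩
  have key : ∀ w0 : UV n N, dlag (PP r n p N M) (cc n N M b a) (Sum.inr w0) =
      dlag (PP r n p N M) (cc n N M b a) (Sum.inl o0) := by
    rintro ⟨i, t0⟩
    set w : PV n N M → ℝ := cc n N M (-(1 / (M : ℝ))) (fun l => if l = (i : ℕ) then 1 / (N i : ℝ) else 0) with hw
    have hcc : ∀ s : ℝ, (fun z => cc n N M b a z + s * w z) =
        cc n N M (b + s * (-(1 / (M : ℝ)))) (fun l => a l + s * (if l = (i : ℕ) then 1 / (N i : ℝ) else 0)) := by
      intro s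
      funext z
      rcases z with z | z <;> rfl
    have hw0 : ∑ z, w z = 0 := by
      have := cc_sum_aux (n := n) (N := N) (M := M) hM i (fun _ => 1) o0 t0 (fun _ => rfl) (fun _ => rfl)
      simpa [hw] using this
    have hev : ∀ᶠ s : ℝ in nhds 0, ∀ z, 0 < cc n N M b a z + s * w z := by
      rw [Filter.eventually_all]
      intro z
      have hcont : Continuous fun s : ℝ => cc n N M b a z + s * w z := by fun_prop
      have h0 : 0 < cc n N M b a z + 0 * w z := by
        rw [zero_mul, add_zero]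
        exact hpos z
      exact hcont.continuousAt.eventually (lt_mem_nhds h0)
    have hloc : IsLocalMax (fun s : ℝ => lag (PP r n p N M) (fun z => cc n N M b a z + s * w z)) 0 := by
      filter_upwards [hev] with s hs
      have h1 : (fun z => cc n N M b a z + (0 : ℝ) * w z) = cc n N M b a := by
        funext z
        ring
      rw [h1, hcc s]
      apply hmax
      rw [← hcc s]
      refine ⟨fun z => (hs z).le, ?_⟩
      rw [sum_add_distrib, ← mul_sum, hw0, mul_zero, add_zero]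
      exact hx.2
    have hd := hloc.hasDerivAt_eq_zero (hasDerivAt_lag (PP r n p N M) (cc n N M b a) w 0)
    have h2 : (fun z => cc n N M b a z + (0 : ℝ) * w z) = cc n N M b a := by
      funext z
      ring
    rw [h2] at hd
    have h3 := cc_sum_aux (n := n) (N := N) (M := M) hM i (dlag (PP r n p N M) (cc n N M b a)) o0 t0
      (fun o => hc1 o o0) (fun t => hc2 ⟨i, t⟩ ⟨i, t0⟩ rfl)
    rw [← hw, hd] at h3
    linarith
  have key2 : ∀ z : PV n N M, dlag (PP r n p N M) (cc n N M b a) z =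
      dlag (PP r n p N M) (cc n N M b a) (Sum.inl o0) := by
    rintro (z | z)
    · exact hc1 z o0
    · exact key z
  rw [key2 u, key2 v]

end CT
end

section

/-!
# The case of exactly `card V` vertices

Proof.  Take an equivalence `g : S ≃ V`; `Q := the set of all e.image g, e ∈ L, e ⊆ S`.  `Q` is `r`-uniform and `Cov2` by `hS`.  If `θ` were an injective
(so bijective) hom `Q → P`, then `x' := x ∘ g⁻¹ ∘ θ⁻¹` would be in the simplex with `lag P x' ≥ lag L x` (edges of `L` not inside `S` contribute `0`),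
contradicting `hP` and `hx`.  `g⁻¹` is a hom `Q → L`.
-/

set_option autoImplicit false

open Finset

namespace CT

theorem QQ_of_support {V : Type} [Fintype V] [DecidableEq V] {r : ℕ} {P : Finset (Finset V)} {y : ℝ}
    (hP : IsLAM r P y) {X : Type} [Fintype X] [DecidableEq X] {L : Finset (Finset X)} (hL : Unif r L) {S : Finset X}
    (hcard : S.card = Fintype.card V) (hS : ∀ u ∈ S, ∀ v ∈ S, u ≠ v → ∃ e ∈ L, e ⊆ S ∧ u ∈ e ∧ v ∈ e)
    {x : X → ℝ} (hx0 : ∀ v, 0 ≤ x v) (hxS : ∀ v, v ∉ S → x v = 0) (hx1 : ∑ v, x v = 1)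
    (hx : y < (r.factorial : ℝ) * lag L x) : ∃ Q ∈ QQ r P, HomTo Q L := by
  obtain ⟨g⟩ : Nonempty (V ≃ {v // v ∈ S}) := by
    rw [← Fintype.card_eq, Fintype.card_coe]
    exact hcard.symm
  set h : V → X := fun v => (g v : X) with hh
  have hinj : Function.Injective h := Subtype.val_injective.comp g.injective
  have hrange : ∀ s ∈ S, ∃ v, h v = s := by
    intro s hs
    exact ⟨g.symm ⟨s, hs⟩, by simp [hh]⟩
  have hin : ∀ v, h v ∈ S := fun v => (g v).2
  set Q : Finset (Finset V) := univ.filter (fun e => e.image h ∈ L) with hQ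
  have hpre : ∀ e : Finset X, e ⊆ S → (univ.filter (fun v => h v ∈ e)).image h = e := by
    intro e heS
    ext w
    simp only [mem_image, mem_filter, mem_univ, true_and]
    constructor
    · rintro ⟨v, hv, rfl⟩
      exact hv
    · intro hw
      obtain ⟨v, hv⟩ := hrange w (heS hw)
      exact ⟨v, by rw [hv]; exact hw, hv⟩
  refine ⟨Q, ?_, h, fun e he => (mem_filter.1 he).2⟩
  rw [mem_QQ]
  refine ⟨?_, ?_, ?_⟩
  · intro e he
    rw [← card_image_of_injective e hinj]
    exact hL _ (mem_filter.1 he).2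
  · intro u v huv
    obtain ⟨e, heL, heS, hu, hv⟩ := hS (h u) (hin u) (h v) (hin v) (fun h' => huv (hinj h'))
    refine ⟨univ.filter (fun v => h v ∈ e), ?_, ?_, ?_⟩
    · rw [hQ, mem_filter]
      exact ⟨mem_univ _, by rw [hpre e heS]; exact heL⟩
    · exact mem_filter.2 ⟨mem_univ _, hu⟩
    · exact mem_filter.2 ⟨mem_univ _, hv⟩
  · rintro ⟨θ, hθ, hom⟩
    have hbij : Function.Bijective θ := Finite.injective_iff_bijective.1 hθ
    set Θ : V ≃ V := Equiv.ofBijective θ hbij with hΘ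
    have hΘa : ∀ v, Θ.symm (θ v) = v := fun v => Θ.symm_apply_apply v
    set x' : V → ℝ := fun v => x (h (Θ.symm v)) with hx'
    have hsim : x' ∈ stdSimplex ℝ V := by
      refine ⟨fun v => hx0 _, ?_⟩
      have e1 : ∑ v, x' v = ∑ v, x (h v) := Equiv.sum_comp Θ.symm (fun v => x (h v))
      rw [e1, ← hx1]
      have e2 : ∑ v, x (h v) = ∑ w ∈ univ.image h, x w := by
        rw [sum_image (fun a _ b _ hab => hinj hab)]
      rw [e2]
      apply sum_subset (subset_univ _)
      intro w _ hw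
      apply hxS
      intro hwS
      obtain ⟨v, hv⟩ := hrange w hwS
      exact hw (mem_image.2 ⟨v, mem_univ _, hv⟩)
    have hle := hP.1 x' hsim
    have hlag : lag L x ≤ lag P x' := by
      have e1 : lag L x = ∑ e ∈ L.filter (fun e => e ⊆ S), ∏ v ∈ e, x v := by
        unfold lag
        symm
        apply sum_subset (filter_subset _ _)
        intro e heL he
        have hes : ¬ e ⊆ S := fun h' => he (mem_filter.2 ⟨heL, h'⟩)
        obtain ⟨w, hw, hwS⟩ := not_subset.1 hes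
        exact prod_eq_zero hw (hxS w hwS)
      have e2 : L.filter (fun e => e ⊆ S) = Q.image (fun e => e.image h) := by
        ext e
        rw [mem_filter, mem_image]
        constructor
        · rintro ⟨heL, heS⟩
          refine ⟨univ.filter (fun v => h v ∈ e), ?_, hpre e heS⟩
          rw [hQ, mem_filter]
          exact ⟨mem_univ _, by rw [hpre e heS]; exact heL⟩
        · rintro ⟨e', he', rfl⟩
          refine ⟨(mem_filter.1 he').2, ?_⟩
          intro w hw
          obtain ⟨v, _, rfl⟩ := mem_image.1 hw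
          exact hin v
      have e3 : lag L x = ∑ e ∈ Q, ∏ v ∈ e, x (h v) := by
        rw [e1, e2, sum_image (fun a _ b _ hab => image_injective hinj hab)]
        refine sum_congr rfl fun e _ => ?_
        rw [prod_image (fun a _ b _ hab => hinj hab)]
      have e4 : ∑ e ∈ Q, ∏ v ∈ e, x (h v) =
          ∑ e ∈ Q.image (fun e => e.image θ), ∏ v ∈ e, x' v := by
        rw [sum_image (fun a _ b _ hab => image_injective hθ hab)]
        refine sum_congr rfl fun e _ => ?_
        rw [prod_image (fun a _ b _ hab => hθ hab)]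
        refine prod_congr rfl fun v _ => ?_
        simp only [hx', hΘa]
      rw [e3, e4]
      unfold lag
      apply sum_le_sum_of_subset_of_nonneg
      · intro e he
        obtain ⟨e', he', rfl⟩ := mem_image.1 he
        exact hom e' he'
      · intro e _ _
        exact prod_nonneg fun v _ => hx0 _
    have hfac : (0 : ℝ) ≤ (r.factorial : ℝ) := by positivity
    have := mul_le_mul_of_nonneg_left hlag hfac
    linarith

end CT
end

section

/-!
# Richness at a fixed time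

Proof (papers 388, I.7).  `d := y/(1+y)`, `0 < d ≤ 1/2`.  `C, L, T1` from `time_lemma` with `ρ := (d/2)^r`; `istar := C + L + 1`.
Given `ε`, take `n0` large (so that `thin_numeric`, `rich_univ`, `outdeg_ge` apply, `T1 ≤ choose n r`, and
`r ≤ (1-d) n`, `r ≤ n`).  Let `R0` be an `r`-set; `time_lemma` for the digraph of `A12` gives `R` with
`R ⊆ iterN R0 C` and `R ⊆ iterN R0 (C + L)` (`walk_iterN`, `walk_trans`), so `nb H R ⊆ iterN R0 (C+1) ∩ iterN R0 (C+L+1)`.
If `nb H R` is rich we are done by `Rich.mono`.  Otherwise `card (nb H R) ≥ (d+ε) n`, `thin_bound` and `thin_numeric` give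
`card (NN (nb H R)) ≥ (1-d) n`, `NN_NN_eq_univ` gives `NN (NN (nb H R)) = univ`, so
`iterN R0 (C+3) = univ` and by `NN_univ` `iterN R0 j = univ` for all `j ≥ C + 3`; use `rich_univ`.
-/

set_option autoImplicit false

open Finset

namespace CT

theorem rich_time {W : Type} [DecidableEq W] {r : ℕ} (hr : 3 ≤ r) {y : ℝ} {G : Finset (Finset W)} (hG : Good r y G)
    (hy : 0 < y) (hy1 : y ≤ 1) : ∃ m : ℕ, Even m ∧ ∀ ε : ℝ, 0 < ε → ∃ n0 : ℕ, ∀ (V : Type) [Fintype V] [DecidableEq V],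
      n0 ≤ Fintype.card V → ∀ H : Finset (Finset V), Unif (r + 1) H →
      MinCo r H ((y / (1 + y) + ε) * (Fintype.card V : ℝ)) → ∀ R0 : Finset V, R0.card = r →
      Rich G H (iterN r H R0 (m + 1)) := by
  have hd : 0 < y / (1 + y) := by positivity
  have hd1 : y / (1 + y) ≤ 1 / 2 := by
    rw [div_le_div_iff₀ (by linarith) (by norm_num)]
    linarith
  obtain ⟨C, L, T1, hC, hL, hL2, htime⟩ := time_lemma ((y / (1 + y) / 2) ^ r) (by positivity)
  refine ⟨C + L, hC.add hL, ?_⟩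
  intro ε hε
  obtain ⟨n1, h1⟩ := thin_numeric r y ε hy hy1 hε
  obtain ⟨n2, h2⟩ := rich_univ hr hG
  obtain ⟨n3, h3⟩ := outdeg_ge r (y / (1 + y)) hd (by linarith)
  refine ⟨n1 + n2 + n3 + (T1 + r) + 2 * r + 1, ?_⟩
  intro V _ _ hn H hU hmin R0 hR0
  have hn' : (1 : ℝ) ≤ (Fintype.card V : ℝ) := by
    exact_mod_cast (by omega : 1 ≤ Fintype.card V)
  have hn2r : 2 * (r : ℝ) ≤ (Fintype.card V : ℝ) := by
    exact_mod_cast (by omega : 2 * r ≤ Fintype.card V)
  have hcpos : 0 < (y / (1 + y) + ε) * (Fintype.card V : ℝ) := by positivity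
  have hmind : MinCo r H (y / (1 + y) * (Fintype.card V : ℝ)) := by
    intro S hS
    refine le_trans ?_ (hmin S hS)
    nlinarith
  have hcardT : Fintype.card {R : Finset V // R.card = r} = (Fintype.card V).choose r := by
    rw [Fintype.card_finset_len]
  have hT1 : T1 ≤ Fintype.card {R : Finset V // R.card = r} := by
    rw [hcardT]
    calc T1 ≤ (T1 + 1).choose T1 := by
          rw [Nat.choose_succ_self_right]
          omega
      _ ≤ (T1 + r).choose T1 := Nat.choose_le_choose T1 (by omega)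
      _ = (T1 + r).choose r := by
          rw [Nat.choose_symm_add]
      _ ≤ (Fintype.card V).choose r := Nat.choose_le_choose r (by omega)
  have hout := h3 V (by omega) H hmind
  obtain ⟨R, hw1, hw2⟩ := @htime {R : Finset V // R.card = r} _ _
    (fun R R' => R'.1 ⊆ nb H R.1) (fun R R' => inferInstanceAs (Decidable (R'.1 ⊆ nb H R.1))) hT1
    (fun u => hout u) ⟨R0, hR0⟩
  have hRC : R.1 ⊆ iterN r H R0 C := walk_iterN hw1
  have hRCL : R.1 ⊆ iterN r H R0 (C + L) := walk_iterN (walk_trans hw1 hw2)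
  have hnb1 : nb H R.1 ⊆ iterN r H R0 (C + 1) :=
    (nb_subset_NN R.2).trans (NN_mono hRC)
  have hnb2 : nb H R.1 ⊆ iterN r H R0 (C + L + 1) :=
    (nb_subset_NN R.2).trans (NN_mono hRCL)
  by_cases hrich : Rich G H (nb H R.1)
  · exact Rich.mono hnb2 hrich
  · have hthin := thin_bound hG hmin hrich
    have hx1 : y / (1 + y) * (Fintype.card V : ℝ) ≤ ((nb H R.1).card : ℝ) := hmind R.1 R.2
    have hx2 : (nb H R.1).card ≤ Fintype.card V := Finset.card_le_univ _
    have hz := h1 (Fintype.card V) (nb H R.1).card (NN r H (nb H R.1)).card (by omega) hx1 hx2 hthin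
    have hzz : NN r H (NN r H (nb H R.1)) = univ := by
      apply NN_NN_eq_univ (by omega) hmin
      · nlinarith [mul_pos hε (by linarith : (0 : ℝ) < (Fintype.card V : ℝ))]
      · have : (r : ℝ) ≤ ((NN r H (nb H R.1)).card : ℝ) := by nlinarith
        exact_mod_cast this
    have h3' : iterN r H R0 (C + 3) = univ := by
      apply Finset.eq_univ_of_forall
      intro v
      have hv : v ∈ NN r H (NN r H (nb H R.1)) := by rw [hzz]; exact Finset.mem_univ v
      exact NN_mono (NN_mono hnb1) hv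
    have hall : ∀ j : ℕ, iterN r H R0 (C + 3 + j) = univ := by
      intro j
      induction j with
      | zero => exact h3'
      | succ j ih =>
        show NN r H (iterN r H R0 (C + 3 + j)) = univ
        rw [ih]
        exact NN_univ (by omega) hmin hcpos (by omega)
    have hfin : iterN r H R0 (C + L + 1) = univ := by
      have := hall (L - 2)
      have e : C + 3 + (L - 2) = C + L + 1 := by omega
      rwa [e] at this
    rw [hfin]
    exact h2 V (by omega) H _ hU hmin hcpos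

end CT
end

section

/-!
# (G1) for `GG`

Proof.  Suppose `r! card L > y card X ^ r`; `support_lemma` gives `S`, `x`.  `lag L x ≤ esy S r x ≤ choose (card S) r / (card S)^r` (`esy_le`, `∑ x = 1`; edges not
inside `S` contribute `0`).  If `card S ≤ card V - 1` then `choose_div_mono` and `near` give a contradiction.  If `card S = card V`: `QQ_of_support`
and `GG_to_Q`.  If `card S ≥ card V + 1`: an injection `Fin (card V + 1) → S` and `Kplus_hom`, `GG_to_K`.
-/

set_option autoImplicit false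

open Finset

namespace CT

private theorem homTo_trans {A B C : Type*} [DecidableEq A] [DecidableEq B] [DecidableEq C]
    {F : Finset (Finset A)} {G : Finset (Finset B)} {H : Finset (Finset C)} (h1 : HomTo F G) (h2 : HomTo G H) :
    HomTo F H := by
  obtain ⟨φ, hφ⟩ := h1
  obtain ⟨ψ, hψ⟩ := h2
  refine ⟨ψ ∘ φ, fun e he => ?_⟩
  have := hψ _ (hφ e he)
  rwa [image_image] at this

private theorem GG_toK {V : Type} [Fintype V] [DecidableEq V] {r : ℕ} (P : Finset (Finset V)) :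
    HomTo (GG r P) (Kplus (Fintype.card V) r) := by
  refine ⟨Prod.fst, fun e he => ?_⟩
  unfold GG prod2 at he
  rw [mem_filter] at he
  exact he.2.2.1

private theorem GG_toQ {V : Type} [Fintype V] [DecidableEq V] {r : ℕ} (P : Finset (Finset V))
    {Q : Finset (Finset V)} (hQ : Q ∈ QQ r P) : HomTo (GG r P) Q := by
  refine ⟨fun q => q.2 ⟨Q, hQ⟩, fun e he => ?_⟩
  unfold GG prod2 at he
  rw [mem_filter] at he
  have h1 := he.2.2.2
  unfold piH at h1
  rw [mem_filter] at h1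
  have h2 := h1.2.2 ⟨Q, hQ⟩
  rw [image_image] at h2
  exact h2

private theorem lag_le_esy {X : Type} [DecidableEq X] {r : ℕ} {L : Finset (Finset X)} (hL : Unif r L)
    {S : Finset X} {x : X → ℝ} (hx0 : ∀ v, 0 ≤ x v) (hxS : ∀ v, v ∉ S → x v = 0) :
    lag L x ≤ esy S r x := by
  unfold lag esy
  have h1 : ∑ e ∈ L, ∏ v ∈ e, x v = ∑ e ∈ L.filter (fun e => e ⊆ S), ∏ v ∈ e, x v := by
    rw [sum_filter]
    apply sum_congr rfl
    intro e _
    by_cases h : e ⊆ S
    · rw [if_pos h]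
    · rw [if_neg h]
      obtain ⟨v, hv, hvS⟩ := not_subset.1 h
      exact prod_eq_zero hv (hxS v hvS)
  rw [h1]
  apply sum_le_sum_of_subset_of_nonneg
  · intro e he
    rw [mem_filter] at he
    rw [mem_powersetCard]
    exact ⟨he.2, hL e he.1⟩
  · intro e _ _
    exact prod_nonneg fun v _ => hx0 v

theorem GG_up {V : Type} [Fintype V] [DecidableEq V] {r : ℕ} (hr : 3 ≤ r) {P : Finset (Finset V)} {y : ℝ}
    (hP : IsLAM r P y)
    (near : (r.factorial : ℝ) * (((Fintype.card V - 1).choose r : ℕ) : ℝ) / ((Fintype.card V - 1 : ℕ) : ℝ) ^ r ≤ y)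
    (X : Type) [Fintype X] [DecidableEq X] (L : Finset (Finset X)) (hL : Unif r L) (h : ¬ HomTo (GG r P) L) :
    (r.factorial : ℝ) * (L.card : ℝ) ≤ y * (Fintype.card X : ℝ) ^ r := by
  by_contra hcon
  push Not at hcon
  obtain ⟨S, hS, x, hx0, hxS, hx1, hx⟩ := support_lemma (by omega) hL hcon
  have h1 := lag_le_esy hL hx0 hxS
  have h2 := esy_le S x (fun v _ => hx0 v) r
  have h3 : ∑ v ∈ S, x v = 1 := by
    rw [← hx1]
    apply sum_subset (subset_univ _)
    intro v _ hv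
    exact hxS v hv
  rw [h3, one_div, inv_pow, ← div_eq_mul_inv] at h2
  have hfac : (0 : ℝ) < (r.factorial : ℝ) := by exact_mod_cast r.factorial_pos
  rcases lt_trichotomy S.card (Fintype.card V) with hlt | heq | hgt
  · have h4 := choose_div_mono r (j := S.card) (m := Fintype.card V - 1) (by omega)
    have h5 : y < (r.factorial : ℝ) * (((Fintype.card V - 1).choose r : ℕ) : ℝ) /
        ((Fintype.card V - 1 : ℕ) : ℝ) ^ r := by
      calc y < (r.factorial : ℝ) * lag L x := hx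
        _ ≤ (r.factorial : ℝ) * ((((Fintype.card V - 1).choose r : ℕ) : ℝ) /
            ((Fintype.card V - 1 : ℕ) : ℝ) ^ r) := by
            apply mul_le_mul_of_nonneg_left _ hfac.le
            exact (h1.trans h2).trans h4
        _ = _ := by rw [mul_div_assoc]
    exact absurd (lt_of_lt_of_le h5 near) (lt_irrefl _)
  · obtain ⟨Q, hQ, hQL⟩ := QQ_of_support hP hL heq hS hx0 hxS hx1 hx
    exact h (homTo_trans (GG_toQ P hQ) hQL)
  · have hle : Fintype.card V + 1 ≤ S.card := hgt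
    apply h
    refine homTo_trans (GG_toK P) ?_
    refine Kplus_hom (by omega) hL (fun i => ((S.equivFin).symm (Fin.castLE hle i) : X)) ?_ ?_
    · intro i j hij
      have h4 := (S.equivFin).symm.injective (Subtype.ext hij)
      exact Fin.castLE_injective hle h4
    · intro i j hij
      have hne : ((S.equivFin).symm (Fin.castLE hle i) : X) ≠ ((S.equivFin).symm (Fin.castLE hle j) : X) := by
        intro h5
        have h4 := (S.equivFin).symm.injective (Subtype.ext h5)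
        exact hij (Fin.castLE_injective hle h4)
      obtain ⟨e, he, _, hu, hv⟩ := hS _ ((S.equivFin).symm (Fin.castLE hle i)).2 _
        ((S.equivFin).symm (Fin.castLE hle j)).2 hne
      exact ⟨e, he, hu, hv⟩

end CT
end

section

/-!
# The single `r`-graph of a pattern is good

Proof.  Fields: `GG_unif`, `GG_nonempty`, `GG_up`, for `low`: `blowup_count` (`HomTo L P` and `HomTo GG L` would give `HomTo GG P`), for `cov`:
`N0 := card V + 1`, an injection `Fin (card V + 1) → X`, `Kplus_hom`, `GG_to_K`.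
-/

set_option autoImplicit false

open Finset

namespace CT

theorem pattern_good {V : Type} [Fintype V] [DecidableEq V] {r : ℕ} (hr : 3 ≤ r) (hV : r ≤ Fintype.card V)
    {P : Finset (Finset V)} (hPu : Unif r P) (hne : P ≠ powersetCard r univ) {y : ℝ} (hP : IsLAM r P y)
    (near : (r.factorial : ℝ) * (((Fintype.card V - 1).choose r : ℕ) : ℝ) / ((Fintype.card V - 1 : ℕ) : ℝ) ^ r ≤ y) :
    Good r y (GG r P) := by
  refine ⟨GG_unif, GG_nonempty hr hV hPu hne, ?_, ?_, ?_⟩
  · intro X _ _ L hL h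
    exact GG_up hr hP near X L hL h
  · intro ε hε
    obtain ⟨x, hx, hxy⟩ := hP.2
    obtain ⟨n0, hn0⟩ := blowup_count (by omega : 1 ≤ r) hPu hx hxy ε hε
    refine ⟨n0, fun n hn => ?_⟩
    obtain ⟨L, hLu, hLP, hcard⟩ := hn0 n hn
    exact ⟨L, hLu, fun hG => GG_not_hom hr hV hPu hne (hG.trans hLP), hcard⟩
  · refine ⟨Fintype.card V + 1, ?_⟩
    intro X _ _ L hL hX hcov
    obtain ⟨f⟩ : Nonempty (Fin (Fintype.card V + 1) ↪ X) :=
      Function.Embedding.nonempty_of_card_le (by simpa using hX)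
    exact GG_to_K.trans (Kplus_hom (by omega : 2 ≤ r) hL f f.injective
      (fun i j hij => hcov _ _ (fun h => hij (f.injective h))))

end CT
end

section

/-!
# The p-adic part

Proof (papers 388, IV.6).  `y := r! fval`, `γ := y/(1+y)`.  All `b, a i (i ≤ n), y, γ` are in `algebraicClosure ℚ ℝ`; `σ := IsAlgClosed.lift` into `Ω := PadicAlgCl p`;
`bΩ, aΩ` the images (`Sol.congr` to replace `a i`, `i > n`, by `0`; `Sol.of_injective` for the inclusion into `ℝ`, `Sol.map` for `σ`); `z i := bΩ - aΩ i`, `Approx` by `sol_approx`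
(`norm_p_algCl`).  `L := ℚ_[p](σ γ)`.  For `τ ∈ L.fixingSubgroup`: `(τ bΩ, τ aΩ)` is a solution (`Sol.map`), and `τ` fixes `σ y = σ γ/(1 - σ γ)`, so both have the same `fval`
(`fval_map`); `sol_fval` for both and `no_macro` give `‖z i - τ (z i)‖ < ‖z i‖`.  `descent`, `ram_le`, `finrank_le_natDegree`.
-/

set_option autoImplicit false

open Finset

namespace CT

theorem padic_main {r n p M : ℕ} [Fact p.Prime] (h : Par r n p M) {b : ℝ} {a : ℕ → ℝ}
    (hS : Sol r n p (Nx r n p) M b a) (hb : IsAlgebraic ℚ b) (ha : ∀ i, i ≤ n → IsAlgebraic ℚ (a i))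
    (hpos : 0 < fval r n p (Nx r n p) M b a) :
    IsAlgebraic ℚ ((r.factorial : ℝ) * fval r n p (Nx r n p) M b a /
        (1 + (r.factorial : ℝ) * fval r n p (Nx r n p) M b a)) ∧
      (r - 1) ^ n ≤ (minpoly ℚ ((r.factorial : ℝ) * fval r n p (Nx r n p) M b a /
        (1 + (r.factorial : ℝ) * fval r n p (Nx r n p) M b a))).natDegree := by
  classical
  -- the elements of the field of real algebraic numbers
  let bK : algebraicClosure ℚ ℝ := ⟨b, mem_algebraicClosure_iff.2 hb⟩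
  let aK : ℕ → algebraicClosure ℚ ℝ := fun i =>
    if hi : i ≤ n then ⟨a i, mem_algebraicClosure_iff.2 (ha i hi)⟩ else 0
  have haK : ∀ i, i ≤ n → ((aK i : algebraicClosure ℚ ℝ) : ℝ) = a i := by
    intro i hi
    simp only [aK, dif_pos hi]
  let f : algebraicClosure ℚ ℝ →+* ℝ := algebraMap (algebraicClosure ℚ ℝ) ℝ
  have hf : Function.Injective f := (algebraMap (algebraicClosure ℚ ℝ) ℝ).injective
  have hcong : ∀ i, i ≤ n → a i = f (aK i) := fun i hi => (haK i hi).symm
  have S1 : Sol r n p (Nx r n p) M (f bK) (fun i => f (aK i)) := Sol.congr h.hn hcong hS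
  have SK : Sol r n p (Nx r n p) M bK aK := Sol.of_injective h.hM f hf S1
  have hfK : f (fval r n p (Nx r n p) M bK aK) = fval r n p (Nx r n p) M b a := by
    rw [fval_map]
    exact (fval_congr h.hn hcong).symm
  -- the embedding
  have : Algebra.IsAlgebraic ℚ (algebraicClosure ℚ ℝ) := by
    refine ⟨fun x => ?_⟩
    obtain ⟨q, hq, hx⟩ := mem_algebraicClosure_iff.1 x.2
    refine ⟨q, hq, ?_⟩
    have h1 : f (Polynomial.aeval x q) = Polynomial.aeval (x : ℝ) q := by
      rw [Polynomial.aeval_def, Polynomial.aeval_def, Polynomial.hom_eval₂]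
      congr 1
    rw [hx] at h1
    exact hf (by rw [h1, map_zero])
  let σ : algebraicClosure ℚ ℝ →ₐ[ℚ] PadicAlgCl p := IsAlgClosed.lift
  have SΩ : Sol r n p (Nx r n p) M (σ bK) (fun i => σ (aK i)) := Sol.map (σ : algebraicClosure ℚ ℝ →+* PadicAlgCl p) SK
  have hfΩ : σ (fval r n p (Nx r n p) M bK aK) =
      fval r n p (Nx r n p) M (σ bK) (fun i => σ (aK i)) := fval_map (σ : algebraicClosure ℚ ℝ →+* PadicAlgCl p) bK aK
  let Y : algebraicClosure ℚ ℝ := (r.factorial : algebraicClosure ℚ ℝ) * fval r n p (Nx r n p) M bK aK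
  have hY : f Y = (r.factorial : ℝ) * fval r n p (Nx r n p) M b a := by
    simp only [Y]
    rw [map_mul, hfK, map_natCast]
  let γ : algebraicClosure ℚ ℝ := Y / (1 + Y)
  have hγ : (γ : ℝ) = (r.factorial : ℝ) * fval r n p (Nx r n p) M b a /
        (1 + (r.factorial : ℝ) * fval r n p (Nx r n p) M b a) := by
    show f (Y / (1 + Y)) = _
    rw [map_div₀, map_add, map_one, hY]
  have hYpos : 0 < f Y := by
    rw [hY]
    exact mul_pos (by exact_mod_cast r.factorial_pos) hpos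
  have h1Y : 1 + Y ≠ 0 := by
    intro h0
    have h1 : f (1 + Y) = 0 := by rw [h0, map_zero]
    rw [map_add, map_one] at h1
    linarith
  rw [← hγ]
  refine ⟨mem_algebraicClosure_iff.1 γ.2, ?_⟩
  -- norms
  have hp := norm_p_algCl p
  have hz := sol_approx hp h SΩ
  set L : IntermediateField ℚ_[p] (PadicAlgCl p) :=
    IntermediateField.adjoin ℚ_[p] ({σ γ} : Set (PadicAlgCl p)) with hLdef
  have hγL : σ γ ∈ L := IntermediateField.subset_adjoin _ _ rfl
  have : FiniteDimensional ℚ_[p] L :=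
    IntermediateField.adjoin.finiteDimensional (Algebra.IsIntegral.isIntegral _)
  have hYL : σ Y ∈ L := by
    have h1 : γ * (1 + Y) = Y := div_mul_cancel₀ _ h1Y
    have h2 : Y * (1 - γ) = γ := by linear_combination (-1 : algebraicClosure ℚ ℝ) * h1
    have h3 : (1 - γ) ≠ 0 := by
      intro h0
      rw [h0, mul_zero] at h2
      rw [← h2] at h0
      simp at h0
    have h4 : Y = γ / (1 - γ) := by
      rw [eq_div_iff h3, h2]
    rw [h4, map_div₀, map_sub, map_one]
    exact div_mem hγL (sub_mem (one_mem _) hγL)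
  have hFL : fval r n p (Nx r n p) M (σ bK) (fun i => σ (aK i)) ∈ L := by
    have h1 : σ Y = (r.factorial : PadicAlgCl p) *
        fval r n p (Nx r n p) M (σ bK) (fun i => σ (aK i)) := by
      simp only [Y]
      rw [map_mul, map_natCast, hfΩ]
    have h2 : (r.factorial : PadicAlgCl p) ≠ 0 := by
      exact_mod_cast r.factorial_ne_zero
    have h3 : fval r n p (Nx r n p) M (σ bK) (fun i => σ (aK i)) =
        σ Y / (r.factorial : PadicAlgCl p) := by
      rw [h1, mul_div_cancel_left₀ _ h2]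
    rw [h3]
    exact div_mem hYL (natCast_mem _ _)
  have key : ∀ τ ∈ L.fixingSubgroup, ∀ i, 1 ≤ i → i ≤ n →
      ‖(σ bK - σ (aK i)) - τ (σ bK - σ (aK i))‖ < ‖σ bK - σ (aK i)‖ := by
    intro τ hτ i hi hin
    have Sτ : Sol r n p (Nx r n p) M (τ (σ bK)) (fun i => τ (σ (aK i))) :=
      Sol.map (τ : PadicAlgCl p →+* PadicAlgCl p) SΩ
    have hz' := sol_approx hp h Sτ
    have hFτ : fval r n p (Nx r n p) M (τ (σ bK)) (fun i => τ (σ (aK i))) =
        fval r n p (Nx r n p) M (σ bK) (fun i => σ (aK i)) := by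
      have h1 := fval_map (r := r) (n := n) (p := p) (N := Nx r n p) (M := M)
        (τ : PadicAlgCl p →+* PadicAlgCl p) (σ bK) (fun i => σ (aK i))
      have h2 : τ (fval r n p (Nx r n p) M (σ bK) (fun i => σ (aK i))) =
          fval r n p (Nx r n p) M (σ bK) (fun i => σ (aK i)) :=
        (IntermediateField.mem_fixingSubgroup_iff L τ).1 hτ _ hFL
      rw [← h2]
      exact h1.symm
    have e1 := sol_fval hp h SΩ
    have e2 := sol_fval hp h Sτ
    rw [hFτ] at e2
    have e3 : ‖∑ i ∈ range n, ((Nx r n p (i + 1) : ℕ) : PadicAlgCl p) *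
        (chi p r (fun i => σ bK - σ (aK i)) (i + 1) -
          chi p r (fun i => τ (σ bK) - τ (σ (aK i))) (i + 1))‖ ≤
        ((p : ℝ)⁻¹) ^ (sx r n 1 + k0 n) := by
      have e4 : ∑ i ∈ range n, ((Nx r n p (i + 1) : ℕ) : PadicAlgCl p) *
        (chi p r (fun i => σ bK - σ (aK i)) (i + 1) -
          chi p r (fun i => τ (σ bK) - τ (σ (aK i))) (i + 1)) =
          (fval r n p (Nx r n p) M (σ bK) (fun i => σ (aK i)) +
            ∑ i ∈ range n, ((Nx r n p (i + 1) : ℕ) : PadicAlgCl p) *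
              chi p r (fun i => σ bK - σ (aK i)) (i + 1)) -
          (fval r n p (Nx r n p) M (σ bK) (fun i => σ (aK i)) +
            ∑ i ∈ range n, ((Nx r n p (i + 1) : ℕ) : PadicAlgCl p) *
              chi p r (fun i => τ (σ bK) - τ (σ (aK i))) (i + 1)) := by
        rw [add_sub_add_left_eq_sub, ← Finset.sum_sub_distrib]
        apply Finset.sum_congr rfl
        intro j _
        ring
      rw [e4, sub_eq_add_neg]
      refine (IsUltrametricDist.norm_add_le_max _ _).trans (max_le e1 ?_)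
      rw [norm_neg]
      exact e2
    have h5 := no_macro hp h.hr h.hp hz hz' e3 hi hin
    rw [map_sub]
    exact h5
  obtain ⟨ω, hω, hωn⟩ := descent h.hr h.hn h.hp hz L key
  have h1r : 1 ≤ (r - 1) ^ n := Nat.one_le_pow _ _ (by have := h.hr; omega)
  exact (ram_le L hω h1r hωn).trans (finrank_le_natDegree σ γ)

end CT
end

section

/-!
# The real part

Proof.  `q := (miss0 r n p N).card`; `M0` large for `d2_neg`, `near_numeric` (applied to `m = card (PV n N M) = M + ∑ N i ≥ M`), `M0 ≥ r + 1`.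
The value at the uniform point (class-constant, `lag_uniform`) exceeds `choose (m-1) r/(m-1)^r`, which bounds `lag` at points of the simplex with a zero
coordinate (`lag_zero_coord`).  So a global maximiser `x*` (compactness) and the class maximiser `x = cc b a` (`exists_class_max`) are positive; both
are critical (`kkt`, `class_crit`), so `≤ 1/M` by `le_of_crit` with `O := univ.image inl` (`inl_not_mem_miss`).  `max_of_crit` (region `≤ 1/M`, `d2_neg`)
gives `lag x* ≤ lag x`.  So `y := r! lag x` is `IsLAM`.  `Sol` from `dlag_PP_inl`, `dlag_PP_inr`, `∑ x = 1`.  `near` from the value at the uniform point.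
Algebraic by `alg_of_nondeg`.  `0 < y`: the near inequality (strict, left side `≥ 0`).
-/

set_option autoImplicit false

open Finset

namespace CT

private theorem C23_sum_cc {n M : ℕ} {N : ℕ → ℕ} (b : ℝ) (a : ℕ → ℝ) :
    ∑ v, cc n N M b a v = (M : ℝ) * b + ∑ i ∈ range (n + 1), (N i : ℝ) * a i := by
  unfold cc
  rw [Fintype.sum_sum_type]
  congr 1
  · simp
  · simp only [Sum.elim_inr]
    rw [Fintype.sum_sigma, Finset.sum_range]
    refine sum_congr rfl fun i _ => ?_
    simp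

theorem real_main (r n p : ℕ) (hr : 3 ≤ r) (hn : 1 ≤ n) (N : ℕ → ℕ) [∀ i, NeZero (N i)] (hN : r + p ≤ N 0)
    (hdiv : ∀ i, N i ∣ N (i + 1)) : ∃ M0 : ℕ, ∀ M : ℕ, M0 ≤ M → r ≤ M ∧ ∃ (b : ℝ) (a : ℕ → ℝ),
      Sol r n p N M b a ∧ IsLAM r (PP r n p N M) ((r.factorial : ℝ) * fval r n p N M b a) ∧
      0 < fval r n p N M b a ∧
      (r.factorial : ℝ) * (((Fintype.card (PV n N M) - 1).choose r : ℕ) : ℝ) /
        ((Fintype.card (PV n N M) - 1 : ℕ) : ℝ) ^ r ≤ (r.factorial : ℝ) * fval r n p N M b a ∧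
      IsAlgebraic ℚ b ∧ ∀ i, i ≤ n → IsAlgebraic ℚ (a i) := by
  obtain ⟨M1, hM1⟩ := d2_neg r (miss0 r n p N).card hr
  obtain ⟨m0, hm0⟩ := near_numeric r (miss0 r n p N).card hr
  refine ⟨M1 + m0 + r + 1, fun M hM => ⟨by omega, ?_⟩⟩
  have hMpos : 1 ≤ M := by omega
  have hunif : Unif r (miss r n p N M) := unif_miss hr hN
  have hcardMs : (miss r n p N M).card = (miss0 r n p N).card := card_miss
  have hcardV : Fintype.card (PV n N M) = M + Fintype.card (UV n N) := by
    rw [Fintype.card_sum, Fintype.card_fin]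
  have hVM : M ≤ Fintype.card (PV n N M) := by omega
  have hVpos : (0 : ℝ) < (Fintype.card (PV n N M) : ℝ) := by
    exact_mod_cast (by omega : 0 < Fintype.card (PV n N M))
  set L := PP r n p N M with hLdef
  have hL : L = powersetCard r univ \ miss r n p N M := rfl
  -- the class maximiser
  obtain ⟨b, a, hx, hmax⟩ := exists_class_max (r := r) (n := n) (p := p) (N := N) (M := M) hMpos
  -- the uniform point
  have hunifpt : cc n N M (1 / (Fintype.card (PV n N M) : ℝ))
      (fun _ => 1 / (Fintype.card (PV n N M) : ℝ)) =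
      fun _ : PV n N M => 1 / (Fintype.card (PV n N M) : ℝ) := by
    funext v
    cases v <;> rfl
  have hunifmem : (fun _ : PV n N M => 1 / (Fintype.card (PV n N M) : ℝ)) ∈
      stdSimplex ℝ (PV n N M) := by
    refine ⟨fun _ => by positivity, ?_⟩
    rw [sum_const, card_univ, nsmul_eq_mul]
    field_simp
  have hnear : (((Fintype.card (PV n N M) - 1).choose r : ℕ) : ℝ) /
      ((Fintype.card (PV n N M) - 1 : ℕ) : ℝ) ^ r <
      lag L (fun _ : PV n N M => 1 / (Fintype.card (PV n N M) : ℝ)) := by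
    rw [hL, lag_uniform hunif, hcardMs]
    exact hm0 _ (by omega)
  have hxval : (((Fintype.card (PV n N M) - 1).choose r : ℕ) : ℝ) /
      ((Fintype.card (PV n N M) - 1 : ℕ) : ℝ) ^ r < lag L (cc n N M b a) := by
    refine hnear.trans_le ?_
    have := hmax (1 / (Fintype.card (PV n N M) : ℝ)) (fun _ => 1 / (Fintype.card (PV n N M) : ℝ))
      (by rw [hunifpt]; exact hunifmem)
    rw [hunifpt] at this
    exact this
  -- positivity of points with large value
  have hposgen : ∀ z ∈ stdSimplex ℝ (PV n N M), (((Fintype.card (PV n N M) - 1).choose r : ℕ) : ℝ) /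
      ((Fintype.card (PV n N M) - 1 : ℕ) : ℝ) ^ r < lag L z → ∀ v, 0 < z v := by
    intro z hz hval v
    rcases (hz.1 v).lt_or_eq with h | h
    · exact h
    · exfalso
      have := lag_zero_coord (by omega : 1 ≤ r) hunif hz h.symm
      rw [← hL] at this
      exact absurd hval (not_lt.2 this)
  have hpos := hposgen _ hx hxval
  -- the global maximiser
  have hcont : Continuous (fun z : PV n N M → ℝ => lag L z) := by
    unfold lag
    fun_prop
  obtain ⟨xs, hxs, hxsmax⟩ := (isCompact_stdSimplex ℝ (PV n N M)).exists_isMaxOn ⟨_, hx⟩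
    hcont.continuousOn
  have hxsmax' : ∀ z ∈ stdSimplex ℝ (PV n N M), lag L z ≤ lag L xs := fun z hz => hxsmax hz
  have hxsval := hxval.trans_le (hxsmax' _ hx)
  have hposs := hposgen _ hxs hxsval
  -- criticality
  have hcrit : ∀ u v, dlag L (cc n N M b a) u = dlag L (cc n N M b a) v := fun u v =>
    class_crit hr hn hN hdiv hMpos hx hpos hmax u v
  have hcrits : ∀ u v, dlag L xs u = dlag L xs v := fun u v => kkt L hxs hposs hxsmax' u v
  -- the bound
  have hOcard : ((univ : Finset (Fin M)).image (Sum.inl : Fin M → PV n N M)).card = M := by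
    rw [card_image_of_injective _ Sum.inl_injective, card_univ, Fintype.card_fin]
  have hO : ∀ o ∈ (univ : Finset (Fin M)).image (Sum.inl : Fin M → PV n N M),
      ∀ e ∈ miss r n p N M, o ∉ e := by
    intro o ho e he
    obtain ⟨i, _, rfl⟩ := mem_image.1 ho
    exact inl_not_mem_miss i he
  have hOne : ((univ : Finset (Fin M)).image (Sum.inl : Fin M → PV n N M)).Nonempty := by
    rw [← card_pos, hOcard]
    omega
  have hxμ : ∀ v, cc n N M b a v ≤ 1 / (M : ℝ) := by
    intro v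
    have := le_of_crit (by omega : 2 ≤ r) (by omega) hunif hpos hx.2 hcrit hO hOne v
    rwa [hOcard] at this
  have hxsμ : ∀ v, xs v ≤ 1 / (M : ℝ) := by
    intro v
    have := le_of_crit (by omega : 2 ≤ r) (by omega) hunif hposs hxs.2 hcrits hO hOne v
    rwa [hOcard] at this
  have hneg : ∀ z ∈ stdSimplex ℝ (PV n N M), (∀ v, z v ≤ 1 / (M : ℝ)) → ∀ w : PV n N M → ℝ,
      ∑ v, w v = 0 → w ≠ 0 → d2lag L z w < 0 := by
    intro z hz hzμ w hw hw0
    exact hM1 M (by omega) (PV n N M) (miss r n p N M) hunif hcardMs.le z hz.1 hzμ hz.2 w hw hw0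
  have hle : lag L xs ≤ lag L (cc n N M b a) :=
    max_of_crit L hneg hx hxμ hxs hxsμ hcrit
  have hf : lag L (cc n N M b a) = fval r n p N M b a := lag_PP hr hN b a
  have hbase : 0 ≤ (((Fintype.card (PV n N M) - 1).choose r : ℕ) : ℝ) /
      ((Fintype.card (PV n N M) - 1 : ℕ) : ℝ) ^ r := by positivity
  have hfpos : 0 < fval r n p N M b a := by
    rw [← hf]
    exact hbase.trans_lt hxval
  have hfac : (0 : ℝ) ≤ (r.factorial : ℝ) := by positivity
  have halg : ∀ v, IsAlgebraic ℚ (cc n N M b a v) := fun v =>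
    alg_of_nondeg L hx.2 hcrit (fun w hw hw0 => hneg _ hx hxμ w hw hw0) v
  refine ⟨b, a, ⟨?_, ?_⟩, ⟨?_, ⟨cc n N M b a, hx, ?_⟩⟩, hfpos, ?_, ?_, ?_⟩
  · rw [← C23_sum_cc]
    exact hx.2
  · refine ⟨dlag L (cc n N M b a) (Sum.inl ⟨0, by omega⟩), ?_, ?_⟩
    · intro o
      rw [← dlag_PP_inl hr hN b a o]
      exact hcrit _ _
    · intro u
      rw [← dlag_PP_inr hr hn hN hdiv b a u]
      exact hcrit _ _
  · intro z hz
    rw [← hf]
    exact mul_le_mul_of_nonneg_left ((hxsmax' z hz).trans hle) hfac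
  · rw [hf]
  · rw [mul_div_assoc, ← hf]
    exact mul_le_mul_of_nonneg_left hxval.le hfac
  · exact halg (Sum.inl ⟨0, by omega⟩)
  · intro i hi
    exact halg (Sum.inr ⟨⟨i, by omega⟩, 0⟩)

end CT
end

section

/-!
# Theorem A

Proof.  `F := FF r m W G` transported to `Fin s`, `s = card (FV r m W)`; `density_of_bounds` with `copies_of_homs`, `FF_hom`, `rich_time`,
`lower_bound`, `InS_of_hom`, `FF_not_InS`.
-/

set_option autoImplicit false

open Finset

namespace CT

theorem theoremA {W : Type} [Fintype W] [DecidableEq W] {r : ℕ} (hr : 3 ≤ r) {y : ℝ} {G : Finset (Finset W)}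
    (hG : Good r y G) (hy : 0 < y) (hy1 : y ≤ 1) :
    ∃ (s : ℕ) (F : Finset (Finset (Fin s))), Unif (r + 1) F ∧ IsCodegDensity (r + 1) F (y / (1 + y)) := by
  have : NeZero r := ⟨by omega⟩
  obtain ⟨m, hm, hrich⟩ := rich_time hr hG hy hy1
  have hd : 0 ≤ y / (1 + y) := by positivity
  set d : ℝ := y / (1 + y) with hdd
  let e : FV r m W ≃ Fin (Fintype.card (FV r m W)) := Fintype.equivFin (FV r m W)
  have hU0 : Unif (r + 1) (FF r m W G) := FF_unif hG.unif
  have hhom : ∀ ε : ℝ, 0 < ε → ∃ n0 : ℕ, ∀ (V : Type) [Fintype V] [DecidableEq V], n0 ≤ Fintype.card V →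
      ∀ H : Finset (Finset V), Unif (r + 1) H → MinCo r H ((d + ε) * (Fintype.card V : ℝ)) →
        HomTo (FF r m W G) H := by
    intro ε hε
    obtain ⟨n0, hn0⟩ := hrich ε hε
    refine ⟨max n0 (max (2 * r - 1) ⌈(r : ℝ) / ε⌉₊), ?_⟩
    intro V _ _ hV H hH hc
    have h1 : n0 ≤ Fintype.card V := le_trans (le_max_left _ _) hV
    have h2 : 2 * r - 1 ≤ Fintype.card V :=
      le_trans (le_trans (le_max_left _ _) (le_max_right _ _)) hV
    have h3 : ⌈(r : ℝ) / ε⌉₊ ≤ Fintype.card V :=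
      le_trans (le_trans (le_max_right _ _) (le_max_right _ _)) hV
    have h4 : (r : ℝ) ≤ (d + ε) * (Fintype.card V : ℝ) := by
      have h5 : (r : ℝ) / ε ≤ (Fintype.card V : ℝ) := le_trans (Nat.le_ceil _) (by exact_mod_cast h3)
      have h6 : (r : ℝ) ≤ (Fintype.card V : ℝ) * ε := (div_le_iff₀ hε).1 h5
      have h7 : 0 ≤ d * (Fintype.card V : ℝ) := mul_nonneg hd (Nat.cast_nonneg _)
      nlinarith
    exact FF_hom (by omega) h2 (fun S hS => le_trans h4 (hc S hS)) (hn0 V h1 H hH hc)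
  refine ⟨Fintype.card (FV r m W), (FF r m W G).image (fun a => a.image e), ?_, ?_⟩
  · intro a ha
    obtain ⟨b, hb, rfl⟩ := mem_image.1 ha
    rw [card_image_of_injective _ e.injective]
    exact hU0 b hb
  · apply density_of_bounds r _ _ d hd
    · intro ε hε
      obtain ⟨n0, hn0⟩ := copies_of_homs r (FF r m W G) hU0 d hd hhom ε hε
      refine ⟨n0, ?_⟩
      intro n hn H hH hc
      obtain ⟨φ, hφi, hφ⟩ := hn0 (Fin n) (by rw [Fintype.card_fin]; exact hn) H hH
        (by rw [Fintype.card_fin]; exact hc)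
      refine ⟨fun x => φ (e.symm x), hφi.comp e.symm.injective, ?_⟩
      intro a ha
      obtain ⟨b, hb, rfl⟩ := mem_image.1 ha
      have h8 : (b.image e).image (fun x => φ (e.symm x)) = b.image φ := by
        rw [image_image]
        congr 1
        funext x
        simp
      rw [h8]
      exact hφ b hb
    · intro ε hε
      obtain ⟨n0, hn0⟩ := lower_bound (by omega) hG hy hy1 ε hε
      refine ⟨n0, ?_⟩
      intro n hn
      obtain ⟨H, hH, hS, hc⟩ := hn0 n hn
      refine ⟨H, hH, hc, ?_⟩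
      rintro ⟨φ, _, hφ⟩
      have h9 : HomTo (FF r m W G) H := by
        refine ⟨fun x => φ (e x), ?_⟩
        intro b hb
        have h10 : b.image (fun x => φ (e x)) = (b.image e).image φ := by
          rw [image_image]
          rfl
        rw [h10]
        exact hφ _ (mem_image.2 ⟨b, hb, rfl⟩)
      exact FF_not_InS (by omega) hm hG.ne (InS_of_hom h9 hS)

end CT
end

section

/-!
# Codegree Turan densities of unbounded algebraic degree for every `k ≥ 4` (MP_63f67f_co)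
-/

set_option autoImplicit false

open Finset

namespace CT

theorem card_PV (n : ℕ) (N : ℕ → ℕ) (M : ℕ) :
    Fintype.card (PV n N M) = M + ∑ i ∈ range (n + 1), N i := by
  rw [Fintype.card_sum, Fintype.card_sigma, Fintype.card_fin, Finset.sum_range]
  simp

theorem main (k : ℕ) (hk : 4 ≤ k) (D : ℕ) :
    ∃ (s : ℕ) (F : Finset (Finset (Fin s))), Unif k F ∧
      ∃ γ : ℝ, IsCodegDensity k F γ ∧ IsAlgebraic ℚ γ ∧ D ≤ (minpoly ℚ γ).natDegree := by
  obtain ⟨r, rfl⟩ : ∃ r, k = r + 1 := ⟨k - 1, by omega⟩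
  have hr : 3 ≤ r := by omega
  set n : ℕ := D + 1 with hn_def
  have hn : 1 ≤ n := by omega
  have hDn : D ≤ (r - 1) ^ n := by
    calc D ≤ n := by omega
      _ ≤ 2 ^ n := Nat.lt_two_pow_self.le
      _ ≤ (r - 1) ^ n := Nat.pow_le_pow_left (by omega) n
  obtain ⟨p, hpr, hp⟩ := Nat.exists_infinite_primes (r + 1)
  have hrp : r < p := by omega
  haveI : Fact p.Prime := ⟨hp⟩
  have hp0 : 0 < p := hp.pos
  have hN0 : ∀ i, 0 < Nx r n p i := fun i => pow_pos hp0 _
  haveI : ∀ i, NeZero (Nx r n p i) := fun i => ⟨(hN0 i).ne'⟩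
  have hdiv : ∀ i, Nx r n p i ∣ Nx r n p (i + 1) := fun i =>
    pow_dvd_pow p (by simp only [sx]; omega)
  have hs0 : 2 ≤ s0 r n := by
    have h8 : 1 ≤ k0 n := by
      unfold k0
      have := Nat.one_le_two_pow (n := n)
      omega
    unfold s0
    nlinarith
  have hN : r + p ≤ Nx r n p 0 := by
    have h1 : p ^ 2 ≤ Nx r n p 0 := Nat.pow_le_pow_right hp0 (by simpa [sx] using hs0)
    nlinarith
  obtain ⟨M0, hM0⟩ := real_main r n p hr hn (Nx r n p) hN hdiv
  set Sg : ℕ := ∑ i ∈ range (n + 1), Nx r n p i with hSg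
  set t : ℕ := M0 + 1 + Sg with ht
  have hq : 1 ≤ p ^ (2 * s0 r n) := Nat.one_le_pow _ _ hp0
  set M : ℕ := (r - 1) + p ^ (2 * s0 r n) * t - Sg with hM
  have hqt : t ≤ p ^ (2 * s0 r n) * t := Nat.le_mul_of_pos_left t (by omega)
  have hMge : M0 + 1 ≤ M := by omega
  have hcard : Fintype.card (PV n (Nx r n p) M) = (r - 1) + p ^ (2 * s0 r n) * t := by
    rw [card_PV, ← hSg]
    omega
  obtain ⟨hrM, b, a, hSol, hLAM, hpos, hnear, hb, ha⟩ := hM0 M (by omega)
  have hPar : Par r n p M :=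
    { hr := hr, hn := hn, hp := hrp, prime := hp, hM := by omega,
      hcard := by rw [hcard]; omega
      hdvd := by
        rw [hcard, Nat.add_sub_cancel_left]
        exact dvd_mul_right _ _ }
  set y : ℝ := (r.factorial : ℝ) * fval r n p (Nx r n p) M b a with hy
  have hfac : (0 : ℝ) < (r.factorial : ℝ) := by exact_mod_cast Nat.factorial_pos r
  have hy0 : 0 < y := mul_pos hfac hpos
  have hy1 : y ≤ 1 := LAM_le_one unif_PP hLAM
  have hgood : Good r y (GG r (PP r n p (Nx r n p) M)) :=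
    pattern_good hr hPar.hcard unif_PP (PP_ne hr hn hN) hLAM hnear
  obtain ⟨s, F, hF, hden⟩ := theoremA hr hgood hy0 hy1
  obtain ⟨halg, hdeg⟩ := padic_main hPar hSol hb ha hpos
  exact ⟨s, F, hF, y / (1 + y), hden, halg, hDn.trans hdeg⟩

end CT
end
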